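import Pool.Agent.Lib_MP_36b788x.XD

/-!
# The martingale part at dyadic times

PROOF. `u = i hm m`, `v = j hm m`. At level `m + r`: `u = i' h`, `v = j' h`, `i' = 2^r i`, `j' = 2^r j`, `h = hm (m+r)`, `A = ac h`. `ac_step_eq` summed:
`A_{j'} - A_{i'} = S + Σ h g_n`, `S = Σ_{n ∈ [i', j')} mulv ΔB_n A_n`. `E‖Σ (h g_n - ∫_{nh}^{(n+1)h} drf)‖² ≤ (j'-i')² δ h² ≤ δ T²` (`drf_app`), `conv`: so `S → Mt u v` in `L²` as `r → ∞`
(`Mt u v = (H v - A_{j'}) - (H u - A_{i'}) + S + Σ(h g_n - ∫)`).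
* third claim: `E⟪Z, S⟫ = 0` (`mulv_sq`), limit.
* second claim: `S - mulv (B_v - B_u) A_{i'} = Σ mulv ΔB_n (A_n - A_{i'})` (`mulv_add_left`, telescoping), orthogonal terms: `E‖.‖² = Σ N h E‖A_n - A_{i'}‖² ≤ N Σ h √C (n-i') h ≤ C (v-u)²`
  (`ac_inc`, Cauchy-Schwarz). One may use `rsum_sq` for `zero_dyn` with `V r x = A_{⌊r/h⌋₊} x - A_{i'} x` and `n = j'-i'` intervals of `[u,v]`. And `mulv(B_v - B_u) A_{i'} → mulv(B_v - B_u)(H u)` in `L²`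
  (`mulv_sq`, `conv`). Limit.
* `MemLp`: `H v`, `H u`, `drf_mem`.
-/

open MeasureTheory ProbabilityTheory Filter Dyn
open scoped NNReal ENNReal Topology

namespace DynX

variable {Ω : Type} [mΩ : MeasurableSpace Ω] {P : Measure Ω} {N d : ℕ}
    {ℱ : Filtration ℝ≥0 mΩ} {B : Site d → Fin N → Fin N → ℝ≥0 → Ω → ℝ}
    {H0 : Site d → Ω → E N} {k ε β : ℝ} {H : ℝ≥0 → Site d → Ω → E N}

/-! ## Generalities on square integrable functions -/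

private lemma XA_int_sq {f : Ω → E N} (hf : MemLp f 2 P) : Integrable (fun ω => ‖f ω‖ ^ 2) P :=
  hf.integrable_norm_pow (by norm_num)

private lemma XA_wt {f g : Ω → E N} (hf : MemLp f 2 P) (hg : MemLp g 2 P) (θ : ℝ) (hθ : 0 < θ) :
    ∫ ω, ‖f ω + g ω‖ ^ 2 ∂P ≤
      (1 + θ) * ∫ ω, ‖f ω‖ ^ 2 ∂P + (1 + 1 / θ) * ∫ ω, ‖g ω‖ ^ 2 ∂P := by
  rw [← integral_const_mul, ← integral_const_mul, ← integral_add
    ((XA_int_sq hf).const_mul _) ((XA_int_sq hg).const_mul _)]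
  refine integral_mono (XA_int_sq (hf.add hg)) (((XA_int_sq hf).const_mul _).add
    ((XA_int_sq hg).const_mul _)) fun ω => ?_
  have h := norm_add_le (f ω) (g ω)
  have h0 := norm_nonneg (f ω + g ω)
  have h1 : ‖f ω + g ω‖ ^ 2 ≤ (‖f ω‖ + ‖g ω‖) ^ 2 := pow_le_pow_left₀ h0 h 2
  have h2 : 0 ≤ (θ * ‖f ω‖ - ‖g ω‖) ^ 2 / θ := by positivity
  have h3 : (θ * ‖f ω‖ - ‖g ω‖) ^ 2 / θ =
      θ * ‖f ω‖ ^ 2 + 1 / θ * ‖g ω‖ ^ 2 - 2 * (‖f ω‖ * ‖g ω‖) := by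
    field_simp
    ring
  show ‖f ω + g ω‖ ^ 2 ≤ (1 + θ) * ‖f ω‖ ^ 2 + (1 + 1 / θ) * ‖g ω‖ ^ 2
  nlinarith [h1, h2, h3]

private lemma XA_sum {f : ℕ → Ω → E N} {c : ℝ} (n : ℕ) (hf : ∀ l < n, MemLp (f l) 2 P)
    (hc : ∀ l < n, ∫ ω, ‖f l ω‖ ^ 2 ∂P ≤ c) :
    MemLp (fun ω => ∑ l ∈ Finset.range n, f l ω) 2 P ∧
    ∫ ω, ‖∑ l ∈ Finset.range n, f l ω‖ ^ 2 ∂P ≤ (n : ℝ) ^ 2 * c := by
  have hm : MemLp (fun ω => ∑ l ∈ Finset.range n, f l ω) 2 P :=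
    memLp_finsetSum _ fun l hl => hf l (Finset.mem_range.1 hl)
  refine ⟨hm, ?_⟩
  have h1 : ∀ ω, ‖∑ l ∈ Finset.range n, f l ω‖ ^ 2 ≤ n * ∑ l ∈ Finset.range n, ‖f l ω‖ ^ 2 := by
    intro ω
    have h2 := norm_sum_le (Finset.range n) (fun l => f l ω)
    have h3 := sq_sum_le_card_mul_sum_sq (s := Finset.range n) (f := fun l => ‖f l ω‖)
    rw [Finset.card_range] at h3
    exact (pow_le_pow_left₀ (norm_nonneg _) h2 2).trans h3
  have hi : Integrable (fun ω => n * ∑ l ∈ Finset.range n, ‖f l ω‖ ^ 2) P :=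
    (integrable_finsetSum _ fun l hl => XA_int_sq (hf l (Finset.mem_range.1 hl))).const_mul _
  refine (integral_mono (XA_int_sq hm) hi h1).trans ?_
  rw [integral_const_mul, integral_finsetSum _ fun l hl => XA_int_sq (hf l (Finset.mem_range.1 hl))]
  have h4 : ∑ l ∈ Finset.range n, ∫ ω, ‖f l ω‖ ^ 2 ∂P ≤ n * c := by
    refine (Finset.sum_le_sum fun l hl => hc l (Finset.mem_range.1 hl)).trans ?_
    rw [Finset.sum_const, Finset.card_range, nsmul_eq_mul]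
  have h5 := mul_le_mul_of_nonneg_left h4 (Nat.cast_nonneg (α := ℝ) n)
  nlinarith [h5]

private lemma XA_sq_le [IsProbabilityMeasure P] {f : Ω → E N} (h2 : Integrable (fun ω => ‖f ω‖ ^ 2) P)
    (h4 : Integrable (fun ω => ‖f ω‖ ^ 4) P) {c : ℝ} (hc : 0 ≤ c)
    (h : ∫ ω, ‖f ω‖ ^ 4 ∂P ≤ c ^ 2) : ∫ ω, ‖f ω‖ ^ 2 ∂P ≤ c := by
  obtain ⟨a, ha⟩ : ∃ a, a = ∫ ω, ‖f ω‖ ^ 2 ∂P := ⟨_, rfl⟩
  rw [← ha]
  have h0 : 0 ≤ ∫ ω, (‖f ω‖ ^ 2 - a) ^ 2 ∂P := integral_nonneg fun ω => sq_nonneg _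
  have h1 : (fun ω => (‖f ω‖ ^ 2 - a) ^ 2) = fun ω => (‖f ω‖ ^ 4 - 2 * a * ‖f ω‖ ^ 2) + a ^ 2 := by
    funext ω
    ring
  have i2 : Integrable (fun ω => 2 * a * ‖f ω‖ ^ 2) P := h2.const_mul _
  have e1 : ∫ ω, ((‖f ω‖ ^ 4 - 2 * a * ‖f ω‖ ^ 2) + a ^ 2) ∂P =
      (∫ ω, (‖f ω‖ ^ 4 - 2 * a * ‖f ω‖ ^ 2) ∂P) + ∫ _ω, a ^ 2 ∂P :=
    integral_add (f := fun ω => ‖f ω‖ ^ 4 - 2 * a * ‖f ω‖ ^ 2) (h4.sub i2) (integrable_const _)
  have e2 : ∫ ω, (‖f ω‖ ^ 4 - 2 * a * ‖f ω‖ ^ 2) ∂P =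
      (∫ ω, ‖f ω‖ ^ 4 ∂P) - 2 * a * ∫ ω, ‖f ω‖ ^ 2 ∂P := by
    rw [integral_sub h4 i2, integral_const_mul]
  have e3 : ∫ _ω : Ω, a ^ 2 ∂P = a ^ 2 := by
    rw [integral_const, probReal_univ, one_smul]
  rw [h1, e1, e2, e3, ← ha] at h0
  have h5 : a ^ 2 ≤ c ^ 2 := by nlinarith
  exact (abs_le_of_sq_le_sq' h5 hc).2

private lemma XA_inner {Z f : Ω → E N} (hZ : MemLp Z 2 P) (hf : MemLp f 2 P) :
    Integrable (fun ω => inner ℝ (Z ω) (f ω)) P := by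
  have h1 : Integrable (fun ω => ‖Z ω‖ * ‖f ω‖) P := hZ.norm.integrable_mul hf.norm
  refine h1.mono' (hZ.1.inner hf.1) (Filter.Eventually.of_forall fun ω => ?_)
  exact norm_inner_le_norm _ _

private lemma XA_inner_le {Z f : Ω → E N} (hZ : MemLp Z 2 P) (hf : MemLp f 2 P) (θ : ℝ)
    (hθ : 0 < θ) : 2 * |∫ ω, inner ℝ (Z ω) (f ω) ∂P| ≤
      θ * ∫ ω, ‖Z ω‖ ^ 2 ∂P + 1 / θ * ∫ ω, ‖f ω‖ ^ 2 ∂P := by
  have h1 : |∫ ω, inner ℝ (Z ω) (f ω) ∂P| ≤ ∫ ω, ‖Z ω‖ * ‖f ω‖ ∂P := by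
    rw [← Real.norm_eq_abs]
    refine norm_integral_le_of_norm_le (hZ.norm.integrable_mul hf.norm)
      (Filter.Eventually.of_forall fun ω => ?_)
    exact norm_inner_le_norm _ _
  have h2 : 2 * ∫ ω, ‖Z ω‖ * ‖f ω‖ ∂P ≤
      θ * ∫ ω, ‖Z ω‖ ^ 2 ∂P + 1 / θ * ∫ ω, ‖f ω‖ ^ 2 ∂P := by
    rw [← integral_const_mul, ← integral_const_mul, ← integral_const_mul, ← integral_add
      ((XA_int_sq hZ).const_mul _) ((XA_int_sq hf).const_mul _)]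
    refine integral_mono ((hZ.norm.integrable_mul hf.norm).const_mul _)
      (((XA_int_sq hZ).const_mul _).add ((XA_int_sq hf).const_mul _)) fun ω => ?_
    have h2 : 0 ≤ (θ * ‖Z ω‖ - ‖f ω‖) ^ 2 / θ := by positivity
    have h3 : (θ * ‖Z ω‖ - ‖f ω‖) ^ 2 / θ =
        θ * ‖Z ω‖ ^ 2 + 1 / θ * ‖f ω‖ ^ 2 - 2 * (‖Z ω‖ * ‖f ω‖) := by
      field_simp
      ring
    show 2 * (‖Z ω‖ * ‖f ω‖) ≤ θ * ‖Z ω‖ ^ 2 + 1 / θ * ‖f ω‖ ^ 2
    linarith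
  linarith

/-! ## The dyadic grid -/

private lemma XA_hm_pos (m : ℕ) : 0 < hm m := by
  unfold hm
  positivity

private lemma XA_hm_le (m : ℕ) : hm m ≤ 1 := by
  unfold hm
  refine pow_le_one₀ (by positivity) ?_
  rw [← NNReal.coe_le_coe]
  push_cast
  norm_num

private lemma XA_hm_add (m r : ℕ) : hm m = 2 ^ r * hm (m + r) := by
  unfold hm
  rw [pow_add, mul_comm ((1 / 2 : ℝ≥0) ^ m), ← mul_assoc, ← mul_pow]
  have : (2 : ℝ≥0) * (1 / 2) = 1 := by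
    rw [← NNReal.coe_inj]
    push_cast
    norm_num
  rw [this, one_pow, one_mul]

private lemma XA_sqrt_hm (c η : ℝ) (hη : 0 < η) (n0 : ℕ) : ∃ r : ℕ, n0 ≤ r ∧ ∀ m : ℕ,
    c * Real.sqrt (hm (m + r)) ≤ η := by
  have h1 : Tendsto (fun m : ℕ => ((hm m : ℝ≥0) : ℝ)) atTop (𝓝 0) := by
    have : (fun m : ℕ => ((hm m : ℝ≥0) : ℝ)) = fun m => (1 / 2 : ℝ) ^ m := by
      funext m
      unfold hm
      push_cast
      rfl
    rw [this]
    exact tendsto_pow_atTop_nhds_zero_of_lt_one (by norm_num) (by norm_num)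
  have h2 : Tendsto (fun m : ℕ => c * Real.sqrt (hm m)) atTop (𝓝 0) := by
    have := ((Real.continuous_sqrt.tendsto 0).comp h1).const_mul c
    simpa using this
  obtain ⟨n1, hn1⟩ := eventually_atTop.1 (h2.eventually (gt_mem_nhds hη))
  exact ⟨max n0 n1, le_max_left _ _, fun m =>
    (hn1 _ ((le_max_right _ _).trans (Nat.le_add_left _ _))).le⟩

omit mΩ in
/-- the Riemann sum of a step function on its own grid -/
private lemma XA_rsum (h : ℝ≥0) (hh : 0 < h) (i n : ℕ) (hn : 0 < n)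
    (A : ℕ → Site d → Ω → E N) (x : Site d) (ω : Ω) :
    rsum B (fun r y ω => A ⌊r / h⌋₊ y ω) x ((i : ℝ≥0) * h) (((i + n : ℕ) : ℝ≥0) * h) n ω =
      ∑ l ∈ Finset.range n, mulv (fun a b => B x a b ((((i + l : ℕ) : ℝ≥0) + 1) * h) ω -
        B x a b (((i + l : ℕ) : ℝ≥0) * h) ω) (A (i + l) x ω) := by
  have hn0 : (n : ℝ≥0) ≠ 0 := by exact_mod_cast hn.ne'
  have hd : ((((i + n : ℕ) : ℝ≥0) * h) - (i : ℝ≥0) * h) / n = h := by
    have : (((i + n : ℕ) : ℝ≥0) * h) - (i : ℝ≥0) * h = n * h := by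
      push_cast
      rw [add_mul, add_tsub_cancel_left]
    rw [this, mul_div_cancel_left₀ _ hn0]
  unfold rsum
  refine Finset.sum_congr rfl fun l _ => ?_
  rw [hd]
  have e1 : (i : ℝ≥0) * h + ((l : ℝ≥0) + 1) * h = (((i + l : ℕ) : ℝ≥0) + 1) * h := by
    push_cast
    ring
  have e2 : (i : ℝ≥0) * h + (l : ℝ≥0) * h = ((i + l : ℕ) : ℝ≥0) * h := by
    push_cast
    ring
  have e3 : ⌊((i + l : ℕ) : ℝ≥0) * h / h⌋₊ = i + l := by
    rw [mul_div_cancel_right₀ _ hh.ne', Nat.floor_natCast]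
  rw [e1, e2]
  beta_reduce
  rw [e3]

/-- the chain as a step function -/
private noncomputable def XV {Ω : Type} {N d : ℕ} (k ε β : ℝ) (h : ℝ≥0)
    (B : Site d → Fin N → Fin N → ℝ≥0 → Ω → ℝ) (H0 : Site d → Ω → E N) (r : ℝ≥0) (y : Site d)
    (ω : Ω) : E N := ac k ε β h B H0 ⌊r / h⌋₊ ω y

private lemma XA_floor (h r : ℝ≥0) (hh : 0 < h) : (⌊r / h⌋₊ : ℝ≥0) * h ≤ r :=
  (le_div_iff₀ hh).1 (Nat.floor_le zero_le)

private lemma XA_Hmem (hN : Noise P ℱ B H0) (hL : IsLim P k ε β ℱ B H0 H) (t : ℝ≥0) (x : Site d) :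
    MemLp (H t x) 2 P := by
  have := hN.prob
  obtain ⟨C, hC⟩ := hL.mom 2 t
  exact (memLp_two_iff_integrable_sq_norm
    (((hL.adapted t x).mono (ℱ.le t) le_rfl).aestronglyMeasurable)).2 (hC t le_rfl x).1

private lemma XA_Amem (hN : Noise P ℱ B H0) (hβ : 0 < β) (hε : 0 < ε) (h : ℝ≥0) (n : ℕ)
    (x : Site d) : MemLp (fun ω => ac k ε β h B H0 n ω x) 2 P := by
  have := hN.prob
  exact (memLp_two_iff_integrable_sq_norm
    (((ac_meas hN hβ hε h n x).mono (ℱ.le _) le_rfl).aestronglyMeasurable)).2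
      (ac_mem hN hβ hε h n 2 x)

/-- the noise sum over a block of steps -/
private lemma XA_noise (hN : Noise P ℱ B H0) (hβ : 0 < β) (hε : 0 < ε) (hk : 0 ≤ k) (T : ℝ≥0)
    (Ci : ℝ) (hCi0 : 0 ≤ Ci)
    (hCi : ∀ h : ℝ≥0, h ≤ 1 → ∀ n m : ℕ, n ≤ m → m * h ≤ T → ∀ x : Site d,
      ∫ ω, ‖ac k ε β h B H0 m ω x - ac k ε β h B H0 n ω x‖ ^ 4 ∂P ≤ Ci * (((m : ℝ) - n) * h) ^ 2)
    (h : ℝ≥0) (hh : 0 < h) (hh1 : h ≤ 1) (i n : ℕ) (hn : 0 < n) (hT : ((i + n : ℕ) : ℝ≥0) * h ≤ T)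
    (x : Site d) (S : Ω → E N)
    (hS : S = fun ω => ∑ l ∈ Finset.range n, mulv (fun a b => B x a b ((((i + l : ℕ) : ℝ≥0) + 1) * h) ω -
        B x a b (((i + l : ℕ) : ℝ≥0) * h) ω) (ac k ε β h B H0 (i + l) ω x)) :
    MemLp S 2 P ∧
    ∫ ω, ‖S ω - mulv (fun a b => B x a b (((i + n : ℕ) : ℝ≥0) * h) ω - B x a b ((i : ℝ≥0) * h) ω)
      (ac k ε β h B H0 i ω x)‖ ^ 2 ∂P ≤ N * Real.sqrt Ci * ((n : ℝ) * h) ^ 2 ∧
    (∀ Z : Ω → E N, Measurable[ℱ ((i : ℝ≥0) * h)] Z → MemLp Z 2 P →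
      ∫ ω, inner ℝ (Z ω) (S ω) ∂P = 0) := by
  have := hN.prob
  have hz := zero_dyn hN k ε β
  obtain ⟨C2, hC20, hC2⟩ := ac_mom hN hβ hε hk 2 T
  obtain ⟨u, hu⟩ : ∃ u, u = (i : ℝ≥0) * h := ⟨_, rfl⟩
  obtain ⟨v, hv⟩ : ∃ v, v = ((i + n : ℕ) : ℝ≥0) * h := ⟨_, rfl⟩
  have huv : u ≤ v := by
    rw [hu, hv]
    refine mul_le_mul_left ?_ h
    exact_mod_cast Nat.le_add_right i n
  have hvu : (v : ℝ) - u = (n : ℝ) * h := by
    rw [hu, hv]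
    push_cast
    ring
  have hfu : ⌊u / h⌋₊ = i := by
    rw [hu, mul_div_cancel_right₀ _ hh.ne', Nat.floor_natCast]
  have hVm : ∀ r, Measurable[ℱ r] (XV k ε β h B H0 r x) := fun r =>
    (ac_meas hN hβ hε h ⌊r / h⌋₊ x).mono (ℱ.mono (XA_floor h r hh)) le_rfl
  have hVp : ∀ r, MemLp (XV k ε β h B H0 r x) 2 P := fun r => XA_Amem hN hβ hε h _ x
  have hSr : S = rsum B (XV k ε β h B H0) x u v n := by
    rw [hS]
    funext ω
    rw [hu, hv]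
    exact (XA_rsum h hh i n hn (fun q y ω => ac k ε β h B H0 q ω y) x ω).symm
  have h1 := rsum_sq hz (XV k ε β h B H0) x u v huv C2 (fun r hr1 hr2 =>
    ⟨hVm r, hVp r, hC2 h hh1 _ ((XA_floor h r hh).trans (hr2.trans (hv ▸ hT))) x⟩) n
  have h2 := rsum_sq hz (fun r y ω => XV k ε β h B H0 r y ω - XV k ε β h B H0 u y ω) x u v huv
    (Real.sqrt Ci * ((v : ℝ) - u)) (fun r hr1 hr2 => by
      refine ⟨(hVm r).sub ((hVm u).mono (ℱ.mono hr1) le_rfl), (hVp r).sub (hVp u), ?_⟩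
      have hir : i ≤ ⌊r / h⌋₊ := by
        rw [← hfu]
        exact Nat.floor_mono (div_le_div_of_nonneg_right hr1 zero_le)
      have hrT : (⌊r / h⌋₊ : ℝ≥0) * h ≤ T := (XA_floor h r hh).trans (hr2.trans (hv ▸ hT))
      have h3 := hCi h hh1 i ⌊r / h⌋₊ hir hrT x
      have h4 : (((⌊r / h⌋₊ : ℕ) : ℝ) - i) * h ≤ (v : ℝ) - u := by
        have h5 : ((⌊r / h⌋₊ : ℕ) : ℝ) * h ≤ v := by
          have := (XA_floor h r hh).trans hr2
          exact_mod_cast this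
        have h6 : (u : ℝ) = (i : ℝ) * h := by
          rw [hu]
          push_cast
          rfl
        rw [h6, sub_mul]
        linarith
      have h40 : 0 ≤ (((⌊r / h⌋₊ : ℕ) : ℝ) - i) * h := by
        have : (i : ℝ) ≤ ((⌊r / h⌋₊ : ℕ) : ℝ) := by exact_mod_cast hir
        exact mul_nonneg (sub_nonneg.2 this) h.2
      have hD := (hVp r).sub (hVp u)
      have hfu' : XV k ε β h B H0 u x = fun ω => ac k ε β h B H0 i ω x := by
        funext ω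
        unfold XV
        rw [hfu]
      have hi4 : Integrable (fun ω => ‖XV k ε β h B H0 r x ω - XV k ε β h B H0 u x ω‖ ^ 4) P := by
        have hd : MemLp (fun ω => XV k ε β h B H0 r x ω - XV k ε β h B H0 u x ω) 4 P := by
          have hA : ∀ q, MemLp (fun ω => ac k ε β h B H0 q ω x) 4 P := fun q => by
            have := ac_mem hN hβ hε h q 4 x (k := k)
            refine (integrable_norm_rpow_iff (p := 4)
              ((ac_meas hN hβ hε h q x).mono (ℱ.le _) le_rfl).aestronglyMeasurable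
              (by norm_num) (by norm_num)).1 ?_
            refine this.congr (Filter.Eventually.of_forall fun ω => ?_)
            show ‖ac k ε β h B H0 q ω x‖ ^ 4 = ‖ac k ε β h B H0 q ω x‖ ^ ((4 : ℝ≥0∞).toReal)
            rw [ENNReal.toReal_ofNat]
            exact (Real.rpow_ofNat _ 4).symm
          exact (hA _).sub (hA _)
        exact hd.integrable_norm_pow (by norm_num)
      refine (XA_sq_le (XA_int_sq hD) hi4 (c := Real.sqrt Ci * ((((⌊r / h⌋₊ : ℕ) : ℝ) - i) * h))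
        (mul_nonneg (Real.sqrt_nonneg _) h40) ?_).trans
        (mul_le_mul_of_nonneg_left h4 (Real.sqrt_nonneg _))
      rw [mul_pow, Real.sq_sqrt hCi0]
      refine le_trans (le_of_eq ?_) h3
      refine integral_congr_ae (Filter.Eventually.of_forall fun ω => ?_)
      show ‖XV k ε β h B H0 r x ω - XV k ε β h B H0 u x ω‖ ^ 4 = _
      rw [hfu']
      rfl) n
  refine ⟨hSr ▸ h1.1, ?_, ?_⟩
  · have h3 := h2.2.1
    have e : ∀ ω, rsum B (fun r y ω => XV k ε β h B H0 r y ω - XV k ε β h B H0 u y ω) x u v n ω =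
        S ω - mulv (fun a b => B x a b (((i + n : ℕ) : ℝ≥0) * h) ω - B x a b ((i : ℝ≥0) * h) ω)
          (ac k ε β h B H0 i ω x) := by
      intro ω
      rw [rsum_sub B (XV k ε β h B H0) x u v huv n hn ω, hSr, ← hu, ← hv]
      unfold XV
      rw [hfu]
    simp only [e] at h3
    refine h3.trans (le_of_eq ?_)
    rw [hvu]
    ring
  · intro Z hZ hZ2
    rw [hSr]
    refine h1.2.2 Z ?_ hZ2
    rw [hu]
    exact hZ

/-- approximation of the martingale part by the noise sum of a fine chain -/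
private lemma XA_core (hN : Noise P ℱ B H0) (hβ : 0 < β) (hε : 0 < ε) (hk : 0 ≤ k)
    (hL : IsLim P k ε β ℱ B H0 H) (T : ℝ≥0) (Ci : ℝ) (hCi0 : 0 ≤ Ci)
    (hCi : ∀ h : ℝ≥0, h ≤ 1 → ∀ n m : ℕ, n ≤ m → m * h ≤ T → ∀ x : Site d,
      ∫ ω, ‖ac k ε β h B H0 m ω x - ac k ε β h B H0 n ω x‖ ^ 4 ∂P ≤ Ci * (((m : ℝ) - n) * h) ^ 2)
    (m i j : ℕ) (hij : i < j) (hj : j * hm m ≤ T) (x : Site d) (η : ℝ) (hη : 0 < η) :
    ∃ S V : Ω → E N, MemLp S 2 P ∧ Measurable[ℱ (i * hm m)] V ∧ MemLp V 2 P ∧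
      MemLp (fun ω => Mt k ε β H (i * hm m) (j * hm m) x ω - S ω) 2 P ∧
      ∫ ω, ‖Mt k ε β H (i * hm m) (j * hm m) x ω - S ω‖ ^ 2 ∂P ≤ η ∧
      ∫ ω, ‖H (i * hm m) x ω - V ω‖ ^ 2 ∂P ≤ η ∧
      ∫ ω, ‖S ω - mulv (fun a b => B x a b (j * hm m) ω - B x a b (i * hm m) ω) (V ω)‖ ^ 2 ∂P ≤
        N * Real.sqrt Ci * (((j : ℝ) - i) * hm m) ^ 2 ∧
      ∀ Z : Ω → E N, Measurable[ℱ (i * hm m)] Z → MemLp Z 2 P →
        ∫ ω, inner ℝ (Z ω) (S ω) ∂P = 0 := by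
  have := hN.prob
  obtain ⟨Cc, hCc0, hCc⟩ := hL.conv T
  obtain ⟨D, hD⟩ : ∃ D : ℝ, D = (((j : ℝ) - i) * hm m) ^ 2 := ⟨_, rfl⟩
  have hD0 : 0 ≤ D := hD ▸ sq_nonneg _
  obtain ⟨m1, hm1⟩ := drf_app hN hβ hε hk hL T (η / (6 * (D + 1))) (by positivity)
  obtain ⟨CD, hCD0, hCD⟩ := drf_mem hN hβ hL T
  obtain ⟨r, hr1, hr2⟩ := XA_sqrt_hm Cc (η / 12) (by positivity) m1
  obtain ⟨h, hh⟩ : ∃ h, h = hm (m + r) := ⟨_, rfl⟩
  have hh0 : 0 < h := hh ▸ XA_hm_pos _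
  have hh1 : h ≤ 1 := hh ▸ XA_hm_le _
  have hmr : m1 ≤ m + r := hr1.trans (Nat.le_add_left _ _)
  obtain ⟨n, hn⟩ : ∃ n, 2 ^ r * j = 2 ^ r * i + n :=
    Nat.exists_eq_add_of_le (Nat.mul_le_mul_left _ hij.le)
  obtain ⟨i', hi'⟩ : ∃ i', i' = 2 ^ r * i := ⟨_, rfl⟩
  have hn0 : 0 < n := by
    have : 2 ^ r * i < 2 ^ r * j := Nat.mul_lt_mul_of_pos_left hij (by positivity)
    omega
  have hu : (i : ℝ≥0) * hm m = (i' : ℝ≥0) * h := by
    rw [hi', hh, XA_hm_add m r]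
    push_cast
    ring
  have hv : (j : ℝ≥0) * hm m = ((i' + n : ℕ) : ℝ≥0) * h := by
    rw [hi', ← hn, hh, XA_hm_add m r]
    push_cast
    ring
  have hnh : (n : ℝ) * h = ((j : ℝ) - i) * hm m := by
    have h1 : ((i : ℝ≥0) * hm m : ℝ≥0) = ((i' : ℝ≥0) * h : ℝ≥0) := hu
    have h2 : ((j : ℝ≥0) * hm m : ℝ≥0) = (((i' + n : ℕ) : ℝ≥0) * h : ℝ≥0) := hv
    have h3 : (i : ℝ) * hm m = (i' : ℝ) * h := by exact_mod_cast h1
    have h4 : (j : ℝ) * hm m = ((i' : ℝ) + n) * h := by exact_mod_cast h2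
    rw [sub_mul, h3, h4]
    ring
  rw [hv] at hj
  rw [hu, hv, ← hnh]
  have huT : (i' : ℝ≥0) * h ≤ T := by
    refine (mul_le_mul_left ?_ h).trans hj
    exact_mod_cast Nat.le_add_right i' n
  obtain ⟨S, hS⟩ : ∃ S : Ω → E N, S = fun ω => ∑ l ∈ Finset.range n,
      mulv (fun a b => B x a b ((((i' + l : ℕ) : ℝ≥0) + 1) * h) ω -
        B x a b (((i' + l : ℕ) : ℝ≥0) * h) ω) (ac k ε β h B H0 (i' + l) ω x) := ⟨_, rfl⟩
  have hno := XA_noise hN hβ hε hk T Ci hCi0 hCi h hh0 hh1 i' n hn0 hj x S hS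
  have hVm : MemLp (fun ω => ac k ε β h B H0 i' ω x) 2 P := XA_Amem hN hβ hε h i' x
  have hWm : MemLp (fun ω => ac k ε β h B H0 (i' + n) ω x) 2 P := XA_Amem hN hβ hε h (i' + n) x
  have hHu := XA_Hmem hN hL ((i' : ℝ≥0) * h) x
  have hHv := XA_Hmem hN hL (((i' + n : ℕ) : ℝ≥0) * h) x
  have hcu : ∫ ω, ‖H ((i' : ℝ≥0) * h) x ω - ac k ε β h B H0 i' ω x‖ ^ 2 ∂P ≤ η / 12 := by
    rw [hh] at huT ⊢
    exact (hCc (m + r) i' huT x).trans (hr2 m)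
  have hcv : ∫ ω, ‖H (((i' + n : ℕ) : ℝ≥0) * h) x ω - ac k ε β h B H0 (i' + n) ω x‖ ^ 2 ∂P ≤
      η / 12 := by
    rw [hh] at hj ⊢
    exact (hCc (m + r) (i' + n) hj x).trans (hr2 m)
  have hfl : ∀ l < n, MemLp (fun ω => (h : ℝ) • ag k ε β h B H0 (i' + l) ω x -
        ∫ r in ((((i' + l : ℕ) : ℝ≥0) * h : ℝ≥0) : ℝ)..(((((i' + l : ℕ) : ℝ≥0) + 1) * h : ℝ≥0) : ℝ),
          drf k ε β (fun y => H r.toNNReal y ω) x) 2 P ∧
      ∫ ω, ‖(h : ℝ) • ag k ε β h B H0 (i' + l) ω x -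
        ∫ r in ((((i' + l : ℕ) : ℝ≥0) * h : ℝ≥0) : ℝ)..(((((i' + l : ℕ) : ℝ≥0) + 1) * h : ℝ≥0) : ℝ),
          drf k ε β (fun y => H r.toNNReal y ω) x‖ ^ 2 ∂P ≤ η / (6 * (D + 1)) * (h : ℝ) ^ 2 := by
    intro l hl
    have h1 : (((i' + l : ℕ) : ℝ≥0) + 1) * hm (m + r) ≤ T := by
      rw [← hh]
      refine (mul_le_mul_left ?_ h).trans hj
      have : i' + l + 1 ≤ i' + n := by omega
      exact_mod_cast this
    have h2 := hm1 (m + r) hmr (i' + l) h1 x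
    rw [← hh] at h2
    exact h2
  have hsum := XA_sum n (fun l hl => (hfl l hl).1) (fun l hl => (hfl l hl).2)
  have hae : (fun ω => Mt k ε β H ((i' : ℝ≥0) * h) (((i' + n : ℕ) : ℝ≥0) * h) x ω - S ω) =ᵐ[P]
      fun ω => ((H (((i' + n : ℕ) : ℝ≥0) * h) x ω - ac k ε β h B H0 (i' + n) ω x) -
        (H ((i' : ℝ≥0) * h) x ω - ac k ε β h B H0 i' ω x)) +
        ∑ l ∈ Finset.range n, ((h : ℝ) • ag k ε β h B H0 (i' + l) ω x -
        ∫ r in ((((i' + l : ℕ) : ℝ≥0) * h : ℝ≥0) : ℝ)..(((((i' + l : ℕ) : ℝ≥0) + 1) * h : ℝ≥0) : ℝ),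
          drf k ε β (fun y => H r.toNNReal y ω) x) := by
    filter_upwards [(hCD x).2.1] with ω hω
    have hc : Continuous (fun r : ℝ => drf k ε β (fun y => H r.toNNReal y ω) x) :=
      hω.comp continuous_real_toNNReal
    have e1 : ∑ l ∈ Finset.range n,
        (∫ r in ((((i' + l : ℕ) : ℝ≥0) * h : ℝ≥0) : ℝ)..(((((i' + l : ℕ) : ℝ≥0) + 1) * h : ℝ≥0) : ℝ),
          drf k ε β (fun y => H r.toNNReal y ω) x) =
        ∫ r in (((i' : ℝ≥0) * h : ℝ≥0) : ℝ)..((((i' + n : ℕ) : ℝ≥0) * h : ℝ≥0) : ℝ),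
          drf k ε β (fun y => H r.toNNReal y ω) x := by
      have h1 := intervalIntegral.sum_integral_adjacent_intervals (μ := volume)
        (f := fun r : ℝ => drf k ε β (fun y => H r.toNNReal y ω) x)
        (a := fun l : ℕ => ((((i' + l : ℕ) : ℝ≥0) * h : ℝ≥0) : ℝ)) (n := n)
        (fun l _ => hc.intervalIntegrable _ _)
      rw [Nat.add_zero] at h1
      rw [← h1]
      refine Finset.sum_congr rfl fun l _ => ?_
      have h2 : (((((i' + l : ℕ) : ℝ≥0) + 1) * h : ℝ≥0) : ℝ) =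
          ((((i' + (l + 1) : ℕ) : ℝ≥0) * h : ℝ≥0) : ℝ) := by
        push_cast
        ring
      rw [h2]
    have e2 : ac k ε β h B H0 (i' + n) ω x - ac k ε β h B H0 i' ω x = S ω +
        ∑ l ∈ Finset.range n, (h : ℝ) • ag k ε β h B H0 (i' + l) ω x := by
      have h1 := Finset.sum_range_sub (fun l => ac k ε β h B H0 (i' + l) ω x) n
      rw [Nat.add_zero] at h1
      rw [← h1, hS, ← Finset.sum_add_distrib]
      refine Finset.sum_congr rfl fun l _ => ?_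
      have h2 := ac_step_eq (k := k) (B := B) (H0 := H0) hβ hε h (i' + l) ω x
      rw [← Nat.add_assoc, h2]
      abel
    rw [Finset.sum_sub_distrib, e1]
    unfold Mt
    have e3 : ∑ l ∈ Finset.range n, (h : ℝ) • ag k ε β h B H0 (i' + l) ω x =
        ac k ε β h B H0 (i' + n) ω x - ac k ε β h B H0 i' ω x - S ω := by
      rw [e2]
      abel
    rw [e3]
    abel
  have ha : MemLp (fun ω => H (((i' + n : ℕ) : ℝ≥0) * h) x ω - ac k ε β h B H0 (i' + n) ω x) 2 P :=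
    hHv.sub hWm
  have hb : MemLp (fun ω => H ((i' : ℝ≥0) * h) x ω - ac k ε β h B H0 i' ω x) 2 P :=
    hHu.sub hVm
  have hab := ha.sub hb
  refine ⟨S, fun ω => ac k ε β h B H0 i' ω x, hno.1, ac_meas hN hβ hε h i' x, hVm,
    (hab.add hsum.1).ae_eq hae.symm, ?_, hcu.trans (by linarith), hno.2.1, hno.2.2⟩
  have e1 : ∫ ω, ‖Mt k ε β H ((i' : ℝ≥0) * h) (((i' + n : ℕ) : ℝ≥0) * h) x ω - S ω‖ ^ 2 ∂P =
      ∫ ω, ‖((H (((i' + n : ℕ) : ℝ≥0) * h) x ω - ac k ε β h B H0 (i' + n) ω x) -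
        (H ((i' : ℝ≥0) * h) x ω - ac k ε β h B H0 i' ω x)) +
        ∑ l ∈ Finset.range n, ((h : ℝ) • ag k ε β h B H0 (i' + l) ω x -
        ∫ r in ((((i' + l : ℕ) : ℝ≥0) * h : ℝ≥0) : ℝ)..(((((i' + l : ℕ) : ℝ≥0) + 1) * h : ℝ≥0) : ℝ),
          drf k ε β (fun y => H r.toNNReal y ω) x)‖ ^ 2 ∂P := by
    refine integral_congr_ae ?_
    filter_upwards [hae] with ω hω
    rw [hω]
  rw [e1]
  refine (XA_wt hab hsum.1 1 one_pos).trans ?_
  have h1 : ∫ ω, ‖(H (((i' + n : ℕ) : ℝ≥0) * h) x ω - ac k ε β h B H0 (i' + n) ω x) -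
        (H ((i' : ℝ≥0) * h) x ω - ac k ε β h B H0 i' ω x)‖ ^ 2 ∂P ≤ η / 3 := by
    have h2 := XA_wt ha hb.neg 1 one_pos
    simp only [Pi.neg_apply, norm_neg, ← sub_eq_add_neg] at h2
    linarith
  have h3 : (n : ℝ) ^ 2 * (η / (6 * (D + 1)) * (h : ℝ) ^ 2) ≤ η / 6 := by
    have h4 : (n : ℝ) ^ 2 * (η / (6 * (D + 1)) * (h : ℝ) ^ 2) = D * (η / (6 * (D + 1))) := by
      rw [hD, ← hnh]
      ring
    rw [h4]
    have h5 : η / 6 - D * (η / (6 * (D + 1))) = η / (6 * (D + 1)) := by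
      field_simp
      ring
    have h6 : 0 ≤ η / (6 * (D + 1)) := by positivity
    linarith
  have h7 := hsum.2.trans h3
  have h8 : ∫ ω, ‖((fun ω => H (((i' + n : ℕ) : ℝ≥0) * h) x ω - ac k ε β h B H0 (i' + n) ω x) -
        (fun ω => H ((i' : ℝ≥0) * h) x ω - ac k ε β h B H0 i' ω x)) ω‖ ^ 2 ∂P ≤ η / 3 := h1
  linarith

theorem mart_dyadic (hN : Noise P ℱ B H0) (hβ : 0 < β) (hε : 0 < ε) (hk : 0 ≤ k)
    (hL : IsLim P k ε β ℱ B H0 H) (T : ℝ≥0) : ∃ C : ℝ, 0 ≤ C ∧ ∀ m i j : ℕ, i ≤ j →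
    j * hm m ≤ T → ∀ x : Site d,
      MemLp (Mt k ε β H (i * hm m) (j * hm m) x) 2 P ∧
      ∫ ω, ‖Mt k ε β H (i * hm m) (j * hm m) x ω -
          mulv (fun a b => B x a b (j * hm m) ω - B x a b (i * hm m) ω)
            (H (i * hm m) x ω)‖ ^ 2 ∂P ≤ C * (((j : ℝ) - i) * hm m) ^ 2 ∧
      ∀ Z : Ω → E N, Measurable[ℱ (i * hm m)] Z → MemLp Z 2 P →
        ∫ ω, inner ℝ (Z ω) (Mt k ε β H (i * hm m) (j * hm m) x ω) ∂P = 0 := by
  have := hN.prob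
  obtain ⟨Ci, hCi0, hCi⟩ := ac_inc hN hβ hε hk T
  refine ⟨N * Real.sqrt Ci, by positivity, fun m i j hij hj x => ?_⟩
  have hz := zero_dyn hN k ε β
  have hHu := XA_Hmem hN hL (i * hm m) x
  have hHum := hL.adapted (i * hm m) x
  rcases hij.eq_or_lt with rfl | hlt
  · have e : Mt k ε β H (i * hm m) (i * hm m) x = fun _ => (0 : E N) := by
      funext ω
      unfold Mt
      simp
    have e0 : ∀ v : E N, mulv (fun _ _ => (0 : ℝ)) v = 0 := by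
      intro v
      unfold mulv
      ext a
      simp
    rw [e]
    refine ⟨MemLp.zero', ?_, ?_⟩
    · simp [e0]
    · intro Z _ _
      simp
  have huv : (i : ℝ≥0) * hm m ≤ j * hm m := by
    refine mul_le_mul_left ?_ _
    exact_mod_cast hij
  have hvu : (((j : ℝ≥0) * hm m : ℝ≥0) : ℝ) - ((i : ℝ≥0) * hm m : ℝ≥0) = ((j : ℝ) - i) * hm m := by
    push_cast
    ring
  have hMm : MemLp (Mt k ε β H (i * hm m) (j * hm m) x) 2 P := by
    obtain ⟨S, V, hS, -, -, hMS, -⟩ := XA_core hN hβ hε hk hL T Ci hCi0 hCi m i j hlt hj x 1 one_pos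
    refine (hMS.add hS).ae_eq (Filter.Eventually.of_forall fun ω => ?_)
    exact sub_add_cancel _ _
  refine ⟨hMm, ?_, ?_⟩
  · obtain ⟨a, ha⟩ : ∃ a : ℝ, a = N * (((j : ℝ) - i) * hm m) := ⟨_, rfl⟩
    have hji : 0 ≤ ((j : ℝ) - i) * hm m := by
      rw [← hvu]
      exact sub_nonneg.2 (by exact_mod_cast huv)
    have ha0 : 0 ≤ a := ha ▸ mul_nonneg (Nat.cast_nonneg _) hji
    obtain ⟨K, hK⟩ : ∃ K : ℝ, K = N * Real.sqrt Ci * (((j : ℝ) - i) * hm m) ^ 2 := ⟨_, rfl⟩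
    have hK0 : 0 ≤ K := by
      rw [hK]
      positivity
    rw [← hK]
    obtain ⟨I, hI⟩ : ∃ I : ℝ, I = ∫ ω, ‖Mt k ε β H (i * hm m) (j * hm m) x ω -
          mulv (fun a b => B x a b (j * hm m) ω - B x a b (i * hm m) ω)
            (H (i * hm m) x ω)‖ ^ 2 ∂P := ⟨_, rfl⟩
    rw [← hI]
    have key : ∀ θ > 0, ∀ η > 0, I ≤ (1 + θ) * K + (1 + 1 / θ) * (2 * η + 2 * (a * η)) := by
      intro θ hθ η hη
      obtain ⟨S, V, hS, hVm, hV, hMS, h1, h2, h3, -⟩ :=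
        XA_core hN hβ hε hk hL T Ci hCi0 hCi m i j hlt hj x η hη
      have hqV := mulv_sq hz _ _ huv x V hVm hV
      have hD : MemLp (fun ω => H (i * hm m) x ω - V ω) 2 P := hHu.sub hV
      have hDm : Measurable[ℱ (i * hm m)] (fun ω => H (i * hm m) x ω - V ω) := hHum.sub hVm
      have hqD := mulv_sq hz _ _ huv x (fun ω => H (i * hm m) x ω - V ω) hDm hD
      have e : ∀ ω, Mt k ε β H (i * hm m) (j * hm m) x ω -
          mulv (fun a b => B x a b (j * hm m) ω - B x a b (i * hm m) ω) (H (i * hm m) x ω) =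
          (S ω - mulv (fun a b => B x a b (j * hm m) ω - B x a b (i * hm m) ω) (V ω)) +
          ((Mt k ε β H (i * hm m) (j * hm m) x ω - S ω) -
            mulv (fun a b => B x a b (j * hm m) ω - B x a b (i * hm m) ω)
              (H (i * hm m) x ω - V ω)) := by
        intro ω
        have h4 := mulv_add (fun a b => B x a b (j * hm m) ω - B x a b (i * hm m) ω)
          (H (i * hm m) x ω - V ω) (V ω)
        rw [sub_add_cancel] at h4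
        rw [h4]
        abel
      have h5 : ∫ ω, ‖(Mt k ε β H (i * hm m) (j * hm m) x ω - S ω) -
            mulv (fun a b => B x a b (j * hm m) ω - B x a b (i * hm m) ω)
              (H (i * hm m) x ω - V ω)‖ ^ 2 ∂P ≤ 2 * η + 2 * (a * η) := by
        have h6 := XA_wt hMS hqD.1.neg 1 one_pos
        simp only [Pi.neg_apply, norm_neg, ← sub_eq_add_neg] at h6
        have h7 := hqD.2.1
        rw [hvu, ← ha] at h7
        have h8 := mul_le_mul_of_nonneg_left h2 ha0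
        rw [h7] at h6
        linarith
      have h9 := XA_wt (hS.sub hqV.1) (hMS.sub hqD.1) θ hθ
      rw [hI]
      simp only [e]
      refine h9.trans ?_
      rw [hK]
      exact add_le_add (mul_le_mul_of_nonneg_left h3 (by positivity))
        (mul_le_mul_of_nonneg_left h5 (by positivity))
    have key2 : ∀ θ > 0, I ≤ (1 + θ) * K := by
      intro θ hθ
      refine le_of_forall_pos_le_add fun τ hτ => ?_
      have h1 := key θ hθ (τ / ((1 + 1 / θ) * (2 + 2 * a))) (by positivity)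
      have h2 : (1 + 1 / θ) * (2 * (τ / ((1 + 1 / θ) * (2 + 2 * a))) +
          2 * (a * (τ / ((1 + 1 / θ) * (2 + 2 * a))))) = τ := by
        have h3 : (1 + 1 / θ) ≠ 0 := by positivity
        have h4 : (2 + 2 * a) ≠ 0 := by positivity
        have h5 : (1 + 1 / θ) * (2 * (τ / ((1 + 1 / θ) * (2 + 2 * a))) +
          2 * (a * (τ / ((1 + 1 / θ) * (2 + 2 * a))))) =
          ((1 + 1 / θ) * (2 + 2 * a)) * (τ / ((1 + 1 / θ) * (2 + 2 * a))) := by ring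
        rw [h5, mul_div_cancel₀ _ (mul_ne_zero h3 h4)]
      rw [h2] at h1
      exact h1
    refine le_of_forall_pos_le_add fun τ hτ => ?_
    have h1 := key2 (τ / (K + 1)) (by positivity)
    have h2 : τ / (K + 1) * K ≤ τ := by
      rw [div_mul_eq_mul_div, div_le_iff₀ (by positivity)]
      nlinarith
    linarith
  · intro Z hZ hZ2
    obtain ⟨I, hI⟩ : ∃ I : ℝ, I = ∫ ω, inner ℝ (Z ω) (Mt k ε β H (i * hm m) (j * hm m) x ω) ∂P :=
      ⟨_, rfl⟩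
    obtain ⟨A, hA⟩ : ∃ A : ℝ, A = ∫ ω, ‖Z ω‖ ^ 2 ∂P := ⟨_, rfl⟩
    have hA0 : 0 ≤ A := hA ▸ integral_nonneg fun ω => by positivity
    rw [← hI]
    have key : ∀ θ > 0, ∀ η > 0, 2 * |I| ≤ θ * A + 1 / θ * η := by
      intro θ hθ η hη
      obtain ⟨S, V, hS, hVm, hV, hMS, h1, h2, h3, h4⟩ :=
        XA_core hN hβ hε hk hL T Ci hCi0 hCi m i j hlt hj x η hη
      have h5 := XA_inner_le hZ2 hMS θ hθ
      have h6 : I = ∫ ω, inner ℝ (Z ω) (Mt k ε β H (i * hm m) (j * hm m) x ω - S ω) ∂P := by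
        simp only [inner_sub_right]
        rw [integral_sub (XA_inner hZ2 hMm) (XA_inner hZ2 hS), h4 Z hZ hZ2, sub_zero, hI]
      rw [h6, hA]
      have h7 := mul_le_mul_of_nonneg_left h1 (one_div_pos.2 hθ).le
      linarith
    have key2 : ∀ τ > 0, 2 * |I| ≤ 0 + τ := by
      intro τ hτ
      have h1 := key (τ / (2 * (A + 1))) (by positivity) (τ / 2 * (τ / (2 * (A + 1)))) (by positivity)
      have h2 : 1 / (τ / (2 * (A + 1))) * (τ / 2 * (τ / (2 * (A + 1)))) = τ / 2 := by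
        field_simp
      have h3 : τ / (2 * (A + 1)) * A ≤ τ / 2 := by
        rw [div_mul_eq_mul_div, div_le_div_iff₀ (by positivity) (by positivity)]
        nlinarith
      rw [h2] at h1
      linarith
    have h3 : 2 * |I| ≤ 0 := le_of_forall_pos_le_add key2
    have h4 : |I| = 0 := le_antisymm (by linarith) (abs_nonneg _)
    exact abs_eq_zero.1 h4

end DynX
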