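import Pool.Agent.Lib_MP_36b788x.XDefs

/-!
# Pre-Brownian motion from an orthonormal basis

PROOF. `E0 = Lp ℝ 2 (volume : Measure ℝ)`. `exists_hilbertBasis ℝ E0` gives a Hilbert basis `b` indexed by a set `w`.
`Ω = w → ℝ`, `P = Measure.infinitePi (fun _ => gaussianReal 0 1)`. The coordinates `ζ i` are in `L²(P)`, orthonormal (independent, mean zero,
variance one). `W : E0 →ₗᵢ[ℝ] Lp ℝ 2 P`: composition of `b.repr` with `Orthonormal … .orthogonalFamily.linearIsometry`, or directly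
`W f = Σ' i, ⟪b i, f⟫ • ζ i` (summable, `OrthogonalFamily.hasSum_linearIsometry`).
Law of `W f` is `gaussianReal 0 ‖f‖²`: partial sums over a finset `s` have law `gaussianReal 0 (Σ_{i ∈ s} ⟪b i,f⟫²)` (characteristic function of
a sum of independent variables), `E exp(iu S_s) = exp(-u² Σ_{i∈s}⟪b i,f⟫²/2)`; `S_s → W f` in `L²`, so the left side converges to `E exp(iu W f)`
(`|e^{ia} - e^{ib}| ≤ |a-b|`) and the right side to `exp(-u²‖f‖²/2)` (Parseval); `Measure.ext_of_charFun`.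
`X t` = a measurable version of `W (indicatorConstLp (Ioc 0 t) 1)` (`Lp.stronglyMeasurable`). A linear combination of the `X t_j` is a.e. equal
to `W` of the linear combination, hence Gaussian: `X` is a Gaussian process (a law on `I → ℝ` is Gaussian if all continuous linear functionals are).
Mean zero, `cov = ⟪1_{(0,s]}, 1_{(0,t]}⟫ = s` for `s ≤ t`: `IsGaussianProcess.isPreBrownianReal_of_covariance`.
-/

open MeasureTheory ProbabilityTheory Filter Dyn
open scoped NNReal ENNReal Topology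

namespace DynX

section

variable {Ω : Type} [MeasurableSpace Ω] {P : Measure Ω}

private theorem xiso_sum {w : Type} {Z : w → Ω → ℝ}
    (hl : ∀ i, HasLaw (Z i) (gaussianReal 0 1) P) (hi : iIndepFun Z P) (c : w → ℝ)
    (s : Finset w) : HasGaussianLaw (fun ω => ∑ i ∈ s, c i * Z i ω) P := by
  have h1 : HasGaussianLaw (fun ω => ∑ i : s, c i * Z i ω) P := by
    refine iIndepFun.hasGaussianLaw_fun_sum (X := fun (i : s) ω => c i * Z i ω) (fun i => ?_) ?_
    · exact ((hl i).hasGaussianLaw).fun_smul (c i)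
    · have h2 : iIndepFun (fun (i : s) => Z i) P := hi.precomp Subtype.val_injective
      exact h2.comp (fun i x => c i * x) (fun i => by fun_prop)
  have h2 : (fun ω => ∑ i : s, c i * Z i ω) = fun ω => ∑ i ∈ s, c i * Z i ω := by
    funext ω
    exact Finset.sum_coe_sort s (fun i => c i * Z i ω)
  rwa [h2] at h1

private theorem xiso_coe {ι : Type} (s : Finset ι) (c : ι → ℝ) (g : ι → Lp ℝ 2 P) :
    ⇑(∑ i ∈ s, c i • g i) =ᵐ[P] fun ω => ∑ i ∈ s, c i * g i ω := by
  classical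
  induction s using Finset.induction_on with
  | empty =>
    simp only [Finset.sum_empty]
    exact Lp.coeFn_zero ℝ 2 P
  | insert a s ha ih =>
    rw [Finset.sum_insert ha]
    filter_upwards [Lp.coeFn_add (c a • g a) (∑ i ∈ s, c i • g i), Lp.coeFn_smul (c a) (g a), ih]
      with ω h1 h2 h3
    rw [h1, Pi.add_apply, h2, h3, Finset.sum_insert ha]
    rfl

private theorem xiso_sq (g : Lp ℝ 2 P) : ‖g‖ ^ 2 = ∫ ω, g ω ^ 2 ∂P := by
  rw [← real_inner_self_eq_norm_sq, L2.inner_def]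
  refine integral_congr_ae (Eventually.of_forall fun ω => ?_)
  show inner ℝ (g ω) (g ω) = g ω ^ 2
  rw [real_inner_self_eq_norm_sq, Real.norm_eq_abs, sq_abs]

variable [IsProbabilityMeasure P]

private noncomputable def xisoPhi (P : Measure Ω) (g : Lp ℝ 2 P) : ℂ :=
  ∫ ω, Complex.exp (Complex.I * (g ω : ℂ)) ∂P

private theorem xiso_int (g : Lp ℝ 2 P) :
    Integrable (fun ω => Complex.exp (Complex.I * (g ω : ℂ))) P := by
  have hm : Measurable (g : Ω → ℝ) := (Lp.stronglyMeasurable g).measurable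
  refine (integrable_const (1 : ℝ)).mono' (by fun_prop) (Eventually.of_forall fun ω => ?_)
  rw [mul_comm, Complex.norm_exp_ofReal_mul_I]

private theorem xiso_exp (a b : ℝ) :
    ‖Complex.exp (Complex.I * (a : ℂ)) - Complex.exp (Complex.I * (b : ℂ))‖ ≤ |a - b| := by
  have h1 : Complex.exp (Complex.I * (a : ℂ)) - Complex.exp (Complex.I * (b : ℂ)) =
      Complex.exp (Complex.I * (b : ℂ)) *
        (Complex.exp (Complex.I * ((a - b : ℝ) : ℂ)) - 1) := by
    rw [mul_sub, ← Complex.exp_add, mul_one]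
    congr 2
    push_cast
    ring
  rw [h1, norm_mul, mul_comm Complex.I (b : ℂ), Complex.norm_exp_ofReal_mul_I, one_mul]
  exact Real.norm_exp_I_mul_ofReal_sub_one_le

private theorem xiso_lip (g h : Lp ℝ 2 P) : ‖xisoPhi P g - xisoPhi P h‖ ≤ ‖g - h‖ := by
  have h0 : xisoPhi P g - xisoPhi P h = ∫ ω, (Complex.exp (Complex.I * (g ω : ℂ)) -
      Complex.exp (Complex.I * (h ω : ℂ))) ∂P := (integral_sub (xiso_int g) (xiso_int h)).symm
  have hL : MemLp (⇑(g - h)) 2 P := Lp.memLp (g - h)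
  have hL1 : Integrable (⇑(g - h)) P := hL.integrable (by norm_num)
  have h2 : (∫ ω, |(g - h : Lp ℝ 2 P) ω| ∂P) ≤ ‖g - h‖ := by
    have h3 : (∫ ω, |(g - h : Lp ℝ 2 P) ω| ∂P) = (eLpNorm (⇑(g - h)) 1 P).toReal := by
      rw [eLpNorm_one_eq_lintegral_enorm, ← integral_norm_eq_lintegral_enorm hL1.1]
      rfl
    rw [h3, Lp.norm_def]
    exact ENNReal.toReal_mono hL.2.ne (eLpNorm_le_eLpNorm_of_exponent_le (by norm_num) hL.1)
  rw [h0]
  refine (norm_integral_le_integral_norm _).trans (le_trans (integral_mono_ae ?_ ?_ ?_) h2)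
  · exact ((xiso_int g).sub (xiso_int h)).norm
  · exact hL1.abs
  · filter_upwards [Lp.coeFn_sub g h] with ω hω
    rw [hω]
    exact xiso_exp _ _

private theorem xiso_cont : Continuous (xisoPhi P) := by
  have h1 : LipschitzWith 1 (xisoPhi P) := LipschitzWith.of_dist_le_mul fun g h => by
    rw [NNReal.coe_one, one_mul, dist_eq_norm, dist_eq_norm]
    exact xiso_lip g h
  exact h1.continuous

private theorem xiso_gauss {g : Lp ℝ 2 P} (hg : HasGaussianLaw g P) (h0 : ∫ ω, g ω ∂P = 0) :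
    xisoPhi P g = Complex.exp (-((‖g‖ ^ 2 / 2 : ℝ) : ℂ)) := by
  have hm : Measurable (g : Ω → ℝ) := (Lp.stronglyMeasurable g).measurable
  have h1 := hg.map_eq_gaussianReal
  have h2 : Var[g; P] = ‖g‖ ^ 2 := by
    rw [variance_of_integral_eq_zero hm.aemeasurable h0, xiso_sq]
  have h3 : xisoPhi P g = charFun (P.map g) 1 := by
    rw [charFun_apply_real, integral_map hm.aemeasurable (by fun_prop)]
    refine integral_congr_ae (Eventually.of_forall fun ω => ?_)
    show Complex.exp _ = Complex.exp _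
    congr 1
    push_cast
    ring
  rw [h3, h1, charFun_gaussianReal, h0, h2]
  congr 1
  have h4 : ((Real.toNNReal (‖g‖ ^ 2) : ℝ≥0) : ℂ) = ((‖g‖ ^ 2 : ℝ) : ℂ) := by
    show (((Real.toNNReal (‖g‖ ^ 2) : ℝ≥0) : ℝ) : ℂ) = ((‖g‖ ^ 2 : ℝ) : ℂ)
    rw [Real.coe_toNNReal (‖g‖ ^ 2) (by positivity)]
  rw [h4]
  push_cast
  ring

private theorem xiso_law {w : Type} {Z : w → Ω → ℝ}
    (hl : ∀ i, HasLaw (Z i) (gaussianReal 0 1) P) (hi : iIndepFun Z P)
    (ζ : w → Lp ℝ 2 P) (hζ : ∀ i, ζ i =ᵐ[P] Z i) {a : w → ℝ} {g : Lp ℝ 2 P}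
    (hs : HasSum (fun i => a i • ζ i) g) :
    xisoPhi P g = Complex.exp (-((‖g‖ ^ 2 / 2 : ℝ) : ℂ)) := by
  have hcl : IsClosed {g : Lp ℝ 2 P | xisoPhi P g = Complex.exp (-((‖g‖ ^ 2 / 2 : ℝ) : ℂ))} :=
    isClosed_eq xiso_cont (by fun_prop)
  refine hcl.mem_of_tendsto hs (Eventually.of_forall fun s => ?_)
  have h1 : ⇑(∑ i ∈ s, a i • ζ i) =ᵐ[P] fun ω => ∑ i ∈ s, a i * Z i ω := by
    have h2 : ∀ᵐ ω ∂P, ∀ i ∈ s, ζ i ω = Z i ω :=
      (ae_ball_iff s.countable_toSet).2 fun i _ => hζ i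
    filter_upwards [xiso_coe s a ζ, h2] with ω h3 h4
    rw [h3]
    exact Finset.sum_congr rfl fun i hi => by rw [h4 i hi]
  refine xiso_gauss ((xiso_sum hl hi a s).congr h1.symm) ?_
  rw [integral_congr_ae h1, integral_finsetSum]
  · refine Finset.sum_eq_zero fun i _ => ?_
    rw [integral_const_mul, (hl i).integral_eq, integral_id_gaussianReal, mul_zero]
  · intro i _
    exact ((hl i).hasGaussianLaw.integrable).const_mul _

end

theorem exists_prebm : ∃ (Ω : Type) (_ : MeasurableSpace Ω) (P : Measure Ω) (X : ℝ≥0 → Ω → ℝ),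
    IsProbabilityMeasure P ∧ (∀ t, Measurable (X t)) ∧ IsPreBrownianReal X P := by
  obtain ⟨w, b, -⟩ := exists_hilbertBasis ℝ (Lp ℝ 2 (volume : Measure ℝ))
  obtain ⟨Ω, mΩ, P, Z, hm, hl, hi, hP⟩ := exists_iid w (gaussianReal 0 1)
  have hL : ∀ i, MemLp (Z i) 2 P := fun i => (hl i).hasGaussianLaw.memLp_two
  have hmean : ∀ i, ∫ ω, Z i ω ∂P = 0 := fun i => by
    rw [(hl i).integral_eq, integral_id_gaussianReal]
  let ζ : w → Lp ℝ 2 P := fun i => (hL i).toLp (Z i)
  have hζ : ∀ i, ζ i =ᵐ[P] Z i := fun i => (hL i).coeFn_toLp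
  have hin : ∀ i j, inner ℝ (ζ i) (ζ j) = ∫ ω, Z i ω * Z j ω ∂P := by
    intro i j
    rw [L2.inner_def]
    refine integral_congr_ae ?_
    filter_upwards [hζ i, hζ j] with ω h1 h2
    rw [h1, h2]
    exact mul_comm _ _
  have hvar : ∀ i, ∫ ω, Z i ω * Z i ω ∂P = 1 := by
    intro i
    have h1 : Var[Z i; P] = 1 := by
      rw [(hl i).variance_eq, variance_id_gaussianReal]
      rfl
    rw [variance_of_integral_eq_zero (hm i).aemeasurable (hmean i)] at h1
    rw [← h1]
    exact integral_congr_ae (Eventually.of_forall fun ω => (sq (Z i ω)).symm)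
  have horth : Orthonormal ℝ ζ := by
    refine ⟨fun i => ?_, fun i j hij => ?_⟩
    · have h1 := hin i i
      rw [real_inner_self_eq_norm_sq, hvar] at h1
      nlinarith [norm_nonneg (ζ i)]
    · show inner ℝ (ζ i) (ζ j) = 0
      rw [hin]
      have h1 := (hi.indepFun hij).integral_mul_eq_mul_integral (hm i).aestronglyMeasurable
        (hm j).aestronglyMeasurable
      have h2 : ∫ ω, Z i ω * Z j ω ∂P = (∫ ω, Z i ω ∂P) * ∫ ω, Z j ω ∂P := h1
      rw [h2, hmean, zero_mul]
  let W : Lp ℝ 2 (volume : Measure ℝ) →ₗᵢ[ℝ] Lp ℝ 2 P :=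
    horth.orthogonalFamily.linearIsometry.comp b.repr.toLinearIsometry
  have hphi : ∀ f, xisoPhi P (W f) = Complex.exp (-((‖f‖ ^ 2 / 2 : ℝ) : ℂ)) := by
    intro f
    have h1 := horth.orthogonalFamily.hasSum_linearIsometry (b.repr f)
    have h2 : HasSum (fun i => (b.repr f i) • ζ i) (W f) := h1
    rw [xiso_law hl hi ζ hζ h2, W.norm_map]
  have hWm : ∀ f, Measurable (W f : Ω → ℝ) := fun f => (Lp.stronglyMeasurable (W f)).measurable
  have hlaw : ∀ f, P.map (W f) = gaussianReal 0 (Real.toNNReal (‖f‖ ^ 2)) := by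
    intro f
    have : IsProbabilityMeasure (P.map (W f)) := Measure.isProbabilityMeasure_map (hWm f).aemeasurable
    refine Measure.ext_of_charFun ?_
    funext u
    have h1 : charFun (P.map (W f)) u = xisoPhi P (W (u • f)) := by
      rw [charFun_apply_real, integral_map (hWm f).aemeasurable (by fun_prop)]
      refine integral_congr_ae ?_
      have h2 : W (u • f) = u • W f := W.map_smul u f
      rw [h2]
      filter_upwards [Lp.coeFn_smul u (W f)] with ω h3
      rw [h3]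
      congr 1
      simp only [Pi.smul_apply, smul_eq_mul]
      push_cast
      ring
    rw [h1, hphi, charFun_gaussianReal, norm_smul]
    congr 1
    have h4 : ((Real.toNNReal (‖f‖ ^ 2) : ℝ≥0) : ℂ) = ((‖f‖ ^ 2 : ℝ) : ℂ) := by
      show (((Real.toNNReal (‖f‖ ^ 2) : ℝ≥0) : ℝ) : ℂ) = ((‖f‖ ^ 2 : ℝ) : ℂ)
      rw [Real.coe_toNNReal (‖f‖ ^ 2) (by positivity)]
    rw [h4]
    have h5 : (‖u‖ * ‖f‖) ^ 2 = u ^ 2 * ‖f‖ ^ 2 := by
      rw [mul_pow, Real.norm_eq_abs, sq_abs]
    rw [h5]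
    push_cast
    ring
  let J : ℝ≥0 → Lp ℝ 2 (volume : Measure ℝ) := fun t =>
    indicatorConstLp 2 (measurableSet_Ioc (a := (0 : ℝ)) (b := (t : ℝ)))
      (by simp) (1 : ℝ)
  have hJ : ∀ s t : ℝ≥0, s ≤ t → inner ℝ (J s) (J t) = (s : ℝ) := by
    intro s t hst
    have h1 : inner ℝ (J s) (J t) = volume.real (Set.Ioc (0 : ℝ) s ∩ Set.Ioc (0 : ℝ) t) :=
      L2.real_inner_indicatorConstLp_one_indicatorConstLp_one measurableSet_Ioc measurableSet_Ioc
        _ _
    have h2 : (s : ℝ) ≤ t := hst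
    rw [h1, Set.Ioc_inter_Ioc, max_self, min_eq_left h2, Real.volume_real_Ioc_of_le (NNReal.coe_nonneg s), sub_zero]
  have hmean' : ∀ f, ∫ ω, W f ω ∂P = 0 := by
    intro f
    have h1 : ∫ x, x ∂(P.map (W f)) = ∫ ω, W f ω ∂P :=
      integral_map (hWm f).aemeasurable (f := fun x : ℝ => x) measurable_id.aestronglyMeasurable
    rw [← h1, hlaw, integral_id_gaussianReal]
  refine ⟨Ω, mΩ, P, fun t => W (J t), hP, fun t => hWm _, ?_⟩
  refine IsGaussianProcess.isPreBrownianReal_of_covariance ⟨fun I => ⟨?_⟩⟩ (fun t => ?_)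
    (fun s t hst => ?_)
  · refine isGaussian_of_map_eq_gaussianReal fun L => ?_
    let c : I → ℝ := fun i => L (fun j => if i = j then 1 else 0)
    have hF : Measurable (fun ω => I.restrict fun x => W (J x) ω) :=
      measurable_pi_lambda _ fun i => hWm _
    refine ⟨0, Real.toNNReal (‖∑ i : I, c i • J i‖ ^ 2), ?_⟩
    rw [← hlaw, Measure.map_map (by fun_prop) hF]
    refine Measure.map_congr ?_
    have h1 : W (∑ i : I, c i • J i) = ∑ i : I, c i • W (J i) := by
      rw [map_sum]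
      exact Finset.sum_congr rfl fun i _ => W.map_smul _ _
    rw [h1]
    filter_upwards [xiso_coe Finset.univ c (fun i : I => W (J i))] with ω h2
    rw [h2]
    have h3 := LinearMap.pi_apply_eq_sum_univ L.toLinearMap (I.restrict fun t => W (J t) ω)
    refine h3.trans (Finset.sum_congr rfl fun i _ => ?_)
    exact mul_comm _ _
  · exact hmean' _
  · rw [covariance_eq_sub (Lp.memLp _) (Lp.memLp _)]
    have h1 : P[fun ω => W (J s) ω] = 0 := hmean' _
    have h2 : P[(fun ω => W (J s) ω) * fun ω => W (J t) ω] = inner ℝ (W (J s)) (W (J t)) := by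
      rw [L2.inner_def]
      refine integral_congr_ae (Eventually.of_forall fun ω => ?_)
      exact mul_comm _ _
    have h3 : inner ℝ (W (J s)) (W (J t)) = (s : ℝ) := by
      rw [W.inner_map_map]
      exact hJ s t hst
    rw [h1, zero_mul, sub_zero, h2, h3]

end DynX
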