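import Pool.Agent.Lib_MP_36b788x.XKC
import Pool.Agent.Lib_MP_36b788x.XIso

/-!
# Brownian motion

PROOF. `kc` with `X m j = B (j * hm m)` (consistency is exact: `2 j hm (m+1) = j hm m`), `B_t - B_s ~ N(0, |t-s|)` (`IsPreBrownianReal.hasLaw_sub`), fourth
moment of `N(0,v)` is `3 v²` (scaling of the standard normal; any finite constant will do). `Y` continuous, `Y t = B t` a.s. for dyadic `t`. For
general `t`: dyadic `t_n → t`, `Y t_n → Y t` surely, `B t_n → B t` in `L⁴`, so both limits in measure agree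
(`tendstoInMeasure_ae_unique`). `IsPreBrownianReal.congr`.
-/

open MeasureTheory ProbabilityTheory Filter Dyn
open scoped NNReal ENNReal Topology

namespace DynX

private theorem g4_fin : ∫⁻ x, ENNReal.ofReal (‖x‖ ^ 4) ∂(gaussianReal 0 1) ≠ ∞ := by
  have h : Integrable (fun x : ℝ => ‖x‖ ^ 4) (gaussianReal 0 1) := by
    have h1 := (memLp_id_gaussianReal (μ := 0) (v := 1) 4).integrable_norm_pow (by norm_num)
    simpa using h1
  exact h.lintegral_lt_top.ne

private theorem g4 (v : ℝ≥0) : ∫⁻ x, ENNReal.ofReal (‖x‖ ^ 4) ∂(gaussianReal 0 v) =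
    ENNReal.ofReal ((v : ℝ) ^ 2) * ∫⁻ x, ENNReal.ofReal (‖x‖ ^ 4) ∂(gaussianReal 0 1) := by
  have h : gaussianReal 0 v = (gaussianReal 0 1).map (Real.sqrt v * ·) := by
    rw [gaussianReal_map_const_mul]
    congr 1
    · simp
    · ext
      simp
  rw [h, lintegral_map (by fun_prop) (by fun_prop), ← lintegral_const_mul _ (by fun_prop)]
  congr 1 with x
  rw [← ENNReal.ofReal_mul (by positivity), norm_mul, mul_pow]
  congr 2
  rw [Real.norm_of_nonneg (Real.sqrt_nonneg _)]
  have h2 : Real.sqrt (v : ℝ) ^ 2 = v := Real.sq_sqrt v.2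
  calc Real.sqrt (v : ℝ) ^ 4 = (Real.sqrt (v : ℝ) ^ 2) ^ 2 := by ring
    _ = (v : ℝ) ^ 2 := by rw [h2]

theorem exists_bm : ∃ (Ω : Type) (_ : MeasurableSpace Ω) (P : Measure Ω) (W : ℝ≥0 → Ω → ℝ),
    IsProbabilityMeasure P ∧ (∀ t, Measurable (W t)) ∧ IsBrownianReal W P := by
  obtain ⟨Ω, mΩ, P, B, hP, hBm, hB⟩ := exists_prebm
  set K : ℝ≥0∞ := ∫⁻ x, ENNReal.ofReal (‖x‖ ^ 4) ∂(gaussianReal 0 1) with hK
  have hKf : K ≠ ∞ := g4_fin
  have h4 : ∀ s t : ℝ≥0, ∫⁻ ω, ENNReal.ofReal (‖B s ω - B t ω‖ ^ 4) ∂P =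
      ENNReal.ofReal ((dist (s : ℝ) t) ^ 2) * K := by
    intro s t
    have h1 := (hB.hasLaw_sub s t).lintegral_comp (f := fun x => ENNReal.ofReal (‖x‖ ^ 4))
      (by fun_prop)
    rw [g4] at h1
    exact h1
  obtain ⟨Y, hYm, hYc, hY⟩ := kc P (fun m j => B (j * hm m)) (fun m j => hBm _)
    (fun m j => by
      have h1 : ((2 * j : ℕ) : ℝ≥0) * hm (m + 1) = j * hm m := by
        simp only [hm, pow_succ]
        push_cast
        field_simp
      simp only [h1]
      exact Filter.EventuallyEq.rfl)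
    (fun T => ⟨K.toReal, fun m j _ => by
      have h1 := h4 (((j + 1 : ℕ) : ℝ≥0) * hm m) ((j : ℝ≥0) * hm m)
      rw [h1]
      have h2 : dist ((((j + 1 : ℕ) : ℝ≥0) * hm m : ℝ≥0) : ℝ) (((j : ℝ≥0) * hm m : ℝ≥0) : ℝ)
          = (1 / 2) ^ m := by
        rw [Real.dist_eq]
        simp only [hm]
        push_cast
        rw [show ((j : ℝ) + 1) * (1 / 2) ^ m - j * (1 / 2) ^ m = (1 / 2) ^ m by ring]
        exact abs_of_nonneg (by positivity)
      rw [h2, mul_comm, ENNReal.ofReal_mul ENNReal.toReal_nonneg, ENNReal.ofReal_toReal hKf]⟩)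
  refine ⟨Ω, mΩ, P, Y, hP, hYm, ?_⟩
  have hmod : ∀ t, B t =ᵐ[P] Y t := by
    intro t
    set u : ℕ → ℝ≥0 := fun n => (⌊2 ^ n * t⌋₊ : ℝ≥0) * hm n with hu
    have hud : ∀ n, dist (u n : ℝ) t ≤ (1 / 2) ^ n := by
      intro n
      have h2 : (0 : ℝ) < 2 ^ n := by positivity
      have e1 : (u n : ℝ) = (⌊2 ^ n * t⌋₊ : ℝ) / 2 ^ n := by
        simp only [hu, hm]
        push_cast
        rw [one_div, inv_pow]
        rfl
      have h3 : ((⌊2 ^ n * t⌋₊ : ℝ≥0) : ℝ) ≤ 2 ^ n * t := by
        have := Nat.floor_le (a := 2 ^ n * t) (by positivity)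
        exact_mod_cast this
      have h4' : (2 : ℝ) ^ n * t < ((⌊2 ^ n * t⌋₊ : ℝ≥0) : ℝ) + 1 := by
        have := Nat.lt_floor_add_one (2 ^ n * t)
        exact_mod_cast this
      simp only [NNReal.coe_natCast] at h3 h4'
      rw [Real.dist_eq, e1, one_div, inv_pow, abs_le]
      constructor
      · rw [neg_le_sub_iff_le_add, div_add' _ _ _ h2.ne', inv_mul_cancel₀ h2.ne',
          le_div_iff₀ h2]
        linarith
      · rw [sub_le_iff_le_add, div_le_iff₀ h2, add_mul, inv_mul_cancel₀ h2.ne']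
        linarith
    have hut : Tendsto u atTop (𝓝 t) := by
      rw [← NNReal.tendsto_coe, tendsto_iff_dist_tendsto_zero]
      exact squeeze_zero (fun _ => dist_nonneg) hud
        (tendsto_pow_atTop_nhds_zero_of_lt_one (by norm_num) (by norm_num))
    have hYt : TendstoInMeasure P (fun n => Y (u n)) atTop (Y t) :=
      tendstoInMeasure_of_tendsto_ae (fun n => (hYm _).aestronglyMeasurable)
        (Eventually.of_forall fun ω => ((hYc ω).tendsto t).comp hut)
    have hYB : TendstoInMeasure P (fun n => B (u n)) atTop (Y t) :=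
      hYt.congr (fun n => hY n ⌊2 ^ n * t⌋₊) Filter.EventuallyEq.rfl
    have hBt : TendstoInMeasure P (fun n => B (u n)) atTop (B t) := by
      refine tendstoInMeasure_of_tendsto_eLpNorm (p := 4) (by norm_num)
        (fun n => (hBm _).aestronglyMeasurable) (hBm _).aestronglyMeasurable ?_
      have e1 : ∀ n, eLpNorm (B (u n) - B t) 4 P =
          (ENNReal.ofReal ((dist (u n : ℝ) t) ^ 2) * K) ^ (1 / (4 : ℝ)) := by
        intro n
        rw [← h4, eLpNorm_eq_lintegral_rpow_enorm_toReal (by norm_num) (by norm_num)]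
        congr 2
        · ext ω
          rw [ENNReal.ofReal_pow (norm_nonneg _), ofReal_norm]
          simp only [Pi.sub_apply, ENNReal.toReal_ofNat]
          exact_mod_cast ENNReal.rpow_natCast _ 4
      simp only [e1]
      have h5 : Tendsto (fun n => ENNReal.ofReal ((dist (u n : ℝ) t) ^ 2) * K) atTop (𝓝 0) := by
        have h6 : Tendsto (fun n => ENNReal.ofReal ((dist (u n : ℝ) t) ^ 2)) atTop (𝓝 0) := by
          have h7 : Tendsto (fun n => (dist (u n : ℝ) t) ^ 2) atTop (𝓝 0) := by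
            have h8 : Tendsto (fun n => dist (u n : ℝ) t) atTop (𝓝 0) :=
              squeeze_zero (fun _ => dist_nonneg) hud
                (tendsto_pow_atTop_nhds_zero_of_lt_one (by norm_num) (by norm_num))
            simpa using h8.pow 2
          have h9 := (ENNReal.continuous_ofReal.tendsto 0).comp h7
          rw [ENNReal.ofReal_zero] at h9
          exact h9
        have h9 := ENNReal.Tendsto.mul_const h6 (Or.inr hKf)
        rw [zero_mul] at h9
        exact h9
      have h10 := (ENNReal.continuous_rpow_const (y := (1 / (4 : ℝ)))).tendsto 0 |>.comp h5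
      rw [ENNReal.zero_rpow_of_pos (by norm_num)] at h10
      exact h10
    exact tendstoInMeasure_ae_unique hBt hYB
  exact { toIsPreBrownianReal := hB.congr hmod
          cont := Eventually.of_forall hYc }

end DynX
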