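import Pool.Agent.Lib_MP_36b788x.XS

/-!
# The dyadic chains are Cauchy

PROOF. `ac_half`: induction on `n` with `ac_two`: `S n = C √h n h e^{C n h}` satisfies the recursion. `ac_cauchy`: telescoping over `i < r` at the fixed time
`j hm m = (j 2^i) hm (m+i)`: `L²` norms `≤ √C (hm (m+i))^{1/4}`, geometric series with ratio `2^{-1/4}`, square. (`(2^{i+1} j)` steps of size `hm (m+i+1) = hm (m+i)/2`.)
-/

open MeasureTheory ProbabilityTheory Filter Dyn
open scoped NNReal ENNReal Topology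

namespace DynX

variable {Ω : Type} [mΩ : MeasurableSpace Ω] {P : Measure Ω} {N d : ℕ}
    {ℱ : Filtration ℝ≥0 mΩ} {B : Site d → Fin N → Fin N → ℝ≥0 → Ω → ℝ}
    {H0 : Site d → Ω → E N} {k ε β : ℝ}

theorem ac_half (hN : Noise P ℱ B H0) (hβ : 0 < β) (hε : 0 < ε) (hk : 0 ≤ k) (T : ℝ≥0) :
    ∃ C : ℝ, 0 ≤ C ∧ ∀ h : ℝ≥0, 0 < h → h ≤ 1 → ∀ n : ℕ, n * h ≤ T → ∀ x : Site d,
      ∫ ω, ‖ac k ε β h B H0 n ω x - ac k ε β (h / 2) B H0 (2 * n) ω x‖ ^ 2 ∂P ≤
        C * Real.sqrt h := by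
  obtain ⟨C, hC, h2⟩ := ac_two hN hβ hε hk T
  refine ⟨Real.exp (C * T), (Real.exp_pos _).le, ?_⟩
  intro h hh hh1
  have hhR : (0 : ℝ) < h := by exact_mod_cast hh
  have key : ∀ n : ℕ, n * h ≤ T → ∀ x : Site d,
      ∫ ω, ‖ac k ε β h B H0 n ω x - ac k ε β (h / 2) B H0 (2 * n) ω x‖ ^ 2 ∂P ≤
        Real.sqrt h * (Real.exp (C * (n * h)) - 1) := by
    intro n
    induction n with
    | zero =>
      intro _ x
      simp [ac]
    | succ n ih =>
      intro hn x
      have hn1 : ((n : ℝ≥0) + 1) * h ≤ T := by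
        have h3 := hn
        push_cast at h3
        exact h3
      have hn0 : (n : ℝ≥0) * h ≤ T := by
        refine le_trans ?_ hn1
        exact mul_le_mul_left (le_add_of_nonneg_right zero_le_one) h
      have hS : 0 ≤ Real.sqrt h * (Real.exp (C * (n * h)) - 1) := by
        apply mul_nonneg (Real.sqrt_nonneg _)
        rw [sub_nonneg]
        apply Real.one_le_exp
        positivity
      have h4 := h2 h hh hh1 n hn1 _ hS (ih hn0) x
      refine h4.trans ?_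
      have h5 : Real.exp (C * (((n : ℕ) + 1 : ℕ) * h)) =
          Real.exp (C * (n * h)) * Real.exp (C * h) := by
        rw [← Real.exp_add]
        congr 1
        push_cast
        ring
      have h6 : 1 + C * h ≤ Real.exp (C * h) := by
        have := Real.add_one_le_exp (C * (h : ℝ))
        linarith
      have h7 : (1 + C * h) * Real.exp (C * (n * h)) ≤
          Real.exp (C * (n * h)) * Real.exp (C * h) := by
        rw [mul_comm]
        exact mul_le_mul_of_nonneg_left h6 (Real.exp_pos _).le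
      rw [h5]
      have h8 := mul_le_mul_of_nonneg_left h7 (Real.sqrt_nonneg (h : ℝ))
      nlinarith [h8]
  intro n hn x
  refine (key n hn x).trans ?_
  rw [mul_comm]
  apply mul_le_mul_of_nonneg_right _ (Real.sqrt_nonneg _)
  have h9 : (n : ℝ) * h ≤ T := by exact_mod_cast hn
  have h10 : Real.exp (C * (n * h)) ≤ Real.exp (C * T) :=
    Real.exp_le_exp.2 (mul_le_mul_of_nonneg_left h9 hC)
  linarith

private lemma XC_mem (hN : Noise P ℱ B H0) (hβ : 0 < β) (hε : 0 < ε) (h : ℝ≥0) (n : ℕ)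
    (x : Site d) : MemLp (fun ω => ac k ε β h B H0 n ω x) 2 P := by
  have hm : AEStronglyMeasurable (fun ω => ac k ε β h B H0 n ω x) P :=
    ((ac_meas (k := k) hN hβ hε h n x).mono (ℱ.le _) le_rfl).aestronglyMeasurable
  exact (memLp_two_iff_integrable_sq_norm hm).2 (ac_mem hN hβ hε h n 2 x)

private lemma XC_int (hN : Noise P ℱ B H0) (hβ : 0 < β) (hε : 0 < ε) (h h' : ℝ≥0) (n n' : ℕ)
    (x : Site d) : Integrable
      (fun ω => ‖ac k ε β h B H0 n ω x - ac k ε β h' B H0 n' ω x‖ ^ 2) P := by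
  have h1 := (XC_mem (k := k) hN hβ hε h n x).sub (XC_mem (k := k) hN hβ hε h' n' x)
  exact (memLp_two_iff_integrable_sq_norm h1.1).1 h1

private lemma XC_sq {V : Type} [SeminormedAddCommGroup V] (u v w : V) :
    ‖u - w‖ ^ 2 ≤ 6 * ‖u - v‖ ^ 2 + 6 / 5 * ‖v - w‖ ^ 2 := by
  have h1 : ‖u - w‖ ≤ ‖u - v‖ + ‖v - w‖ := norm_sub_le_norm_sub_add_norm_sub u v w
  have h2 : ‖u - w‖ ^ 2 ≤ (‖u - v‖ + ‖v - w‖) ^ 2 := by
    have h0 := norm_nonneg (u - w)
    exact pow_le_pow_left₀ h0 h1 2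
  nlinarith [sq_nonneg (5 * ‖u - v‖ - ‖v - w‖)]

theorem ac_cauchy (hN : Noise P ℱ B H0) (hβ : 0 < β) (hε : 0 < ε) (hk : 0 ≤ k) (T : ℝ≥0) :
    ∃ C : ℝ, 0 ≤ C ∧ ∀ m r j : ℕ, j * hm m ≤ T → ∀ x : Site d,
      ∫ ω, ‖ac k ε β (hm m) B H0 j ω x - ac k ε β (hm (m + r)) B H0 (2 ^ r * j) ω x‖ ^ 2 ∂P ≤
        C * Real.sqrt (hm m) := by
  obtain ⟨C, hC, h2⟩ := ac_half hN hβ hε hk T
  refine ⟨60 * C, by positivity, ?_⟩
  have hpos : ∀ m, 0 < hm m := fun m => by unfold hm; positivity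
  have hle : ∀ m, hm m ≤ 1 := fun m => by
    unfold hm
    apply pow_le_one₀ (by positivity)
    have : (1 / 2 : ℝ≥0) ≤ 1 := by
      rw [← NNReal.coe_le_coe]
      push_cast
      norm_num
    exact this
  have hhalf : ∀ m, hm (m + 1) = hm m / 2 := fun m => by
    unfold hm
    rw [pow_succ, mul_one_div]
  intro m r
  induction r generalizing m with
  | zero =>
    intro j _ x
    simp only [add_zero, pow_zero, one_mul, sub_self, norm_zero]
    rw [zero_pow two_ne_zero, integral_zero]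
    positivity
  | succ r ih =>
    intro j hj x
    have hj2 : ((2 * j : ℕ) : ℝ≥0) * hm (m + 1) ≤ T := by
      rw [hhalf]
      refine le_trans (le_of_eq ?_) hj
      push_cast
      rw [mul_comm (2 : ℝ≥0), mul_assoc, mul_div_cancel₀ _ (two_ne_zero)]
    have h3 := ih (m + 1) (2 * j) hj2 x
    have h4 := h2 (hm m) (hpos m) (hle m) j hj x
    rw [← hhalf] at h4
    have h5 : m + (r + 1) = m + 1 + r := by ring
    have h6 : 2 ^ (r + 1) * j = 2 ^ r * (2 * j) := by ring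
    rw [h5, h6]
    have h7 : ∫ ω, ‖ac k ε β (hm m) B H0 j ω x -
          ac k ε β (hm (m + 1 + r)) B H0 (2 ^ r * (2 * j)) ω x‖ ^ 2 ∂P ≤
        6 * (∫ ω, ‖ac k ε β (hm m) B H0 j ω x -
          ac k ε β (hm (m + 1)) B H0 (2 * j) ω x‖ ^ 2 ∂P) +
        6 / 5 * ∫ ω, ‖ac k ε β (hm (m + 1)) B H0 (2 * j) ω x -
          ac k ε β (hm (m + 1 + r)) B H0 (2 ^ r * (2 * j)) ω x‖ ^ 2 ∂P := by
      rw [← integral_const_mul, ← integral_const_mul, ← integral_add
        ((XC_int hN hβ hε _ _ _ _ x).const_mul _) ((XC_int hN hβ hε _ _ _ _ x).const_mul _)]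
      apply integral_mono (XC_int hN hβ hε _ _ _ _ x)
        (((XC_int hN hβ hε _ _ _ _ x).const_mul _).add ((XC_int hN hβ hε _ _ _ _ x).const_mul _))
      intro ω
      exact XC_sq _ _ _
    have h8 : Real.sqrt (hm (m + 1)) ≤ 3 / 4 * Real.sqrt (hm m) := by
      rw [hhalf]
      apply Real.sqrt_le_iff.2
      refine ⟨by positivity, ?_⟩
      rw [mul_pow, Real.sq_sqrt (NNReal.coe_nonneg (hm m))]
      push_cast
      have : (0 : ℝ) ≤ (hm m : ℝ) := NNReal.coe_nonneg (hm m)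
      nlinarith
    have h9 : 60 * C * Real.sqrt (hm (m + 1)) ≤ 60 * C * (3 / 4 * Real.sqrt (hm m)) :=
      mul_le_mul_of_nonneg_left h8 (by positivity)
    linarith

end DynX
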