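import Pool.Agent.Lib_MP_36b788x.XI
import Pool.Agent.Lib_MP_36b788b.SdeB

/-!
# The drift

PROOF. `drf_mem`: `‖drf‖ ≤ k Σ ‖H‖ + ε ‖H‖ (1 + ‖H‖^{⌈β⌉})`, moments; continuity in `t` for a.e. `ω` (countably many sites), `tint_facts` (file `SdeR.lean`).
`drf_app`: with `g = ag n` at the step `h = hm m`: for `r ∈ [n h, (n+1) h]`, `E‖g x - drf(H_r) x‖² ≤ η m` with `η m → 0`, uniformly in `n`, `x`, `r`:
`g x = k lap A x - ε b(J(A x + mulv ΔB A x))`, `drf(H_r) x = k lap H_r x - ε b(H_r x)` (`b v = ‖v‖^β v`); `E‖A y - H_r y‖² ≤ 2 (conv) + 2 (inc)`, `E‖J(A + ΔB A) - A‖² ≤ C h`,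
and `b_L2` (file `Lib_MP_36b788b/SdeB.lean`): `E‖b u - b v‖² ≤ C √(E‖u - v‖²)` (moments of order `⌈4β+2⌉` from `ac_mom`, `mulv_pow`, `IsLim.mom`).
`(h • g x - ∫_{nh}^{(n+1)h} drf(H_r) x dr) = ∫ (g x - drf(H_r) x) dr`, and `E‖∫_a^b Φ dr‖² ≤ (b-a)² sup E‖Φ_r‖²` (`tint_facts` with `Φ r ω = g x ω - drf(H_r) x`, continuous in `r` for a.e. `ω`).
-/

open MeasureTheory ProbabilityTheory Filter Dyn
open scoped NNReal ENNReal Topology

namespace DynX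

variable {Ω : Type} [mΩ : MeasurableSpace Ω] {P : Measure Ω} {N d : ℕ}
    {ℱ : Filtration ℝ≥0 mΩ} {B : Site d → Fin N → Fin N → ℝ≥0 → Ω → ℝ}
    {H0 : Site d → Ω → E N} {k ε β : ℝ} {H : ℝ≥0 → Site d → Ω → E N}

private lemma XD_int_sq {f : Ω → E N} (hf : MemLp f 2 P) : Integrable (fun ω => ‖f ω‖ ^ 2) P :=
  hf.integrable_norm_pow (by norm_num)

private lemma XD_add_sq {f g : Ω → E N} (hf : MemLp f 2 P) (hg : MemLp g 2 P) :
    ∫ ω, ‖f ω + g ω‖ ^ 2 ∂P ≤ 2 * ∫ ω, ‖f ω‖ ^ 2 ∂P + 2 * ∫ ω, ‖g ω‖ ^ 2 ∂P := by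
  rw [← integral_const_mul, ← integral_const_mul, ← integral_add
    ((XD_int_sq hf).const_mul 2) ((XD_int_sq hg).const_mul 2)]
  refine integral_mono (XD_int_sq (hf.add hg)) (((XD_int_sq hf).const_mul 2).add
    ((XD_int_sq hg).const_mul 2)) fun ω => ?_
  have h := norm_add_le (f ω) (g ω)
  have h0 := norm_nonneg (f ω + g ω)
  nlinarith [sq_nonneg (‖f ω‖ - ‖g ω‖), norm_nonneg (f ω), norm_nonneg (g ω)]

private lemma XD_sub_sq {f g : Ω → E N} (hf : MemLp f 2 P) (hg : MemLp g 2 P) :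
    ∫ ω, ‖f ω - g ω‖ ^ 2 ∂P ≤ 2 * ∫ ω, ‖f ω‖ ^ 2 ∂P + 2 * ∫ ω, ‖g ω‖ ^ 2 ∂P := by
  have := XD_add_sq hf hg.neg
  simp only [Pi.neg_apply, norm_neg] at this
  simpa only [sub_eq_add_neg] using this

private lemma XD_smul_sq (c : ℝ) (f : Ω → E N) :
    ∫ ω, ‖c • f ω‖ ^ 2 ∂P = c ^ 2 * ∫ ω, ‖f ω‖ ^ 2 ∂P := by
  rw [← integral_const_mul]
  refine integral_congr_ae (Filter.Eventually.of_forall fun ω => ?_)
  show ‖c • f ω‖ ^ 2 = c ^ 2 * ‖f ω‖ ^ 2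
  rw [norm_smul, mul_pow, Real.norm_eq_abs, sq_abs]

private lemma XD_lap_sq (f : Site d → E N) (x : Site d) :
    ‖lap f x‖ ^ 2 ≤ 12 * d * ∑ i : Fin d, (‖f (x + Pi.single i 1)‖ ^ 2 +
      ‖f (x - Pi.single i 1)‖ ^ 2 + ‖f x‖ ^ 2) := by
  have h1 : ‖lap f x‖ ≤ ∑ i : Fin d, (‖f (x + Pi.single i 1)‖ +
      ‖f (x - Pi.single i 1)‖ + 2 * ‖f x‖) := by
    unfold lap
    refine (norm_sum_le _ _).trans (Finset.sum_le_sum (fun i _ => ?_))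
    have h2 := norm_add_le (f (x + Pi.single i 1) - f x) (f (x - Pi.single i 1) - f x)
    have h3 := norm_sub_le (f (x + Pi.single i 1)) (f x)
    have h4 := norm_sub_le (f (x - Pi.single i 1)) (f x)
    linarith
  have h2 : ‖lap f x‖ ^ 2 ≤ (∑ i : Fin d, (‖f (x + Pi.single i 1)‖ +
      ‖f (x - Pi.single i 1)‖ + 2 * ‖f x‖)) ^ 2 := by
    gcongr
  have h3 := sq_sum_le_card_mul_sum_sq (s := (Finset.univ : Finset (Fin d)))
    (f := fun i => ‖f (x + Pi.single i 1)‖ + ‖f (x - Pi.single i 1)‖ + 2 * ‖f x‖)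
  rw [Finset.card_univ, Fintype.card_fin] at h3
  refine (h2.trans h3).trans ?_
  have h4 : ∑ i : Fin d, (‖f (x + Pi.single i 1)‖ + ‖f (x - Pi.single i 1)‖ + 2 * ‖f x‖) ^ 2 ≤
      ∑ i : Fin d, 12 * (‖f (x + Pi.single i 1)‖ ^ 2 + ‖f (x - Pi.single i 1)‖ ^ 2 + ‖f x‖ ^ 2) := by
    refine Finset.sum_le_sum (fun i _ => ?_)
    nlinarith [sq_nonneg (‖f (x + Pi.single i 1)‖ - ‖f (x - Pi.single i 1)‖),
      sq_nonneg (‖f (x + Pi.single i 1)‖ - 2 * ‖f x‖),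
      sq_nonneg (‖f (x - Pi.single i 1)‖ - 2 * ‖f x‖), sq_nonneg ‖f (x + Pi.single i 1)‖,
      sq_nonneg ‖f (x - Pi.single i 1)‖]
  rw [← Finset.mul_sum] at h4
  calc (d : ℝ) * ∑ i : Fin d, (‖f (x + Pi.single i 1)‖ + ‖f (x - Pi.single i 1)‖ + 2 * ‖f x‖) ^ 2
      ≤ (d : ℝ) * (12 * ∑ i : Fin d, (‖f (x + Pi.single i 1)‖ ^ 2 +
        ‖f (x - Pi.single i 1)‖ ^ 2 + ‖f x‖ ^ 2)) := by gcongr
    _ = _ := by ring

private lemma XD_lap {F : Site d → Ω → E N} {C : ℝ} (hF : ∀ y, MemLp (F y) 2 P)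
    (hC : ∀ y, ∫ ω, ‖F y ω‖ ^ 2 ∂P ≤ C) (x : Site d) :
    MemLp (fun ω => lap (fun y => F y ω) x) 2 P ∧
    ∫ ω, ‖lap (fun y => F y ω) x‖ ^ 2 ∂P ≤ 12 * d * (d * (C + C + C)) := by
  have hmem : MemLp (fun ω => lap (fun y => F y ω) x) 2 P := by
    have hg : ∀ i ∈ (Finset.univ : Finset (Fin d)), MemLp (fun ω =>
        (F (x + Pi.single i 1) ω - F x ω) + (F (x - Pi.single i 1) ω - F x ω)) 2 P :=
      fun i _ => ((hF _).sub (hF x)).add ((hF _).sub (hF x))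
    exact memLp_finsetSum Finset.univ hg
  refine ⟨hmem, ?_⟩
  have hi : ∀ y, Integrable (fun ω => ‖F y ω‖ ^ 2) P := fun y => XD_int_sq (hF y)
  have hi3 : ∀ i ∈ (Finset.univ : Finset (Fin d)), Integrable (fun ω =>
      ‖F (x + Pi.single i 1) ω‖ ^ 2 + ‖F (x - Pi.single i 1) ω‖ ^ 2 + ‖F x ω‖ ^ 2) P :=
    fun i _ => ((hi _).add (hi _)).add (hi x)
  have he3 : ∀ i : Fin d, ∫ ω, (‖F (x + Pi.single i 1) ω‖ ^ 2 +
      ‖F (x - Pi.single i 1) ω‖ ^ 2 + ‖F x ω‖ ^ 2) ∂P =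
      ∫ ω, ‖F (x + Pi.single i 1) ω‖ ^ 2 ∂P + ∫ ω, ‖F (x - Pi.single i 1) ω‖ ^ 2 ∂P +
        ∫ ω, ‖F x ω‖ ^ 2 ∂P := by
    intro i
    have a1 := integral_add ((hi (x + Pi.single i 1)).add (hi (x - Pi.single i 1))) (hi x)
    have a2 := integral_add (hi (x + Pi.single i 1)) (hi (x - Pi.single i 1))
    simp only [Pi.add_apply] at a1 a2
    rw [a1, a2]
  calc ∫ ω, ‖lap (fun y => F y ω) x‖ ^ 2 ∂P
      ≤ ∫ ω, 12 * d * (∑ i : Fin d, (‖F (x + Pi.single i 1) ω‖ ^ 2 +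
        ‖F (x - Pi.single i 1) ω‖ ^ 2 + ‖F x ω‖ ^ 2)) ∂P :=
        integral_mono (XD_int_sq hmem) ((integrable_finsetSum _ hi3).const_mul _)
          (fun ω => XD_lap_sq (fun y => F y ω) x)
    _ = 12 * d * (∑ i : Fin d, (∫ ω, ‖F (x + Pi.single i 1) ω‖ ^ 2 ∂P +
        ∫ ω, ‖F (x - Pi.single i 1) ω‖ ^ 2 ∂P + ∫ ω, ‖F x ω‖ ^ 2 ∂P)) := by
        rw [integral_const_mul, integral_finsetSum _ hi3, Finset.sum_congr rfl (fun i _ => he3 i)]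
    _ ≤ 12 * d * (∑ _i : Fin d, (C + C + C)) := by
        gcongr
        · exact hC _
        · exact hC _
        · exact hC _
    _ = 12 * d * (d * (C + C + C)) := by
        rw [Finset.sum_const, Finset.card_univ, Fintype.card_fin, nsmul_eq_mul]

private lemma XD_meas {Ω : Type} (m0 : MeasurableSpace Ω) {N d : ℕ} {k ε β : ℝ}
    {F : Site d → Ω → E N} (hF : ∀ y, Measurable (F y)) (x : Site d) :
    Measurable (fun ω => drf k ε β (fun y => F y ω) x) := by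
  unfold drf lap
  fun_prop

private lemma XD_Hm (hL : IsLim P k ε β ℱ B H0 H) (t : ℝ≥0) (x : Site d) :
    Measurable (H t x) := (hL.adapted t x).mono (ℱ.le t) le_rfl

/-- moments of order `p` and two of the limit process -/
private lemma XD_mom (hL : IsLim P k ε β ℱ B H0 H) (p : ℕ) (T : ℝ≥0) :
    ∃ C : ℝ, 0 ≤ C ∧ ∀ t ≤ T, ∀ x, Integrable (fun ω => ‖H t x ω‖ ^ p) P ∧
      ∫ ω, ‖H t x ω‖ ^ p ∂P ≤ C ∧ MemLp (H t x) 2 P ∧ ∫ ω, ‖H t x ω‖ ^ 2 ∂P ≤ C := by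
  obtain ⟨C1, h1⟩ := hL.mom p T
  obtain ⟨C2, h2⟩ := hL.mom 2 T
  refine ⟨max 0 (max C1 C2), le_max_left _ _, fun t ht x => ?_⟩
  refine ⟨(h1 t ht x).1, (h1 t ht x).2.trans ((le_max_left _ _).trans (le_max_right _ _)), ?_,
    (h2 t ht x).2.trans ((le_max_right _ _).trans (le_max_right _ _))⟩
  exact (memLp_two_iff_integrable_sq_norm (XD_Hm hL t x).aestronglyMeasurable).2 (h2 t ht x).1

theorem drf_mem (hN : Noise P ℱ B H0) (hβ : 0 < β) (hL : IsLim P k ε β ℱ B H0 H) (T : ℝ≥0) :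
    ∃ C : ℝ, 0 ≤ C ∧ ∀ x : Site d,
      (∀ t, Measurable[ℱ t] (fun ω => drf k ε β (fun y => H t y ω) x)) ∧
      (∀ᵐ ω ∂P, Continuous (fun t => drf k ε β (fun y => H t y ω) x)) ∧
      (∀ t ≤ T, MemLp (fun ω => drf k ε β (fun y => H t y ω) x) 2 P ∧
        ∫ ω, ‖drf k ε β (fun y => H t y ω) x‖ ^ 2 ∂P ≤ C) ∧
      ∀ s t : ℝ≥0, s ≤ t → t ≤ T →
        MemLp (fun ω => ∫ r in (s : ℝ)..t, drf k ε β (fun y => H r.toNNReal y ω) x) 2 P ∧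
        ∫ ω, ‖∫ r in (s : ℝ)..t, drf k ε β (fun y => H r.toNNReal y ω) x‖ ^ 2 ∂P ≤
          C * ((t : ℝ) - s) ^ 2 := by
  have := hN.prob
  obtain ⟨M, hM0, hM⟩ := XD_mom hL ⌈4 * β + 2⌉₊ T
  obtain ⟨C2, hC2, hb⟩ := DynB.b_L2 N β hβ M hM0
  refine ⟨2 * (k ^ 2 * (12 * d * (d * (M + M + M)))) + 2 * (ε ^ 2 * C2), by positivity, ?_⟩
  intro x
  have hc : ∀ᵐ ω ∂P, Continuous (fun t => drf k ε β (fun y => H t y ω) x) := by
    have hall : ∀ᵐ ω ∂P, ∀ y, Continuous (fun t => H t y ω) := ae_all_iff.2 hL.cont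
    filter_upwards [hall] with ω hω
    have hr : Continuous (fun t => ‖H t x ω‖ ^ β) :=
      (hω x).norm.rpow_const (fun _ => Or.inr (by linarith))
    unfold drf lap
    refine Continuous.sub (Continuous.const_smul (continuous_finsetSum _ (fun i _ => ?_)) k)
      ((continuous_const.mul hr).smul (hω x))
    exact ((hω _).sub (hω x)).add ((hω _).sub (hω x))
  have h2 : ∀ t ≤ T, MemLp (fun ω => drf k ε β (fun y => H t y ω) x) 2 P ∧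
        ∫ ω, ‖drf k ε β (fun y => H t y ω) x‖ ^ 2 ∂P ≤
          2 * (k ^ 2 * (12 * d * (d * (M + M + M)))) + 2 * (ε ^ 2 * C2) := by
    intro t ht
    obtain ⟨hU1, hU2, -, -⟩ := hM t ht x
    have hUm := (XD_Hm hL t x).aestronglyMeasurable (μ := P)
    obtain ⟨hb1, hb2, -⟩ := hb P (H t x) (H t x) hUm hUm hU1 hU1 hU2 hU2
    obtain ⟨hl1, hl2⟩ := XD_lap (F := fun y => H t y) (fun y => (hM t ht y).2.2.1)
      (fun y => (hM t ht y).2.2.2) x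
    have he : (fun ω => drf k ε β (fun y => H t y ω) x) =
        fun ω => k • lap (fun y => H t y ω) x - ε • ((‖H t x ω‖ ^ β) • H t x ω) := by
      funext ω
      unfold drf
      rw [smul_smul]
    rw [he]
    have hk1 : MemLp (fun ω => k • lap (fun y => H t y ω) x) 2 P := hl1.const_smul k
    have hk2 : MemLp (fun ω => ε • ((‖H t x ω‖ ^ β) • H t x ω)) 2 P := hb1.const_smul ε
    have he2 := congrFun he
    refine ⟨hk1.sub hk2, ?_⟩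
    have h3 := XD_sub_sq hk1 hk2
    rw [XD_smul_sq, XD_smul_sq] at h3
    have e : ∀ ω, drf k ε β (fun y => H t y ω) x =
      k • lap (fun y => H t y ω) x - ε • ((‖H t x ω‖ ^ β) • H t x ω) := he2
    simp only [e]
    have h4 := mul_le_mul_of_nonneg_left hl2 (sq_nonneg k)
    have h5 := mul_le_mul_of_nonneg_left hb2 (sq_nonneg ε)
    linarith
  refine ⟨fun t => XD_meas (ℱ t) (fun y => hL.adapted t y) x, hc, h2, ?_⟩
  intro s t hst htT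
  exact tint_facts (fun r ω => drf k ε β (fun y => H r y ω) x) s t hst
    (fun r => (XD_meas mΩ (fun y => XD_Hm hL r y) x).aestronglyMeasurable) hc _ (by positivity)
    (fun r _ hr => h2 r (hr.trans htT))

/-- moments of one implicit step -/
private lemma XD_J (hN : Noise P ℱ B H0) (hβ : 0 < β) (hε : 0 < ε) (hk : 0 ≤ k) (T : ℝ≥0) :
    ∃ C : ℝ, 0 ≤ C ∧ ∀ h : ℝ≥0, h ≤ 1 → ∀ n : ℕ, n * h ≤ T → ∀ x : Site d,
      MemLp (fun ω => ac k ε β h B H0 n ω x) 2 P ∧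
      AEStronglyMeasurable (fun ω => J β (ε * h) (ac k ε β h B H0 n ω x +
        mulv (fun a b => B x a b ((n + 1) * h) ω - B x a b (n * h) ω)
          (ac k ε β h B H0 n ω x))) P ∧
      Integrable (fun ω => ‖J β (ε * h) (ac k ε β h B H0 n ω x +
        mulv (fun a b => B x a b ((n + 1) * h) ω - B x a b (n * h) ω)
          (ac k ε β h B H0 n ω x))‖ ^ ⌈4 * β + 2⌉₊) P ∧
      ∫ ω, ‖J β (ε * h) (ac k ε β h B H0 n ω x +
        mulv (fun a b => B x a b ((n + 1) * h) ω - B x a b (n * h) ω)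
          (ac k ε β h B H0 n ω x))‖ ^ ⌈4 * β + 2⌉₊ ∂P ≤ C ∧
      MemLp (fun ω => J β (ε * h) (ac k ε β h B H0 n ω x +
        mulv (fun a b => B x a b ((n + 1) * h) ω - B x a b (n * h) ω)
          (ac k ε β h B H0 n ω x)) - ac k ε β h B H0 n ω x) 2 P ∧
      ∫ ω, ‖J β (ε * h) (ac k ε β h B H0 n ω x +
        mulv (fun a b => B x a b ((n + 1) * h) ω - B x a b (n * h) ω)
          (ac k ε β h B H0 n ω x)) - ac k ε β h B H0 n ω x‖ ^ 2 ∂P ≤ C * h := by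
  have := hN.prob
  obtain ⟨p, hp⟩ : ∃ p, p = ⌈4 * β + 2⌉₊ := ⟨_, rfl⟩
  obtain ⟨C1, hC10, hC1⟩ := ac_mom (d := d) hN hβ hε hk p T
  obtain ⟨C2, hC20, hC2⟩ := ac_mom (d := d) hN hβ hε hk (2 * p) T
  obtain ⟨C3, hC30, hC3⟩ := ac_mom (d := d) hN hβ hε hk 2 T
  obtain ⟨Cq, hCq0, hCq⟩ := mulv_pow N p
  obtain ⟨M, hM⟩ : ∃ M : ℝ, M = 2 ^ p * (C1 + (1 + Cq * C2)) := ⟨_, rfl⟩
  have hM0 : 0 ≤ M := by rw [hM]; positivity
  obtain ⟨Cb, hCb0, hCb⟩ := DynB.b_L2 N β hβ M hM0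
  rw [← hp] at hCb ⊢
  refine ⟨M + (2 * (N * C3) + 2 * (ε ^ 2 * Cb)), by positivity, ?_⟩
  intro h hh n hn x
  have hhR : (h : ℝ) ≤ 1 := by exact_mod_cast hh
  have hh0 : (0 : ℝ) ≤ h := h.2
  have hst : (n : ℝ≥0) * h ≤ ((n : ℝ≥0) + 1) * h :=
    mul_le_mul_left (le_add_of_nonneg_right zero_le_one) h
  obtain ⟨A, hA⟩ : ∃ A : Ω → E N, A = fun ω => ac k ε β h B H0 n ω x := ⟨_, rfl⟩
  have hAω : ∀ ω, ac k ε β h B H0 n ω x = A ω := fun ω => by rw [hA]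
  have hAm : Measurable[ℱ (n * h)] A := by
    rw [hA]
    exact ac_meas hN hβ hε h n x
  have hAm' : Measurable A := hAm.mono (ℱ.le _) le_rfl
  have hAi : ∀ q : ℕ, Integrable (fun ω => ‖A ω‖ ^ q) P := fun q => by
    rw [hA]
    exact ac_mem hN hβ hε h n q x
  have hA1 : ∫ ω, ‖A ω‖ ^ p ∂P ≤ C1 := by rw [hA]; exact hC1 h hh n hn x
  have hA2 : ∫ ω, ‖A ω‖ ^ (2 * p) ∂P ≤ C2 := by rw [hA]; exact hC2 h hh n hn x
  have hA3 : ∫ ω, ‖A ω‖ ^ 2 ∂P ≤ C3 := by rw [hA]; exact hC3 h hh n hn x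
  have hAL : MemLp A 2 P :=
    (memLp_two_iff_integrable_sq_norm hAm'.aestronglyMeasurable).2 (hAi 2)
  simp only [hAω]
  obtain ⟨w, hw⟩ : ∃ w : Ω → E N, w = fun ω =>
    mulv (fun a b => B x a b ((n + 1) * h) ω - B x a b (n * h) ω) (A ω) := ⟨_, rfl⟩
  have hwω : ∀ ω, mulv (fun a b => B x a b ((n + 1) * h) ω - B x a b (n * h) ω) (A ω) = w ω :=
    fun ω => by rw [hw]
  obtain ⟨hwL, hw2, -⟩ := mulv_sq (zero_dyn hN k ε β) (n * h) ((n + 1) * h) hst x A hAm hAL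
  have hwq := hCq Ω P d ℱ B H0 hN (n * h) ((n + 1) * h) hst x A (fun _ => 1) hAm
    measurable_const
  simp only [hwω, one_mul] at hwL hw2 hwq ⊢
  have hdt : (((n + 1) * h : ℝ≥0) : ℝ) - ((n * h : ℝ≥0) : ℝ) = h := by
    push_cast
    ring
  rw [hdt] at hw2 hwq
  -- moments of `w`
  have hwpm : AEStronglyMeasurable (fun ω => ‖w ω‖ ^ (2 * p)) P := hwL.1.norm.pow _
  have hwp0 : 0 ≤ᵐ[P] fun ω => ‖w ω‖ ^ (2 * p) :=
    Filter.Eventually.of_forall fun ω => by positivity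
  have hAp0 : 0 ≤ᵐ[P] fun ω => ‖A ω‖ ^ (2 * p) :=
    Filter.Eventually.of_forall fun ω => by positivity
  rw [← ofReal_integral_eq_lintegral_ofReal (hAi (2 * p)) hAp0,
    ← ENNReal.ofReal_mul (by positivity)] at hwq
  have hwi : Integrable (fun ω => ‖w ω‖ ^ (2 * p)) P :=
    (lintegral_ofReal_ne_top_iff_integrable hwpm hwp0).1 (ne_top_of_le_ne_top
      ENNReal.ofReal_ne_top hwq)
  rw [← ofReal_integral_eq_lintegral_ofReal hwi hwp0] at hwq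
  have hAp00 : 0 ≤ ∫ ω, ‖A ω‖ ^ (2 * p) ∂P := integral_nonneg fun ω => by positivity
  have hwq2 := (ENNReal.ofReal_le_ofReal_iff (by positivity)).1 hwq
  have hwq3 : ∫ ω, ‖w ω‖ ^ (2 * p) ∂P ≤ Cq * C2 := by
    refine hwq2.trans ?_
    have h1 : (h : ℝ) ^ p ≤ 1 := pow_le_one₀ hh0 hhR
    calc Cq * (h : ℝ) ^ p * ∫ ω, ‖A ω‖ ^ (2 * p) ∂P ≤ Cq * 1 * C2 := by
          gcongr
      _ = Cq * C2 := by ring
  -- the implicit step
  have hεh : 0 ≤ ε * h := by positivity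
  obtain ⟨U, hU⟩ : ∃ U : Ω → E N, U = fun ω => J β (ε * h) (A ω + w ω) := ⟨_, rfl⟩
  have hUω : ∀ ω, J β (ε * h) (A ω + w ω) = U ω := fun ω => by rw [hU]
  have hUm : AEStronglyMeasurable U P := by
    rw [hU]
    exact (J_continuous hβ hεh).comp_aestronglyMeasurable (hAL.1.add hwL.1)
  have hUb : ∀ ω, ‖U ω‖ ^ p ≤ 2 ^ p * (‖A ω‖ ^ p + (1 + ‖w ω‖ ^ (2 * p))) := by
    intro ω
    have h1 : ‖U ω‖ ≤ ‖A ω‖ + ‖w ω‖ := by
      rw [hU]
      refine le_trans ?_ (norm_add_le _ _)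
      show ‖J β (ε * h) (A ω + w ω)‖ ≤ _
      rw [norm_J hβ hεh]
      exact psi_le hβ hεh (norm_nonneg _)
    have h2 : ‖U ω‖ ^ p ≤ (‖A ω‖ + ‖w ω‖) ^ p := pow_le_pow_left₀ (norm_nonneg _) h1 p
    have h3 := add_pow_le (norm_nonneg (A ω)) (norm_nonneg (w ω)) p
    have h4 : ‖w ω‖ ^ p ≤ 1 + ‖w ω‖ ^ (2 * p) := by
      have e : ‖w ω‖ ^ (2 * p) = (‖w ω‖ ^ p) ^ 2 := by rw [mul_comm, pow_mul]
      rw [e]
      nlinarith [sq_nonneg (‖w ω‖ ^ p - 1)]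
    have h5 : (2 : ℝ) ^ (p - 1) ≤ 2 ^ p := pow_le_pow_right₀ (by norm_num) (Nat.sub_le _ _)
    calc ‖U ω‖ ^ p ≤ 2 ^ (p - 1) * (‖A ω‖ ^ p + ‖w ω‖ ^ p) := h2.trans h3
      _ ≤ 2 ^ p * (‖A ω‖ ^ p + (1 + ‖w ω‖ ^ (2 * p))) := by gcongr
  have hdom : Integrable (fun ω => 2 ^ p * (‖A ω‖ ^ p + (1 + ‖w ω‖ ^ (2 * p)))) P :=
    ((hAi p).add ((integrable_const 1).add hwi)).const_mul _
  have hUi : Integrable (fun ω => ‖U ω‖ ^ p) P := by
    refine hdom.mono' (hUm.norm.pow p) (Filter.Eventually.of_forall fun ω => ?_)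
    rw [Real.norm_of_nonneg (by positivity)]
    exact hUb ω
  have hUM : ∫ ω, ‖U ω‖ ^ p ∂P ≤ M := by
    refine (integral_mono hUi hdom hUb).trans ?_
    have hi1 : Integrable (fun ω => 1 + ‖w ω‖ ^ (2 * p)) P := (integrable_const 1).add hwi
    rw [integral_const_mul, integral_add (hAi p) hi1, integral_add (integrable_const 1) hwi]
    simp only [integral_const, probReal_univ, smul_eq_mul, mul_one]
    rw [hM]
    gcongr
  obtain ⟨hb1, hb2, -⟩ := hCb P U U hUm hUm hUi hUi hUM hUM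
  have hdiff : ∀ ω, U ω - A ω = w ω - (ε * h) • ((‖U ω‖ ^ β) • U ω) := by
    intro ω
    have h1 := J_eq hβ hεh (A ω + w ω)
    rw [hUω] at h1
    rw [smul_smul, sub_eq_sub_iff_add_eq_add, h1, add_comm]
  have hk2 : MemLp (fun ω => (ε * h) • ((‖U ω‖ ^ β) • U ω)) 2 P := hb1.const_smul (ε * (h : ℝ))
  simp only [hUω]
  refine ⟨hAL, hUm, hUi, hUM.trans ?_, ?_, ?_⟩
  · have : 0 ≤ 2 * (N * C3) + 2 * (ε ^ 2 * Cb) := by positivity
    linarith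
  · simp only [hdiff]
    exact hwL.sub hk2
  · simp only [hdiff]
    refine (XD_sub_sq hwL hk2).trans ?_
    rw [XD_smul_sq, hw2]
    have h1 : (N : ℝ) * h * ∫ ω, ‖A ω‖ ^ 2 ∂P ≤ N * h * C3 := by gcongr
    have h2 : (ε * h) ^ 2 * ∫ ω, ‖(‖U ω‖ ^ β) • U ω‖ ^ 2 ∂P ≤ (ε ^ 2 * h) * Cb := by
      have h3 : (ε * h) ^ 2 ≤ ε ^ 2 * h := by
        rw [mul_pow]
        have : (h : ℝ) ^ 2 ≤ h := by nlinarith
        gcongr
      gcongr
    have h4 : 0 ≤ M * h := by positivity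
    nlinarith [h1, h2, h4]

/-- the chain against the limit process on one step -/
private lemma XD_A (hN : Noise P ℱ B H0) (hβ : 0 < β) (hε : 0 < ε)
    (hL : IsLim P k ε β ℱ B H0 H) (T : ℝ≥0) :
    ∃ C : ℝ, 0 ≤ C ∧ ∀ m n : ℕ, (n + 1) * hm m ≤ T → ∀ r : ℝ≥0, n * hm m ≤ r →
      r ≤ (n + 1) * hm m → ∀ y : Site d,
        MemLp (fun ω => ac k ε β (hm m) B H0 n ω y - H r y ω) 2 P ∧
        ∫ ω, ‖ac k ε β (hm m) B H0 n ω y - H r y ω‖ ^ 2 ∂P ≤ C * Real.sqrt (hm m) := by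
  have := hN.prob
  obtain ⟨C1, hC10, hC1⟩ := hL.conv T
  obtain ⟨C2, hC20, hC2⟩ := hL.inc T
  obtain ⟨M, hM0, hM⟩ := XD_mom hL 2 T
  refine ⟨2 * C1 + 2 * C2, by positivity, ?_⟩
  intro m n hn r hr1 hr2 y
  have hst : (n : ℝ≥0) * hm m ≤ ((n : ℝ≥0) + 1) * hm m :=
    mul_le_mul_left (le_add_of_nonneg_right zero_le_one) (hm m)
  have hsT := hst.trans hn
  have hrT := hr2.trans hn
  have hAL : MemLp (fun ω => ac k ε β (hm m) B H0 n ω y) 2 P := by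
    have hm1 : AEStronglyMeasurable (fun ω => ac k ε β (hm m) B H0 n ω y) P :=
      ((ac_meas (k := k) hN hβ hε (hm m) n y).mono (ℱ.le _) le_rfl).aestronglyMeasurable
    exact (memLp_two_iff_integrable_sq_norm hm1).2 (ac_mem hN hβ hε (hm m) n 2 y)
  have hs := (hM _ hsT y).2.2.1
  have hr := (hM _ hrT y).2.2.1
  refine ⟨hAL.sub hr, ?_⟩
  have e : ∀ ω, ac k ε β (hm m) B H0 n ω y - H r y ω =
      (ac k ε β (hm m) B H0 n ω y - H (n * hm m) y ω) + (H (n * hm m) y ω - H r y ω) := fun ω => by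
    abel
  simp only [e]
  have h1 := XD_add_sq (hAL.sub hs) (hs.sub hr)
  simp only [Pi.sub_apply] at h1
  have h2 := hC1 m n hsT y
  have h3 := hC2 _ r hr1 hrT y
  have e2 : ∫ ω, ‖ac k ε β (hm m) B H0 n ω y - H (n * hm m) y ω‖ ^ 2 ∂P =
      ∫ ω, ‖H (n * hm m) y ω - ac k ε β (hm m) B H0 n ω y‖ ^ 2 ∂P := by
    simp only [norm_sub_rev]
  have e3 : ∫ ω, ‖H (n * hm m) y ω - H r y ω‖ ^ 2 ∂P =
      ∫ ω, ‖H r y ω - H (n * hm m) y ω‖ ^ 2 ∂P := by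
    simp only [norm_sub_rev]
  rw [e2, e3] at h1
  have hhm1 : ((hm m : ℝ≥0) : ℝ) ≤ 1 := by
    unfold hm
    push_cast
    exact pow_le_one₀ (by norm_num) (by norm_num)
  have hhm0 : (0 : ℝ) ≤ ((hm m : ℝ≥0) : ℝ) := (hm m).2
  have h4 : (r : ℝ) - ((n * hm m : ℝ≥0) : ℝ) ≤ Real.sqrt (hm m) := by
    have h5 : (r : ℝ) ≤ ((n + 1) * hm m : ℝ≥0) := by exact_mod_cast hr2
    have h6 : (((n + 1) * hm m : ℝ≥0) : ℝ) = ((n * hm m : ℝ≥0) : ℝ) + hm m := by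
      push_cast
      ring
    have h7 : ((hm m : ℝ≥0) : ℝ) ≤ Real.sqrt (hm m) := by
      apply Real.le_sqrt_of_sq_le
      nlinarith
    linarith
  have h8 := mul_le_mul_of_nonneg_left h4 hC20
  linarith

private lemma XD_hm_tendsto : Tendsto (fun m : ℕ => ((hm m : ℝ≥0) : ℝ)) atTop (𝓝 0) := by
  unfold hm
  push_cast
  exact tendsto_pow_atTop_nhds_zero_of_lt_one (by norm_num) (by norm_num)

/-- the drift of one step against the drift of the limit process -/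
private lemma XD_phi (hN : Noise P ℱ B H0) (hβ : 0 < β) (hε : 0 < ε) (hk : 0 ≤ k)
    (hL : IsLim P k ε β ℱ B H0 H) (T : ℝ≥0) (δ : ℝ) (hδ : 0 < δ) :
    ∃ m1 : ℕ, ∀ m, m1 ≤ m → ∀ n : ℕ, (n + 1) * hm m ≤ T → ∀ x : Site d, ∀ r : ℝ≥0,
      n * hm m ≤ r → r ≤ (n + 1) * hm m →
      MemLp (fun ω => ag k ε β (hm m) B H0 n ω x - drf k ε β (fun y => H r y ω) x) 2 P ∧
      ∫ ω, ‖ag k ε β (hm m) B H0 n ω x - drf k ε β (fun y => H r y ω) x‖ ^ 2 ∂P ≤ δ := by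
  have := hN.prob
  obtain ⟨CA, hCA0, hCA⟩ := XD_A hN hβ hε hL T
  obtain ⟨CJ, hCJ0, hCJ⟩ := XD_J (d := d) hN hβ hε hk T
  obtain ⟨M, hM0, hM⟩ := XD_mom hL ⌈4 * β + 2⌉₊ T
  obtain ⟨Cb, hCb0, hCb⟩ := DynB.b_L2 N β hβ (max CJ M) (hM0.trans (le_max_right _ _))
  obtain ⟨K1, hK1⟩ : ∃ K : ℝ, K = 2 * (k ^ 2 * (12 * d * (d * (CA + CA + CA)))) := ⟨_, rfl⟩
  obtain ⟨K2, hK2⟩ : ∃ K : ℝ, K = 2 * (ε ^ 2 * Cb) := ⟨_, rfl⟩
  have hK20 : 0 ≤ K2 := by rw [hK2]; positivity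
  have hlim : Tendsto (fun m : ℕ => K1 * Real.sqrt (hm m) +
      K2 * Real.sqrt ((2 * CJ + 2 * CA) * Real.sqrt (hm m))) atTop (𝓝 0) := by
    have hG : Continuous (fun y : ℝ => K1 * Real.sqrt y +
      K2 * Real.sqrt ((2 * CJ + 2 * CA) * Real.sqrt y)) := by fun_prop
    have h1 := (hG.tendsto 0).comp XD_hm_tendsto
    simpa [Function.comp_def] using h1
  obtain ⟨m1, hm1⟩ := Filter.eventually_atTop.1 (hlim.eventually (gt_mem_nhds hδ))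
  refine ⟨m1, ?_⟩
  intro m hmm n hn x r hr1 hr2
  have hst : (n : ℝ≥0) * hm m ≤ ((n : ℝ≥0) + 1) * hm m :=
    mul_le_mul_left (le_add_of_nonneg_right zero_le_one) (hm m)
  have hsT := hst.trans hn
  have hrT := hr2.trans hn
  have hhm1 : ((hm m : ℝ≥0) : ℝ) ≤ 1 := by
    unfold hm
    push_cast
    exact pow_le_one₀ (by norm_num) (by norm_num)
  have hhm0 : (0 : ℝ) ≤ ((hm m : ℝ≥0) : ℝ) := (hm m).2
  have hhm1' : hm m ≤ 1 := by exact_mod_cast hhm1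
  have hsq : ((hm m : ℝ≥0) : ℝ) ≤ Real.sqrt (hm m) := by
    apply Real.le_sqrt_of_sq_le
    nlinarith
  obtain ⟨hl1, hl2⟩ := XD_lap (F := fun y ω => ac k ε β (hm m) B H0 n ω y - H r y ω)
    (fun y => (hCA m n hn r hr1 hr2 y).1) (fun y => (hCA m n hn r hr1 hr2 y).2) x
  obtain ⟨hAL, hUm, hUi, hUM, hUA, hUA2⟩ := hCJ (hm m) hhm1' n hsT x
  obtain ⟨hVi, hVM, hVL, -⟩ := hM r hrT x
  obtain ⟨hAH, hAH2⟩ := hCA m n hn r hr1 hr2 x
  have hVm := (XD_Hm hL r x).aestronglyMeasurable (μ := P)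
  obtain ⟨U, hU⟩ : ∃ U : Ω → E N, U = fun ω => J β (ε * hm m) (ac k ε β (hm m) B H0 n ω x +
        mulv (fun a b => B x a b ((n + 1) * hm m) ω - B x a b (n * hm m) ω)
          (ac k ε β (hm m) B H0 n ω x)) := ⟨_, rfl⟩
  have hUω : ∀ ω, J β (ε * hm m) (ac k ε β (hm m) B H0 n ω x +
        mulv (fun a b => B x a b ((n + 1) * hm m) ω - B x a b (n * hm m) ω)
          (ac k ε β (hm m) B H0 n ω x)) = U ω := fun ω => by rw [hU]
  simp only [hUω] at hUm hUi hUM hUA hUA2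
  obtain ⟨hb1, hb2, hb3⟩ := hCb P U (H r x) hUm hVm hUi hVi (hUM.trans (le_max_left _ _))
    (hVM.trans (le_max_right _ _))
  obtain ⟨hc1, -, -⟩ := hCb P (H r x) (H r x) hVm hVm hVi hVi (hVM.trans (le_max_right _ _))
    (hVM.trans (le_max_right _ _))
  -- the difference
  have hlin : ∀ ω, lap (fun y => ac k ε β (hm m) B H0 n ω y - H r y ω) x =
      lap (ac k ε β (hm m) B H0 n ω) x - lap (fun y => H r y ω) x := by
    intro ω
    unfold lap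
    rw [← Finset.sum_sub_distrib]
    refine Finset.sum_congr rfl fun i _ => ?_
    beta_reduce
    generalize ac k ε β (hm m) B H0 n ω (x + Pi.single i 1) = a1
    generalize ac k ε β (hm m) B H0 n ω (x - Pi.single i 1) = a2
    generalize H r (x + Pi.single i 1) ω = a3
    generalize H r (x - Pi.single i 1) ω = a4
    abel
  have e : ∀ ω, ag k ε β (hm m) B H0 n ω x - drf k ε β (fun y => H r y ω) x =
      k • lap (fun y => ac k ε β (hm m) B H0 n ω y - H r y ω) x -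
        ε • ((‖U ω‖ ^ β) • U ω - (‖H r x ω‖ ^ β) • H r x ω) := by
    intro ω
    unfold ag drf
    rw [hlin ω, hUω ω, smul_sub, smul_sub, smul_smul, smul_smul]
    abel
  simp only [e]
  have hk1 : MemLp (fun ω => k • lap (fun y => ac k ε β (hm m) B H0 n ω y - H r y ω) x) 2 P :=
    hl1.const_smul k
  have hk2 : MemLp (fun ω => ε • ((‖U ω‖ ^ β) • U ω - (‖H r x ω‖ ^ β) • H r x ω)) 2 P :=
    (hb1.sub hc1).const_smul ε
  refine ⟨hk1.sub hk2, ?_⟩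
  refine (XD_sub_sq hk1 hk2).trans ?_
  rw [XD_smul_sq, XD_smul_sq]
  refine le_trans ?_ (hm1 m hmm).le
  have h1 : ∫ ω, ‖U ω - H r x ω‖ ^ 2 ∂P ≤ (2 * CJ + 2 * CA) * Real.sqrt (hm m) := by
    have e1 : ∀ ω, U ω - H r x ω = (U ω - ac k ε β (hm m) B H0 n ω x) +
        (ac k ε β (hm m) B H0 n ω x - H r x ω) := fun ω => by abel
    simp only [e1]
    refine (XD_add_sq hUA hAH).trans ?_
    have := mul_le_mul_of_nonneg_left hsq hCJ0
    linarith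
  have h2 : Cb * Real.sqrt (∫ ω, ‖U ω - H r x ω‖ ^ 2 ∂P) ≤
      Cb * Real.sqrt ((2 * CJ + 2 * CA) * Real.sqrt (hm m)) :=
    mul_le_mul_of_nonneg_left (Real.sqrt_le_sqrt h1) hCb0.le
  have h3 := mul_le_mul_of_nonneg_left (hb3.trans h2) (sq_nonneg ε)
  have h4 := mul_le_mul_of_nonneg_left hl2 (sq_nonneg k)
  rw [hK1, hK2]
  nlinarith [h3, h4]

theorem drf_app (hN : Noise P ℱ B H0) (hβ : 0 < β) (hε : 0 < ε) (hk : 0 ≤ k)
    (hL : IsLim P k ε β ℱ B H0 H) (T : ℝ≥0) (δ : ℝ) (hδ : 0 < δ) :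
    ∃ m1 : ℕ, ∀ m, m1 ≤ m → ∀ n : ℕ, (n + 1) * hm m ≤ T → ∀ x : Site d,
      MemLp (fun ω => ((hm m : ℝ≥0) : ℝ) • ag k ε β (hm m) B H0 n ω x -
        ∫ r in ((n * hm m : ℝ≥0) : ℝ)..(((n + 1) * hm m : ℝ≥0) : ℝ),
          drf k ε β (fun y => H r.toNNReal y ω) x) 2 P ∧
      ∫ ω, ‖((hm m : ℝ≥0) : ℝ) • ag k ε β (hm m) B H0 n ω x -
        ∫ r in ((n * hm m : ℝ≥0) : ℝ)..(((n + 1) * hm m : ℝ≥0) : ℝ),
          drf k ε β (fun y => H r.toNNReal y ω) x‖ ^ 2 ∂P ≤ δ * (hm m : ℝ) ^ 2 := by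
  have := hN.prob
  obtain ⟨m1, hm1⟩ := XD_phi hN hβ hε hk hL T δ hδ
  obtain ⟨CD, hCD0, hCD⟩ := drf_mem hN hβ hL T
  refine ⟨m1, ?_⟩
  intro m hmm n hn x
  have hst : (n : ℝ≥0) * hm m ≤ ((n : ℝ≥0) + 1) * hm m :=
    mul_le_mul_left (le_add_of_nonneg_right zero_le_one) (hm m)
  have hphi := hm1 m hmm n hn x
  obtain ⟨hd1, hd2, hd3, -⟩ := hCD x
  have hag : AEStronglyMeasurable (fun ω => ag k ε β (hm m) B H0 n ω x) P := by
    have h1 := (hphi (n * hm m) le_rfl hst).1.1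
    have h2 := ((hd1 (n * hm m)).mono (ℱ.le _) le_rfl).aestronglyMeasurable (μ := P)
    have h3 := h1.add h2
    refine h3.congr (Filter.Eventually.of_forall fun ω => ?_)
    exact sub_add_cancel (ag k ε β (hm m) B H0 n ω x) _
  have hc : ∀ᵐ ω ∂P, Continuous (fun r => ag k ε β (hm m) B H0 n ω x -
      drf k ε β (fun y => H r y ω) x) := by
    filter_upwards [hd2] with ω hω
    exact continuous_const.sub hω
  have ht := tint_facts (fun r ω => ag k ε β (hm m) B H0 n ω x -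
    drf k ε β (fun y => H r y ω) x) (n * hm m) ((n + 1) * hm m) hst
    (fun r => hag.sub ((hd1 r).mono (ℱ.le _) le_rfl).aestronglyMeasurable) hc δ hδ.le
    (fun r hr1 hr2 => hphi r hr1 hr2)
  have hdt : (((n + 1) * hm m : ℝ≥0) : ℝ) - ((n * hm m : ℝ≥0) : ℝ) = hm m := by
    push_cast
    ring
  have heq : (fun ω => ∫ r in ((n * hm m : ℝ≥0) : ℝ)..(((n + 1) * hm m : ℝ≥0) : ℝ),
      (ag k ε β (hm m) B H0 n ω x - drf k ε β (fun y => H r.toNNReal y ω) x)) =ᵐ[P]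
      fun ω => ((hm m : ℝ≥0) : ℝ) • ag k ε β (hm m) B H0 n ω x -
        ∫ r in ((n * hm m : ℝ≥0) : ℝ)..(((n + 1) * hm m : ℝ≥0) : ℝ),
          drf k ε β (fun y => H r.toNNReal y ω) x := by
    filter_upwards [hd2] with ω hω
    have h1 : Continuous (fun r : ℝ => drf k ε β (fun y => H r.toNNReal y ω) x) :=
      hω.comp continuous_real_toNNReal
    rw [intervalIntegral.integral_sub intervalIntegrable_const (h1.intervalIntegrable _ _),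
      intervalIntegral.integral_const, hdt]
  refine ⟨ht.1.ae_eq heq, ?_⟩
  have h2 := ht.2
  rw [hdt] at h2
  refine le_trans (le_of_eq ?_) h2
  refine integral_congr_ae ?_
  filter_upwards [heq] with ω hω
  rw [hω]

end DynX
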