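import Pool.Agent.Lib_MP_36b788x.XM2

/-!
# Fourth moments of the increments of the Euler chain

`g` (drift of one step) is defined by `ac (n+1) x = ac n x + mulv ΔB_n (ac n x) + h • g n x`.

PROOF. `ac_step_eq`: `J_eq`: `J v = v - (ε h ‖J v‖^β) • J v`.
`ac_inc`: `ac m - ac n = S + h Σ_{i<m-n} g (n+i)`. Second part: `(h Σ ‖g‖)^4 ≤ ((m-n)h)^3 h Σ ‖g‖^4 ≤ C ((m-n) h)^4` (`‖g‖^4` has bounded mean by `ac_mom` with a
large `p`: `‖ε ‖J‖^β J‖ ≤ ε (1 + ‖v‖^{⌈β⌉+1})`, `v = A + mulv ΔB A`, `mulv_pow`). First part: `S_{j+1} = S_j + w`, `w = mulv ΔB_j A_j`: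
`‖S+w‖^4 ≤ ‖S‖^4 + 4‖S‖²⟪S,w⟫ + 8 ‖S‖²‖w‖² + 3‖w‖^4`. Mean: the second term vanishes (`mulv_sq` with `Z = ‖S‖² S`), `E‖S‖²‖w‖² ≤ C h E‖S‖²‖A‖² ≤ C h √(E‖S‖^4) √(E‖A‖^4)`,
`E‖w‖^4 ≤ C h²`: `y_{j+1} ≤ y_j + C h √y_j + C h² ≤ (√y_j + C' h)²`, so `y_j ≤ (C' j h)²`. (`mulv_pow` with `q = 1`, `Z = ‖S‖²` and `q = 2`, `Z = 1`.)
-/

open MeasureTheory ProbabilityTheory Filter Dyn
open scoped NNReal ENNReal Topology

namespace DynX

variable {Ω : Type} [mΩ : MeasurableSpace Ω] {P : Measure Ω} {N d : ℕ}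
    {ℱ : Filtration ℝ≥0 mΩ} {B : Site d → Fin N → Fin N → ℝ≥0 → Ω → ℝ}
    {H0 : Site d → Ω → E N} {k ε β : ℝ}

/-- drift of one step of the chain -/
noncomputable def ag {Ω : Type} {N d : ℕ} (k ε β : ℝ) (h : ℝ≥0)
    (B : Site d → Fin N → Fin N → ℝ≥0 → Ω → ℝ) (H0 : Site d → Ω → E N) (n : ℕ) (ω : Ω)
    (x : Site d) : E N :=
  k • lap (ac k ε β h B H0 n ω) x -
    (ε * ‖J β (ε * h) (ac k ε β h B H0 n ω x +
        mulv (fun a b => B x a b ((n + 1) * h) ω - B x a b (n * h) ω)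
          (ac k ε β h B H0 n ω x))‖ ^ β) •
      J β (ε * h) (ac k ε β h B H0 n ω x +
        mulv (fun a b => B x a b ((n + 1) * h) ω - B x a b (n * h) ω) (ac k ε β h B H0 n ω x))

/-! ## Auxiliary facts -/

section aux

/-- noise term of one step -/
private noncomputable def wn {Ω : Type} {N d : ℕ} (k ε β : ℝ) (h : ℝ≥0)
    (B : Site d → Fin N → Fin N → ℝ≥0 → Ω → ℝ) (H0 : Site d → Ω → E N) (n : ℕ) (ω : Ω)
    (x : Site d) : E N :=
  mulv (fun a b => B x a b ((n + 1) * h) ω - B x a b (n * h) ω) (ac k ε β h B H0 n ω x)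

private theorem XI_meas0 {Ω : Type} (m0 : MeasurableSpace Ω) {N : ℕ}
    (b : Fin N → Fin N → Ω → ℝ) (hb : ∀ i j, Measurable (b i j)) (V : Ω → E N)
    (hV : Measurable V) : Measurable (fun ω => mulv (fun i j => b i j ω) (V ω)) := by
  have h1 : Measurable (fun ω => (fun (i j : Fin N) => b i j ω)) :=
    measurable_pi_iff.2 fun i => measurable_pi_iff.2 fun j => hb i j
  exact (mulv_continuous N).measurable.comp (h1.prodMk hV)

private theorem XI_meas (hN : Noise P ℱ B H0) (s t : ℝ≥0) (hst : s ≤ t) (x : Site d)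
    (V : Ω → E N) (hV : Measurable[ℱ s] V) :
    Measurable[ℱ t] (fun ω => mulv (fun a b => B x a b t ω - B x a b s ω) (V ω)) := by
  exact XI_meas0 (ℱ t) (fun a b ω => B x a b t ω - B x a b s ω)
    (fun a b => (inc_meas (zero_dyn hN 0 0 0) s t hst x a b).1) V (hV.mono (ℱ.mono hst) le_rfl)

private theorem XI_pow (N q : ℕ) : ∃ C : ℝ, 0 ≤ C ∧ ∀ (Ω : Type) [mΩ : MeasurableSpace Ω]
    (P : Measure Ω) (d : ℕ) (ℱ : Filtration ℝ≥0 mΩ) (B : Site d → Fin N → Fin N → ℝ≥0 → Ω → ℝ)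
    (H0 : Site d → Ω → E N), Noise P ℱ B H0 → ∀ s t : ℝ≥0, s ≤ t → ∀ (x : Site d)
    (V : Ω → E N) (Z : Ω → ℝ), Measurable[ℱ s] V → Measurable[ℱ s] Z → (∀ ω, 0 ≤ Z ω) →
      Integrable (fun ω => Z ω * ‖V ω‖ ^ (2 * q)) P →
      Integrable (fun ω => Z ω *
        ‖mulv (fun a b => B x a b t ω - B x a b s ω) (V ω)‖ ^ (2 * q)) P ∧
      ∫ ω, Z ω * ‖mulv (fun a b => B x a b t ω - B x a b s ω) (V ω)‖ ^ (2 * q) ∂P ≤
        C * ((t : ℝ) - s) ^ q * ∫ ω, Z ω * ‖V ω‖ ^ (2 * q) ∂P := by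
  obtain ⟨C, hC, h⟩ := mulv_pow N q
  refine ⟨C, hC, fun Ω mΩ P d ℱ B H0 hN s t hst x V Z hV hZ hZ0 hi => ?_⟩
  have h1 := h Ω P d ℱ B H0 hN s t hst x V (fun ω => ENNReal.ofReal (Z ω)) hV
    (ENNReal.measurable_ofReal.comp hZ)
  have hts : (0 : ℝ) ≤ (t : ℝ) - s := sub_nonneg.2 (by exact_mod_cast hst)
  have e : ∀ Y : Ω → ℝ, (∫⁻ ω, ENNReal.ofReal (Z ω) * ENNReal.ofReal (Y ω) ∂P) =
      ∫⁻ ω, ENNReal.ofReal (Z ω * Y ω) ∂P := fun Y =>
    lintegral_congr fun ω => (ENNReal.ofReal_mul (hZ0 ω)).symm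
  rw [e, e] at h1
  have hw : Measurable (fun ω => mulv (fun a b => B x a b t ω - B x a b s ω) (V ω)) :=
    (XI_meas hN s t hst x V hV).mono (ℱ.le t) le_rfl
  have hZm : Measurable Z := hZ.mono (ℱ.le s) le_rfl
  have h0 : ∀ ω, 0 ≤ Z ω * ‖mulv (fun a b => B x a b t ω - B x a b s ω) (V ω)‖ ^ (2 * q) :=
    fun ω => mul_nonneg (hZ0 ω) (by positivity)
  have h0' : ∀ ω, 0 ≤ Z ω * ‖V ω‖ ^ (2 * q) := fun ω => mul_nonneg (hZ0 ω) (by positivity)
  rw [← ofReal_integral_eq_lintegral_ofReal hi (Filter.Eventually.of_forall h0'),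
    ← ENNReal.ofReal_mul (by positivity)] at h1
  have hint : Integrable (fun ω => Z ω *
      ‖mulv (fun a b => B x a b t ω - B x a b s ω) (V ω)‖ ^ (2 * q)) P := by
    refine ⟨(hZm.mul (hw.norm.pow_const _)).aestronglyMeasurable, ?_⟩
    rw [hasFiniteIntegral_iff_ofReal (Filter.Eventually.of_forall h0)]
    exact lt_of_le_of_lt h1 ENNReal.ofReal_lt_top
  refine ⟨hint, ?_⟩
  rw [← ofReal_integral_eq_lintegral_ofReal hint (Filter.Eventually.of_forall h0)] at h1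
  refine (ENNReal.ofReal_le_ofReal_iff ?_).1 h1
  exact mul_nonneg (by positivity) (integral_nonneg h0')

/-! closure properties of upper bounds of integrals -/

private theorem bd_add {f g : Ω → ℝ} {a b : ℝ} (hf : Integrable f P ∧ ∫ ω, f ω ∂P ≤ a)
    (hg : Integrable g P ∧ ∫ ω, g ω ∂P ≤ b) :
    Integrable (fun ω => f ω + g ω) P ∧ ∫ ω, (f ω + g ω) ∂P ≤ a + b := by
  refine ⟨hf.1.add hg.1, ?_⟩
  rw [integral_add hf.1 hg.1]
  exact add_le_add hf.2 hg.2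

private theorem bd_mul {f : Ω → ℝ} {a c : ℝ} (hc : 0 ≤ c)
    (hf : Integrable f P ∧ ∫ ω, f ω ∂P ≤ a) :
    Integrable (fun ω => c * f ω) P ∧ ∫ ω, c * f ω ∂P ≤ c * a := by
  refine ⟨hf.1.const_mul c, ?_⟩
  rw [integral_const_mul]
  exact mul_le_mul_of_nonneg_left hf.2 hc

private theorem bd_sum {ι : Type} (s : Finset ι) {f : ι → Ω → ℝ} {a : ℝ}
    (hf : ∀ i ∈ s, Integrable (f i) P ∧ ∫ ω, f i ω ∂P ≤ a) :
    Integrable (fun ω => ∑ i ∈ s, f i ω) P ∧ ∫ ω, ∑ i ∈ s, f i ω ∂P ≤ s.card * a := by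
  refine ⟨integrable_finsetSum _ fun i hi => (hf i hi).1, ?_⟩
  rw [integral_finsetSum _ fun i hi => (hf i hi).1]
  calc ∑ i ∈ s, ∫ ω, f i ω ∂P ≤ ∑ _i ∈ s, a := Finset.sum_le_sum fun i hi => (hf i hi).2
    _ = s.card * a := by rw [Finset.sum_const, nsmul_eq_mul]

private theorem bd_mono {f g : Ω → ℝ} {a : ℝ} (hfm : Measurable f) (h0 : ∀ ω, 0 ≤ f ω)
    (hfg : ∀ ω, f ω ≤ g ω) (hg : Integrable g P ∧ ∫ ω, g ω ∂P ≤ a) :
    Integrable f P ∧ ∫ ω, f ω ∂P ≤ a := by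
  have hi : Integrable f P := by
    refine hg.1.mono' hfm.aestronglyMeasurable (Filter.Eventually.of_forall fun ω => ?_)
    rw [Real.norm_of_nonneg (h0 ω)]
    exact hfg ω
  exact ⟨hi, (integral_mono hi hg.1 hfg).trans hg.2⟩

private theorem XI_two {a b : ℝ} (ha : 0 ≤ a) (hb : 0 ≤ b) :
    (a + b) ^ 4 ≤ 8 * (a ^ 4 + b ^ 4) := by
  have h := add_pow_le ha hb 4
  norm_num at h
  exact h

private theorem XI_four {a b c e : ℝ} (ha : 0 ≤ a) (hb : 0 ≤ b) (hc : 0 ≤ c) (he : 0 ≤ e) :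
    (a + b + (c + e)) ^ 4 ≤ 64 * (a ^ 4 + b ^ 4 + (c ^ 4 + e ^ 4)) := by
  have h1 := XI_two (add_nonneg ha hb) (add_nonneg hc he)
  have h2 := XI_two ha hb
  have h3 := XI_two hc he
  linarith

private theorem XI_lap (f : Site d → E N) (x : Site d) :
    ‖lap f x‖ ^ 4 ≤ (d : ℝ) ^ 3 * ∑ i : Fin d, 64 * (‖f (x + Pi.single i 1)‖ ^ 4 + ‖f x‖ ^ 4 +
      (‖f (x - Pi.single i 1)‖ ^ 4 + ‖f x‖ ^ 4)) := by
  have h1 : ‖lap f x‖ ≤ ∑ i : Fin d, (‖f (x + Pi.single i 1)‖ + ‖f x‖ +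
      (‖f (x - Pi.single i 1)‖ + ‖f x‖)) := by
    unfold lap
    refine (norm_sum_le _ _).trans (Finset.sum_le_sum fun i _ => ?_)
    exact (norm_add_le _ _).trans (add_le_add (norm_sub_le _ _) (norm_sub_le _ _))
  have h2 := pow_sum_le_card_mul_sum_pow (s := (Finset.univ : Finset (Fin d)))
    (f := fun i => ‖f (x + Pi.single i 1)‖ + ‖f x‖ + (‖f (x - Pi.single i 1)‖ + ‖f x‖))
    (fun i _ => by positivity) 3
  rw [Finset.card_univ, Fintype.card_fin] at h2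
  refine (pow_le_pow_left₀ (norm_nonneg _) h1 4).trans (h2.trans ?_)
  refine mul_le_mul_of_nonneg_left (Finset.sum_le_sum fun i _ => ?_) (by positivity)
  exact XI_four (norm_nonneg _) (norm_nonneg _) (norm_nonneg _) (norm_nonneg _)

private theorem XI_summ {Ω : Type} (m0 : MeasurableSpace Ω) (f : ℕ → Ω → E N) (j : ℕ)
    (hf : ∀ i < j, Measurable (f i)) : Measurable (fun ω => ∑ i ∈ Finset.range j, f i ω) :=
  Finset.measurable_sum _ fun i hi => hf i (Finset.mem_range.1 hi)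

private theorem XI_lapm {Ω : Type} (m0 : MeasurableSpace Ω) (f : Site d → Ω → E N)
    (hf : ∀ y, Measurable (f y)) (x : Site d) : Measurable (fun ω => lap (fun y => f y ω) x) := by
  unfold lap
  exact Finset.measurable_sum _ fun i _ => ((hf _).sub (hf _)).add ((hf _).sub (hf _))

private theorem XI_y {y : ℝ} (hy : 0 ≤ y) (hβ : 0 < β) {q : ℕ} (hq : 2 * (β + 1) ≤ q) :
    (y ^ β * y) ^ 4 ≤ 1 + y ^ (2 * q) := by
  have e : (y ^ β * y) ^ 4 = y ^ ((β + 1) * (4 : ℕ) : ℝ) := by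
    rw [Real.rpow_mul hy, Real.rpow_natCast]
    congr 1
    rw [Real.rpow_add_one' hy (by linarith)]
  rw [e]
  rcases le_total y 1 with h | h
  · have h1 := Real.rpow_le_one hy h (z := (β + 1) * (4 : ℕ)) (by positivity)
    have h2 := pow_nonneg hy (2 * q)
    linarith
  · have h1 : y ^ ((β + 1) * (4 : ℕ) : ℝ) ≤ y ^ ((2 * q : ℕ) : ℝ) :=
      Real.rpow_le_rpow_of_exponent_le h (by push_cast; linarith)
    rw [Real.rpow_natCast] at h1
    linarith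

private theorem XI_agle (hβ : 0 < β) (hε : 0 < ε) (h : ℝ≥0) (n : ℕ) (ω : Ω) (x : Site d)
    {q : ℕ} (hq : 2 * (β + 1) ≤ q) :
    ‖ag k ε β h B H0 n ω x‖ ^ 4 ≤
      8 * (k ^ 4 * ‖lap (ac k ε β h B H0 n ω) x‖ ^ 4 + ε ^ 4 * (1 +
        2 ^ (2 * q - 1) * (‖ac k ε β h B H0 n ω x‖ ^ (2 * q) +
          ‖wn k ε β h B H0 n ω x‖ ^ (2 * q)))) := by
  unfold ag
  have hh : 0 ≤ ε * (h : ℝ) := by positivity
  have hv : ac k ε β h B H0 n ω x +
      mulv (fun a b => B x a b ((n + 1) * h) ω - B x a b (n * h) ω) (ac k ε β h B H0 n ω x) =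
      ac k ε β h B H0 n ω x + wn k ε β h B H0 n ω x := rfl
  rw [hv]
  set A := ac k ε β h B H0 n ω x
  set w := wn k ε β h B H0 n ω x
  set L := lap (ac k ε β h B H0 n ω) x
  set j := J β (ε * h) (A + w) with hj
  have hjv : ‖j‖ ≤ ‖A + w‖ := by
    rw [hj, norm_J hβ hh]
    exact psi_le hβ hh (norm_nonneg _)
  have h1 : ‖k • L - (ε * ‖j‖ ^ β) • j‖ ≤ ‖k • L‖ + ‖(ε * ‖j‖ ^ β) • j‖ := norm_sub_le _ _
  have h2 := XI_two (norm_nonneg (k • L)) (norm_nonneg ((ε * ‖j‖ ^ β) • j))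
  have h3 : ‖k • L‖ ^ 4 = k ^ 4 * ‖L‖ ^ 4 := by
    rw [norm_smul, mul_pow, Real.norm_eq_abs, Even.pow_abs (by decide) k]
  have h4 : ‖(ε * ‖j‖ ^ β) • j‖ ^ 4 ≤ ε ^ 4 * (1 + ‖j‖ ^ (2 * q)) := by
    rw [norm_smul, Real.norm_of_nonneg (by positivity), mul_assoc, mul_pow]
    exact mul_le_mul_of_nonneg_left (XI_y (norm_nonneg _) hβ hq) (by positivity)
  have h5 : ‖j‖ ^ (2 * q) ≤ 2 ^ (2 * q - 1) * (‖A‖ ^ (2 * q) + ‖w‖ ^ (2 * q)) := by
    refine (pow_le_pow_left₀ (norm_nonneg _) (hjv.trans (norm_add_le _ _)) _).trans ?_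
    exact add_pow_le (norm_nonneg _) (norm_nonneg _) _
  have h6 : ε ^ 4 * (1 + ‖j‖ ^ (2 * q)) ≤
      ε ^ 4 * (1 + 2 ^ (2 * q - 1) * (‖A‖ ^ (2 * q) + ‖w‖ ^ (2 * q))) :=
    mul_le_mul_of_nonneg_left (by linarith) (by positivity)
  refine (pow_le_pow_left₀ (norm_nonneg _) h1 4).trans ?_
  linarith

private theorem XI_Am (hN : Noise P ℱ B H0) (hβ : 0 < β) (hε : 0 < ε) (h : ℝ≥0) (n : ℕ)
    (x : Site d) : Measurable (fun ω => ac k ε β h B H0 n ω x) :=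
  (ac_meas hN hβ hε h n x).mono (ℱ.le _) le_rfl

private theorem XI_le (h : ℝ≥0) (n : ℕ) : (n : ℝ≥0) * h ≤ ((n : ℝ≥0) + 1) * h := by
  rw [add_mul, one_mul]
  exact le_self_add

private theorem XI_sub (h : ℝ≥0) (n : ℕ) :
    ((((n : ℝ≥0) + 1) * h : ℝ≥0) : ℝ) - (((n : ℝ≥0) * h : ℝ≥0) : ℝ) = h := by
  push_cast
  ring

private theorem XI_wmF (hN : Noise P ℱ B H0) (hβ : 0 < β) (hε : 0 < ε) (h : ℝ≥0) (n : ℕ)
    (x : Site d) : Measurable[ℱ (((n : ℝ≥0) + 1) * h)] (fun ω => wn k ε β h B H0 n ω x) :=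
  XI_meas hN _ _ (XI_le h n) x _ (ac_meas hN hβ hε h n x)

private theorem XI_wm (hN : Noise P ℱ B H0) (hβ : 0 < β) (hε : 0 < ε) (h : ℝ≥0) (n : ℕ)
    (x : Site d) : Measurable (fun ω => wn k ε β h B H0 n ω x) :=
  (XI_wmF hN hβ hε h n x).mono (ℱ.le _) le_rfl

/-- even moments of the noise term -/
private theorem XI_w2q (N q : ℕ) : ∃ C : ℝ, 0 ≤ C ∧ ∀ (Ω : Type) [mΩ : MeasurableSpace Ω]
    (P : Measure Ω) (d : ℕ) (ℱ : Filtration ℝ≥0 mΩ) (B : Site d → Fin N → Fin N → ℝ≥0 → Ω → ℝ)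
    (H0 : Site d → Ω → E N), Noise P ℱ B H0 → ∀ k ε β : ℝ, 0 < β → 0 < ε → ∀ (h : ℝ≥0) (n : ℕ)
    (x : Site d),
      Integrable (fun ω => ‖wn k ε β h B H0 n ω x‖ ^ (2 * q)) P ∧
      ∫ ω, ‖wn k ε β h B H0 n ω x‖ ^ (2 * q) ∂P ≤
        C * (h : ℝ) ^ q * ∫ ω, ‖ac k ε β h B H0 n ω x‖ ^ (2 * q) ∂P := by
  obtain ⟨C, hC, hp⟩ := XI_pow N q
  refine ⟨C, hC, fun Ω mΩ P d ℱ B H0 hN k ε β hβ hε h n x => ?_⟩
  have h1 := hp Ω P d ℱ B H0 hN _ _ (XI_le h n) x (fun ω => ac k ε β h B H0 n ω x)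
    (fun _ => 1) (ac_meas hN hβ hε h n x) measurable_const (fun _ => zero_le_one)
    (by simpa using ac_mem hN hβ hε h n (2 * q) x)
  rw [XI_sub] at h1
  simp only [one_mul] at h1
  exact h1

private theorem XI_pp {y : ℝ} (hy : 0 ≤ y) (p : ℕ) : y ^ p ≤ 1 + y ^ (2 * p) := by
  rcases le_total y 1 with h | h
  · have h1 := pow_le_one₀ hy h (n := p)
    have h2 := pow_nonneg hy (2 * p)
    linarith
  · have h1 := pow_le_pow_right₀ h (show p ≤ 2 * p by omega)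
    linarith

private theorem XI_wp (hN : Noise P ℱ B H0) (hβ : 0 < β) (hε : 0 < ε) (h : ℝ≥0) (n p : ℕ)
    (x : Site d) : Integrable (fun ω => ‖wn k ε β h B H0 n ω x‖ ^ p) P := by
  haveI := hN.prob
  obtain ⟨C, hC, hp⟩ := XI_w2q N p
  have h1 := (hp Ω P d ℱ B H0 hN k ε β hβ hε h n x).1
  refine ((integrable_const (1 : ℝ)).add h1).mono'
    ((XI_wm hN hβ hε h n x).norm.pow_const _).aestronglyMeasurable
    (Filter.Eventually.of_forall fun ω => ?_)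
  rw [Real.norm_of_nonneg (by positivity)]
  exact XI_pp (norm_nonneg _) p

private theorem XI_agm (hN : Noise P ℱ B H0) (hβ : 0 < β) (hε : 0 < ε) (h : ℝ≥0) (n : ℕ)
    (x : Site d) : Measurable (fun ω => ag k ε β h B H0 n ω x) := by
  have hh : 0 ≤ ε * (h : ℝ) := by positivity
  have hA := fun y => XI_Am (k := k) (x := y) hN hβ hε h n
  have hw := XI_wm (k := k) hN hβ hε h n x
  have hJ : Measurable (fun ω => J β (ε * h) (ac k ε β h B H0 n ω x + wn k ε β h B H0 n ω x)) :=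
    (J_continuous hβ hh).measurable.comp ((hA x).add hw)
  have hL : Measurable (fun ω => lap (ac k ε β h B H0 n ω) x) := XI_lapm mΩ _ hA x
  exact (hL.const_smul k).sub (((hJ.norm.pow_const β).const_mul ε).smul hJ)

end aux

theorem ac_step_eq (hβ : 0 < β) (hε : 0 < ε) (h : ℝ≥0) (n : ℕ) (ω : Ω) (x : Site d) :
    ac k ε β h B H0 (n + 1) ω x = ac k ε β h B H0 n ω x +
      mulv (fun a b => B x a b ((n + 1) * h) ω - B x a b (n * h) ω) (ac k ε β h B H0 n ω x) +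
      (h : ℝ) • ag k ε β h B H0 n ω x := by
  have hh : 0 ≤ ε * (h : ℝ) := by positivity
  unfold ag
  rw [ac]
  beta_reduce
  generalize ac k ε β h B H0 n ω x +
    mulv (fun a b => B x a b ((n + 1) * h) ω - B x a b (n * h) ω) (ac k ε β h B H0 n ω x) = v
  generalize lap (ac k ε β h B H0 n ω) x = L
  have e := J_eq hβ hh v
  generalize J β (ε * h) v = j at e ⊢
  generalize ‖j‖ ^ β = c at e ⊢
  rw [← e]
  module

theorem ag_mom (hN : Noise P ℱ B H0) (hβ : 0 < β) (hε : 0 < ε) (hk : 0 ≤ k) (T : ℝ≥0) :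
    ∃ C : ℝ, 0 ≤ C ∧ ∀ h : ℝ≥0, h ≤ 1 → ∀ n : ℕ, n * h ≤ T → ∀ x : Site d,
      Integrable (fun ω => ‖ag k ε β h B H0 n ω x‖ ^ 4) P ∧
      ∫ ω, ‖ag k ε β h B H0 n ω x‖ ^ 4 ∂P ≤ C := by
  haveI := hN.prob
  obtain ⟨q, hq⟩ : ∃ q : ℕ, 2 * (β + 1) ≤ q := exists_nat_ge _
  obtain ⟨C4, hC4, h4⟩ := ac_mom hN hβ hε hk 4 T
  obtain ⟨Cq, hCq, hmq⟩ := ac_mom hN hβ hε hk (2 * q) T
  obtain ⟨Cw, hCw, hw⟩ := XI_w2q N q
  refine ⟨8 * (k ^ 4 * ((d : ℝ) ^ 3 * (d * (64 * (C4 + C4 + (C4 + C4))))) + ε ^ 4 * (1 +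
    2 ^ (2 * q - 1) * (Cq + Cw * Cq))), by positivity, fun h hh n hn x => ?_⟩
  have bA : ∀ y, Integrable (fun ω => ‖ac k ε β h B H0 n ω y‖ ^ 4) P ∧
      ∫ ω, ‖ac k ε β h B H0 n ω y‖ ^ 4 ∂P ≤ C4 := fun y =>
    ⟨ac_mem hN hβ hε h n 4 y, h4 h hh n hn y⟩
  have bq : Integrable (fun ω => ‖ac k ε β h B H0 n ω x‖ ^ (2 * q)) P ∧
      ∫ ω, ‖ac k ε β h B H0 n ω x‖ ^ (2 * q) ∂P ≤ Cq :=
    ⟨ac_mem hN hβ hε h n (2 * q) x, hmq h hh n hn x⟩
  have bw : Integrable (fun ω => ‖wn k ε β h B H0 n ω x‖ ^ (2 * q)) P ∧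
      ∫ ω, ‖wn k ε β h B H0 n ω x‖ ^ (2 * q) ∂P ≤ Cw * Cq := by
    have h1 := hw Ω P d ℱ B H0 hN k ε β hβ hε h n x
    refine ⟨h1.1, h1.2.trans ?_⟩
    have h2 : (h : ℝ) ^ q ≤ 1 := pow_le_one₀ h.2 (by exact_mod_cast hh)
    have h3 : Cw * (h : ℝ) ^ q ≤ Cw := by nlinarith
    exact mul_le_mul h3 bq.2 (integral_nonneg fun ω => by positivity) hCw
  have b1 : Integrable (fun _ : Ω => (1 : ℝ)) P ∧ ∫ _, (1 : ℝ) ∂P ≤ 1 := by
    refine ⟨integrable_const 1, ?_⟩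
    simp
  have hcard : ((Finset.univ : Finset (Fin d)).card : ℝ) = d := by simp
  have b4 : ∀ i : Fin d, Integrable (fun ω => 64 *
      (‖ac k ε β h B H0 n ω (x + Pi.single i 1)‖ ^ 4 + ‖ac k ε β h B H0 n ω x‖ ^ 4 +
      (‖ac k ε β h B H0 n ω (x - Pi.single i 1)‖ ^ 4 + ‖ac k ε β h B H0 n ω x‖ ^ 4))) P ∧
      ∫ ω, 64 * (‖ac k ε β h B H0 n ω (x + Pi.single i 1)‖ ^ 4 +
      ‖ac k ε β h B H0 n ω x‖ ^ 4 + (‖ac k ε β h B H0 n ω (x - Pi.single i 1)‖ ^ 4 +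
      ‖ac k ε β h B H0 n ω x‖ ^ 4)) ∂P ≤ 64 * (C4 + C4 + (C4 + C4)) := fun i =>
    bd_mul (c := 64) (by norm_num) (bd_add (bd_add (bA _) (bA _)) (bd_add (bA _) (bA _)))
  have bs := bd_sum (P := P) (Finset.univ : Finset (Fin d)) (fun i _ => b4 i)
  rw [hcard] at bs
  have hA := fun y => XI_Am (k := k) (x := y) hN hβ hε h n
  have bs' := bd_mul (c := (d : ℝ) ^ 3) (by positivity) bs
  have hLm : Measurable (fun ω => ‖lap (ac k ε β h B H0 n ω) x‖ ^ 4) :=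
    (XI_lapm mΩ _ hA x).norm.pow_const _
  have bl : Integrable (fun ω => ‖lap (ac k ε β h B H0 n ω) x‖ ^ 4) P ∧
      ∫ ω, ‖lap (ac k ε β h B H0 n ω) x‖ ^ 4 ∂P ≤
        (d : ℝ) ^ 3 * (d * (64 * (C4 + C4 + (C4 + C4)))) :=
    bd_mono hLm (fun ω => by positivity) (fun ω => XI_lap (ac k ε β h B H0 n ω) x) bs'
  have b5 := bd_mul (c := (2 : ℝ) ^ (2 * q - 1)) (by positivity) (bd_add bq bw)
  have b6 := bd_mul (c := ε ^ 4) (by positivity) (bd_add b1 b5)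
  have b7 := bd_mul (c := k ^ 4) (by positivity) bl
  have b8 := bd_mul (c := (8 : ℝ)) (by norm_num) (bd_add b7 b6)
  have hm : Measurable (fun ω => ‖ag k ε β h B H0 n ω x‖ ^ 4) :=
    (XI_agm hN hβ hε h n x).norm.pow_const _
  exact bd_mono hm (fun ω => by positivity) (fun ω => XI_agle hβ hε h n ω x hq) b8

section inc

/-- noise part of an increment -/
private noncomputable def Sn {Ω : Type} {N d : ℕ} (k ε β : ℝ) (h : ℝ≥0)
    (B : Site d → Fin N → Fin N → ℝ≥0 → Ω → ℝ) (H0 : Site d → Ω → E N) (n j : ℕ) (ω : Ω)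
    (x : Site d) : E N :=
  ∑ i ∈ Finset.range j, wn k ε β h B H0 (n + i) ω x

private theorem XI_split (hβ : 0 < β) (hε : 0 < ε) (h : ℝ≥0) (n : ℕ) (ω : Ω) (x : Site d)
    (j : ℕ) : ac k ε β h B H0 (n + j) ω x - ac k ε β h B H0 n ω x =
      Sn k ε β h B H0 n j ω x + (h : ℝ) • ∑ i ∈ Finset.range j, ag k ε β h B H0 (n + i) ω x := by
  induction j with
  | zero => simp [Sn]
  | succ j ih =>
    have e := ac_step_eq (k := k) (B := B) (H0 := H0) hβ hε h (n + j) ω x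
    have e2 : Sn k ε β h B H0 n (j + 1) ω x =
        Sn k ε β h B H0 n j ω x + wn k ε β h B H0 (n + j) ω x := by
      unfold Sn
      rw [Finset.sum_range_succ]
    rw [Finset.sum_range_succ, e2, smul_add, ← add_assoc n j 1, e]
    have e3 : mulv (fun a b => B x a b (((n + j : ℕ) + 1) * h) ω -
        B x a b (((n + j : ℕ) : ℝ≥0) * h) ω) (ac k ε β h B H0 (n + j) ω x) =
        wn k ε β h B H0 (n + j) ω x := rfl
    rw [e3]
    have e4 : ac k ε β h B H0 (n + j) ω x + wn k ε β h B H0 (n + j) ω x +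
        (h : ℝ) • ag k ε β h B H0 (n + j) ω x - ac k ε β h B H0 n ω x =
        (ac k ε β h B H0 (n + j) ω x - ac k ε β h B H0 n ω x) +
          wn k ε β h B H0 (n + j) ω x + (h : ℝ) • ag k ε β h B H0 (n + j) ω x := by abel
    rw [e4, ih]
    abel

private theorem XI_Ssucc (h : ℝ≥0) (n j : ℕ) (ω : Ω) (x : Site d) :
    Sn k ε β h B H0 n (j + 1) ω x =
      Sn k ε β h B H0 n j ω x + wn k ε β h B H0 (n + j) ω x := by
  unfold Sn
  rw [Finset.sum_range_succ]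

private theorem XI_SmF (hN : Noise P ℱ B H0) (hβ : 0 < β) (hε : 0 < ε) (h : ℝ≥0) (n j : ℕ)
    (x : Site d) : Measurable[ℱ (((n + j : ℕ) : ℝ≥0) * h)]
      (fun ω => Sn k ε β h B H0 n j ω x) := by
  unfold Sn
  refine XI_summ (ℱ (((n + j : ℕ) : ℝ≥0) * h)) _ j fun i hi => ?_
  refine (XI_wmF hN hβ hε h (n + i) x).mono (ℱ.mono ?_) le_rfl
  refine mul_le_mul_left ?_ h
  have : n + i + 1 ≤ n + j := by omega
  exact_mod_cast this

private theorem XI_Sp (hN : Noise P ℱ B H0) (hβ : 0 < β) (hε : 0 < ε) (h : ℝ≥0) (n p : ℕ)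
    (x : Site d) (j : ℕ) : Integrable (fun ω => ‖Sn k ε β h B H0 n j ω x‖ ^ p) P := by
  haveI := hN.prob
  induction j with
  | zero =>
    simp only [Sn, Finset.range_zero, Finset.sum_empty]
    exact integrable_const _
  | succ j ih =>
    have hm : Measurable (fun ω => Sn k ε β h B H0 n (j + 1) ω x) :=
      (XI_SmF hN hβ hε h n (j + 1) x).mono (ℱ.le _) le_rfl
    have hi : Integrable (fun ω => (2 : ℝ) ^ (p - 1) * (‖Sn k ε β h B H0 n j ω x‖ ^ p +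
        ‖wn k ε β h B H0 (n + j) ω x‖ ^ p)) P :=
      (ih.add (XI_wp hN hβ hε h (n + j) p x)).const_mul (2 ^ (p - 1))
    refine hi.mono' (hm.norm.pow_const _).aestronglyMeasurable
      (Filter.Eventually.of_forall fun ω => ?_)
    rw [Real.norm_of_nonneg (by positivity), XI_Ssucc]
    exact (pow_le_pow_left₀ (norm_nonneg _) (norm_add_le _ _) p).trans
      (add_pow_le (norm_nonneg _) (norm_nonneg _) p)

private theorem XI_alg (S w : E N) :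
    ‖S + w‖ ^ 4 ≤ ‖S‖ ^ 4 + 4 * inner ℝ (‖S‖ ^ 2 • S) w + 8 * (‖S‖ ^ 2 * ‖w‖ ^ 2) +
      3 * ‖w‖ ^ 4 := by
  have e1 : ‖S + w‖ ^ 2 = ‖S‖ ^ 2 + 2 * inner ℝ S w + ‖w‖ ^ 2 := norm_add_sq_real S w
  have e2 : ‖S + w‖ ^ 4 = (‖S‖ ^ 2 + 2 * inner ℝ S w + ‖w‖ ^ 2) ^ 2 := by
    rw [← e1]
    ring
  rw [e2, real_inner_smul_left]
  have h1 : |inner ℝ S w| ≤ ‖S‖ * ‖w‖ := abs_real_inner_le_norm S w
  have hS := norm_nonneg S
  have hw := norm_nonneg w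
  generalize (inner ℝ S w : ℝ) = c at *
  generalize ‖S‖ = a at *
  generalize ‖w‖ = b at *
  have h2 : c ^ 2 ≤ (a * b) ^ 2 := sq_le_sq' (by linarith [neg_abs_le c]) (by linarith [le_abs_self c])
  have h3 : c ≤ a * b := (le_abs_self c).trans h1
  have h4 : c * b ^ 2 ≤ a * b * b ^ 2 := mul_le_mul_of_nonneg_right h3 (by positivity)
  have h5 : 2 * (a * b * b ^ 2) ≤ (a * b) ^ 2 + b ^ 4 := by
    have := sq_nonneg (a * b - b ^ 2)
    nlinarith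
  nlinarith

private theorem XI_cs (P : Measure Ω) (f g : Ω → ℝ)
    (hf0 : ∀ ω, 0 ≤ f ω) (hg0 : ∀ ω, 0 ≤ g ω) (hf : MemLp f 2 P) (hg : MemLp g 2 P) :
    ∫ ω, f ω * g ω ∂P ≤ Real.sqrt (∫ ω, f ω ^ 2 ∂P) * Real.sqrt (∫ ω, g ω ^ 2 ∂P) := by
  have h2 : (2 : ℝ).HolderConjugate 2 := Real.HolderConjugate.two_two
  have e2 : ENNReal.ofReal 2 = 2 := by simp
  rw [← e2] at hf hg
  have h := integral_mul_le_Lp_mul_Lq_of_nonneg h2
    (Filter.Eventually.of_forall hf0) (Filter.Eventually.of_forall hg0) hf hg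
  simp only [Real.rpow_two] at h
  rw [Real.sqrt_eq_rpow, Real.sqrt_eq_rpow]
  exact h

/-- one step of the recursion for the fourth moments of the noise part -/
private theorem XI_rec {K C1 C2 c h y z u v : ℝ} (hC1 : 0 ≤ C1) (hC2 : 0 ≤ C2)
    (hK : K = 4 * (C1 * c) + 3 * (C2 * c ^ 2) + 1) (hc : 0 ≤ c) {j : ℕ}
    (hy : y ≤ (K * (j * h)) ^ 2) (hz : z ≤ C1 * h * ((K * (j * h)) * c))
    (hu : u ≤ C2 * h ^ 2 * c ^ 2) (hv : v ≤ y + 8 * z + 3 * u) :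
    v ≤ (K * (((j + 1 : ℕ) : ℝ) * h)) ^ 2 := by
  have hj : (0 : ℝ) ≤ j := Nat.cast_nonneg j
  have hA : 0 ≤ C1 * c := by positivity
  have hB : 0 ≤ C2 * c ^ 2 := by positivity
  have hK1 : 1 ≤ K := by linarith
  have h1 : K ≤ K ^ 2 := by nlinarith
  have h2 : 3 * (C2 * c ^ 2) ≤ K ^ 2 := by linarith
  have h3 : 4 * (C1 * c) * K ≤ K ^ 2 := by
    have : 4 * (C1 * c) ≤ K := by linarith
    nlinarith
  have h4 : 8 * (C1 * h * ((K * (j * h)) * c)) ≤ 2 * K ^ 2 * (j * h ^ 2) := by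
    have e : 8 * (C1 * h * ((K * (j * h)) * c)) = 2 * (4 * (C1 * c) * K) * (j * h ^ 2) := by ring
    rw [e]
    exact mul_le_mul_of_nonneg_right (by linarith) (by positivity)
  have h5 : 3 * (C2 * h ^ 2 * c ^ 2) ≤ K ^ 2 * h ^ 2 := by
    have e : 3 * (C2 * h ^ 2 * c ^ 2) = 3 * (C2 * c ^ 2) * h ^ 2 := by ring
    rw [e]
    exact mul_le_mul_of_nonneg_right h2 (by positivity)
  push_cast
  have e : (K * ((j + 1) * h)) ^ 2 = (K * (j * h)) ^ 2 + 2 * K ^ 2 * (j * h ^ 2) + K ^ 2 * h ^ 2 := by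
    ring
  rw [e]
  linarith

end inc

theorem ac_inc (hN : Noise P ℱ B H0) (hβ : 0 < β) (hε : 0 < ε) (hk : 0 ≤ k) (T : ℝ≥0) :
    ∃ C : ℝ, 0 ≤ C ∧ ∀ h : ℝ≥0, h ≤ 1 → ∀ n m : ℕ, n ≤ m → m * h ≤ T → ∀ x : Site d,
      ∫ ω, ‖ac k ε β h B H0 m ω x - ac k ε β h B H0 n ω x‖ ^ 4 ∂P ≤
        C * (((m : ℝ) - n) * h) ^ 2 := by
  haveI := hN.prob
  obtain ⟨C4, hC4, h4⟩ := ac_mom hN hβ hε hk 4 T
  obtain ⟨Cg, hCg, hg⟩ := ag_mom hN hβ hε hk T
  obtain ⟨C1, hC1, hw1⟩ := XI_pow N 1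
  obtain ⟨C2, hC2, hw2⟩ := XI_w2q N 2
  obtain ⟨K, hK⟩ : ∃ K, K = 4 * (C1 * Real.sqrt C4) + 3 * (C2 * Real.sqrt C4 ^ 2) + 1 := ⟨_, rfl⟩
  have hK0 : 0 ≤ K := by rw [hK]; positivity
  have hs4 : Real.sqrt C4 ^ 2 = C4 := Real.sq_sqrt hC4
  -- the noise part
  have main : ∀ h : ℝ≥0, h ≤ 1 → ∀ n : ℕ, ∀ x : Site d, ∀ j : ℕ, ((n + j : ℕ) : ℝ≥0) * h ≤ T →
      ∫ ω, ‖Sn k ε β h B H0 n j ω x‖ ^ 4 ∂P ≤ (K * (j * h)) ^ 2 := by
    intro h hh n x j
    induction j with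
    | zero =>
      intro _
      simp [Sn]
    | succ j ih =>
      intro hT
      have hle : ((n + j : ℕ) : ℝ≥0) * h ≤ T := by
        refine le_trans (mul_le_mul_left ?_ h) hT
        exact_mod_cast (by omega : n + j ≤ n + (j + 1))
      have hy := ih hle
      have hSF := XI_SmF (k := k) hN hβ hε h n j x
      have hSm : Measurable (fun ω => Sn k ε β h B H0 n j ω x) := hSF.mono (ℱ.le _) le_rfl
      have hS4 := XI_Sp (k := k) hN hβ hε h n 4 x j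
      have hS6 := XI_Sp (k := k) hN hβ hε h n 6 x j
      have hAm := XI_Am (k := k) hN hβ hε h (n + j) x
      have hA4 := ac_mem (k := k) hN hβ hε h (n + j) 4 x
      have hwm := XI_wm (k := k) hN hβ hε h (n + j) x
      -- square integrability
      have lS : MemLp (fun ω => ‖Sn k ε β h B H0 n j ω x‖ ^ 2) 2 P := by
        rw [memLp_two_iff_integrable_sq (hSm.norm.pow_const _).aestronglyMeasurable]
        refine hS4.congr (Filter.Eventually.of_forall fun ω => ?_)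
        simp only
        ring
      have lA : MemLp (fun ω => ‖ac k ε β h B H0 (n + j) ω x‖ ^ 2) 2 P := by
        rw [memLp_two_iff_integrable_sq (hAm.norm.pow_const _).aestronglyMeasurable]
        refine hA4.congr (Filter.Eventually.of_forall fun ω => ?_)
        simp only
        ring
      have hSA : Integrable (fun ω => ‖Sn k ε β h B H0 n j ω x‖ ^ 2 *
          ‖ac k ε β h B H0 (n + j) ω x‖ ^ (2 * 1)) P := by
        have h1 : Integrable (fun ω => ‖Sn k ε β h B H0 n j ω x‖ ^ 2 *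
          ‖ac k ε β h B H0 (n + j) ω x‖ ^ 2) P := lS.integrable_mul lA
        simpa only [mul_one] using h1
      have p1 := hw1 Ω P d ℱ B H0 hN _ _ (XI_le h (n + j)) x
        (fun ω => ac k ε β h B H0 (n + j) ω x) (fun ω => ‖Sn k ε β h B H0 n j ω x‖ ^ 2)
        (ac_meas hN hβ hε h (n + j) x) ((measurable_norm.comp hSF).pow_const 2)
        (fun ω => by positivity) hSA
      rw [XI_sub] at p1
      simp only [mul_one, pow_one] at p1
      have p2 := hw2 Ω P d ℱ B H0 hN k ε β hβ hε h (n + j) x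
      simp only [show 2 * 2 = 4 from rfl] at p2
      -- the middle term
      have hcs := XI_cs P (fun ω => ‖Sn k ε β h B H0 n j ω x‖ ^ 2)
        (fun ω => ‖ac k ε β h B H0 (n + j) ω x‖ ^ 2) (fun ω => by positivity)
        (fun ω => by positivity) lS lA
      have e4 : ∀ a : ℝ, (a ^ 2) ^ 2 = a ^ 4 := fun a => by ring
      simp only [e4] at hcs
      have q1 : Real.sqrt (∫ ω, ‖Sn k ε β h B H0 n j ω x‖ ^ 4 ∂P) ≤ K * (j * h) := by
        rw [show K * ((j : ℝ) * h) = Real.sqrt ((K * (j * h)) ^ 2) from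
          (Real.sqrt_sq (by positivity)).symm]
        exact Real.sqrt_le_sqrt hy
      have q2 : Real.sqrt (∫ ω, ‖ac k ε β h B H0 (n + j) ω x‖ ^ 4 ∂P) ≤ Real.sqrt C4 :=
        Real.sqrt_le_sqrt (h4 h hh (n + j) hle x)
      have hz : ∫ ω, ‖Sn k ε β h B H0 n j ω x‖ ^ 2 * ‖wn k ε β h B H0 (n + j) ω x‖ ^ 2 ∂P ≤
          C1 * h * ((K * (j * h)) * Real.sqrt C4) := by
        refine p1.2.trans ?_
        refine mul_le_mul_of_nonneg_left (hcs.trans ?_) (by positivity)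
        exact mul_le_mul q1 q2 (Real.sqrt_nonneg _) (by positivity)
      have hu : ∫ ω, ‖wn k ε β h B H0 (n + j) ω x‖ ^ 4 ∂P ≤
          C2 * (h : ℝ) ^ 2 * Real.sqrt C4 ^ 2 := by
        rw [hs4]
        exact p2.2.trans (mul_le_mul_of_nonneg_left (h4 h hh (n + j) hle x) (by positivity))
      -- the linear term
      have hZm : Measurable (fun ω => ‖Sn k ε β h B H0 n j ω x‖ ^ 2 • Sn k ε β h B H0 n j ω x) :=
        (hSm.norm.pow_const 2).smul hSm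
      have lZ : MemLp (fun ω => ‖Sn k ε β h B H0 n j ω x‖ ^ 2 • Sn k ε β h B H0 n j ω x) 2 P := by
        rw [memLp_two_iff_integrable_sq_norm hZm.aestronglyMeasurable]
        refine hS6.congr (Filter.Eventually.of_forall fun ω => ?_)
        simp only [norm_smul, norm_pow, norm_norm]
        ring
      have lV : MemLp (fun ω => ac k ε β h B H0 (n + j) ω x) 2 P := by
        rw [memLp_two_iff_integrable_sq_norm hAm.aestronglyMeasurable]
        exact ac_mem hN hβ hε h (n + j) 2 x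
      have hsq := mulv_sq (zero_dyn hN 0 0 0) _ _ (XI_le h (n + j)) x
        (fun ω => ac k ε β h B H0 (n + j) ω x) (ac_meas hN hβ hε h (n + j) x) lV
      have hlin := hsq.2.2 (fun ω => ‖Sn k ε β h B H0 n j ω x‖ ^ 2 • Sn k ε β h B H0 n j ω x)
        (((measurable_norm.comp hSF).pow_const 2).smul hSF) lZ
      have hlinI : Integrable (fun ω => inner ℝ
          (‖Sn k ε β h B H0 n j ω x‖ ^ 2 • Sn k ε β h B H0 n j ω x)
          (wn k ε β h B H0 (n + j) ω x)) P := by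
        have h1 : Integrable (fun ω => ‖‖Sn k ε β h B H0 n j ω x‖ ^ 2 • Sn k ε β h B H0 n j ω x‖ *
            ‖wn k ε β h B H0 (n + j) ω x‖) P := lZ.norm.integrable_mul hsq.1.norm
        exact h1.mono' (lZ.1.inner hsq.1.1)
          (Filter.Eventually.of_forall fun ω => norm_inner_le_norm _ _)
      have hlin' : ∫ ω, inner ℝ (‖Sn k ε β h B H0 n j ω x‖ ^ 2 • Sn k ε β h B H0 n j ω x)
          (wn k ε β h B H0 (n + j) ω x) ∂P = 0 := hlin
      -- together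
      have hv : ∫ ω, ‖Sn k ε β h B H0 n (j + 1) ω x‖ ^ 4 ∂P ≤
          ∫ ω, ‖Sn k ε β h B H0 n j ω x‖ ^ 4 ∂P +
          8 * ∫ ω, ‖Sn k ε β h B H0 n j ω x‖ ^ 2 * ‖wn k ε β h B H0 (n + j) ω x‖ ^ 2 ∂P +
          3 * ∫ ω, ‖wn k ε β h B H0 (n + j) ω x‖ ^ 4 ∂P := by
        have i1 : Integrable (fun ω => ‖Sn k ε β h B H0 n j ω x‖ ^ 4 +
            4 * inner ℝ (‖Sn k ε β h B H0 n j ω x‖ ^ 2 • Sn k ε β h B H0 n j ω x)
              (wn k ε β h B H0 (n + j) ω x)) P := hS4.add (hlinI.const_mul 4)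
        have i2 : Integrable (fun ω => 8 * (‖Sn k ε β h B H0 n j ω x‖ ^ 2 *
            ‖wn k ε β h B H0 (n + j) ω x‖ ^ 2)) P := p1.1.const_mul 8
        have i3 : Integrable (fun ω => 3 * ‖wn k ε β h B H0 (n + j) ω x‖ ^ 4) P :=
          p2.1.const_mul 3
        have i12 : Integrable (fun ω => ‖Sn k ε β h B H0 n j ω x‖ ^ 4 +
            4 * inner ℝ (‖Sn k ε β h B H0 n j ω x‖ ^ 2 • Sn k ε β h B H0 n j ω x)
              (wn k ε β h B H0 (n + j) ω x) + 8 * (‖Sn k ε β h B H0 n j ω x‖ ^ 2 *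
            ‖wn k ε β h B H0 (n + j) ω x‖ ^ 2)) P := i1.add i2
        have i123 : Integrable (fun ω => ‖Sn k ε β h B H0 n j ω x‖ ^ 4 +
            4 * inner ℝ (‖Sn k ε β h B H0 n j ω x‖ ^ 2 • Sn k ε β h B H0 n j ω x)
              (wn k ε β h B H0 (n + j) ω x) + 8 * (‖Sn k ε β h B H0 n j ω x‖ ^ 2 *
            ‖wn k ε β h B H0 (n + j) ω x‖ ^ 2) + 3 * ‖wn k ε β h B H0 (n + j) ω x‖ ^ 4) P :=
          i12.add i3
        have hmono := integral_mono (XI_Sp hN hβ hε h n 4 x (j + 1)) i123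
          (fun ω => by
            simp only
            rw [XI_Ssucc]
            exact XI_alg _ _)
        refine hmono.trans (le_of_eq ?_)
        rw [integral_add i12 i3, integral_add i1 i2, integral_add hS4 (hlinI.const_mul 4),
          integral_const_mul, integral_const_mul, integral_const_mul, hlin']
        ring
      exact XI_rec hC1 hC2 hK (Real.sqrt_nonneg _) hy hz hu hv
  refine ⟨8 * (K ^ 2 + Cg * (T : ℝ) ^ 2), by positivity, fun h hh n m hnm hT x => ?_⟩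
  obtain ⟨j, rfl⟩ := Nat.exists_eq_add_of_le hnm
  have hjm : ((((n + j : ℕ) : ℝ) - n) * h) = (j : ℝ) * h := by push_cast; ring
  rw [hjm]
  have bS : Integrable (fun ω => ‖Sn k ε β h B H0 n j ω x‖ ^ 4) P ∧
      ∫ ω, ‖Sn k ε β h B H0 n j ω x‖ ^ 4 ∂P ≤ (K * (j * h)) ^ 2 :=
    ⟨XI_Sp hN hβ hε h n 4 x j, main h hh n x j hT⟩
  have bg := bd_sum (P := P) (Finset.range j)
    (f := fun i ω => ‖ag k ε β h B H0 (n + i) ω x‖ ^ 4) (fun i hi => hg h hh (n + i) (by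
      refine le_trans (mul_le_mul_left ?_ h) hT
      have := Finset.mem_range.1 hi
      exact_mod_cast (by omega : n + i ≤ n + j)) x)
  rw [Finset.card_range] at bg
  have hjT : (j : ℝ) * h ≤ T := by
    have h1 : ((j : ℝ≥0)) * h ≤ T := by
      refine le_trans (mul_le_mul_left ?_ h) hT
      exact_mod_cast (by omega : j ≤ n + j)
    exact_mod_cast h1
  have hAm : Measurable (fun ω => ac k ε β h B H0 (n + j) ω x - ac k ε β h B H0 n ω x) :=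
    (XI_Am hN hβ hε h (n + j) x).sub (XI_Am hN hβ hε h n x)
  have hfin := bd_mono (P := P)
    (f := fun ω => ‖ac k ε β h B H0 (n + j) ω x - ac k ε β h B H0 n ω x‖ ^ 4)
    (g := fun ω => 8 * (‖Sn k ε β h B H0 n j ω x‖ ^ 4 + (h : ℝ) ^ 4 * (j : ℝ) ^ 3 *
      ∑ i ∈ Finset.range j, ‖ag k ε β h B H0 (n + i) ω x‖ ^ 4))
    (hAm.norm.pow_const _) (fun ω => by positivity) (fun ω => by
      rw [XI_split hβ hε h n ω x j]
      refine (pow_le_pow_left₀ (norm_nonneg _) (norm_add_le _ _) 4).trans ?_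
      refine (XI_two (norm_nonneg _) (norm_nonneg _)).trans ?_
      have h1 : ‖(h : ℝ) • ∑ i ∈ Finset.range j, ag k ε β h B H0 (n + i) ω x‖ ^ 4 ≤
          (h : ℝ) ^ 4 * (j : ℝ) ^ 3 *
            ∑ i ∈ Finset.range j, ‖ag k ε β h B H0 (n + i) ω x‖ ^ 4 := by
        rw [norm_smul, mul_pow, Real.norm_of_nonneg (NNReal.coe_nonneg h), mul_assoc]
        refine mul_le_mul_of_nonneg_left ?_ (by positivity)
        refine (pow_le_pow_left₀ (norm_nonneg _) (norm_sum_le _ _) 4).trans ?_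
        have h2 := pow_sum_le_card_mul_sum_pow (s := Finset.range j)
          (f := fun i => ‖ag k ε β h B H0 (n + i) ω x‖) (fun i _ => norm_nonneg _) 3
        rw [Finset.card_range] at h2
        exact h2
      linarith) (bd_mul (by norm_num) (bd_add bS (bd_mul (by positivity) bg)))
  refine hfin.2.trans ?_
  have h0 : 0 ≤ (j : ℝ) * h := by positivity
  have h1 : ((j : ℝ) * h) ^ 2 ≤ (T : ℝ) ^ 2 := pow_le_pow_left₀ h0 hjT 2
  have e : 8 * ((K * (j * h)) ^ 2 + (h : ℝ) ^ 4 * (j : ℝ) ^ 3 * (j * Cg)) =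
      8 * (K ^ 2 + Cg * ((j : ℝ) * h) ^ 2) * ((j : ℝ) * h) ^ 2 := by ring
  rw [e]
  refine mul_le_mul_of_nonneg_right ?_ (by positivity)
  have : Cg * ((j : ℝ) * h) ^ 2 ≤ Cg * (T : ℝ) ^ 2 := mul_le_mul_of_nonneg_left h1 hCg
  linarith

end DynX
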