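import Pool.Agent.Lib_MP_36b788x.XR

/-!
# The Ito equation

PROOF. `u_i = s + i (t-s)/n`, `i ≤ n` (the points of `rsum`), `ξ_i = Mt u_i u_{i+1} x - mulv (B_{u_{i+1}} - B_{u_i}) (H u_i x)`, `i < n`. `Mt` is additive (interval integrals, paths continuous for a.e. `ω`), so
`Mt s t x - rsum B H x s t n = Σ_{i<n} ξ_i` a.e. (for `n ≥ 1`). `ξ_i` is a.e. equal to an `ℱ u_{i+1}`-measurable function (`mart_real`, first claim; `inc_meas`), and `E⟪Z, ξ_i⟫ = 0` for every `ℱ u_i`-measurable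
`Z ∈ L²` (`mart_real`, `mulv_sq` for `zero_dyn`). Hence `E‖Σ ξ_i‖² = Σ E‖ξ_i‖² ≤ n C ((t-s)/n)² → 0`.
-/

open MeasureTheory ProbabilityTheory Filter Dyn
open scoped NNReal ENNReal Topology

namespace DynX

variable {Ω : Type} [mΩ : MeasurableSpace Ω] {P : Measure Ω} {N d : ℕ}
    {ℱ : Filtration ℝ≥0 mΩ} {B : Site d → Fin N → Fin N → ℝ≥0 → Ω → ℝ}
    {H0 : Site d → Ω → E N} {k ε β : ℝ} {H : ℝ≥0 → Site d → Ω → E N}

private theorem XIt_meas0 {Ω : Type} (m : MeasurableSpace Ω) {N : ℕ}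
    (b : Fin N → Fin N → Ω → ℝ) (hb : ∀ i j, Measurable (b i j)) (V : Ω → E N)
    (hV : Measurable V) : Measurable (fun ω => mulv (fun i j => b i j ω) (V ω)) := by
  have h1 : Measurable (fun ω => (fun (i j : Fin N) => b i j ω)) :=
    measurable_pi_iff.2 fun i => measurable_pi_iff.2 fun j => hb i j
  exact (mulv_continuous N).measurable.comp (h1.prodMk hV)

private theorem XIt_iinner {Ω : Type} [mΩ : MeasurableSpace Ω] {P : Measure Ω} {N : ℕ}
    (V Z : Ω → E N) (hV : MemLp V 2 P) (hZ : MemLp Z 2 P) :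
    Integrable (fun ω => inner ℝ (V ω) (Z ω)) P := by
  have h1 : Integrable (fun ω => ‖V ω‖ * ‖Z ω‖) P := hV.norm.integrable_mul hZ.norm
  refine h1.mono' (hV.1.inner hZ.1) (Filter.Eventually.of_forall fun ω => ?_)
  exact norm_inner_le_norm _ _

/-- partial sums of orthogonal increments -/
private theorem XIt_partial {Ω : Type} [mΩ : MeasurableSpace Ω] {P : Measure Ω} {N : ℕ}
    {ℱ : Filtration ℝ≥0 mΩ} (τ : ℕ → ℝ≥0) (hτ : Monotone τ) (ξ : ℕ → Ω → E N) (c : ℝ) (n : ℕ)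
    (hξ : ∀ i < n, (∃ M' : Ω → E N, Measurable[ℱ (τ (i + 1))] M' ∧ ξ i =ᵐ[P] M') ∧
      MemLp (ξ i) 2 P ∧ ∫ ω, ‖ξ i ω‖ ^ 2 ∂P ≤ c ∧
      ∀ Z : Ω → E N, Measurable[ℱ (τ i)] Z → MemLp Z 2 P →
        ∫ ω, inner ℝ (Z ω) (ξ i ω) ∂P = 0) :
    ∀ m ≤ n, (∃ M' : Ω → E N, Measurable[ℱ (τ m)] M' ∧
        (fun ω => ∑ i ∈ Finset.range m, ξ i ω) =ᵐ[P] M') ∧
      MemLp (fun ω => ∑ i ∈ Finset.range m, ξ i ω) 2 P ∧
      ∫ ω, ‖∑ i ∈ Finset.range m, ξ i ω‖ ^ 2 ∂P ≤ m * c := by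
  intro m
  induction m with
  | zero =>
    intro _
    refine ⟨⟨fun _ => 0, measurable_const, ?_⟩, ?_, ?_⟩
    · exact Filter.Eventually.of_forall fun ω => by simp
    · simp only [Finset.range_zero, Finset.sum_empty]
      exact MemLp.zero'
    · simp
  | succ m ih =>
    intro hm
    obtain ⟨⟨M', hM', hSM'⟩, h2, h3⟩ := ih (by omega)
    obtain ⟨⟨L', hL', hξL'⟩, u2, u3, u4⟩ := hξ m (by omega)
    have hst : τ m ≤ τ (m + 1) := hτ (Nat.le_succ m)
    set S : Ω → E N := fun ω => ∑ i ∈ Finset.range m, ξ i ω with hS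
    have hSum : ∀ ω, ∑ i ∈ Finset.range (m + 1), ξ i ω = S ω + ξ m ω := by
      intro ω
      rw [Finset.sum_range_succ]
    simp only [hSum]
    refine ⟨⟨fun ω => M' ω + L' ω, (hM'.mono (ℱ.mono hst) le_rfl).add hL', ?_⟩, h2.add u2, ?_⟩
    · filter_upwards [hSM', hξL'] with ω h5 h6
      rw [← h6]
      have h7 : S ω = M' ω := h5
      rw [h7]
    · have i1 : Integrable (fun ω => ‖S ω‖ ^ 2) P :=
        (memLp_two_iff_integrable_sq_norm h2.1).1 h2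
      have i2 : Integrable (fun ω => ‖ξ m ω‖ ^ 2) P :=
        (memLp_two_iff_integrable_sq_norm u2.1).1 u2
      have i3 : Integrable (fun ω => 2 * inner ℝ (S ω) (ξ m ω)) P :=
        (XIt_iinner S (ξ m) h2 u2).const_mul 2
      have e1 : ∫ ω, ‖S ω + ξ m ω‖ ^ 2 ∂P
          = ∫ ω, ‖S ω‖ ^ 2 ∂P + 2 * ∫ ω, inner ℝ (S ω) (ξ m ω) ∂P + ∫ ω, ‖ξ m ω‖ ^ 2 ∂P := by
        simp only [norm_add_sq_real]
        have i12 : Integrable (fun ω => ‖S ω‖ ^ 2 + 2 * inner ℝ (S ω) (ξ m ω)) P := i1.add i3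
        rw [integral_add i12 i2, integral_add i1 i3, integral_const_mul]
      have e2 : ∫ ω, inner ℝ (S ω) (ξ m ω) ∂P = 0 := by
        have e3 : ∫ ω, inner ℝ (S ω) (ξ m ω) ∂P = ∫ ω, inner ℝ (M' ω) (ξ m ω) ∂P := by
          refine integral_congr_ae ?_
          filter_upwards [hSM'] with ω h5
          have h7 : S ω = M' ω := h5
          rw [h7]
        rw [e3]
        exact u4 M' hM' ((memLp_congr_ae hSM').1 h2)
      rw [e1, e2]
      push_cast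
      linarith

/-- the increment on one interval -/
private theorem XIt_one (hN : Noise P ℱ B H0) (hL : IsLim P k ε β ℱ B H0 H) (x : Site d)
    {t : ℝ≥0} {C : ℝ}
    (hC : ∀ s' t' : ℝ≥0, s' ≤ t' → t' ≤ t → ∀ x : Site d,
      (∃ M' : Ω → E N, Measurable[ℱ t'] M' ∧ Mt k ε β H s' t' x =ᵐ[P] M') ∧
      MemLp (Mt k ε β H s' t' x) 2 P ∧
      ∫ ω, ‖Mt k ε β H s' t' x ω -
          mulv (fun a b => B x a b t' ω - B x a b s' ω) (H s' x ω)‖ ^ 2 ∂P ≤
        C * ((t' : ℝ) - s') ^ 2 ∧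
      ∀ Z : Ω → E N, Measurable[ℱ s'] Z → MemLp Z 2 P →
        ∫ ω, inner ℝ (Z ω) (Mt k ε β H s' t' x ω) ∂P = 0)
    (u v : ℝ≥0) (huv : u ≤ v) (hv : v ≤ t) (ξ : Ω → E N)
    (hξ : ξ = fun ω => Mt k ε β H u v x ω -
      mulv (fun a b => B x a b v ω - B x a b u ω) (H u x ω)) :
    (∃ M' : Ω → E N, Measurable[ℱ v] M' ∧ ξ =ᵐ[P] M') ∧ MemLp ξ 2 P ∧
      ∫ ω, ‖ξ ω‖ ^ 2 ∂P ≤ C * ((v : ℝ) - u) ^ 2 ∧
      ∀ Z : Ω → E N, Measurable[ℱ u] Z → MemLp Z 2 P →
        ∫ ω, inner ℝ (Z ω) (ξ ω) ∂P = 0 := by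
  have := hN.prob
  have hZ := zero_dyn hN k ε β
  obtain ⟨⟨M', hM', hMM'⟩, h2, h3, h4⟩ := hC u v huv hv x
  have hHm : Measurable (H u x) := (hL.adapted u x).mono (ℱ.le u) le_rfl
  have hH2 : MemLp (H u x) 2 P := by
    obtain ⟨C', hC'⟩ := hL.mom 2 t
    exact (memLp_two_iff_integrable_sq_norm hHm.aestronglyMeasurable).2
      (hC' u (huv.trans hv) x).1
  obtain ⟨q1, q2, q3⟩ := mulv_sq hZ u v huv x (H u x) (hL.adapted u x) hH2
  have qm : Measurable[ℱ v] (fun ω => mulv (fun a b => B x a b v ω - B x a b u ω) (H u x ω)) :=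
    XIt_meas0 (ℱ v) (fun a b ω => B x a b v ω - B x a b u ω)
      (fun a b => (inc_meas hZ u v huv x a b).1) (H u x) ((hL.adapted u x).mono (ℱ.mono huv) le_rfl)
  subst hξ
  refine ⟨⟨fun ω => M' ω - mulv (fun a b => B x a b v ω - B x a b u ω) (H u x ω),
    hM'.sub qm, ?_⟩, h2.sub q1, h3, ?_⟩
  · filter_upwards [hMM'] with ω h5
    rw [h5]
  · intro Z hZm hZ2
    simp only [inner_sub_right]
    rw [integral_sub (XIt_iinner Z _ hZ2 h2) (XIt_iinner Z _ hZ2 q1), h4 Z hZm hZ2,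
      q3 Z hZm hZ2, sub_zero]

theorem ito_of_lim (hN : Noise P ℱ B H0) (hβ : 0 < β) (hε : 0 < ε) (hk : 0 ≤ k)
    (hL : IsLim P k ε β ℱ B H0 H) (x : Site d) (s t : ℝ≥0) (hst : s ≤ t) :
    Tendsto (fun n : ℕ => eLpNorm (fun ω => H t x ω - H s x ω
        - (∫ r in (s : ℝ)..t, drf k ε β (fun y => H r.toNNReal y ω) x)
        - rsum B H x s t n ω) 2 P) atTop (𝓝 0) := by
  have := hN.prob
  obtain ⟨C, hC0, hC⟩ := mart_real hN hβ hε hk hL t
  obtain ⟨C1, -, hD⟩ := drf_mem hN hβ hL t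
  obtain ⟨-, hcont, -, -⟩ := hD x
  have hst' : (s : ℝ) ≤ t := by exact_mod_cast hst
  -- the bound
  have key : ∀ n : ℕ, 1 ≤ n → eLpNorm (fun ω => H t x ω - H s x ω
        - (∫ r in (s : ℝ)..t, drf k ε β (fun y => H r.toNNReal y ω) x)
        - rsum B H x s t n ω) 2 P ≤
      ENNReal.ofReal (Real.sqrt ((C * ((t : ℝ) - s) ^ 2) / n)) := by
    intro n hn
    have hn' : n ≠ 0 := by omega
    have hn0 : (n : ℝ≥0) ≠ 0 := by exact_mod_cast hn'
    have hnR : (n : ℝ) ≠ 0 := by exact_mod_cast hn'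
    obtain ⟨τ, hτ⟩ : ∃ τ : ℕ → ℝ≥0, τ = fun i : ℕ => s + (i : ℝ≥0) * ((t - s) / n) := ⟨_, rfl⟩
    have hτm : Monotone τ := by
      intro i j hij
      have h1 : (i : ℝ≥0) ≤ j := by exact_mod_cast hij
      rw [hτ]
      exact add_le_add_right (mul_le_mul_left h1 _) s
    have hτn : τ n = t := by
      rw [hτ]
      show s + (n : ℝ≥0) * ((t - s) / n) = t
      rw [mul_div_cancel₀ _ hn0, add_tsub_cancel_of_le hst]
    have hτ0 : τ 0 = s := by
      rw [hτ]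
      simp
    have hτle : ∀ i : ℕ, i ≤ n → τ i ≤ t := by
      intro i hi
      have h1 := hτm hi
      rwa [hτn] at h1
    have hτd : ∀ i : ℕ, ((τ (i + 1) : ℝ≥0) : ℝ) - τ i = ((t : ℝ) - s) / n := by
      intro i
      rw [hτ]
      simp only [NNReal.coe_add, NNReal.coe_mul, NNReal.coe_div, NNReal.coe_sub hst,
        NNReal.coe_natCast, Nat.cast_add, Nat.cast_one, NNReal.coe_one]
      ring
    obtain ⟨ξ, hξ⟩ : ∃ ξ : ℕ → Ω → E N, ξ = fun i ω => Mt k ε β H (τ i) (τ (i + 1)) x ω -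
      mulv (fun a b => B x a b (τ (i + 1)) ω - B x a b (τ i) ω) (H (τ i) x ω) := ⟨_, rfl⟩
    obtain ⟨-, p2, p3⟩ := XIt_partial (P := P) (ℱ := ℱ) τ hτm ξ
      (C * (((t : ℝ) - s) / n) ^ 2) n (fun i hi => by
        have h := XIt_one hN hL x hC (τ i) (τ (i + 1)) (hτm (Nat.le_succ i))
          (hτle (i + 1) hi) (ξ i) (by rw [hξ])
        rwa [hτd] at h) n le_rfl
    have hae : (fun ω => H t x ω - H s x ω
        - (∫ r in (s : ℝ)..t, drf k ε β (fun y => H r.toNNReal y ω) x)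
        - rsum B H x s t n ω) =ᵐ[P] fun ω => ∑ i ∈ Finset.range n, ξ i ω := by
      filter_upwards [hcont] with ω hω
      have hc2 : Continuous fun r : ℝ => drf k ε β (fun y => H r.toNNReal y ω) x :=
        hω.comp continuous_real_toNNReal
      have e1 : ∑ i ∈ Finset.range n, (H (τ (i + 1)) x ω - H (τ i) x ω) =
          H t x ω - H s x ω := by
        rw [Finset.sum_range_sub (fun i => H (τ i) x ω), hτn, hτ0]
      have e2 : ∑ i ∈ Finset.range n, (∫ r in ((τ i : ℝ≥0) : ℝ)..(τ (i + 1) : ℝ≥0),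
          drf k ε β (fun y => H r.toNNReal y ω) x) =
          ∫ r in (s : ℝ)..t, drf k ε β (fun y => H r.toNNReal y ω) x := by
        have h := intervalIntegral.sum_integral_adjacent_intervals (μ := volume)
          (f := fun r : ℝ => drf k ε β (fun y => H r.toNNReal y ω) x)
          (a := fun i => ((τ i : ℝ≥0) : ℝ)) (n := n)
          (fun i _ => hc2.intervalIntegrable _ _)
        rw [hτn, hτ0] at h
        exact h
      have e3 : rsum B H x s t n ω = ∑ i ∈ Finset.range n,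
          mulv (fun a b => B x a b (τ (i + 1)) ω - B x a b (τ i) ω) (H (τ i) x ω) := by
        rw [hτ]
        simp only [rsum, Nat.cast_add, Nat.cast_one]
      rw [hξ]
      simp only [Mt]
      rw [Finset.sum_sub_distrib, Finset.sum_sub_distrib, e1, e2, e3]
    rw [eLpNorm_congr_ae hae, p2.eLpNorm_eq_integral_rpow_norm (by norm_num) (by norm_num)]
    refine ENNReal.ofReal_le_ofReal ?_
    have e4 : (2 : ℝ≥0∞).toReal = 2 := by norm_num
    rw [e4]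
    have e5 : ∀ y : ℝ, y ^ (2 : ℝ)⁻¹ = Real.sqrt y := by
      intro y
      rw [Real.sqrt_eq_rpow, one_div]
    rw [e5]
    refine Real.sqrt_le_sqrt ?_
    have e6 : ∫ ω, ‖∑ i ∈ Finset.range n, ξ i ω‖ ^ (2 : ℝ) ∂P =
        ∫ ω, ‖∑ i ∈ Finset.range n, ξ i ω‖ ^ 2 ∂P := by
      refine integral_congr_ae (Filter.Eventually.of_forall fun ω => ?_)
      simp only [Real.rpow_two]
    rw [e6]
    refine p3.trans (le_of_eq ?_)
    field_simp
  refine tendsto_of_tendsto_of_tendsto_of_le_of_le' tendsto_const_nhds ?_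
    (Filter.Eventually.of_forall fun n => zero_le)
    (Filter.eventually_atTop.2 ⟨1, fun n hn => key n hn⟩)
  have h1 : Tendsto (fun n : ℕ => (C * ((t : ℝ) - s) ^ 2) / (n : ℝ)) atTop (𝓝 0) :=
    tendsto_const_div_atTop_nhds_zero_nat _
  have h2 := (Real.continuous_sqrt.tendsto 0).comp h1
  have h3 := ENNReal.tendsto_ofReal h2
  simpa using h3

end DynX
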