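import Pool.Agent.Lib_MP_36b788x.XDefs

/-!
# Continuous modification from fourth moments of dyadic increments

PROOF. Put `δ m = 2^{-m/8}`. Good event `G` = all `ω` such that `X (m+1) (2j) ω = X m j ω` for all `m, j`, and for every
`T : ℕ` there is `m0` such that for all `m ≥ m0` and all `j` with `j + 1 ≤ T 2^m`: `‖X m (j+1) ω - X m j ω‖ ≤ δ m`.
`G` is measurable (countable unions and intersections). `P Gᶜ = 0`: the consistency is almost sure (`hc`, countably many), and by Markov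
`P(some j with j + 1 ≤ T 2^m and ‖…‖ > δ m) ≤ T 2^m C 2^{-2m} 2^{m/2}`, summable in `m`: Borel-Cantelli (`measure_limsup_atTop_eq_zero` or
`ae_eventually_notMem`), for every `T : ℕ`.
`S m t ω = X m ⌊2^m t⌋₊ ω`. For `ω ∈ G`, `t < T`, `m ≥ m0(T+1)`: `⌊2^{m+1} t⌋₊ ∈ {2⌊2^m t⌋₊, 2⌊2^m t⌋₊ + 1}`, so
`‖S (m+1) t - S m t‖ ≤ δ (m+1)` (consistency). `Σ δ m < ∞`, so `S m t ω` converges, uniformly for `t < T`:
`‖Y t ω - S m t ω‖ ≤ Σ_{i>m} δ i ≤ 12 δ m`. Define `Y t ω` = the limit for `ω ∈ G` and `0` otherwise (measurable: limit of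
measurable functions `G.indicator (S m t)`). Continuity: for `|t - s| ≤ 2^{-m}` and `s, t < T`, `m ≥ m0(T+1)` the indices `⌊2^m t⌋₊`, `⌊2^m s⌋₊`
differ by at most one, so `‖Y t - Y s‖ ≤ 25 δ m`. For `t = j/2^m`: `S (m+r) t = X (m+r) (2^r j) = X m j` on `G`, so `Y t = X m j` on `G`.
-/

open MeasureTheory ProbabilityTheory Filter Dyn
open scoped NNReal ENNReal Topology

namespace DynX

section det

variable {V : Type} [NormedAddCommGroup V] [NormedSpace ℝ V] [CompleteSpace V]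

private theorem XKC_floor (m : ℕ) (t : ℝ≥0) :
    ⌊2 ^ (m + 1) * t⌋₊ = 2 * ⌊2 ^ m * t⌋₊ ∨ ⌊2 ^ (m + 1) * t⌋₊ = 2 * ⌊2 ^ m * t⌋₊ + 1 := by
  have h1 : (⌊2 ^ m * t⌋₊ : ℝ≥0) ≤ 2 ^ m * t := Nat.floor_le zero_le
  have h2 : 2 ^ m * t < (⌊2 ^ m * t⌋₊ : ℝ≥0) + 1 := Nat.lt_floor_add_one _
  have h3 : (2 : ℝ≥0) ^ (m + 1) * t = 2 * (2 ^ m * t) := by ring
  have h4 : 2 * ⌊2 ^ m * t⌋₊ ≤ ⌊2 ^ (m + 1) * t⌋₊ := by
    rw [h3]
    refine Nat.le_floor ?_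
    push_cast
    gcongr
  have h5 : ⌊2 ^ (m + 1) * t⌋₊ < 2 * ⌊2 ^ m * t⌋₊ + 2 := by
    rw [h3]
    rw [Nat.floor_lt zero_le]
    push_cast
    calc 2 * (2 ^ m * t) < 2 * ((⌊2 ^ m * t⌋₊ : ℝ≥0) + 1) := by gcongr
      _ = _ := by ring
  omega

private theorem XKC_le {m T : ℕ} {t : ℝ≥0} (ht : t < T) : ⌊2 ^ m * t⌋₊ ≤ T * 2 ^ m := by
  refine Nat.floor_le_of_le ?_
  push_cast
  rw [mul_comm]
  gcongr

private theorem XKC_iter {x : ℕ → ℕ → V} (hx : ∀ m j, x (m + 1) (2 * j) = x m j) (m k j : ℕ) :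
    x (m + k) (2 ^ k * j) = x m j := by
  induction k with
  | zero => simp
  | succ k ih =>
    rw [← ih, show m + (k + 1) = (m + k) + 1 by ring, show 2 ^ (k + 1) * j = 2 * (2 ^ k * j) by ring, hx]

private theorem XKC_step {x : ℕ → ℕ → V} (hx : ∀ m j, x (m + 1) (2 * j) = x m j) {r : ℝ}
    (hr0 : 0 < r) {T m0 : ℕ}
    (hb : ∀ m, m0 ≤ m → ∀ j, j + 1 ≤ T * 2 ^ m → ‖x m (j + 1) - x m j‖ ≤ r ^ m) {t : ℝ≥0}
    (ht : t < T) {m : ℕ} (hm : m0 ≤ m) :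
    dist (x m ⌊2 ^ m * t⌋₊) (x (m + 1) ⌊2 ^ (m + 1) * t⌋₊) ≤ r ^ (m + 1) := by
  rw [dist_comm, dist_eq_norm]
  rcases XKC_floor m t with h | h
  · rw [h, hx, sub_self, norm_zero]
    positivity
  · have h1 := XKC_le (m := m + 1) ht
    rw [h] at h1
    have h2 := hb (m + 1) (by omega) (2 * ⌊2 ^ m * t⌋₊) h1
    rw [hx] at h2
    rw [h]
    exact h2

private theorem XKC_lim {x : ℕ → ℕ → V} (hx : ∀ m j, x (m + 1) (2 * j) = x m j) {r : ℝ}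
    (hr0 : 0 < r) (hr1 : r < 1) {T m0 : ℕ}
    (hb : ∀ m, m0 ≤ m → ∀ j, j + 1 ≤ T * 2 ^ m → ‖x m (j + 1) - x m j‖ ≤ r ^ m) {t : ℝ≥0}
    (ht : t < T) : ∃ y, Tendsto (fun m => x m ⌊2 ^ m * t⌋₊) atTop (𝓝 y) := by
  have h1 : CauchySeq fun n => x (n + m0) ⌊2 ^ (n + m0) * t⌋₊ := by
    refine cauchySeq_of_le_geometric r (r ^ (m0 + 1)) hr1 fun n => ?_
    have h2 := XKC_step hx hr0 hb ht (m := n + m0) (by omega)
    rw [show n + m0 + 1 = n + 1 + m0 by ring] at h2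
    refine h2.trans (le_of_eq ?_)
    ring
  obtain ⟨y, hy⟩ := cauchySeq_tendsto_of_complete h1
  exact ⟨y, (tendsto_add_atTop_iff_nat m0).mp hy⟩

private theorem XKC_bd {x : ℕ → ℕ → V} (hx : ∀ m j, x (m + 1) (2 * j) = x m j) {r : ℝ}
    (hr0 : 0 < r) (hr1 : r < 1) {T m0 : ℕ}
    (hb : ∀ m, m0 ≤ m → ∀ j, j + 1 ≤ T * 2 ^ m → ‖x m (j + 1) - x m j‖ ≤ r ^ m) {t : ℝ≥0}
    (ht : t < T) {y : V} (hy : Tendsto (fun m => x m ⌊2 ^ m * t⌋₊) atTop (𝓝 y)) {m : ℕ}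
    (hm : m0 ≤ m) : dist (x m ⌊2 ^ m * t⌋₊) y ≤ 1 / (1 - r) * r ^ m := by
  have h1 : Tendsto (fun n => x (n + m) ⌊2 ^ (n + m) * t⌋₊) atTop (𝓝 y) :=
    (tendsto_add_atTop_iff_nat m).mpr hy
  have h2 := dist_le_of_le_geometric_of_tendsto₀ r (r ^ (m + 1)) hr1 (f := fun n =>
    x (n + m) ⌊2 ^ (n + m) * t⌋₊) (fun n => by
      have h3 := XKC_step hx hr0 hb ht (m := n + m) (by omega)
      rw [show n + m + 1 = n + 1 + m by ring] at h3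
      refine h3.trans (le_of_eq ?_)
      ring) h1
  simp only [zero_add] at h2
  refine h2.trans ?_
  have h4 : r ^ (m + 1) ≤ r ^ m := pow_le_pow_of_le_one hr0.le hr1.le (Nat.le_succ m)
  have h5 : 0 < 1 - r := by linarith
  rw [div_mul_eq_mul_div, one_mul]
  gcongr

private theorem XKC_osc {x : ℕ → ℕ → V} {r : ℝ} (hr0 : 0 < r) {T m0 : ℕ}
    (hb : ∀ m, m0 ≤ m → ∀ j, j + 1 ≤ T * 2 ^ m → ‖x m (j + 1) - x m j‖ ≤ r ^ m) {s t : ℝ≥0}
    (hst : s ≤ t) (ht : t < T) {m : ℕ} (hm : m0 ≤ m) (hd : 2 ^ m * t ≤ 2 ^ m * s + 1) :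
    dist (x m ⌊2 ^ m * t⌋₊) (x m ⌊2 ^ m * s⌋₊) ≤ r ^ m := by
  have h1 : ⌊2 ^ m * s⌋₊ ≤ ⌊2 ^ m * t⌋₊ := Nat.floor_le_floor (by gcongr)
  have h2 : ⌊2 ^ m * t⌋₊ ≤ ⌊2 ^ m * s⌋₊ + 1 := by
    have h3 := Nat.floor_le_floor hd
    rwa [Nat.floor_add_one zero_le] at h3
  rcases Nat.eq_or_lt_of_le h1 with h3 | h3
  · rw [← h3, dist_self]
    positivity
  · have h4 : ⌊2 ^ m * t⌋₊ = ⌊2 ^ m * s⌋₊ + 1 := by omega
    have h5 := XKC_le (m := m) ht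
    rw [h4] at h5
    rw [h4, dist_eq_norm]
    exact hb m hm _ h5

private theorem XKC_det {x : ℕ → ℕ → V} (hx : ∀ m j, x (m + 1) (2 * j) = x m j) {r : ℝ}
    (hr0 : 0 < r) (hr1 : r < 1)
    (hb : ∀ T : ℕ, ∃ m0 : ℕ, ∀ m, m0 ≤ m → ∀ j, j + 1 ≤ T * 2 ^ m →
      ‖x m (j + 1) - x m j‖ ≤ r ^ m) :
    ∃ y : ℝ≥0 → V, Continuous y ∧ (∀ t, Tendsto (fun m => x m ⌊2 ^ m * t⌋₊) atTop (𝓝 (y t))) ∧
      ∀ m j : ℕ, y (j * hm m) = x m j := by
  have hex : ∀ t : ℝ≥0, ∃ T : ℕ, t + 1 < T := fun t => exists_nat_gt _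
  have hlim : ∀ t : ℝ≥0, ∃ y, Tendsto (fun m => x m ⌊2 ^ m * t⌋₊) atTop (𝓝 y) := by
    intro t
    obtain ⟨T, hT⟩ := hex t
    obtain ⟨m0, h0⟩ := hb T
    exact XKC_lim hx hr0 hr1 h0 (lt_of_le_of_lt (le_add_of_nonneg_right zero_le_one) hT)
  choose y hy using hlim
  refine ⟨y, ?_, hy, ?_⟩
  · rw [Metric.continuous_iff]
    intro b e he
    obtain ⟨T, hT⟩ := hex b
    obtain ⟨m0, h0⟩ := hb T
    set K : ℝ := 2 * (1 / (1 - r)) + 1 with hK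
    have hK0 : 0 < K := by
      have : 0 < 1 - r := by linarith
      positivity
    have h1 : Tendsto (fun m : ℕ => K * r ^ m) atTop (𝓝 0) := by
      have h2 := (tendsto_pow_atTop_nhds_zero_of_lt_one hr0.le hr1).const_mul K
      rwa [mul_zero] at h2
    obtain ⟨m, hme, hm⟩ := ((h1.eventually (gt_mem_nhds he)).and (eventually_ge_atTop m0)).exists
    refine ⟨min 1 ((1 / 2) ^ m), by positivity, fun a hab => ?_⟩
    have hbT : b < T := lt_of_le_of_lt (le_add_of_nonneg_right zero_le_one) hT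
    have hab1 : dist a b < 1 := lt_of_lt_of_le hab (min_le_left _ _)
    have hab2 : dist a b < (1 / 2) ^ m := lt_of_lt_of_le hab (min_le_right _ _)
    rw [NNReal.dist_eq] at hab1 hab2
    have haT : a < T := by
      refine lt_trans ?_ hT
      rw [← NNReal.coe_lt_coe]
      push_cast
      have := (abs_lt.mp hab1).2
      linarith
    have key : ∀ s t : ℝ≥0, s ≤ t → t < T → |(t : ℝ) - s| < (1 / 2) ^ m →
        dist (x m ⌊2 ^ m * t⌋₊) (x m ⌊2 ^ m * s⌋₊) ≤ r ^ m := by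
      intro s t hst ht hd
      refine XKC_osc hr0 h0 hst ht hm ?_
      rw [← NNReal.coe_le_coe]
      push_cast
      have h3 := (abs_lt.mp hd).2
      have h4 : (2 : ℝ) ^ m * (1 / 2) ^ m = 1 := by
        rw [← mul_pow]
        norm_num
      have h5 : (2 : ℝ) ^ m * ((t : ℝ) - s) ≤ 2 ^ m * (1 / 2) ^ m := by
        gcongr
      rw [h4] at h5
      linarith
    have h6 : dist (x m ⌊2 ^ m * a⌋₊) (x m ⌊2 ^ m * b⌋₊) ≤ r ^ m := by
      rcases le_total a b with h | h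
      · rw [dist_comm]
        exact key a b h hbT (by rw [abs_sub_comm]; exact hab2)
      · exact key b a h haT hab2
    have h7 := XKC_bd hx hr0 hr1 h0 haT (hy a) hm
    have h8 := XKC_bd hx hr0 hr1 h0 hbT (hy b) hm
    refine lt_of_le_of_lt ?_ hme
    calc dist (y a) (y b) ≤ dist (y a) (x m ⌊2 ^ m * a⌋₊) + dist (x m ⌊2 ^ m * a⌋₊)
          (x m ⌊2 ^ m * b⌋₊) + dist (x m ⌊2 ^ m * b⌋₊) (y b) := dist_triangle4 _ _ _ _
      _ ≤ 1 / (1 - r) * r ^ m + r ^ m + 1 / (1 - r) * r ^ m := by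
          rw [dist_comm] at h7
          gcongr
      _ = K * r ^ m := by rw [hK]; ring
  · intro m j
    have h1 : Tendsto (fun n => x (n + m) ⌊2 ^ (n + m) * (j * hm m)⌋₊) atTop
        (𝓝 (y (j * hm m))) := (tendsto_add_atTop_iff_nat m).mpr (hy _)
    have h2 : (fun n => x (n + m) ⌊2 ^ (n + m) * (j * hm m)⌋₊) = fun _ => x m j := by
      funext n
      have h3 : (2 : ℝ≥0) ^ (n + m) * (j * hm m) = ((2 ^ n * j : ℕ) : ℝ≥0) := by
        unfold hm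
        push_cast
        have h4 : (2 : ℝ≥0) ^ m * (1 / 2) ^ m = 1 := by
          rw [← mul_pow]
          norm_num
        calc (2 : ℝ≥0) ^ (n + m) * (j * (1 / 2) ^ m) = 2 ^ n * j * (2 ^ m * (1 / 2) ^ m) := by
              ring
          _ = 2 ^ n * j := by rw [h4, mul_one]
      rw [h3, Nat.floor_natCast, add_comm n m]
      exact XKC_iter hx m n j
    rw [h2] at h1
    exact tendsto_nhds_unique h1 tendsto_const_nhds

end det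

section prob

variable {Ω : Type} [MeasurableSpace Ω] {P : Measure Ω} {V : Type}
  [NormedAddCommGroup V] [NormedSpace ℝ V] [CompleteSpace V] [SecondCountableTopology V]
  [MeasurableSpace V] [BorelSpace V]

private def XKC_G (X : ℕ → ℕ → Ω → V) (r : ℝ) : Set Ω :=
  {ω | (∀ m j, X (m + 1) (2 * j) ω = X m j ω) ∧ ∀ T : ℕ, ∃ m0 : ℕ, ∀ m, m0 ≤ m → ∀ j,
    j + 1 ≤ T * 2 ^ m → ‖X m (j + 1) ω - X m j ω‖ ≤ r ^ m}

private theorem XKC_G_meas {X : ℕ → ℕ → Ω → V} (hX : ∀ m j, Measurable (X m j)) (r : ℝ) :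
    MeasurableSet (XKC_G X r) := by
  have h1 : XKC_G X r = (⋂ m, ⋂ j, {ω | X (m + 1) (2 * j) ω = X m j ω}) ∩
      ⋂ T : ℕ, ⋃ m0 : ℕ, ⋂ m : ℕ, ⋂ _ : m0 ≤ m, ⋂ j : ℕ, ⋂ _ : j + 1 ≤ T * 2 ^ m,
        {ω | ‖X m (j + 1) ω - X m j ω‖ ≤ r ^ m} := by
    ext ω
    simp only [XKC_G, Set.mem_ofPred_eq, Set.mem_inter_iff, Set.mem_iInter, Set.mem_iUnion]
  rw [h1]
  refine MeasurableSet.inter ?_ ?_
  · exact MeasurableSet.iInter fun m => MeasurableSet.iInter fun j =>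
      measurableSet_eq_fun (hX _ _) (hX _ _)
  · refine MeasurableSet.iInter fun T => MeasurableSet.iUnion fun m0 =>
      MeasurableSet.iInter fun m => MeasurableSet.iInter fun _ => MeasurableSet.iInter fun j =>
        MeasurableSet.iInter fun _ => ?_
    exact measurableSet_le ((hX _ _).sub (hX _ _)).norm measurable_const

private theorem XKC_markov [IsProbabilityMeasure P] {X : ℕ → ℕ → Ω → V}
    (hX : ∀ m j, Measurable (X m j)) {r : ℝ} (hr0 : 0 < r) (hr8 : r ^ 8 = 1 / 2) {T : ℕ} {C : ℝ}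
    (hC0 : 0 ≤ C)
    (hC : ∀ m j : ℕ, j + 1 ≤ T * 2 ^ m →
      ∫⁻ ω, ENNReal.ofReal (‖X m (j + 1) ω - X m j ω‖ ^ 4) ∂P ≤
        ENNReal.ofReal (C * ((1 / 2 : ℝ) ^ m) ^ 2)) (m : ℕ) :
    P {ω | ∃ j, j + 1 ≤ T * 2 ^ m ∧ r ^ m < ‖X m (j + 1) ω - X m j ω‖} ≤
      ENNReal.ofReal (T * C * (r ^ 4) ^ m) := by
  have h1 : {ω | ∃ j, j + 1 ≤ T * 2 ^ m ∧ r ^ m < ‖X m (j + 1) ω - X m j ω‖} ⊆
      ⋃ j ∈ Finset.range (T * 2 ^ m), {ω | ENNReal.ofReal ((r ^ m) ^ 4) ≤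
        ENNReal.ofReal (‖X m (j + 1) ω - X m j ω‖ ^ 4)} := by
    rintro ω ⟨j, hj, hω⟩
    rw [Set.mem_iUnion₂]
    refine ⟨j, Finset.mem_range.mpr hj, ?_⟩
    refine ENNReal.ofReal_le_ofReal ?_
    exact pow_le_pow_left₀ (by positivity) hω.le 4
  have hpos : 0 < (r ^ m) ^ 4 := by positivity
  have h2 : ∀ j ∈ Finset.range (T * 2 ^ m), P {ω | ENNReal.ofReal ((r ^ m) ^ 4) ≤
      ENNReal.ofReal (‖X m (j + 1) ω - X m j ω‖ ^ 4)} ≤
        ENNReal.ofReal (C * ((1 / 2 : ℝ) ^ m) ^ 2 / (r ^ m) ^ 4) := by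
    intro j hj
    have h3 := meas_ge_le_lintegral_div (μ := P)
      (f := fun ω => ENNReal.ofReal (‖X m (j + 1) ω - X m j ω‖ ^ 4))
      (((((hX m (j + 1)).sub (hX m j)).norm.pow_const 4).ennreal_ofReal).aemeasurable)
      (ε := ENNReal.ofReal ((r ^ m) ^ 4)) (by
        rw [Ne, ENNReal.ofReal_eq_zero, not_le]
        exact hpos) ENNReal.ofReal_ne_top
    refine h3.trans ?_
    rw [ENNReal.ofReal_div_of_pos hpos]
    gcongr
    exact hC m j (Finset.mem_range.mp hj)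
  refine (measure_mono h1).trans ((measure_biUnion_finset_le _ _).trans
    ((Finset.sum_le_sum h2).trans ?_))
  rw [Finset.sum_const, Finset.card_range, nsmul_eq_mul, ← ENNReal.ofReal_natCast,
    ← ENNReal.ofReal_mul (by positivity)]
  refine ENNReal.ofReal_le_ofReal (le_of_eq ?_)
  push_cast
  have h4 : (r ^ m) ^ 4 * (r ^ 4) ^ m = (1 / 2) ^ m := by
    rw [← hr8, ← pow_mul, ← pow_mul, ← pow_mul, ← pow_add]
    congr 1
    ring
  have h5 : (2 : ℝ) ^ m * (1 / 2) ^ m = 1 := by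
    rw [← mul_pow]
    norm_num
  rw [mul_div_assoc', div_eq_iff hpos.ne']
  calc (T : ℝ) * 2 ^ m * (C * ((1 / 2) ^ m) ^ 2) = T * C * (2 ^ m * (1 / 2) ^ m) * (1 / 2) ^ m := by
        ring
    _ = T * C * (1 / 2) ^ m := by rw [h5, mul_one]
    _ = T * C * (r ^ 4) ^ m * (r ^ m) ^ 4 := by rw [← h4]; ring

private theorem XKC_G_ae [IsProbabilityMeasure P] {X : ℕ → ℕ → Ω → V}
    (hX : ∀ m j, Measurable (X m j)) (hc : ∀ m j, X (m + 1) (2 * j) =ᵐ[P] X m j)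
    (hC : ∀ T : ℕ, ∃ C : ℝ, ∀ m j : ℕ, j + 1 ≤ T * 2 ^ m →
      ∫⁻ ω, ENNReal.ofReal (‖X m (j + 1) ω - X m j ω‖ ^ 4) ∂P ≤
        ENNReal.ofReal (C * ((1 / 2 : ℝ) ^ m) ^ 2)) {r : ℝ} (hr0 : 0 < r) (hr1 : r < 1)
    (hr8 : r ^ 8 = 1 / 2) : ∀ᵐ ω ∂P, ω ∈ XKC_G X r := by
  have h1 : ∀ᵐ ω ∂P, ∀ m j, X (m + 1) (2 * j) ω = X m j ω := by
    rw [ae_all_iff]
    intro m
    rw [ae_all_iff]
    exact fun j => hc m j
  have h2 : ∀ᵐ ω ∂P, ∀ T : ℕ, ∃ m0 : ℕ, ∀ m, m0 ≤ m → ∀ j,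
      j + 1 ≤ T * 2 ^ m → ‖X m (j + 1) ω - X m j ω‖ ≤ r ^ m := by
    rw [ae_all_iff]
    intro T
    obtain ⟨C, hCT⟩ := hC T
    have hCT' : ∀ m j : ℕ, j + 1 ≤ T * 2 ^ m →
        ∫⁻ ω, ENNReal.ofReal (‖X m (j + 1) ω - X m j ω‖ ^ 4) ∂P ≤
          ENNReal.ofReal (|C| * ((1 / 2 : ℝ) ^ m) ^ 2) := by
      intro m j hj
      refine (hCT m j hj).trans (ENNReal.ofReal_le_ofReal ?_)
      gcongr
      exact le_abs_self C
    have h3 := XKC_markov hX hr0 hr8 (abs_nonneg C) hCT'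
    have h4 : ∑' m, P {ω | ∃ j, j + 1 ≤ T * 2 ^ m ∧ r ^ m < ‖X m (j + 1) ω - X m j ω‖} ≠ ∞ := by
      have hs : Summable fun m : ℕ => (T : ℝ) * |C| * (r ^ 4) ^ m :=
        (summable_geometric_of_lt_one (by positivity)
          (pow_lt_one₀ hr0.le hr1 (by norm_num))).mul_left _
      exact ne_top_of_le_ne_top hs.tsum_ofReal_ne_top (ENNReal.tsum_le_tsum h3)
    filter_upwards [ae_eventually_notMem h4] with ω hω
    obtain ⟨m0, hm0⟩ := eventually_atTop.mp hω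
    refine ⟨m0, fun m hm j hj => ?_⟩
    by_contra h5
    exact hm0 m hm ⟨j, hj, not_le.mp h5⟩
  filter_upwards [h1, h2] with ω h3 h4
  exact ⟨h3, h4⟩

end prob

theorem kc {Ω : Type} [MeasurableSpace Ω] (P : Measure Ω) [IsProbabilityMeasure P] {V : Type}
    [NormedAddCommGroup V] [NormedSpace ℝ V] [CompleteSpace V] [SecondCountableTopology V]
    [MeasurableSpace V] [BorelSpace V] (X : ℕ → ℕ → Ω → V) (hm' : ∀ m j, Measurable (X m j))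
    (hc : ∀ m j, X (m + 1) (2 * j) =ᵐ[P] X m j)
    (hC : ∀ T : ℕ, ∃ C : ℝ, ∀ m j : ℕ, j + 1 ≤ T * 2 ^ m →
      ∫⁻ ω, ENNReal.ofReal (‖X m (j + 1) ω - X m j ω‖ ^ 4) ∂P ≤
        ENNReal.ofReal (C * ((1 / 2 : ℝ) ^ m) ^ 2)) :
    ∃ Y : ℝ≥0 → Ω → V, (∀ t, Measurable (Y t)) ∧ (∀ ω, Continuous (fun t => Y t ω)) ∧
      ∀ m j : ℕ, Y (j * hm m) =ᵐ[P] X m j := by
  classical
  obtain ⟨r, hr0, hr1, hr8⟩ : ∃ r : ℝ, 0 < r ∧ r < 1 ∧ r ^ 8 = 1 / 2 := by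
    refine ⟨(1 / 2 : ℝ) ^ ((1 : ℝ) / 8), by positivity,
      Real.rpow_lt_one (by norm_num) (by norm_num) (by norm_num), ?_⟩
    rw [← Real.rpow_natCast, ← Real.rpow_mul (by norm_num)]
    norm_num
  have hG := XKC_G_meas hm' r
  have hae := XKC_G_ae hm' hc hC hr0 hr1 hr8
  have hdet : ∀ ω ∈ XKC_G X r, ∃ y : ℝ≥0 → V, Continuous y ∧
      (∀ t, Tendsto (fun m => X m ⌊2 ^ m * t⌋₊ ω) atTop (𝓝 (y t))) ∧
      ∀ m j : ℕ, y (j * hm m) = X m j ω := fun ω hω =>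
    XKC_det (x := fun m j => X m j ω) hω.1 hr0 hr1 hω.2
  choose! y hy1 hy2 hy3 using hdet
  refine ⟨fun t ω => if ω ∈ XKC_G X r then y ω t else 0, fun t => ?_, fun ω => ?_, fun m j => ?_⟩
  · refine measurable_of_tendsto_metrizable
      (f := fun m => (XKC_G X r).indicator (X m ⌊2 ^ m * t⌋₊))
      (fun m => (hm' _ _).indicator hG) ?_
    rw [tendsto_pi_nhds]
    intro ω
    by_cases h : ω ∈ XKC_G X r
    · simp only [Set.indicator_of_mem h, if_pos h]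
      exact hy2 ω h t
    · simp only [Set.indicator_of_notMem h, if_neg h]
      exact tendsto_const_nhds
  · by_cases h : ω ∈ XKC_G X r
    · simp only [if_pos h]
      exact hy1 ω h
    · simp only [if_neg h]
      exact continuous_const
  · filter_upwards [hae] with ω h
    simp only [if_pos h]
    exact hy3 ω h m j

end DynX
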