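import Pool.Agent.Lib_MP_36b788x.XC

/-!
# Limits at dyadic times

PROOF. Fix `x`, `m`, `j`, `A_r = ac (hm (m+r)) (2^r j) x`, all measurable for `ℱ (j hm m)` (`ac_meas`, `(2^r j) hm (m+r) = j hm m`). `ac_cauchy` with level `m+r` and one more step:
`E‖A_{r+1} - A_r‖² ≤ C √(hm (m+r))`, summable against `q^(-r)`, so `Σ_r ‖A_{r+1} - A_r‖ < ∞` a.s. (`lintegral_tsum`) and `A_r` converges a.s.
`X m j x ω` = `limUnder` of `A_r`, measurable for `ℱ (j hm m)` (`StronglyMeasurable.limUnder`). Consistency `X (m+1) (2j) = X m j`: the sequence for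
`(m+1, 2j)` is the tail of the sequence for `(m, j)`, same filter, so equality for every `ω`.
* `conv`: Fatou in `r → ∞` in `ac_cauchy`: `E‖X m j - ac (hm m) j‖² ≤ C √(hm m)`.
* `mom`: Fatou in `ac_mom`.
* `inc`: Fatou in `ac_inc` (`j + 1 ↦ (j+1) 2^r`, `j ↦ j 2^r`).
-/

open MeasureTheory ProbabilityTheory Filter Dyn
open scoped NNReal ENNReal Topology

namespace DynX

variable {Ω : Type} [mΩ : MeasurableSpace Ω] {P : Measure Ω} {N d : ℕ}
    {ℱ : Filtration ℝ≥0 mΩ} {B : Site d → Fin N → Fin N → ℝ≥0 → Ω → ℝ}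
    {H0 : Site d → Ω → E N} {k ε β : ℝ}

/-- Fatou for a sequence with bounded integrals. -/
private theorem fatou_le {f : ℕ → Ω → ℝ≥0∞} {g : Ω → ℝ≥0∞} {C : ℝ≥0∞}
    (hf : ∀ n, Measurable (f n)) (hl : ∀ᵐ ω ∂P, Tendsto (fun n => f n ω) atTop (𝓝 (g ω)))
    (hC : ∀ n, ∫⁻ ω, f n ω ∂P ≤ C) : ∫⁻ ω, g ω ∂P ≤ C := by
  have h1 : ∫⁻ ω, g ω ∂P = ∫⁻ ω, liminf (fun n => f n ω) atTop ∂P := by
    refine lintegral_congr_ae ?_
    filter_upwards [hl] with ω hω
    exact hω.liminf_eq.symm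
  rw [h1]
  refine (lintegral_liminf_le hf).trans ?_
  refine liminf_le_of_frequently_le' ?_
  exact Frequently.of_forall hC

private theorem hm_le_one (m : ℕ) : hm m ≤ 1 := by
  unfold hm
  exact pow_le_one₀ (by positivity) (by norm_num)

private theorem hm_time (m r j : ℕ) : ((2 ^ r * j : ℕ) : ℝ≥0) * hm (m + r) = j * hm m := by
  unfold hm
  push_cast
  rw [pow_add]
  have : (2 : ℝ≥0) ^ r * (1 / 2) ^ r = 1 := by
    rw [← mul_pow]; norm_num
  calc (2 : ℝ≥0) ^ r * j * ((1 / 2) ^ m * (1 / 2) ^ r)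
      = ((2 : ℝ≥0) ^ r * (1 / 2) ^ r) * (j * (1 / 2) ^ m) := by ring
    _ = _ := by rw [this, one_mul]

/-- the sequence of approximations -/
private noncomputable def apx (k ε β : ℝ) (B : Site d → Fin N → Fin N → ℝ≥0 → Ω → ℝ)
    (H0 : Site d → Ω → E N) (m j : ℕ) (x : Site d) (r : ℕ) (ω : Ω) : E N :=
  ac k ε β (hm (m + r)) B H0 (2 ^ r * j) ω x

private theorem sq_meas (hN : Noise P ℱ B H0) (hβ : 0 < β) (hε : 0 < ε) (m j : ℕ)
    (x : Site d) (r : ℕ) : Measurable[ℱ (j * hm m)] (apx k ε β B H0 m j x r) := by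
  have h := ac_meas (k := k) hN hβ hε (hm (m + r)) (2 ^ r * j) x
  rw [hm_time] at h
  exact h

private theorem sq_meas' (hN : Noise P ℱ B H0) (hβ : 0 < β) (hε : 0 < ε) (m j : ℕ)
    (x : Site d) (r : ℕ) : Measurable (apx k ε β B H0 m j x r) :=
  (sq_meas (k := k) hN hβ hε m j x r).mono (ℱ.le _) le_rfl

private theorem sub_pow_int [IsFiniteMeasure P] {a b : Ω → E N} (p : ℕ) (ha : Measurable a)
    (hb : Measurable b) (ia : Integrable (fun ω => ‖a ω‖ ^ p) P)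
    (ib : Integrable (fun ω => ‖b ω‖ ^ p) P) : Integrable (fun ω => ‖a ω - b ω‖ ^ p) P := by
  refine Integrable.mono' ((ia.add ib).const_mul (2 ^ (p - 1))) ?_ ?_
  · exact (((ha.sub hb).norm).pow_const p).aestronglyMeasurable
  · refine Eventually.of_forall fun ω => ?_
    rw [Real.norm_of_nonneg (by positivity)]
    calc ‖a ω - b ω‖ ^ p ≤ (‖a ω‖ + ‖b ω‖) ^ p :=
          pow_le_pow_left₀ (norm_nonneg _) (norm_sub_le _ _) p
      _ ≤ 2 ^ (p - 1) * (‖a ω‖ ^ p + ‖b ω‖ ^ p) :=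
          add_pow_le (norm_nonneg _) (norm_nonneg _) p

private theorem lint_le {f : Ω → ℝ} {C : ℝ} (hi : Integrable f P) (h0 : ∀ ω, 0 ≤ f ω)
    (hC : ∫ ω, f ω ∂P ≤ C) : ∫⁻ ω, ENNReal.ofReal (f ω) ∂P ≤ ENNReal.ofReal C := by
  rw [← ofReal_integral_eq_lintegral_ofReal hi (Eventually.of_forall h0)]
  exact ENNReal.ofReal_le_ofReal hC

private theorem sq_int (hN : Noise P ℱ B H0) (hβ : 0 < β) (hε : 0 < ε) (m j : ℕ)
    (x : Site d) (r p : ℕ) : Integrable (fun ω => ‖apx k ε β B H0 m j x r ω‖ ^ p) P :=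
  ac_mem hN hβ hε _ _ p x

private theorem sqrt_hm (m : ℕ) :
    Real.sqrt ((hm m : ℝ≥0) : ℝ) = (Real.sqrt (1 / 2)) ^ m := by
  unfold hm
  push_cast
  rw [Real.sqrt_eq_iff_mul_self_eq (by positivity) (by positivity), ← mul_pow,
    Real.mul_self_sqrt (by norm_num)]

/-- one more step of the sequence in square mean -/
private theorem sq_step (hN : Noise P ℱ B H0) (hβ : 0 < β) (hε : 0 < ε) (hk : 0 ≤ k) (m j : ℕ)
    (x : Site d) : ∃ C : ℝ, 0 ≤ C ∧ ∀ r : ℕ,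
      ∫⁻ ω, ENNReal.ofReal (‖apx k ε β B H0 m j x r ω - apx k ε β B H0 m j x (r + 1) ω‖ ^ 2) ∂P ≤
        ENNReal.ofReal (C * (Real.sqrt (1 / 2)) ^ (m + r)) := by
  have := hN.prob
  obtain ⟨C, hC0, hC⟩ := ac_cauchy (k := k) hN hβ hε hk (j * hm m)
  refine ⟨C, hC0, fun r => ?_⟩
  have h1 := hC (m + r) 1 (2 ^ r * j) (by rw [hm_time]) x
  have h2 : ∀ ω, ac k ε β (hm (m + r + 1)) B H0 (2 ^ 1 * (2 ^ r * j)) ω x =
      apx k ε β B H0 m j x (r + 1) ω := by
    intro ω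
    unfold apx
    rw [show 2 ^ 1 * (2 ^ r * j) = 2 ^ (r + 1) * j by ring, add_assoc]
  simp only [h2] at h1
  rw [sqrt_hm] at h1
  exact lint_le (sub_pow_int 2 (sq_meas' hN hβ hε m j x r) (sq_meas' hN hβ hε m j x (r + 1))
    (sq_int hN hβ hε m j x r 2) (sq_int hN hβ hε m j x (r + 1) 2)) (fun ω => by positivity) h1

private theorem sq_conv (hN : Noise P ℱ B H0) (hβ : 0 < β) (hε : 0 < ε) (hk : 0 ≤ k) (m j : ℕ)
    (x : Site d) : ∀ᵐ ω ∂P, ∃ c : E N,
      Tendsto (fun r => apx k ε β B H0 m j x r ω) atTop (𝓝 c) := by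
  have := hN.prob
  obtain ⟨C, hC0, hC⟩ := sq_step (k := k) hN hβ hε hk m j x
  set s : ℝ := Real.sqrt (1 / 2) with hs
  set q : ℝ := Real.sqrt s with hq
  have hs0 : 0 < s := Real.sqrt_pos.2 (by norm_num)
  have hs1 : s < 1 := by
    rw [hs, Real.sqrt_lt' (by norm_num)]; norm_num
  have hq0 : 0 < q := Real.sqrt_pos.2 hs0
  have hq1 : q < 1 := by
    rw [hq, Real.sqrt_lt' (by norm_num)]; linarith
  have hqq : q * q = s := Real.mul_self_sqrt hs0.le
  set D : ℕ → Ω → ℝ := fun r ω => ‖apx k ε β B H0 m j x r ω - apx k ε β B H0 m j x (r + 1) ω‖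
    with hD
  have hDm : ∀ r, Measurable (D r) := fun r =>
    ((sq_meas' hN hβ hε m j x r).sub (sq_meas' hN hβ hε m j x (r + 1))).norm
  have hD0 : ∀ r ω, 0 ≤ D r ω := fun r ω => norm_nonneg _
  -- weighted squares
  have hb : ∀ r, ∫⁻ ω, ENNReal.ofReal ((q ^ r)⁻¹ * (D r ω) ^ 2) ∂P ≤
      ENNReal.ofReal (C * q ^ r) := by
    intro r
    have e1 : ∀ ω, ENNReal.ofReal ((q ^ r)⁻¹ * (D r ω) ^ 2) =
        ENNReal.ofReal ((q ^ r)⁻¹) * ENNReal.ofReal ((D r ω) ^ 2) := fun ω =>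
      ENNReal.ofReal_mul (by positivity)
    simp only [e1]
    rw [lintegral_const_mul _ ((hDm r).pow_const 2).ennreal_ofReal]
    calc ENNReal.ofReal ((q ^ r)⁻¹) * ∫⁻ ω, ENNReal.ofReal ((D r ω) ^ 2) ∂P
        ≤ ENNReal.ofReal ((q ^ r)⁻¹) * ENNReal.ofReal (C * s ^ (m + r)) := by
          gcongr; exact hC r
      _ = ENNReal.ofReal ((q ^ r)⁻¹ * (C * s ^ (m + r))) :=
          (ENNReal.ofReal_mul (by positivity)).symm
      _ ≤ ENNReal.ofReal (C * q ^ r) := by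
          refine ENNReal.ofReal_le_ofReal ?_
          have h3 : s ^ (m + r) ≤ s ^ r := pow_le_pow_of_le_one hs0.le hs1.le (by omega)
          have h4 : s ^ r = q ^ r * q ^ r := by rw [← hqq, mul_pow]
          calc (q ^ r)⁻¹ * (C * s ^ (m + r)) ≤ (q ^ r)⁻¹ * (C * s ^ r) := by gcongr
            _ = C * q ^ r := by
              rw [h4]; field_simp
  have hsum : Summable (fun r : ℕ => C * q ^ r) :=
    (summable_geometric_of_lt_one hq0.le hq1).mul_left C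
  have hfin : ∫⁻ ω, ∑' r, ENNReal.ofReal ((q ^ r)⁻¹ * (D r ω) ^ 2) ∂P ≠ ∞ := by
    rw [lintegral_tsum (fun r =>
      (((hDm r).pow_const 2).const_mul _).ennreal_ofReal.aemeasurable)]
    refine ne_top_of_le_ne_top ?_ (ENNReal.tsum_le_tsum hb)
    rw [← ENNReal.ofReal_tsum_of_nonneg (fun r => by positivity) hsum]
    exact ENNReal.ofReal_ne_top
  have hae : ∀ᵐ ω ∂P, ∑' r, ENNReal.ofReal ((q ^ r)⁻¹ * (D r ω) ^ 2) < ∞ := by
    refine ae_lt_top ?_ hfin
    exact Measurable.tsum (fun r => (((hDm r).pow_const 2).const_mul _).ennreal_ofReal)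
  filter_upwards [hae] with ω hω
  have h5 : Summable (fun r => (q ^ r)⁻¹ * (D r ω) ^ 2) := by
    have h6 := ENNReal.summable_toReal hω.ne
    refine h6.congr fun r => ?_
    rw [ENNReal.toReal_ofReal (by positivity)]
  have h7 : Summable (fun r => D r ω) := by
    refine Summable.of_nonneg_of_le (fun r => hD0 r ω) (fun r => ?_)
      ((summable_geometric_of_lt_one hq0.le hq1).add h5)
    have hqr : 0 < q ^ r := by positivity
    rcases le_total (D r ω) (q ^ r) with h | h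
    · have : 0 ≤ (q ^ r)⁻¹ * (D r ω) ^ 2 := by positivity
      linarith
    · have h8 : D r ω ≤ (q ^ r)⁻¹ * (D r ω) ^ 2 := by
        rw [inv_mul_eq_div, le_div_iff₀ hqr, sq]
        exact mul_le_mul_of_nonneg_left h (hD0 r ω)
      linarith
  have h9 : CauchySeq (fun r => apx k ε β B H0 m j x r ω) := by
    refine cauchySeq_of_summable_dist ?_
    simpa [dist_eq_norm, hD] using h7
  exact cauchySeq_tendsto_of_complete h9

/-- the limit -/
private noncomputable def lm (k ε β : ℝ) (B : Site d → Fin N → Fin N → ℝ≥0 → Ω → ℝ)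
    (H0 : Site d → Ω → E N) (m j : ℕ) (x : Site d) (ω : Ω) : E N :=
  limUnder atTop (fun r => apx k ε β B H0 m j x r ω)

private theorem lm_tendsto (hN : Noise P ℱ B H0) (hβ : 0 < β) (hε : 0 < ε) (hk : 0 ≤ k)
    (m j : ℕ) (x : Site d) : ∀ᵐ ω ∂P,
      Tendsto (fun r => apx k ε β B H0 m j x r ω) atTop (𝓝 (lm k ε β B H0 m j x ω)) := by
  filter_upwards [sq_conv (k := k) hN hβ hε hk m j x] with ω hω
  exact tendsto_nhds_limUnder hω

private theorem lm_meas (hN : Noise P ℱ B H0) (hβ : 0 < β) (hε : 0 < ε) (m j : ℕ)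
    (x : Site d) : Measurable[ℱ (j * hm m)] (lm k ε β B H0 m j x) := by
  have h1 : ∀ r, StronglyMeasurable[ℱ (j * hm m)] (apx k ε β B H0 m j x r) := fun r =>
    (sq_meas (k := k) hN hβ hε m j x r).stronglyMeasurable
  exact (@StronglyMeasurable.limUnder ℕ Ω (E N) (ℱ (j * hm m)) _ _ atTop _
    (fun r ω => apx k ε β B H0 m j x r ω) inferInstance _ h1).measurable

omit mΩ in
private theorem lm_cons (m j : ℕ) (x : Site d) :
    lm k ε β B H0 (m + 1) (2 * j) x = lm k ε β B H0 m j x := by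
  funext ω
  unfold lm limUnder
  congr 1
  have h1 : (fun r => apx k ε β B H0 (m + 1) (2 * j) x r ω) =
      (fun r => apx k ε β B H0 m j x r ω) ∘ (fun r => r + 1) := by
    funext r
    simp only [Function.comp, apx]
    rw [show m + 1 + r = m + (r + 1) by ring, show 2 ^ r * (2 * j) = 2 ^ (r + 1) * j by ring]
  rw [h1, ← Filter.map_map, Filter.map_add_atTop_eq_nat]

omit mΩ in
private theorem lm_zero (m : ℕ) (x : Site d) : lm k ε β B H0 m 0 x = H0 x := by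
  funext ω
  unfold lm
  have h1 : (fun r => apx k ε β B H0 m 0 x r ω) = fun _ => H0 x ω := by
    funext r
    unfold apx
    rw [mul_zero]
    rfl
  rw [h1]
  exact tendsto_const_nhds.limUnder_eq

/-- Fatou for powers of the norm -/
private theorem fatou_norm (p : ℕ) {a : ℕ → Ω → E N} {b : Ω → E N} {C : ℝ≥0∞}
    (ha : ∀ r, Measurable (a r)) (hl : ∀ᵐ ω ∂P, Tendsto (fun r => a r ω) atTop (𝓝 (b ω)))
    (hC : ∀ r, ∫⁻ ω, ENNReal.ofReal (‖a r ω‖ ^ p) ∂P ≤ C) :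
    ∫⁻ ω, ENNReal.ofReal (‖b ω‖ ^ p) ∂P ≤ C := by
  refine fatou_le (f := fun r ω => ENNReal.ofReal (‖a r ω‖ ^ p))
    (fun r => ENNReal.measurable_ofReal.comp ((ha r).norm.pow_const p)) ?_ hC
  filter_upwards [hl] with ω hω
  exact (ENNReal.continuous_ofReal.tendsto _).comp ((hω.norm).pow p)

theorem exists_dyadic (hN : Noise P ℱ B H0) (hβ : 0 < β) (hε : 0 < ε) (hk : 0 ≤ k) :
    ∃ X : ℕ → ℕ → Site d → Ω → E N, (∀ (m j : ℕ) (x : Site d), Measurable[ℱ (j * hm m)] (X m j x)) ∧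
      (∀ m j x, X (m + 1) (2 * j) x = X m j x) ∧ (∀ m x, X m 0 x =ᵐ[P] H0 x) ∧
      (∀ (p : ℕ) (T : ℝ≥0), ∃ C : ℝ, ∀ m j : ℕ, j * hm m ≤ T → ∀ x,
        ∫⁻ ω, ENNReal.ofReal (‖X m j x ω‖ ^ p) ∂P ≤ ENNReal.ofReal C) ∧
      (∀ T : ℝ≥0, ∃ C : ℝ, 0 ≤ C ∧ ∀ m i j : ℕ, i ≤ j → j * hm m ≤ T → ∀ x,
        ∫⁻ ω, ENNReal.ofReal (‖X m j x ω - X m i x ω‖ ^ 4) ∂P ≤
          ENNReal.ofReal (C * (((j : ℝ) - i) * hm m) ^ 2)) ∧
      ∀ T : ℝ≥0, ∃ C : ℝ, 0 ≤ C ∧ ∀ m j : ℕ, j * hm m ≤ T → ∀ x,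
        ∫⁻ ω, ENNReal.ofReal (‖X m j x ω - ac k ε β (hm m) B H0 j ω x‖ ^ 2) ∂P ≤
          ENNReal.ofReal (C * Real.sqrt (hm m)) := by
  have := hN.prob
  refine ⟨lm k ε β B H0, fun m j x => lm_meas hN hβ hε m j x, fun m j x => lm_cons m j x,
    fun m x => ?_, ?_, ?_, ?_⟩
  · rw [lm_zero]
  · intro p T
    obtain ⟨C, hC0, hC⟩ := ac_mom (k := k) hN hβ hε hk p T
    refine ⟨C, fun m j hj x => ?_⟩
    refine fatou_norm p (a := apx k ε β B H0 m j x) (fun r => sq_meas' hN hβ hε m j x r)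
      (lm_tendsto hN hβ hε hk m j x) fun r => ?_
    refine lint_le (sq_int hN hβ hε m j x r p) (fun ω => by positivity) ?_
    exact hC (hm (m + r)) (hm_le_one _) (2 ^ r * j) (by rw [hm_time]; exact hj) x
  · intro T
    obtain ⟨C, hC0, hC⟩ := ac_inc (k := k) hN hβ hε hk T
    refine ⟨C, hC0, fun m i j hij hj x => ?_⟩
    refine fatou_norm 4 (a := fun r ω => apx k ε β B H0 m j x r ω - apx k ε β B H0 m i x r ω)
      (b := fun ω => lm k ε β B H0 m j x ω - lm k ε β B H0 m i x ω)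
      (fun r => (sq_meas' hN hβ hε m j x r).sub (sq_meas' hN hβ hε m i x r)) ?_ fun r => ?_
    · filter_upwards [lm_tendsto (k := k) hN hβ hε hk m j x,
        lm_tendsto (k := k) hN hβ hε hk m i x] with ω h1 h2
      exact h1.sub h2
    · refine lint_le (sub_pow_int 4 (sq_meas' hN hβ hε m j x r) (sq_meas' hN hβ hε m i x r)
        (sq_int hN hβ hε m j x r 4) (sq_int hN hβ hε m i x r 4)) (fun ω => by positivity) ?_
      have h1 := hC (hm (m + r)) (hm_le_one _) (2 ^ r * i) (2 ^ r * j)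
        (Nat.mul_le_mul_left _ hij) (by rw [hm_time]; exact hj) x
      have h2 : ((((2 ^ r * j : ℕ) : ℝ) - ((2 ^ r * i : ℕ) : ℝ)) * ((hm (m + r) : ℝ≥0) : ℝ)) =
          ((j : ℝ) - i) * ((hm m : ℝ≥0) : ℝ) := by
        have e1 := congrArg (fun z : ℝ≥0 => (z : ℝ)) (hm_time m r j)
        have e2 := congrArg (fun z : ℝ≥0 => (z : ℝ)) (hm_time m r i)
        simp only [NNReal.coe_mul, NNReal.coe_natCast] at e1 e2
        rw [sub_mul, e1, e2, sub_mul]
      rw [h2] at h1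
      exact h1
  · intro T
    obtain ⟨C, hC0, hC⟩ := ac_cauchy (k := k) hN hβ hε hk T
    refine ⟨C, hC0, fun m j hj x => ?_⟩
    refine fatou_norm 2
      (a := fun r ω => apx k ε β B H0 m j x r ω - ac k ε β (hm m) B H0 j ω x)
      (b := fun ω => lm k ε β B H0 m j x ω - ac k ε β (hm m) B H0 j ω x)
      (fun r => (sq_meas' hN hβ hε m j x r).sub
        ((ac_meas (k := k) hN hβ hε (hm m) j x).mono (ℱ.le _) le_rfl)) ?_ fun r => ?_
    · filter_upwards [lm_tendsto (k := k) hN hβ hε hk m j x] with ω h1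
      exact h1.sub tendsto_const_nhds
    · refine lint_le (sub_pow_int 2 (sq_meas' hN hβ hε m j x r)
        ((ac_meas (k := k) hN hβ hε (hm m) j x).mono (ℱ.le _) le_rfl)
        (sq_int hN hβ hε m j x r 2) (ac_mem hN hβ hε _ _ 2 x)) (fun ω => by positivity) ?_
      have h1 := hC m r j hj x
      refine le_trans (le_of_eq ?_) h1
      refine integral_congr_ae (Eventually.of_forall fun ω => ?_)
      simp only [apx]
      rw [norm_sub_rev]

end DynX
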