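import Pool.Agent.Lib_MP_36b788x.XDefs

/-!
# Completion of a filtration

PROOF. `cmp P m` = all measurable `A` such that `A =ᵐ[P] A'` for some `m`-measurable `A'`. It is a σ-algebra (complements, countable unions:
`EventuallyEq.compl`, `EventuallyEq.countable_iUnion`), contains `m` (if `m ≤ mΩ`) and all measurable null sets (`A' = ∅`), monotone in `m`. Independence:
`P(A ∩ C) = P(A' ∩ C) = P A' P C = P A P C` (`Indep_iff`).
-/

open MeasureTheory ProbabilityTheory Filter Dyn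
open scoped NNReal ENNReal Topology

namespace DynX

@[instance_reducible]
private def cmp {Ω : Type} {mΩ : MeasurableSpace Ω} (P : Measure Ω) (m : MeasurableSpace Ω) :
    MeasurableSpace Ω :=
  eventuallyMeasurableSpace m (ae P) ⊓ mΩ

private lemma cmp_iff {Ω : Type} {mΩ : MeasurableSpace Ω} (P : Measure Ω)
    (m : MeasurableSpace Ω) (A : Set Ω) :
    MeasurableSet[cmp P m] A ↔
      (∃ A' : Set Ω, MeasurableSet[m] A' ∧ A =ᵐ[P] A') ∧ MeasurableSet[mΩ] A :=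
  MeasurableSpace.measurableSet_inf

theorem exists_compl {Ω : Type} [mΩ : MeasurableSpace Ω] (P : Measure Ω) [IsProbabilityMeasure P]
    (𝒢 : Filtration ℝ≥0 mΩ) :
    ∃ ℱ : Filtration ℝ≥0 mΩ, (∀ t, 𝒢 t ≤ ℱ t) ∧
      (∀ (t : ℝ≥0) (A : Set Ω), MeasurableSet A → P A = 0 → MeasurableSet[ℱ t] A) ∧
      ∀ (t : ℝ≥0) (m : MeasurableSpace Ω), m ≤ mΩ → Indep (𝒢 t) m P → Indep (ℱ t) m P := by
  refine ⟨⟨fun t => cmp P (𝒢 t), ?_, ?_⟩, ?_, ?_, ?_⟩
  · intro s t hst A hA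
    change MeasurableSet[cmp P (𝒢 s)] A at hA
    change MeasurableSet[cmp P (𝒢 t)] A
    rw [cmp_iff] at hA ⊢
    obtain ⟨⟨A', hA', hAA'⟩, hA2⟩ := hA
    exact ⟨⟨A', 𝒢.mono hst _ hA', hAA'⟩, hA2⟩
  · intro t
    exact inf_le_right
  · intro t A hA
    change MeasurableSet[cmp P (𝒢 t)] A
    rw [cmp_iff]
    exact ⟨⟨A, hA, EventuallyEq.rfl⟩, 𝒢.le t _ hA⟩
  · intro t A hA hPA
    change MeasurableSet[cmp P (𝒢 t)] A
    rw [cmp_iff]
    exact ⟨⟨∅, @MeasurableSet.empty _ (𝒢 t), (ae_eq_empty.2 hPA)⟩, hA⟩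
  · intro t m hm hind
    change Indep (cmp P (𝒢 t)) m P
    rw [Indep_iff] at hind ⊢
    intro A C hA hC
    rw [cmp_iff] at hA
    obtain ⟨⟨A', hA', hAA'⟩, hA2⟩ := hA
    rw [measure_congr hAA', measure_congr (hAA'.inter (EventuallyEq.refl _ C))]
    exact hind A' C hA' hC

/-- a measurable function which is a.e. equal to an `ℱ t`-measurable one is `ℱ t`-measurable -/
theorem meas_compl {Ω : Type} [mΩ : MeasurableSpace Ω] (P : Measure Ω)
    (m : MeasurableSpace Ω) (hm' : m ≤ mΩ)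
    (hc : ∀ A : Set Ω, MeasurableSet[mΩ] A → P A = 0 → MeasurableSet[m] A) {V : Type}
    [MeasurableSpace V] (f g : Ω → V) (hf : Measurable[mΩ] f) (hg : Measurable[m] g)
    (hfg : f =ᵐ[P] g) : Measurable[m] f := by
  intro s hs
  have h1 : MeasurableSet[mΩ] (f ⁻¹' s) := hf hs
  have h2 : MeasurableSet[m] (g ⁻¹' s) := hg hs
  have h3 : MeasurableSet[mΩ] (g ⁻¹' s) := hm' _ h2
  have hN : P {ω | f ω ≠ g ω} = 0 := hfg
  have h4 : MeasurableSet[m] (f ⁻¹' s \ g ⁻¹' s) := by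
    refine hc _ (h1.diff h3) (measure_mono_null ?_ hN)
    rintro ω ⟨ha, hb⟩ he
    exact hb (by change g ω ∈ s; rw [← he]; exact ha)
  have h5 : MeasurableSet[m] (g ⁻¹' s \ f ⁻¹' s) := by
    refine hc _ (h3.diff h1) (measure_mono_null ?_ hN)
    rintro ω ⟨ha, hb⟩ he
    exact hb (by change f ω ∈ s; rw [he]; exact ha)
  have h6 : f ⁻¹' s = (g ⁻¹' s \ (g ⁻¹' s \ f ⁻¹' s)) ∪ (f ⁻¹' s \ g ⁻¹' s) := by
    ext ω
    simp only [Set.mem_union, Set.mem_sdiff, Set.mem_preimage]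
    tauto
  rw [h6]
  exact MeasurableSet.union (MeasurableSet.diff h2 h5) h4

end DynX
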