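import Pool.Agent.Lib_MP_36b788x.XL1
import Pool.Agent.Lib_MP_36b788x.XKC
import Pool.Agent.Lib_MP_36b788x.XN2

/-!
# The limit process

PROOF. For each `x` apply `kc` to `X m j x` of `exists_dyadic` (`V = E N`): `H t x`. All properties at dyadic times from `exists_dyadic` and `H (j hm m) x = X m j x` a.s.
* `cont`: every `ω`.
* `adapted`: `t_n = ⌊2^n t⌋₊ hm n ≤ t`, `t_n → t`, `X n ⌊2^n t⌋₊ x` is `ℱ t`-measurable, `H t x = lim H t_n x` surely, `H t_n x = X ..` a.s. So `H t x` is a.e. equal to the limit (where it exists, `0`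
  elsewhere) of `ℱ t`-measurable functions; `meas_compl` with `Noise.compl`.
* `init`: `X 0 0 x = H0 x` a.s.
* `mom`, `inc`: Fatou along `t_n → t`, `s_n → s` (indices `⌊2^n t⌋₊`, `⌊2^n s⌋₊` at the common level `n`, times `≤ T`), fourth moment `≤ C |t_n - s_n|²`, then Cauchy-Schwarz for the
  second moment: `≤ √C (t-s)`.
* `conv`: directly.
-/

open MeasureTheory ProbabilityTheory Filter Dyn
open scoped NNReal ENNReal Topology

namespace DynX

section XL2aux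

private noncomputable def xl2i (n : ℕ) (t : ℝ≥0) : ℕ := ⌊2 ^ n * t⌋₊

private lemma xl2_hm_mul (n : ℕ) (a : ℝ≥0) : 2 ^ n * a * hm n = a := by
  have h : (2 : ℝ≥0) ^ n * hm n = 1 := by
    rw [hm, ← mul_pow]; norm_num
  calc 2 ^ n * a * hm n = a * (2 ^ n * hm n) := by ring
    _ = a := by rw [h, mul_one]

private lemma xl2_le (n : ℕ) (t : ℝ≥0) : (xl2i n t : ℝ≥0) * hm n ≤ t := by
  have h1 : ((xl2i n t : ℕ) : ℝ≥0) ≤ 2 ^ n * t := Nat.floor_le zero_le
  calc (xl2i n t : ℝ≥0) * hm n ≤ 2 ^ n * t * hm n := by gcongr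
    _ = t := xl2_hm_mul n t

private lemma xl2_ge (n : ℕ) (t : ℝ≥0) : t ≤ (xl2i n t : ℝ≥0) * hm n + hm n := by
  have h1 : 2 ^ n * t ≤ ((xl2i n t : ℕ) : ℝ≥0) + 1 := (Nat.lt_floor_add_one _).le
  calc t = 2 ^ n * t * hm n := (xl2_hm_mul n t).symm
    _ ≤ (((xl2i n t : ℕ) : ℝ≥0) + 1) * hm n := by gcongr
    _ = _ := by ring

private lemma xl2_hm_tendsto : Tendsto (fun n => hm n) atTop (𝓝 0) := by
  unfold hm
  exact NNReal.tendsto_pow_atTop_nhds_zero_of_lt_one (by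
    rw [div_lt_one (by norm_num)]; norm_num)

private lemma xl2_tendsto (t : ℝ≥0) :
    Tendsto (fun n => (xl2i n t : ℝ≥0) * hm n) atTop (𝓝 t) := by
  have h1 : Tendsto (fun n => t - hm n) atTop (𝓝 t) := by
    have := (tendsto_const_nhds (x := t)).sub xl2_hm_tendsto
    simpa using this
  refine tendsto_of_tendsto_of_tendsto_of_le_of_le h1 tendsto_const_nhds ?_ ?_
  · intro n
    exact tsub_le_iff_right.mpr (xl2_ge n t)
  · intro n
    exact xl2_le n t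

private lemma xl2_fatou {Ω : Type} [MeasurableSpace Ω] (P : Measure Ω) (f : ℕ → Ω → ℝ≥0∞)
    (g : Ω → ℝ≥0∞) (hf : ∀ n, Measurable (f n))
    (hg : ∀ ω, Tendsto (fun n => f n ω) atTop (𝓝 (g ω))) (c : ℕ → ℝ≥0∞) (c0 : ℝ≥0∞)
    (hc : Tendsto c atTop (𝓝 c0)) (h : ∀ n, ∫⁻ ω, f n ω ∂P ≤ c n) : ∫⁻ ω, g ω ∂P ≤ c0 := by
  calc ∫⁻ ω, g ω ∂P = ∫⁻ ω, liminf (fun n => f n ω) atTop ∂P := by
        refine lintegral_congr (fun ω => ?_)
        exact (hg ω).liminf_eq.symm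
    _ ≤ liminf (fun n => ∫⁻ ω, f n ω ∂P) atTop := lintegral_liminf_le hf
    _ ≤ liminf c atTop := liminf_le_liminf (Eventually.of_forall h)
    _ = c0 := hc.liminf_eq

private lemma xl2_int_le {Ω : Type} [MeasurableSpace Ω] (P : Measure Ω) {f : Ω → ℝ}
    (hf : ∀ ω, 0 ≤ f ω) {C : ℝ} (hC : 0 ≤ C)
    (h : ∫⁻ ω, ENNReal.ofReal (f ω) ∂P ≤ ENNReal.ofReal C) : ∫ ω, f ω ∂P ≤ C := by
  have h1 := norm_integral_le_lintegral_norm (μ := P) f
  have h2 : ∫⁻ ω, ENNReal.ofReal ‖f ω‖ ∂P = ∫⁻ ω, ENNReal.ofReal (f ω) ∂P := by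
    refine lintegral_congr (fun ω => ?_)
    rw [Real.norm_of_nonneg (hf ω)]
  rw [h2] at h1
  calc ∫ ω, f ω ∂P ≤ ‖∫ ω, f ω ∂P‖ := Real.le_norm_self _
    _ ≤ _ := h1
    _ ≤ (ENNReal.ofReal C).toReal := ENNReal.toReal_mono ENNReal.ofReal_ne_top h
    _ = C := ENNReal.toReal_ofReal hC

private lemma xl2_integrable {Ω : Type} [MeasurableSpace Ω] (P : Measure Ω) {f : Ω → ℝ}
    (hf : ∀ ω, 0 ≤ f ω) (hm' : Measurable f) {C : ℝ}
    (h : ∫⁻ ω, ENNReal.ofReal (f ω) ∂P ≤ ENNReal.ofReal C) : Integrable f P := by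
  refine ⟨hm'.aestronglyMeasurable, ?_⟩
  rw [hasFiniteIntegral_iff_ofReal (Eventually.of_forall hf)]
  exact lt_of_le_of_lt h ENNReal.ofReal_lt_top

/-- Cauchy-Schwarz: from the fourth to the second moment -/
private lemma xl2_cs {Ω : Type} [MeasurableSpace Ω] (P : Measure Ω) [IsProbabilityMeasure P]
    {f : Ω → ℝ} (hf : ∀ ω, 0 ≤ f ω) (hm' : Measurable f) {a : ℝ} (ha : 0 ≤ a)
    (h : ∫⁻ ω, ENNReal.ofReal (f ω ^ 4) ∂P ≤ ENNReal.ofReal (a ^ 2)) :
    ∫ ω, f ω ^ 2 ∂P ≤ a := by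
  have h4 : Integrable (fun ω => f ω ^ 4) P :=
    xl2_integrable P (fun ω => by have := hf ω; positivity) (hm'.pow_const 4) h
  have h4' : ∫ ω, f ω ^ 4 ∂P ≤ a ^ 2 :=
    xl2_int_le P (fun ω => by have := hf ω; positivity) (by positivity) h
  have h2 : Integrable (fun ω => f ω ^ 2) P := by
    refine Integrable.mono' (h4.add (integrable_const (1 : ℝ))) (hm'.pow_const 2).aestronglyMeasurable ?_
    refine Eventually.of_forall (fun ω => ?_)
    have h0 := hf ω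
    rw [Real.norm_of_nonneg (by positivity)]
    show f ω ^ 2 ≤ f ω ^ 4 + 1
    nlinarith [sq_nonneg (f ω ^ 2 - 1), sq_nonneg (f ω ^ 2)]
  refine le_of_forall_pos_le_add (fun e he => ?_)
  set b := a + e with hb
  have hb0 : 0 < b := by positivity
  have hpt : ∀ ω, f ω ^ 2 ≤ (f ω ^ 4 / b + b) / 2 := by
    intro ω
    rw [le_div_iff₀ (by norm_num), div_add' _ _ _ hb0.ne', le_div_iff₀ hb0]
    nlinarith [sq_nonneg (f ω ^ 2 - b)]
  calc ∫ ω, f ω ^ 2 ∂P ≤ ∫ ω, (f ω ^ 4 / b + b) / 2 ∂P :=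
        integral_mono h2 (((h4.div_const b).add (integrable_const b)).div_const 2) hpt
    _ = ((∫ ω, f ω ^ 4 ∂P) / b + b) / 2 := by
        rw [integral_div, integral_add (h4.div_const b) (integrable_const b), integral_div]
        simp
    _ ≤ (b ^ 2 / b + b) / 2 := by
        have : ∫ ω, f ω ^ 4 ∂P ≤ b ^ 2 := h4'.trans (by
          apply pow_le_pow_left₀ ha; linarith)
        gcongr
    _ = b := by field_simp; ring
    _ = a + e := hb

/-- a measurable function a.e. equal to an `m`-measurable one is `m`-measurable if `m` contains the null sets -/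
private lemma xl2_meas {Ω : Type} [mΩ : MeasurableSpace Ω] (P : Measure Ω)
    (m : MeasurableSpace Ω)
    (hc : ∀ A : Set Ω, MeasurableSet[mΩ] A → P A = 0 → MeasurableSet[m] A) {V : Type}
    [MeasurableSpace V] (f g : Ω → V) (hf : Measurable[mΩ] f) (hg : Measurable[m] g)
    (hfg : f =ᵐ[P] g) : Measurable[m] f := by
  intro S hS
  let Z : Set Ω := @toMeasurable Ω mΩ P {ω | f ω ≠ g ω}
  have hZm : MeasurableSet[mΩ] Z := @measurableSet_toMeasurable Ω mΩ P _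
  have hZ0 : P Z = 0 := (@measure_toMeasurable Ω mΩ P {ω | f ω ≠ g ω}).trans hfg
  have hZm' : MeasurableSet[m] Z := hc Z hZm hZ0
  have h1 : MeasurableSet[m] (f ⁻¹' S ∩ Z) :=
    hc _ (@MeasurableSet.inter Ω mΩ _ _ (hf hS) hZm)
      (@measure_mono_null Ω (@Measure Ω mΩ) _ _ P _ _ Set.inter_subset_right hZ0)
  have h2 : MeasurableSet[m] (g ⁻¹' S ∩ Zᶜ) :=
    @MeasurableSet.inter Ω m _ _ (hg hS) (@MeasurableSet.compl Ω _ m hZm')
  have h3 : f ⁻¹' S = (f ⁻¹' S ∩ Z) ∪ (g ⁻¹' S ∩ Zᶜ) := by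
    ext ω
    by_cases hω : ω ∈ Z
    · simp [hω]
    · have h4 : f ω = g ω := by
        by_contra hne
        exact hω (@subset_toMeasurable Ω mΩ P _ ω hne)
      simp [hω, h4]
  rw [h3]
  exact @MeasurableSet.union Ω m _ _ h1 h2

end XL2aux

variable {Ω : Type} [mΩ : MeasurableSpace Ω] {P : Measure Ω} {N d : ℕ}
    {ℱ : Filtration ℝ≥0 mΩ} {B : Site d → Fin N → Fin N → ℝ≥0 → Ω → ℝ}
    {H0 : Site d → Ω → E N} {k ε β : ℝ}

theorem exists_lim (hN : Noise P ℱ B H0) (hβ : 0 < β) (hε : 0 < ε) (hk : 0 ≤ k) :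
    ∃ H : ℝ≥0 → Site d → Ω → E N, IsLim P k ε β ℱ B H0 H := by
  have := hN.prob
  obtain ⟨X, hXm, hXc, hX0, hXmom, hXinc, hXconv⟩ := exists_dyadic hN hβ hε hk
  have hXm' : ∀ m j x, Measurable (X m j x) := fun m j x => (hXm m j x).mono (ℱ.le _) le_rfl
  have hkc : ∀ x : Site d, ∃ Y : ℝ≥0 → Ω → E N, (∀ t, Measurable (Y t)) ∧
      (∀ ω, Continuous (fun t => Y t ω)) ∧ ∀ m j : ℕ, Y (j * hm m) =ᵐ[P] X m j x := by
    intro x
    refine kc P (fun m j => X m j x) (fun m j => hXm' m j x) (fun m j => ?_) (fun T => ?_)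
    · show X (m + 1) (2 * j) x =ᵐ[P] X m j x
      rw [hXc m j x]
    · obtain ⟨C, hC0, hC⟩ := hXinc T
      refine ⟨C, fun m j hj => ?_⟩
      have h1 : ((j + 1 : ℕ) : ℝ≥0) * hm m ≤ (T : ℝ≥0) := by
        have h2 : ((j + 1 : ℕ) : ℝ≥0) ≤ 2 ^ m * (T : ℝ≥0) := by
          have : ((j + 1 : ℕ) : ℝ≥0) ≤ ((T * 2 ^ m : ℕ) : ℝ≥0) := by exact_mod_cast hj
          rw [mul_comm]
          simpa using this
        calc ((j + 1 : ℕ) : ℝ≥0) * hm m ≤ 2 ^ m * (T : ℝ≥0) * hm m := by gcongr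
          _ = T := xl2_hm_mul m _
      have h2 := hC m j (j + 1) (Nat.le_succ j) h1 x
      refine h2.trans (le_of_eq ?_)
      congr 1
      simp [hm]
  choose Y hYm hYc hYe using hkc
  have hYt : ∀ x t ω, Tendsto (fun n => Y x ((xl2i n t : ℝ≥0) * hm n) ω) atTop (𝓝 (Y x t ω)) :=
    fun x t ω => ((hYc x ω).tendsto t).comp (xl2_tendsto t)
  refine ⟨fun t x => Y x t, ?_, ?_, ?_, ?_, ?_, ?_⟩
  · intro t x
    have h1 : ∀ n, Measurable[ℱ t] (Y x ((xl2i n t : ℝ≥0) * hm n)) := by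
      intro n
      refine xl2_meas P (ℱ t) (hN.compl t) _ (X n (xl2i n t) x) (hYm x _) ?_
        (hYe x n (xl2i n t))
      exact (hXm n (xl2i n t) x).mono (ℱ.mono (xl2_le n t)) le_rfl
    exact @measurable_of_tendsto_metrizable Ω (E N) (ℱ t) _ _ _ _ _ _ h1
      (tendsto_pi_nhds.mpr (fun ω => hYt x t ω))
  · intro x
    exact Eventually.of_forall (hYc x)
  · intro x
    have h1 := hYe x 0 0
    simp only [Nat.cast_zero, zero_mul] at h1
    exact h1.trans (hX0 0 x)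
  · intro p T
    obtain ⟨C, hC⟩ := hXmom p T
    refine ⟨max C 0, fun t ht x => ?_⟩
    have h1 : ∫⁻ ω, ENNReal.ofReal (‖Y x t ω‖ ^ p) ∂P ≤ ENNReal.ofReal (max C 0) := by
      refine xl2_fatou P (fun n ω => ENNReal.ofReal (‖Y x ((xl2i n t : ℝ≥0) * hm n) ω‖ ^ p)) _
        (fun n => ((hYm x _).norm.pow_const p).ennreal_ofReal)
        (fun ω => ENNReal.tendsto_ofReal (((hYt x t ω).norm).pow p)) (fun _ => _) _
        tendsto_const_nhds (fun n => ?_)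
      have h2 : ∫⁻ ω, ENNReal.ofReal (‖Y x ((xl2i n t : ℝ≥0) * hm n) ω‖ ^ p) ∂P =
          ∫⁻ ω, ENNReal.ofReal (‖X n (xl2i n t) x ω‖ ^ p) ∂P := by
        refine lintegral_congr_ae ?_
        filter_upwards [hYe x n (xl2i n t)] with ω hω
        rw [hω]
      show ∫⁻ ω, ENNReal.ofReal (‖Y x ((xl2i n t : ℝ≥0) * hm n) ω‖ ^ p) ∂P ≤ _
      rw [h2]
      refine (hC n (xl2i n t) ((xl2_le n t).trans ht) x).trans ?_
      exact ENNReal.ofReal_le_ofReal (le_max_left _ _)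
    exact ⟨xl2_integrable P (fun ω => by positivity) ((hYm x t).norm.pow_const p) h1,
      xl2_int_le P (fun ω => by positivity) (le_max_right _ _) h1⟩
  · intro T
    obtain ⟨C, hC0, hC⟩ := hXinc T
    refine ⟨Real.sqrt C, Real.sqrt_nonneg _, fun s t hst htT x => ?_⟩
    have hst' : (s : ℝ) ≤ t := by exact_mod_cast hst
    refine xl2_cs P (f := fun ω => ‖Y x t ω - Y x s ω‖) (fun ω => norm_nonneg _)
      ((hYm x t).sub (hYm x s)).norm
      (mul_nonneg (Real.sqrt_nonneg _) (by linarith)) ?_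
    have h3 : Tendsto (fun n => ENNReal.ofReal (C * ((((xl2i n t : ℕ) : ℝ) - (xl2i n s : ℕ)) * hm n) ^ 2))
        atTop (𝓝 (ENNReal.ofReal ((Real.sqrt C * ((t : ℝ) - s)) ^ 2))) := by
      refine ENNReal.tendsto_ofReal ?_
      have h4 : ∀ u : ℝ≥0, Tendsto (fun n => ((xl2i n u : ℕ) : ℝ) * (hm n : ℝ)) atTop (𝓝 (u : ℝ)) := by
        intro u
        have := (NNReal.tendsto_coe.mpr (xl2_tendsto u))
        simpa using this
      have h5 := ((h4 t).sub (h4 s))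
      have h6 := (h5.pow 2).const_mul C
      rw [mul_pow, Real.sq_sqrt hC0]
      refine h6.congr (fun n => ?_)
      ring
    refine xl2_fatou P (fun n ω => ENNReal.ofReal
      (‖Y x ((xl2i n t : ℝ≥0) * hm n) ω - Y x ((xl2i n s : ℝ≥0) * hm n) ω‖ ^ 4)) _
        (fun n => (((hYm x _).sub (hYm x _)).norm.pow_const 4).ennreal_ofReal)
        (fun ω => ENNReal.tendsto_ofReal ((((hYt x t ω).sub (hYt x s ω)).norm).pow 4)) _ _
        h3 (fun n => ?_)
    have h2 : ∫⁻ ω, ENNReal.ofReal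
        (‖Y x ((xl2i n t : ℝ≥0) * hm n) ω - Y x ((xl2i n s : ℝ≥0) * hm n) ω‖ ^ 4) ∂P =
          ∫⁻ ω, ENNReal.ofReal (‖X n (xl2i n t) x ω - X n (xl2i n s) x ω‖ ^ 4) ∂P := by
      refine lintegral_congr_ae ?_
      filter_upwards [hYe x n (xl2i n t), hYe x n (xl2i n s)] with ω h1 h2
      rw [h1, h2]
    show ∫⁻ ω, ENNReal.ofReal
        (‖Y x ((xl2i n t : ℝ≥0) * hm n) ω - Y x ((xl2i n s : ℝ≥0) * hm n) ω‖ ^ 4) ∂P ≤ _
    rw [h2]
    have hi : xl2i n s ≤ xl2i n t := by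
      unfold xl2i
      apply Nat.floor_mono
      gcongr
    exact hC n (xl2i n s) (xl2i n t) hi ((xl2_le n t).trans htT) x
  · intro T
    obtain ⟨C, hC0, hC⟩ := hXconv T
    refine ⟨C, hC0, fun m j hj x => ?_⟩
    refine xl2_int_le P (fun ω => by positivity) (mul_nonneg hC0 (Real.sqrt_nonneg _)) ?_
    refine le_trans (le_of_eq ?_) (hC m j hj x)
    refine lintegral_congr_ae ?_
    filter_upwards [hYe x m j] with ω hω
    rw [hω]

end DynX
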