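import Pool.Agent.Lib_MP_36b788x.XZ

/-!
# Euler chain on the infinite lattice: adapted, all moments finite

PROOF. `ac_meas`: induction on `n`: `ac n` is `ℱ (n h)`-measurable, the increments are `ℱ ((n+1) h)`-measurable, `J` is continuous (`J_continuous`),
`mulv` is continuous (`mulv_continuous`), `lap` is a finite sum.
`ac_mem`: induction on `n`, for all `p` at the same time (`MemLp … (p : ℝ≥0∞)`): `‖J v‖ ≤ ‖v‖` (`norm_J`, `psi_le`), `MemLp` is closed under sums,
`‖mulv ΔB A‖^p ∈ L¹` by `mulv_pow` with `Z = 1` and `2q ≥ p`.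
-/

open MeasureTheory ProbabilityTheory Filter Dyn
open scoped NNReal ENNReal Topology

namespace DynX

private theorem XM1_gen {Ω : Type} {N d : ℕ} (m : MeasurableSpace Ω) (c : ℝ) {J' : E N → E N}
    (hJ : Continuous J') (b : Ω → Fin N → Fin N → ℝ) (hb : ∀ i j, Measurable (fun ω => b ω i j))
    (A : Ω → Site d → E N) (hA : ∀ y, Measurable (fun ω => A ω y)) (x : Site d) :
    Measurable (fun ω => J' (A ω x + mulv (b ω) (A ω x)) + c • lap (A ω) x) := by
  have hb' : Measurable b := measurable_pi_lambda _ fun i => measurable_pi_lambda _ fun j => hb i j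
  have hmul : Measurable (fun ω => mulv (b ω) (A ω x)) :=
    (mulv_continuous N).measurable.comp (hb'.prodMk (hA x))
  have hlap : Measurable (fun ω => lap (A ω) x) := by
    unfold lap
    exact Finset.measurable_fun_sum _ fun i _ =>
      ((hA _).sub (hA _)).add ((hA _).sub (hA _))
  have h1 : Measurable (fun ω => J' (A ω x + mulv (b ω) (A ω x))) :=
    hJ.measurable.comp ((hA x).add hmul)
  have h2 : Measurable (fun ω => c • lap (A ω) x) := hlap.const_smul c
  exact h1.add h2

variable {Ω : Type} [mΩ : MeasurableSpace Ω] {P : Measure Ω} {N d : ℕ}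
    {ℱ : Filtration ℝ≥0 mΩ} {B : Site d → Fin N → Fin N → ℝ≥0 → Ω → ℝ}
    {H0 : Site d → Ω → E N} {k ε β : ℝ}

theorem ac_meas (hN : Noise P ℱ B H0) (hβ : 0 < β) (hε : 0 < ε) (h : ℝ≥0) (n : ℕ) (x : Site d) :
    Measurable[ℱ (n * h)] (fun ω => ac k ε β h B H0 n ω x) := by
  have hJ : Continuous (J (N := N) β (ε * h)) := J_continuous hβ (by positivity)
  induction n generalizing x with
  | zero =>
    have h0 : (((0 : ℕ) : ℝ≥0) * h) = 0 := by simp
    rw [h0]
    exact hN.h0 x
  | succ n ih =>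
    have hle : ((n : ℕ) : ℝ≥0) * h ≤ ((n + 1 : ℕ) : ℝ≥0) * h :=
      mul_le_mul_of_nonneg_right (by exact_mod_cast Nat.le_succ n) zero_le
    have ih' : ∀ y : Site d, Measurable[ℱ (((n + 1 : ℕ) : ℝ≥0) * h)]
        (fun ω => ac k ε β h B H0 n ω y) := fun y => (ih y).mono (ℱ.mono hle) le_rfl
    refine XM1_gen (ℱ (((n + 1 : ℕ) : ℝ≥0) * h)) (k * h) hJ
      (fun ω a b => B x a b ((n + 1) * h) ω - B x a b (n * h) ω) (fun a b => ?_)
      (ac k ε β h B H0 n) ih' x
    refine Measurable.sub (m := ℱ (((n + 1 : ℕ) : ℝ≥0) * h)) ?_ ?_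
    · have h1 := hN.adaptB x a b (((n + 1 : ℕ) : ℝ≥0) * h)
      have h2 : (((n + 1 : ℕ) : ℝ≥0) * h) = ((n : ℝ≥0) + 1) * h := by push_cast; ring
      rw [h2] at h1 ⊢
      exact h1
    · exact (hN.adaptB x a b _).mono (ℱ.mono hle) le_rfl

private theorem XM1_mem (hN : Noise P ℱ B H0) (hβ : 0 < β) (hε : 0 < ε) (h : ℝ≥0) (n : ℕ) :
    ∀ (p : ℕ) (x : Site d), MemLp (fun ω => ac k ε β h B H0 n ω x) (p : ℝ≥0∞) P := by
  have := hN.prob
  have hJc : Continuous (J (N := N) β (ε * h)) := J_continuous hβ (by positivity)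
  have hJn : ∀ v : E N, ‖J β (ε * h) v‖ ≤ ‖v‖ := fun v => by
    rw [norm_J hβ (by positivity)]
    exact psi_le hβ (by positivity) (norm_nonneg v)
  induction n with
  | zero =>
    intro p x
    have hm : AEStronglyMeasurable (H0 x) P :=
      ((hN.h0 x).mono (ℱ.le 0) le_rfl).aestronglyMeasurable
    show MemLp (H0 x) (p : ℝ≥0∞) P
    rcases Nat.eq_zero_or_pos p with hp | hp
    · subst hp
      rw [Nat.cast_zero, memLp_zero_iff_aestronglyMeasurable]
      exact hm
    · obtain ⟨C, hC⟩ := hN.mom p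
      have h1 := (hC x).1
      rw [← integrable_norm_rpow_iff hm (by exact_mod_cast hp.ne') (ENNReal.natCast_ne_top p)]
      simpa using h1
  | succ n ih =>
    intro p x
    have hst : ((n : ℝ≥0)) * h ≤ ((n : ℝ≥0) + 1) * h :=
      mul_le_mul_of_nonneg_right (by exact_mod_cast Nat.le_succ n) zero_le
    have hA : Measurable[ℱ (n * h)] (fun ω => ac k ε β h B H0 n ω x) := ac_meas hN hβ hε h n x
    have hmulm : AEStronglyMeasurable (fun ω =>
        mulv (fun a b => B x a b ((n + 1) * h) ω - B x a b (n * h) ω)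
          (ac k ε β h B H0 n ω x)) P := by
      have hB : Measurable (fun (ω : Ω) (a b : Fin N) =>
          B x a b ((n + 1) * h) ω - B x a b (n * h) ω) := by
        refine measurable_pi_lambda _ fun a => measurable_pi_lambda _ fun b => ?_
        exact ((hN.adaptB x a b _).mono (ℱ.le _) le_rfl).sub
          ((hN.adaptB x a b _).mono (ℱ.le _) le_rfl)
      exact ((mulv_continuous N).measurable.comp
        (hB.prodMk (hA.mono (ℱ.le _) le_rfl))).aestronglyMeasurable
    have hmul : MemLp (fun ω =>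
        mulv (fun a b => B x a b ((n + 1) * h) ω - B x a b (n * h) ω)
          (ac k ε β h B H0 n ω x)) (p : ℝ≥0∞) P := by
      rcases Nat.eq_zero_or_pos p with hp | hp
      · subst hp
        rw [Nat.cast_zero, memLp_zero_iff_aestronglyMeasurable]
        exact hmulm
      obtain ⟨C, hC0, hC⟩ := mulv_pow N p
      have h1 := hC Ω P d ℱ B H0 hN _ _ hst x (fun ω => ac k ε β h B H0 n ω x) (fun _ => 1) hA
        measurable_const
      simp only [one_mul] at h1
      have h2 : MemLp (fun ω => ac k ε β h B H0 n ω x) ((2 * p : ℕ) : ℝ≥0∞) P := ih (2 * p) x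
      have h3 : Integrable (fun ω => ‖ac k ε β h B H0 n ω x‖ ^ (2 * p)) P :=
        h2.integrable_norm_pow (by omega)
      have h4 : ∫⁻ ω, ENNReal.ofReal (‖ac k ε β h B H0 n ω x‖ ^ (2 * p)) ∂P < ⊤ :=
        (hasFiniteIntegral_iff_ofReal (Eventually.of_forall fun ω => by positivity)).1 h3.2
      have h5 : Integrable (fun ω =>
          ‖mulv (fun a b => B x a b ((n + 1) * h) ω - B x a b (n * h) ω)
            (ac k ε β h B H0 n ω x)‖ ^ (2 * p)) P := by
        refine ⟨hmulm.norm.pow _, ?_⟩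
        rw [hasFiniteIntegral_iff_ofReal (Eventually.of_forall fun ω => by positivity)]
        exact h1.trans_lt (ENNReal.mul_lt_top ENNReal.ofReal_lt_top h4)
      have h6 : MemLp (fun ω =>
          mulv (fun a b => B x a b ((n + 1) * h) ω - B x a b (n * h) ω)
            (ac k ε β h B H0 n ω x)) ((2 * p : ℕ) : ℝ≥0∞) P := by
        rw [← integrable_norm_rpow_iff hmulm (by exact_mod_cast (by omega : 2 * p ≠ 0))
          (ENNReal.natCast_ne_top _), ENNReal.toReal_natCast]
        simpa only [Real.rpow_natCast] using h5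
      exact h6.mono_exponent (by exact_mod_cast (by omega : p ≤ 2 * p))
    have hsum : MemLp (fun ω => ac k ε β h B H0 n ω x +
        mulv (fun a b => B x a b ((n + 1) * h) ω - B x a b (n * h) ω)
          (ac k ε β h B H0 n ω x)) (p : ℝ≥0∞) P := (ih p x).add hmul
    have hJ : MemLp (fun ω => J β (ε * h) (ac k ε β h B H0 n ω x +
        mulv (fun a b => B x a b ((n + 1) * h) ω - B x a b (n * h) ω)
          (ac k ε β h B H0 n ω x))) (p : ℝ≥0∞) P :=
      hsum.mono (hJc.comp_aestronglyMeasurable hsum.1) (Eventually.of_forall fun ω => hJn _)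
    have hlap : MemLp (fun ω => lap (ac k ε β h B H0 n ω) x) (p : ℝ≥0∞) P := by
      unfold lap
      refine memLp_finsetSum _ fun i _ => ?_
      exact ((ih p _).sub (ih p _)).add ((ih p _).sub (ih p _))
    have h2 : MemLp (fun ω => (k * h) • lap (ac k ε β h B H0 n ω) x) (p : ℝ≥0∞) P :=
      hlap.const_smul (k * h)
    exact hJ.add h2

theorem ac_mem (hN : Noise P ℱ B H0) (hβ : 0 < β) (hε : 0 < ε) (h : ℝ≥0) (n p : ℕ) (x : Site d) :
    Integrable (fun ω => ‖ac k ε β h B H0 n ω x‖ ^ p) P := by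
  have := hN.prob
  exact (XM1_mem hN hβ hε h n p x).integrable_norm_pow'

end DynX
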