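import Pool.Agent.Lib_MP_36b788x.XM1

/-!
# Uniform moment bounds of the Euler chain

PROOF. Even powers `p = 2q`, `q ≥ 1` (odd ones: `y^p ≤ 1 + y^{2p}`; `p = 0` trivial).
(1) Algebra: there is `C_q` with `‖v+w‖^{2q} ≤ ‖v‖^{2q} + 2q ‖v‖^{2q-2} ⟪v,w⟫ + C_q (‖v‖^{2q-2} ‖w‖² + ‖w‖^{2q})`
(`‖v+w‖² = a + 2c + b`, `|c| ≤ √(ab)`; expand `(a + 2c + b)^q`; or by induction on `q`).
(2) `v = A = ac n x`, `w = mulv ΔB A`: the linear term has mean zero (`mulv_sq`, third part, with `Z = ‖A‖^{2q-2} A`; all moments finite, `ac_mem`),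
`E ‖A‖^{2q-2}‖w‖² ≤ C h E‖A‖^{2q}` and `E‖w‖^{2q} ≤ C h^q E‖A‖^{2q}` (`mulv_pow`). So `E‖A + w‖^{2q} ≤ (1 + C h) E‖A‖^{2q}` for `h ≤ 1`.
(3) `‖J v‖ ≤ ‖v‖`; `(a + k h b)^{2q} ≤ (1 + C h) a^{2q} + C h b^{2q}` for `a, b ≥ 0`, `h ≤ 1` (convexity: `(1+kh)^{2q} ((a + kh b)/(1+kh))^{2q}`), with `b = ‖lap A x‖ ≤ Σ` of `4d` norms,
`b^{2q} ≤ (4d)^{2q-1} Σ …` (power mean). So with `S n = sup_x E‖ac n x‖^{2q}` (as a bound valid for all `x`): `S (n+1) ≤ (1 + C h) S n`, `S n ≤ e^{C n h} S 0`.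
-/

open MeasureTheory ProbabilityTheory Filter Dyn
open scoped NNReal ENNReal Topology

namespace DynX

variable {Ω : Type} [mΩ : MeasurableSpace Ω] {P : Measure Ω} {N d : ℕ}
    {ℱ : Filtration ℝ≥0 mΩ} {B : Site d → Fin N → Fin N → ℝ≥0 → Ω → ℝ}
    {H0 : Site d → Ω → E N} {k ε β : ℝ}

private theorem XM2_mix (a b : ℝ) (ha : 0 ≤ a) (hb : 0 ≤ b) (i j n : ℕ) (hn : i + j = n) :
    a ^ i * b ^ j ≤ a ^ n + b ^ n := by
  subst hn
  rcases le_total a b with h | h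
  · have h1 : a ^ i * b ^ j ≤ b ^ i * b ^ j :=
      mul_le_mul_of_nonneg_right (pow_le_pow_left₀ ha h i) (by positivity)
    rw [← pow_add] at h1
    have h2 : 0 ≤ a ^ (i + j) := by positivity
    linarith
  · have h1 : a ^ i * b ^ j ≤ a ^ i * a ^ j :=
      mul_le_mul_of_nonneg_left (pow_le_pow_left₀ hb h j) (by positivity)
    rw [← pow_add] at h1
    have h2 : 0 ≤ b ^ (i + j) := by positivity
    linarith

private theorem XM2_alg (q : ℕ) : ∃ C : ℝ, 0 ≤ C ∧ ∀ a b c : ℝ, 0 ≤ a → 0 ≤ b → c ^ 2 ≤ a * b →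
    (a + 2 * c + b) ^ (q + 1) ≤ a ^ (q + 1) + 2 * (q + 1) * (a ^ q * c) +
      C * (a ^ q * b + b ^ (q + 1)) := by
  induction q with
  | zero =>
    refine ⟨1, zero_le_one, fun a b c ha hb hc => ?_⟩
    simp only [zero_add, pow_one, pow_zero, Nat.cast_zero, one_mul, mul_one]
    linarith
  | succ q ih =>
    obtain ⟨C, hC0, hC⟩ := ih
    refine ⟨1 + 6 * (q + 1) + 8 * C, by positivity, fun a b c ha hb hc => ?_⟩
    have h0 : |2 * c| ≤ a + b := by
      refine abs_le_of_sq_le_sq ?_ (by positivity)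
      nlinarith [sq_nonneg (a - b)]
    obtain ⟨h1, h2⟩ := abs_le.1 h0
    have h3 : 0 ≤ a + 2 * c + b := by linarith
    have h4 : a + 2 * c + b ≤ 2 * (a + b) := by linarith
    have h5 := mul_le_mul_of_nonneg_right (hC a b c ha hb hc) h3
    have e1 : (a + 2 * c + b) ^ (q + 1 + 1) = (a + 2 * c + b) ^ (q + 1) * (a + 2 * c + b) :=
      pow_succ _ _
    rw [e1]
    refine h5.trans ?_
    have ha1 : 0 ≤ a ^ q := by positivity
    have hb1 : 0 ≤ b ^ q := by positivity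
    -- monomials
    have m1 : a ^ q * c ^ 2 ≤ a ^ (q + 1) * b := by
      have := mul_le_mul_of_nonneg_left hc ha1
      calc a ^ q * c ^ 2 ≤ a ^ q * (a * b) := this
        _ = a ^ (q + 1) * b := by ring
    have m2 : a ^ q * b * (2 * c) ≤ a ^ (q + 1) * b + a ^ q * b ^ 2 := by
      have := mul_le_mul_of_nonneg_left h2 (mul_nonneg ha1 hb)
      calc a ^ q * b * (2 * c) ≤ a ^ q * b * (a + b) := this
        _ = _ := by ring
    have m3 : a ^ q * b ^ 2 ≤ a ^ (q + 1) * b + b ^ (q + 2) := by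
      have := mul_le_mul_of_nonneg_left (XM2_mix a b ha hb q 1 (q + 1) rfl) hb
      calc a ^ q * b ^ 2 = b * (a ^ q * b ^ 1) := by ring
        _ ≤ b * (a ^ (q + 1) + b ^ (q + 1)) := this
        _ = _ := by ring
    have m4 : a * b ^ (q + 1) ≤ a ^ (q + 1) * b + b ^ (q + 2) := by
      have := mul_le_mul_of_nonneg_left (XM2_mix a b ha hb 1 q (q + 1) (by ring)) hb
      calc a * b ^ (q + 1) = b * (a ^ 1 * b ^ q) := by ring
        _ ≤ b * (a ^ (q + 1) + b ^ (q + 1)) := this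
        _ = _ := by ring
    have m5 : (a ^ q * b + b ^ (q + 1)) * (a + 2 * c + b) ≤
        8 * (a ^ (q + 1) * b + b ^ (q + 2)) := by
      have h6 : 0 ≤ a ^ q * b + b ^ (q + 1) := by positivity
      have h7 := mul_le_mul_of_nonneg_left h4 h6
      have h8 : (a ^ q * b + b ^ (q + 1)) * (2 * (a + b)) =
          2 * (a ^ (q + 1) * b + a ^ q * b ^ 2 + a * b ^ (q + 1) + b ^ (q + 2)) := by ring
      have h9 : 0 ≤ b ^ (q + 2) := by positivity
      have h10 : 0 ≤ a ^ (q + 1) * b := by positivity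
      linarith
    have m6 := mul_le_mul_of_nonneg_left m5 hC0
    have hq : (0 : ℝ) ≤ (q : ℝ) + 1 := by positivity
    have n1 := mul_le_mul_of_nonneg_left m1 hq
    have n2 := mul_le_mul_of_nonneg_left (m2.trans (add_le_add_right m3 _)) hq
    have h9 : 0 ≤ b ^ (q + 2) := by positivity
    have h10 : 0 ≤ a ^ (q + 1) * b := by positivity
    have hq9 := mul_nonneg hq h9
    push_cast
    have e2 : (a ^ (q + 1) + 2 * ((q : ℝ) + 1) * (a ^ q * c) + C * (a ^ q * b + b ^ (q + 1))) *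
        (a + 2 * c + b) = a ^ (q + 2) + 2 * ((q : ℝ) + 1 + 1) * (a ^ (q + 1) * c) +
        a ^ (q + 1) * b + 4 * (((q : ℝ) + 1) * (a ^ q * c ^ 2)) +
        ((q : ℝ) + 1) * (a ^ q * b * (2 * c)) +
        C * ((a ^ q * b + b ^ (q + 1)) * (a + 2 * c + b)) := by ring
    have e3 : a ^ (q + 1 + 1) + 2 * ((q : ℝ) + 1 + 1) * (a ^ (q + 1) * c) +
        (1 + 6 * ((q : ℝ) + 1) + 8 * C) * (a ^ (q + 1) * b + b ^ (q + 1 + 1)) =
        a ^ (q + 2) + 2 * ((q : ℝ) + 1 + 1) * (a ^ (q + 1) * c) +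
        (a ^ (q + 1) * b + b ^ (q + 2) + 6 * (((q : ℝ) + 1) * (a ^ (q + 1) * b)) +
        6 * (((q : ℝ) + 1) * b ^ (q + 2)) + C * (8 * (a ^ (q + 1) * b + b ^ (q + 2)))) := by ring
    rw [e2, e3]
    have e4 : ((q : ℝ) + 1) * (a ^ (q + 1) * b + (a ^ (q + 1) * b + b ^ (q + 2))) =
        2 * (((q : ℝ) + 1) * (a ^ (q + 1) * b)) + ((q : ℝ) + 1) * b ^ (q + 2) := by ring
    rw [e4] at n2
    linarith

private theorem XM2_step (k : ℝ) (hk : 0 ≤ k) (m : ℕ) : ∃ C : ℝ, 0 ≤ C ∧ ∀ a b h : ℝ, 0 ≤ a →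
    0 ≤ b → 0 ≤ h → h ≤ 1 → (a + k * h * b) ^ m ≤ (1 + C * h) * a ^ m + C * h * b ^ m := by
  induction m with
  | zero =>
    refine ⟨0, le_rfl, fun a b h ha hb hh h1 => ?_⟩
    simp
  | succ m ih =>
    obtain ⟨C, hC0, hC⟩ := ih
    refine ⟨2 * C + (1 + C) * k + C * k, by positivity, fun a b h ha hb hh h1 => ?_⟩
    have hx : 0 ≤ a + k * h * b := by positivity
    have h2 := mul_le_mul_of_nonneg_right (hC a b h ha hb hh h1) hx
    rw [pow_succ]
    refine h2.trans ?_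
    have m1 := XM2_mix a b ha hb 1 m (m + 1) (by ring)
    have m2 := XM2_mix a b ha hb m 1 (m + 1) rfl
    have c1 : 0 ≤ C * h := by positivity
    have c2 : 0 ≤ (1 + C * h) * (k * h) := by positivity
    have n1 := mul_le_mul_of_nonneg_left m1 c1
    have n2 := mul_le_mul_of_nonneg_left m2 c2
    have ha2 : 0 ≤ a ^ (m + 1) := by positivity
    have hb2 : 0 ≤ b ^ (m + 1) := by positivity
    have hs : 0 ≤ a ^ (m + 1) + b ^ (m + 1) := by positivity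
    have c3 : (1 + C * h) * (k * h) ≤ (1 + C) * k * h := by
      have : C * h ≤ C := by nlinarith
      have h3 : 0 ≤ k * h := by positivity
      nlinarith
    have n3 := mul_le_mul_of_nonneg_right c3 hs
    have c4 : C * h * (k * h) ≤ C * k * h := by
      have h3 : 0 ≤ C * h * k := by positivity
      nlinarith
    have n4 := mul_le_mul_of_nonneg_right c4 hb2
    have e1 : ((1 + C * h) * a ^ m + C * h * b ^ m) * (a + k * h * b) =
        (1 + C * h) * a ^ (m + 1) + C * h * (a ^ 1 * b ^ m) +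
        (1 + C * h) * (k * h) * (a ^ m * b ^ 1) + C * h * (k * h) * b ^ (m + 1) := by ring
    rw [e1]
    have e2 : (1 + (2 * C + (1 + C) * k + C * k) * h) * a ^ (m + 1) +
        (2 * C + (1 + C) * k + C * k) * h * b ^ (m + 1) =
        (1 + C * h) * a ^ (m + 1) + C * h * (a ^ (m + 1) + b ^ (m + 1)) +
        (1 + C) * k * h * (a ^ (m + 1) + b ^ (m + 1)) + C * k * h * b ^ (m + 1) +
        (C * k * h * a ^ (m + 1) + C * h * b ^ (m + 1)) := by ring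
    rw [e2]
    have p1 : 0 ≤ C * k * h * a ^ (m + 1) := by positivity
    have p2 : 0 ≤ C * h * b ^ (m + 1) := by positivity
    linarith

private theorem XM2_pow {ι : Type} [Fintype ι] (f : ι → ℝ) (hf : ∀ i, 0 ≤ f i) (n : ℕ)
    (hn : 0 < n) : (∑ i, f i) ^ n ≤ ((Fintype.card ι : ℕ) : ℝ) ^ n * ∑ i, f i ^ n := by
  obtain ⟨m, rfl⟩ : ∃ m, n = m + 1 := ⟨n - 1, by omega⟩
  rcases isEmpty_or_nonempty ι with h | h
  · simp
  · have h1 := pow_sum_div_card_le_sum_pow (s := Finset.univ) (f := f) (fun i _ => hf i) m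
    have hc : (1 : ℝ) ≤ (Fintype.card ι : ℕ) := by
      exact_mod_cast Fintype.card_pos
    have hs : 0 ≤ ∑ i, f i ^ (m + 1) := Finset.sum_nonneg fun i _ => pow_nonneg (hf i) _
    rw [Finset.card_univ, div_le_iff₀ (by positivity)] at h1
    refine h1.trans ?_
    rw [mul_comm]
    refine mul_le_mul_of_nonneg_right ?_ hs
    exact pow_le_pow_right₀ hc (Nat.le_succ m)

private theorem XM2_three (u v w : ℝ) (hu : 0 ≤ u) (hv : 0 ≤ v) (hw : 0 ≤ w) (m : ℕ) :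
    (u + v + 2 * w) ^ m ≤ 4 ^ m * (u ^ m + v ^ m + w ^ m) := by
  have hM : ∃ M : ℝ, u ≤ M ∧ v ≤ M ∧ w ≤ M ∧ 0 ≤ M ∧ M ^ m ≤ u ^ m + v ^ m + w ^ m := by
    have h1 : 0 ≤ u ^ m := by positivity
    have h2 : 0 ≤ v ^ m := by positivity
    have h3 : 0 ≤ w ^ m := by positivity
    rcases le_total u v with h | h
    · rcases le_total v w with h' | h'
      · exact ⟨w, h.trans h', h', le_rfl, hw, by linarith⟩
      · exact ⟨v, h, le_rfl, h', hv, by linarith⟩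
    · rcases le_total u w with h' | h'
      · exact ⟨w, h', h.trans h', le_rfl, hw, by linarith⟩
      · exact ⟨u, le_rfl, h, h', hu, by linarith⟩
  obtain ⟨M, h1, h2, h3, h4, h5⟩ := hM
  calc (u + v + 2 * w) ^ m ≤ (4 * M) ^ m :=
        pow_le_pow_left₀ (by positivity) (by linarith) m
    _ = 4 ^ m * M ^ m := mul_pow _ _ _
    _ ≤ _ := mul_le_mul_of_nonneg_left h5 (by positivity)

private theorem XM2_lap {N d : ℕ} (f : Site d → E N) (x : Site d) (m : ℕ) (hm : 0 < m) :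
    ‖lap f x‖ ^ m ≤ (d : ℝ) ^ m * 4 ^ m * ∑ i : Fin d, (‖f (x + Pi.single i 1)‖ ^ m +
      ‖f (x - Pi.single i 1)‖ ^ m + ‖f x‖ ^ m) := by
  have h1 : ‖lap f x‖ ≤ ∑ i : Fin d, (‖f (x + Pi.single i 1)‖ + ‖f (x - Pi.single i 1)‖ +
      2 * ‖f x‖) := by
    unfold lap
    refine (norm_sum_le _ _).trans (Finset.sum_le_sum fun i _ => ?_)
    refine (norm_add_le _ _).trans ?_
    have h2 := norm_sub_le (f (x + Pi.single i 1)) (f x)
    have h3 := norm_sub_le (f (x - Pi.single i 1)) (f x)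
    linarith
  refine (pow_le_pow_left₀ (norm_nonneg _) h1 m).trans ?_
  refine (XM2_pow _ (fun i => by positivity) m hm).trans ?_
  rw [Fintype.card_fin, mul_assoc]
  refine mul_le_mul_of_nonneg_left ?_ (by positivity)
  rw [Finset.mul_sum]
  exact Finset.sum_le_sum fun i _ => XM2_three _ _ _ (norm_nonneg _) (norm_nonneg _)
    (norm_nonneg _) m

private theorem XM2_int {f : Ω → ℝ} (hf : AEStronglyMeasurable f P) (h0 : ∀ ω, 0 ≤ f ω) {C : ℝ}
    (hC : 0 ≤ C) (h : ∫⁻ ω, ENNReal.ofReal (f ω) ∂P ≤ ENNReal.ofReal C) :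
    Integrable f P ∧ ∫ ω, f ω ∂P ≤ C := by
  refine ⟨⟨hf, (hasFiniteIntegral_iff_ofReal (Eventually.of_forall h0)).2
    (h.trans_lt ENNReal.ofReal_lt_top)⟩, ?_⟩
  rw [integral_eq_lintegral_of_nonneg_ae (Eventually.of_forall h0) hf]
  exact ENNReal.toReal_le_of_le_ofReal hC h

/-- one step: the noise part -/
private theorem XM2_noise (N q : ℕ) : ∃ C : ℝ, 0 ≤ C ∧ ∀ (Ω : Type) [mΩ : MeasurableSpace Ω]
    (P : Measure Ω) (d : ℕ) (ℱ : Filtration ℝ≥0 mΩ) (B : Site d → Fin N → Fin N → ℝ≥0 → Ω → ℝ)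
    (H0 : Site d → Ω → E N), Noise P ℱ B H0 → ∀ s t : ℝ≥0, s ≤ t → (t : ℝ) - s ≤ 1 →
    ∀ (x : Site d) (V : Ω → E N), Measurable[ℱ s] V →
    (∀ p : ℕ, Integrable (fun ω => ‖V ω‖ ^ p) P) →
    ∃ G : Ω → ℝ, Integrable G P ∧
      (∀ ω, ‖V ω + mulv (fun a b => B x a b t ω - B x a b s ω) (V ω)‖ ^ (2 * (q + 1)) ≤ G ω) ∧
      ∫ ω, G ω ∂P ≤ (1 + C * ((t : ℝ) - s)) * ∫ ω, ‖V ω‖ ^ (2 * (q + 1)) ∂P := by
  obtain ⟨C0, hC00, hC0⟩ := XM2_alg q
  obtain ⟨C1, hC10, hC1⟩ := mulv_pow N 1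
  obtain ⟨C2, hC20, hC2⟩ := mulv_pow N (q + 1)
  refine ⟨C0 * (C1 + C2), by positivity,
    fun Ω mΩ P d ℱ B H0 hN s t hst hts1 x V hV hVp => ?_⟩
  have := hN.prob
  have hH := zero_dyn hN 0 0 0
  have hts : (0 : ℝ) ≤ (t : ℝ) - s := sub_nonneg.2 (by exact_mod_cast hst)
  have hVm : Measurable V := hV.mono (ℱ.le s) le_rfl
  have hV2 : MemLp V 2 P := by
    rw [memLp_two_iff_integrable_sq_norm hVm.aestronglyMeasurable]
    exact hVp 2
  obtain ⟨hw2, -, -⟩ := mulv_sq hH s t hst x V hV hV2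
  set w : Ω → E N := fun ω => mulv (fun a b => B x a b t ω - B x a b s ω) (V ω) with hw
  have hZ : Measurable[ℱ s] (fun ω => (‖V ω‖ ^ (2 * q)) • V ω) :=
    (show Measurable (fun v : E N => (‖v‖ ^ (2 * q)) • v) by fun_prop).comp hV
  have hZ2 : MemLp (fun ω => (‖V ω‖ ^ (2 * q)) • V ω) 2 P := by
    rw [memLp_two_iff_integrable_sq_norm (hZ.mono (ℱ.le s) le_rfl).aestronglyMeasurable]
    refine (hVp (2 * q * 2 + 2)).congr (Eventually.of_forall fun ω => ?_)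
    show ‖V ω‖ ^ (2 * q * 2 + 2) = ‖(‖V ω‖ ^ (2 * q)) • V ω‖ ^ 2
    rw [norm_smul, norm_pow, norm_norm]
    ring
  have hmean : ∫ ω, inner ℝ ((‖V ω‖ ^ (2 * q)) • V ω) (w ω) ∂P = 0 :=
    (mulv_sq hH s t hst x V hV hV2).2.2 _ hZ hZ2
  have hinner : Integrable (fun ω => inner ℝ ((‖V ω‖ ^ (2 * q)) • V ω) (w ω)) P := by
    have h1 : Integrable (fun ω => ‖(‖V ω‖ ^ (2 * q)) • V ω‖ * ‖w ω‖) P :=
      hZ2.norm.integrable_mul hw2.norm
    refine h1.mono' (hZ2.1.inner hw2.1) (Eventually.of_forall fun ω => ?_)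
    exact norm_inner_le_norm _ _
  set S : ℝ := ∫ ω, ‖V ω‖ ^ (2 * (q + 1)) ∂P with hS
  have hS0 : 0 ≤ S := integral_nonneg fun ω => by positivity
  have hSl : ∫⁻ ω, ENNReal.ofReal (‖V ω‖ ^ (2 * (q + 1))) ∂P = ENNReal.ofReal S :=
    (ofReal_integral_eq_lintegral_ofReal (hVp (2 * (q + 1)))
      (Eventually.of_forall fun ω => by positivity)).symm
  -- the two error terms
  have hwn : AEStronglyMeasurable (fun ω => ‖w ω‖) P := hw2.1.norm
  have I1 : Integrable (fun ω => ‖V ω‖ ^ (2 * q) * ‖w ω‖ ^ 2) P ∧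
      ∫ ω, ‖V ω‖ ^ (2 * q) * ‖w ω‖ ^ 2 ∂P ≤ C1 * ((t : ℝ) - s) * S := by
    refine XM2_int (f := fun ω => ‖V ω‖ ^ (2 * q) * ‖w ω‖ ^ 2)
      ((hVm.norm.pow_const _).aestronglyMeasurable.mul (hwn.pow 2))
      (fun ω => by positivity) (mul_nonneg (mul_nonneg hC10 hts) hS0) ?_
    have h1 : ∫⁻ ω, ENNReal.ofReal (‖V ω‖ ^ (2 * q)) * ENNReal.ofReal (‖w ω‖ ^ (2 * 1)) ∂P ≤
        ENNReal.ofReal (C1 * ((t : ℝ) - s) ^ 1) *
        ∫⁻ ω, ENNReal.ofReal (‖V ω‖ ^ (2 * q)) * ENNReal.ofReal (‖V ω‖ ^ (2 * 1)) ∂P :=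
      hC1 Ω P d ℱ B H0 hN s t hst x V (fun ω => ENNReal.ofReal (‖V ω‖ ^ (2 * q))) hV
        ((show Measurable (fun v : E N => ENNReal.ofReal (‖v‖ ^ (2 * q))) by fun_prop).comp hV)
    have e1 : ∀ ω, ENNReal.ofReal (‖V ω‖ ^ (2 * q) * ‖w ω‖ ^ 2) =
        ENNReal.ofReal (‖V ω‖ ^ (2 * q)) * ENNReal.ofReal (‖w ω‖ ^ (2 * 1)) := by
      intro ω
      rw [← ENNReal.ofReal_mul (by positivity), mul_one]
    have e2 : ∀ ω, ENNReal.ofReal (‖V ω‖ ^ (2 * q)) * ENNReal.ofReal (‖V ω‖ ^ (2 * 1)) =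
        ENNReal.ofReal (‖V ω‖ ^ (2 * (q + 1))) := by
      intro ω
      rw [← ENNReal.ofReal_mul (by positivity), ← pow_add]
      congr 2
    calc ∫⁻ ω, ENNReal.ofReal (‖V ω‖ ^ (2 * q) * ‖w ω‖ ^ 2) ∂P
        = ∫⁻ ω, ENNReal.ofReal (‖V ω‖ ^ (2 * q)) * ENNReal.ofReal (‖w ω‖ ^ (2 * 1)) ∂P :=
          lintegral_congr e1
      _ ≤ ENNReal.ofReal (C1 * ((t : ℝ) - s) ^ 1) *
        ∫⁻ ω, ENNReal.ofReal (‖V ω‖ ^ (2 * q)) * ENNReal.ofReal (‖V ω‖ ^ (2 * 1)) ∂P := h1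
      _ = ENNReal.ofReal (C1 * ((t : ℝ) - s) * S) := by
        rw [lintegral_congr e2, hSl, pow_one, ← ENNReal.ofReal_mul (mul_nonneg hC10 hts)]
  have I2 : Integrable (fun ω => ‖w ω‖ ^ (2 * (q + 1))) P ∧
      ∫ ω, ‖w ω‖ ^ (2 * (q + 1)) ∂P ≤ C2 * ((t : ℝ) - s) * S := by
    refine XM2_int (f := fun ω => ‖w ω‖ ^ (2 * (q + 1))) (hwn.pow _) (fun ω => by positivity)
      (mul_nonneg (mul_nonneg hC20 hts) hS0) ?_
    have h1 := hC2 Ω P d ℱ B H0 hN s t hst x V (fun _ => 1) hV measurable_const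
    simp only [one_mul] at h1
    refine h1.trans ?_
    rw [hSl, ← ENNReal.ofReal_mul (mul_nonneg hC20 (pow_nonneg hts _))]
    refine ENNReal.ofReal_le_ofReal ?_
    refine mul_le_mul_of_nonneg_right ?_ hS0
    refine mul_le_mul_of_nonneg_left ?_ hC20
    exact pow_le_of_le_one hts hts1 (by omega)
  refine ⟨fun ω => ‖V ω‖ ^ (2 * (q + 1)) +
    2 * ((q : ℝ) + 1) * inner ℝ ((‖V ω‖ ^ (2 * q)) • V ω) (w ω) +
    C0 * (‖V ω‖ ^ (2 * q) * ‖w ω‖ ^ 2 + ‖w ω‖ ^ (2 * (q + 1))), ?_, ?_, ?_⟩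
  · exact ((hVp _).add (hinner.const_mul _)).add ((I1.1.add I2.1).const_mul _)
  · intro ω
    have h1 := hC0 (‖V ω‖ ^ 2) (‖w ω‖ ^ 2) (inner ℝ (V ω) (w ω)) (by positivity) (by positivity)
      (by
        rw [← mul_pow]
        exact sq_le_sq' (by
          have := abs_le.1 (abs_real_inner_le_norm (V ω) (w ω))
          linarith [this.1]) (real_inner_le_norm _ _))
    have e1 : ‖V ω + w ω‖ ^ (2 * (q + 1)) =
        (‖V ω‖ ^ 2 + 2 * inner ℝ (V ω) (w ω) + ‖w ω‖ ^ 2) ^ (q + 1) := by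
      rw [pow_mul, norm_add_sq_real]
    rw [e1]
    refine h1.trans (le_of_eq ?_)
    beta_reduce
    rw [real_inner_smul_left]
    simp only [← pow_mul]
  · have i1 : Integrable (fun ω => 2 * ((q : ℝ) + 1) *
        inner ℝ ((‖V ω‖ ^ (2 * q)) • V ω) (w ω)) P := hinner.const_mul _
    have i2 : Integrable (fun ω => C0 * (‖V ω‖ ^ (2 * q) * ‖w ω‖ ^ 2 +
        ‖w ω‖ ^ (2 * (q + 1)))) P := (I1.1.add I2.1).const_mul C0
    have i3 : Integrable (fun ω => ‖V ω‖ ^ (2 * (q + 1)) + 2 * ((q : ℝ) + 1) *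
        inner ℝ ((‖V ω‖ ^ (2 * q)) • V ω) (w ω)) P := (hVp _).add i1
    rw [integral_add i3 i2, integral_add (hVp _) i1, integral_const_mul, integral_const_mul,
      hmean, integral_add I1.1 I2.1]
    have h1 := add_le_add I1.2 I2.2
    have h2 := mul_le_mul_of_nonneg_left h1 hC00
    rw [← hS]
    nlinarith [h2]

private theorem XM2_even (hN : Noise P ℱ B H0) (hβ : 0 < β) (hε : 0 < ε) (hk : 0 ≤ k) (q : ℕ)
    (T : ℝ≥0) : ∃ C : ℝ, 0 ≤ C ∧ ∀ h : ℝ≥0, h ≤ 1 → ∀ n : ℕ, n * h ≤ T → ∀ x : Site d,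
      ∫ ω, ‖ac k ε β h B H0 n ω x‖ ^ (2 * (q + 1)) ∂P ≤ C := by
  have := hN.prob
  obtain ⟨C2, hC20, hC2⟩ := XM2_noise N q
  obtain ⟨C3, hC30, hC3⟩ := XM2_step k hk (2 * (q + 1))
  obtain ⟨S0, hS0⟩ := hN.mom (2 * (q + 1))
  have hS00 : 0 ≤ S0 := (integral_nonneg fun ω => by positivity).trans (hS0 0).2
  set K : ℝ := (d : ℝ) ^ (2 * (q + 1)) * 4 ^ (2 * (q + 1)) with hK
  have hK0 : 0 ≤ K := by positivity
  set C : ℝ := C3 + C2 + C3 * C2 + C3 * K * (3 * d) with hC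
  have hC0 : 0 ≤ C := by positivity
  have key : ∀ h : ℝ≥0, h ≤ 1 → ∀ n : ℕ, ∀ x : Site d,
      ∫ ω, ‖ac k ε β h B H0 n ω x‖ ^ (2 * (q + 1)) ∂P ≤ (1 + C * h) ^ n * S0 := by
    intro h h1 n
    induction n with
    | zero =>
      intro x
      rw [pow_zero, one_mul]
      exact (hS0 x).2
    | succ n ih =>
      intro x
      have hh0 : (0 : ℝ) ≤ h := h.2
      have hh1 : (h : ℝ) ≤ 1 := by exact_mod_cast h1
      set s : ℝ := (1 + C * h) ^ n * S0 with hs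
      have hs0 : 0 ≤ s := by positivity
      have hst : (n : ℝ≥0) * h ≤ ((n : ℝ≥0) + 1) * h := by
        gcongr
        exact le_self_add
      have ets : ((((n : ℝ≥0) + 1) * h : ℝ≥0) : ℝ) - (((n : ℝ≥0) * h : ℝ≥0) : ℝ) = h := by
        push_cast
        ring
      obtain ⟨G, hGi, hGp, hGs⟩ := hC2 Ω P d ℱ B H0 hN _ _ hst (by rw [ets]; exact hh1) x
        (fun ω => ac k ε β h B H0 n ω x) (ac_meas hN hβ hε h n x)
        (fun p => ac_mem hN hβ hε h n p x)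
      rw [ets] at hGs
      have hLi : Integrable (fun ω => ∑ i : Fin d,
          (‖ac k ε β h B H0 n ω (x + Pi.single i 1)‖ ^ (2 * (q + 1)) +
          ‖ac k ε β h B H0 n ω (x - Pi.single i 1)‖ ^ (2 * (q + 1)) +
          ‖ac k ε β h B H0 n ω x‖ ^ (2 * (q + 1)))) P :=
        integrable_finsetSum _ fun i _ => ((ac_mem hN hβ hε h n _ _).add
          (ac_mem hN hβ hε h n _ _)).add (ac_mem hN hβ hε h n _ _)
      have hLs : ∫ ω, ∑ i : Fin d,
          (‖ac k ε β h B H0 n ω (x + Pi.single i 1)‖ ^ (2 * (q + 1)) +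
          ‖ac k ε β h B H0 n ω (x - Pi.single i 1)‖ ^ (2 * (q + 1)) +
          ‖ac k ε β h B H0 n ω x‖ ^ (2 * (q + 1))) ∂P ≤ 3 * d * s := by
        have hi3 : ∀ i ∈ (Finset.univ : Finset (Fin d)), Integrable (fun ω =>
            ‖ac k ε β h B H0 n ω (x + Pi.single i 1)‖ ^ (2 * (q + 1)) +
            ‖ac k ε β h B H0 n ω (x - Pi.single i 1)‖ ^ (2 * (q + 1)) +
            ‖ac k ε β h B H0 n ω x‖ ^ (2 * (q + 1))) P :=
          fun i _ => ((ac_mem hN hβ hε h n _ _).add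
            (ac_mem hN hβ hε h n _ _)).add (ac_mem hN hβ hε h n _ _)
        rw [integral_finsetSum _ hi3]
        calc _ ≤ ∑ _i : Fin d, (3 * s) := by
              refine Finset.sum_le_sum fun i _ => ?_
              have j1 : Integrable (fun ω =>
                  ‖ac k ε β h B H0 n ω (x + Pi.single i 1)‖ ^ (2 * (q + 1)) +
                  ‖ac k ε β h B H0 n ω (x - Pi.single i 1)‖ ^ (2 * (q + 1))) P :=
                (ac_mem hN hβ hε h n _ _).add (ac_mem hN hβ hε h n _ _)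
              rw [integral_add j1 (ac_mem hN hβ hε h n _ _), integral_add
                (ac_mem hN hβ hε h n _ _) (ac_mem hN hβ hε h n _ _)]
              linarith [ih (x + Pi.single i 1), ih (x - Pi.single i 1), ih x]
          _ = 3 * d * s := by
              rw [Finset.sum_const, Finset.card_univ, Fintype.card_fin, nsmul_eq_mul]
              ring
      have hpt : ∀ ω, ‖ac k ε β h B H0 (n + 1) ω x‖ ^ (2 * (q + 1)) ≤
          (1 + C3 * h) * G ω + C3 * h * (K * ∑ i : Fin d,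
          (‖ac k ε β h B H0 n ω (x + Pi.single i 1)‖ ^ (2 * (q + 1)) +
          ‖ac k ε β h B H0 n ω (x - Pi.single i 1)‖ ^ (2 * (q + 1)) +
          ‖ac k ε β h B H0 n ω x‖ ^ (2 * (q + 1)))) := by
        intro ω
        have hεh : 0 ≤ ε * (h : ℝ) := by positivity
        have h2 : ‖ac k ε β h B H0 (n + 1) ω x‖ ≤
            ‖ac k ε β h B H0 n ω x + mulv (fun a b => B x a b (((n : ℝ≥0) + 1) * h) ω -
              B x a b ((n : ℝ≥0) * h) ω) (ac k ε β h B H0 n ω x)‖ +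
            k * h * ‖lap (ac k ε β h B H0 n ω) x‖ := by
          show ‖J β (ε * h) (ac k ε β h B H0 n ω x + mulv (fun a b => B x a b
            (((n : ℝ≥0) + 1) * h) ω - B x a b ((n : ℝ≥0) * h) ω) (ac k ε β h B H0 n ω x)) +
            (k * h) • lap (ac k ε β h B H0 n ω) x‖ ≤ _
          refine (norm_add_le _ _).trans ?_
          rw [norm_smul, Real.norm_of_nonneg (by positivity : (0 : ℝ) ≤ k * h), norm_J hβ hεh]
          exact add_le_add (psi_le hβ hεh (norm_nonneg _)) le_rfl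
        have h3 := pow_le_pow_left₀ (norm_nonneg _) h2 (2 * (q + 1))
        have h4 := hC3 _ _ h (norm_nonneg (ac k ε β h B H0 n ω x + mulv (fun a b => B x a b
            (((n : ℝ≥0) + 1) * h) ω - B x a b ((n : ℝ≥0) * h) ω) (ac k ε β h B H0 n ω x)))
            (norm_nonneg (lap (ac k ε β h B H0 n ω) x)) hh0 hh1
        refine h3.trans (h4.trans ?_)
        have h5 := mul_le_mul_of_nonneg_left (hGp ω) (by positivity : 0 ≤ 1 + C3 * h)
        have h6 := mul_le_mul_of_nonneg_left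
          (XM2_lap (ac k ε β h B H0 n ω) x (2 * (q + 1)) (by omega))
          (by positivity : 0 ≤ C3 * h)
        exact add_le_add h5 h6
      have hbd := integral_mono_of_nonneg (μ := P)
        (f := fun ω => ‖ac k ε β h B H0 (n + 1) ω x‖ ^ (2 * (q + 1)))
        (Eventually.of_forall fun ω => by positivity)
        ((hGi.const_mul (1 + C3 * h)).add ((hLi.const_mul K).const_mul (C3 * h)))
        (Eventually.of_forall hpt)
      refine hbd.trans ?_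
      have e1 : ∫ ω, ((fun ω => (1 + C3 * (h : ℝ)) * G ω) + fun ω => C3 * (h : ℝ) * (K *
          ∑ i : Fin d, (‖ac k ε β h B H0 n ω (x + Pi.single i 1)‖ ^ (2 * (q + 1)) +
          ‖ac k ε β h B H0 n ω (x - Pi.single i 1)‖ ^ (2 * (q + 1)) +
          ‖ac k ε β h B H0 n ω x‖ ^ (2 * (q + 1))))) ω ∂P =
          (1 + C3 * h) * ∫ ω, G ω ∂P + C3 * h * (K * ∫ ω, ∑ i : Fin d,
          (‖ac k ε β h B H0 n ω (x + Pi.single i 1)‖ ^ (2 * (q + 1)) +
          ‖ac k ε β h B H0 n ω (x - Pi.single i 1)‖ ^ (2 * (q + 1)) +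
          ‖ac k ε β h B H0 n ω x‖ ^ (2 * (q + 1))) ∂P) := by
        rw [integral_add' (hGi.const_mul (1 + C3 * h)) ((hLi.const_mul K).const_mul (C3 * h)),
          integral_const_mul, integral_const_mul, integral_const_mul]
      rw [e1]
      have h7 : ∫ ω, G ω ∂P ≤ (1 + C2 * h) * s :=
        hGs.trans (mul_le_mul_of_nonneg_left (ih x) (by positivity))
      have h8 := mul_le_mul_of_nonneg_left h7 (by positivity : 0 ≤ 1 + C3 * (h : ℝ))
      have h9 := mul_le_mul_of_nonneg_left (mul_le_mul_of_nonneg_left hLs hK0)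
        (by positivity : 0 ≤ C3 * (h : ℝ))
      refine (add_le_add h8 h9).trans ?_
      rw [pow_succ]
      have e2 : (1 + C3 * (h : ℝ)) * ((1 + C2 * h) * s) + C3 * h * (K * (3 * d * s)) =
          (1 + (C3 + C2 + C3 * C2 * h + C3 * K * (3 * d)) * h) * s := by ring
      have e3 : (1 + C * (h : ℝ)) ^ n * (1 + C * h) * S0 = (1 + C * h) * s := by
        rw [hs]
        ring
      rw [e2, e3]
      refine mul_le_mul_of_nonneg_right ?_ hs0
      have h10 : C3 * C2 * (h : ℝ) ≤ C3 * C2 := mul_le_of_le_one_right (by positivity) hh1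
      have h11 : (C3 + C2 + C3 * C2 * (h : ℝ) + C3 * K * (3 * d)) ≤ C := by
        rw [hC]
        linarith
      have h12 := mul_le_mul_of_nonneg_right h11 hh0
      linarith
  refine ⟨Real.exp (C * T) * S0, by positivity, fun h h1 n hn x => ?_⟩
  refine (key h h1 n x).trans ?_
  refine mul_le_mul_of_nonneg_right ?_ hS00
  have hh0 : (0 : ℝ) ≤ h := h.2
  have h2 : (1 + C * (h : ℝ)) ^ n ≤ Real.exp (C * h) ^ n := by
    refine pow_le_pow_left₀ (by positivity) ?_ n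
    have := Real.add_one_le_exp (C * (h : ℝ))
    linarith
  refine h2.trans ?_
  rw [← Real.exp_nat_mul]
  refine Real.exp_le_exp.2 ?_
  have h3 : (n : ℝ) * h ≤ T := by exact_mod_cast hn
  calc (n : ℝ) * (C * h) = C * (n * h) := by ring
    _ ≤ C * T := mul_le_mul_of_nonneg_left h3 hC0

theorem ac_mom (hN : Noise P ℱ B H0) (hβ : 0 < β) (hε : 0 < ε) (hk : 0 ≤ k) (p : ℕ) (T : ℝ≥0) :
    ∃ C : ℝ, 0 ≤ C ∧ ∀ h : ℝ≥0, h ≤ 1 → ∀ n : ℕ, n * h ≤ T → ∀ x : Site d,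
      ∫ ω, ‖ac k ε β h B H0 n ω x‖ ^ p ∂P ≤ C := by
  have := hN.prob
  obtain ⟨C, hC0, hC⟩ := XM2_even (k := k) hN hβ hε hk p T
  refine ⟨1 + C, by positivity, fun h h1 n hn x => ?_⟩
  have hi := ac_mem (k := k) hN hβ hε h n (2 * (p + 1)) x
  have h2 := integral_mono_of_nonneg (μ := P)
    (f := fun ω => ‖ac k ε β h B H0 n ω x‖ ^ p)
    (Eventually.of_forall fun ω => by positivity)
    ((integrable_const (1 : ℝ)).add hi)
    (Eventually.of_forall fun ω => by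
      show ‖ac k ε β h B H0 n ω x‖ ^ p ≤ 1 + ‖ac k ε β h B H0 n ω x‖ ^ (2 * (p + 1))
      rcases le_total ‖ac k ε β h B H0 n ω x‖ 1 with h3 | h3
      · have h4 := pow_le_one₀ (n := p) (norm_nonneg (ac k ε β h B H0 n ω x)) h3
        have h5 : 0 ≤ ‖ac k ε β h B H0 n ω x‖ ^ (2 * (p + 1)) := by positivity
        linarith
      · have h4 := pow_le_pow_right₀ h3 (by omega : p ≤ 2 * (p + 1))
        linarith)
  refine h2.trans ?_
  have e1 : ∫ ω, ((fun _ : Ω => (1 : ℝ)) +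
      fun ω => ‖ac k ε β h B H0 n ω x‖ ^ (2 * (p + 1))) ω ∂P =
      1 + ∫ ω, ‖ac k ε β h B H0 n ω x‖ ^ (2 * (p + 1)) ∂P := by
    rw [integral_add' (integrable_const _) hi, integral_const, probReal_univ, one_smul]
  rw [e1]
  exact add_le_add le_rfl (hC h h1 n hn x)

end DynX
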