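import Pool.Agent.Lib_MP_36b788x.XDefs

/-!
# Products: independence across coordinates

PROOF. `X q`, `Y q` are independent under `μ` for the single factor. Law of `ω ↦ (q ↦ (f (ω q), g (ω q)))` under `infinitePi μ` is `infinitePi` of the law of
`(f, g)` (`Measure.infinitePi_map` or `Measure.eq_infinitePi` on boxes), which is `infinitePi (law f ⊗ law g)` (`indepFun_iff_map_prod_eq_prod_map_map`).
The image of `infinitePi (α ⊗ β)` under `h ↦ (q ↦ (h q).1, q ↦ (h q).2)` is `infinitePi α ⊗ infinitePi β`: compare on boxes, compare with the proof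
of `VM0_map` in `Lib_MP_36b788c/VM0.lean` (the inverse map pushes `infinitePi α ⊗ infinitePi β` to `infinitePi (α ⊗ β)`). So the pair
`(q ↦ f (ω q), q ↦ g (ω q))` has a product law. Finally an independent third factor `H : S` (first coordinate of the product `ν ⊗ infinitePi μ`) is added to `f`:
`P(ω.1 ∈ A, f-part ∈ A', g-part ∈ B) = ν A · P(f-part ∈ A') · P(g-part ∈ B)`, `indepFun` from the generating π-system of rectangles, or
`Measure.prod` associativity.
-/

open MeasureTheory ProbabilityTheory Filter Dyn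
open scoped NNReal ENNReal Topology

namespace DynX

private theorem XN1_lint_prod {Q X : Type} [MeasurableSpace X] (μ : Measure X)
    [IsProbabilityMeasure μ] (s : Finset Q) (g : Q → X → ℝ≥0∞) (hg : ∀ i, Measurable (g i)) :
    ∫⁻ ω, ∏ i ∈ s, g i (ω i) ∂(Measure.infinitePi (fun _ : Q => μ)) =
      ∏ i ∈ s, ∫⁻ x, g i x ∂μ := by
  have h1 : iIndepFun (fun (i : Q) (ω : Q → X) => g i (ω i))
      (Measure.infinitePi (fun _ : Q => μ)) :=
    iIndepFun_infinitePi (X := g) (fun i => hg i)
  rw [lintegral_prod_eq_prod_lintegral_of_indepFun s _ h1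
    (fun i => (hg i).comp (measurable_pi_apply i))]
  refine Finset.prod_congr rfl fun i _ => ?_
  rw [← lintegral_map (hg i) (measurable_pi_apply i)]
  have h2 : (Measure.infinitePi (fun _ : Q => μ)).map (fun x : Q → X => x i) = μ :=
    Measure.infinitePi_map_eval (fun _ : Q => μ) i
  rw [h2]

private theorem XN1_meas_pair {Q X Y : Type} [MeasurableSpace X] [MeasurableSpace Y] :
    Measurable fun q : (Q → X) × (Q → Y) => fun j : Q => (q.1 j, q.2 j) := by
  refine measurable_pi_iff.mpr fun j => ?_
  exact ((measurable_pi_apply j).comp measurable_fst).prodMk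
    ((measurable_pi_apply j).comp measurable_snd)

private theorem XN1_map {Q X Y : Type} [MeasurableSpace X] [MeasurableSpace Y] (μ : Measure X)
    (ν : Measure Y) [IsProbabilityMeasure μ] [IsProbabilityMeasure ν] :
    ((Measure.infinitePi (fun _ : Q => μ)).prod (Measure.infinitePi (fun _ : Q => ν))).map
        (fun q : (Q → X) × (Q → Y) => fun j : Q => (q.1 j, q.2 j)) =
      Measure.infinitePi (fun _ : Q => μ.prod ν) := by
  refine Measure.eq_infinitePi _ ?_
  intro s t ht
  have hbox := MeasurableSet.pi s.countable_toSet (fun i _ => ht i)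
  rw [Measure.map_apply XN1_meas_pair hbox, Measure.prod_apply (XN1_meas_pair hbox)]
  have h1 : ∀ ω : Q → X, (Measure.infinitePi (fun _ : Q => ν)) (Prod.mk ω ⁻¹'
      ((fun q : (Q → X) × (Q → Y) => fun j : Q => (q.1 j, q.2 j)) ⁻¹' ((s : Set Q).pi t))) =
      ∏ i ∈ s, ν (Prod.mk (ω i) ⁻¹' t i) := by
    intro ω
    have h2 : (Prod.mk ω ⁻¹'
      ((fun q : (Q → X) × (Q → Y) => fun j : Q => (q.1 j, q.2 j)) ⁻¹' ((s : Set Q).pi t))) =
      (s : Set Q).pi (fun i => Prod.mk (ω i) ⁻¹' t i) := by
      ext ω'
      simp only [Set.mem_preimage, Set.mem_pi]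
    rw [h2]
    exact Measure.infinitePi_pi _ (fun i _ => measurable_prodMk_left (ht i))
  rw [lintegral_congr h1]
  rw [XN1_lint_prod μ s (fun i x => ν (Prod.mk x ⁻¹' t i))
    (fun i => measurable_measure_prodMk_left (ht i))]
  refine Finset.prod_congr rfl fun i _ => ?_
  rw [Measure.prod_apply (ht i)]

private theorem XN1_law {Q Ω1 F G : Type} [MeasurableSpace Ω1]
    [MeasurableSpace F] [MeasurableSpace G] (μ : Measure Ω1) [IsProbabilityMeasure μ]
    (f : Ω1 → F) (g : Ω1 → G) (hf : Measurable f)
    (hg : Measurable g) (hfg : IndepFun f g μ) :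
    (Measure.infinitePi (fun _ : Q => μ)).map
        (fun ω : Q → Ω1 => ((fun q => f (ω q)), (fun q => g (ω q)))) =
      (Measure.infinitePi (fun _ : Q => μ.map f)).prod
        (Measure.infinitePi (fun _ : Q => μ.map g)) := by
  have i1 : IsProbabilityMeasure (μ.map f) := Measure.isProbabilityMeasure_map hf.aemeasurable
  have i2 : IsProbabilityMeasure (μ.map g) := Measure.isProbabilityMeasure_map hg.aemeasurable
  have hT : Measurable fun x : Ω1 => (f x, g x) := hf.prodMk hg
  have hlaw : μ.map (fun x => (f x, g x)) = (μ.map f).prod (μ.map g) :=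
    (indepFun_iff_map_prod_eq_prod_map_map hf.aemeasurable hg.aemeasurable).1 hfg
  have h1 : (Measure.infinitePi (fun _ : Q => μ)).map
      (fun ω : Q → Ω1 => fun q => (f (ω q), g (ω q))) =
      Measure.infinitePi (fun _ : Q => (μ.map f).prod (μ.map g)) := by
    rw [← hlaw]
    exact Measure.infinitePi_map_pi (fun _ : Q => μ) (f := fun _ x => (f x, g x)) (fun _ => hT)
  have hU : Measurable fun h : Q → F × G => ((fun q => (h q).1), (fun q => (h q).2)) := by
    refine Measurable.prodMk ?_ ?_
    · exact measurable_pi_iff.mpr fun j => measurable_fst.comp (measurable_pi_apply j)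
    · exact measurable_pi_iff.mpr fun j => measurable_snd.comp (measurable_pi_apply j)
  have hM : Measurable fun ω : Q → Ω1 => fun q => (f (ω q), g (ω q)) :=
    measurable_pi_iff.mpr fun j => hT.comp (measurable_pi_apply j)
  have h2 := congrArg (Measure.map fun h : Q → F × G =>
    ((fun q => (h q).1), (fun q => (h q).2))) h1
  rw [Measure.map_map hU hM, ← XN1_map, Measure.map_map hU XN1_meas_pair] at h2
  have h3 : ((fun h : Q → F × G => ((fun q => (h q).1), (fun q => (h q).2))) ∘
      fun q : (Q → F) × (Q → G) => fun j : Q => (q.1 j, q.2 j)) = id := by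
    funext x
    rfl
  rw [h3, Measure.map_id] at h2
  exact h2

theorem indep_prod {Q Ω1 S F G : Type} [MeasurableSpace Ω1] [MeasurableSpace S]
    [MeasurableSpace F] [MeasurableSpace G] (μ : Measure Ω1) [IsProbabilityMeasure μ]
    (ν : Measure S) [IsProbabilityMeasure ν] (f : Ω1 → F) (g : Ω1 → G) (hf : Measurable f)
    (hg : Measurable g) (hfg : IndepFun f g μ) :
    IndepFun (fun ω : S × (Q → Ω1) => (ω.1, fun q => f (ω.2 q)))
      (fun ω : S × (Q → Ω1) => fun q => g (ω.2 q))
      (ν.prod (Measure.infinitePi (fun _ : Q => μ))) := by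
  have i1 : IsProbabilityMeasure (μ.map f) := Measure.isProbabilityMeasure_map hf.aemeasurable
  have i2 : IsProbabilityMeasure (μ.map g) := Measure.isProbabilityMeasure_map hg.aemeasurable
  have mF : Measurable fun ω : Q → Ω1 => fun q => f (ω q) :=
    measurable_pi_iff.mpr fun j => hf.comp (measurable_pi_apply j)
  have mG : Measurable fun ω : Q → Ω1 => fun q => g (ω q) :=
    measurable_pi_iff.mpr fun j => hg.comp (measurable_pi_apply j)
  have mX : Measurable fun ω : S × (Q → Ω1) => (ω.1, fun q => f (ω.2 q)) :=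
    measurable_fst.prodMk (mF.comp measurable_snd)
  have mY : Measurable fun ω : S × (Q → Ω1) => fun q => g (ω.2 q) := mG.comp measurable_snd
  have lF : (Measure.infinitePi (fun _ : Q => μ)).map (fun ω : Q → Ω1 => fun q => f (ω q)) =
      Measure.infinitePi (fun _ : Q => μ.map f) :=
    Measure.infinitePi_map_pi (fun _ : Q => μ) (f := fun _ x => f x) (fun _ => hf)
  have lG : (Measure.infinitePi (fun _ : Q => μ)).map (fun ω : Q → Ω1 => fun q => g (ω q)) =
      Measure.infinitePi (fun _ : Q => μ.map g) :=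
    Measure.infinitePi_map_pi (fun _ : Q => μ) (f := fun _ x => g x) (fun _ => hg)
  rw [indepFun_iff_map_prod_eq_prod_map_map mX.aemeasurable mY.aemeasurable]
  have e1 : (ν.prod (Measure.infinitePi (fun _ : Q => μ))).map
      (fun ω : S × (Q → Ω1) => (ω.1, fun q => f (ω.2 q))) =
      ν.prod (Measure.infinitePi (fun _ : Q => μ.map f)) := by
    have h := (Measure.map_prod_map ν (Measure.infinitePi (fun _ : Q => μ)) measurable_id mF)
    rw [Measure.map_id, lF] at h
    exact h.symm
  have e2 : (ν.prod (Measure.infinitePi (fun _ : Q => μ))).map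
      (fun ω : S × (Q → Ω1) => fun q => g (ω.2 q)) =
      Measure.infinitePi (fun _ : Q => μ.map g) := by
    have h : (fun ω : S × (Q → Ω1) => fun q => g (ω.2 q)) =
        (fun ω : Q → Ω1 => fun q => g (ω q)) ∘ Prod.snd := rfl
    rw [h, ← Measure.map_map mG measurable_snd, Measure.map_snd_prod, measure_univ, one_smul, lG]
  rw [e1, e2]
  have mFG : Measurable fun ω : Q → Ω1 => ((fun q => f (ω q)), (fun q => g (ω q))) :=
    mF.prodMk mG
  have h1 := (Measure.map_prod_map ν (Measure.infinitePi (fun _ : Q => μ)) measurable_id mFG)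
  rw [Measure.map_id, XN1_law μ f g hf hg hfg, ← Measure.prodAssoc_prod] at h1
  have h2 := congrArg (Measure.map
    (MeasurableEquiv.prodAssoc : (S × (Q → F)) × (Q → G) ≃ᵐ S × (Q → F) × (Q → G)).symm) h1
  rw [Measure.map_map (MeasurableEquiv.measurable _) (MeasurableEquiv.measurable _),
    Measure.map_map (MeasurableEquiv.measurable _) (measurable_id.prodMap mFG)] at h2
  have h3 : ((MeasurableEquiv.prodAssoc :
      (S × (Q → F)) × (Q → G) ≃ᵐ S × (Q → F) × (Q → G)).symm ∘
      (MeasurableEquiv.prodAssoc : (S × (Q → F)) × (Q → G) ≃ᵐ S × (Q → F) × (Q → G))) = id := by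
    funext x
    rfl
  rw [h3, Measure.map_id] at h2
  rw [h2]
  rfl

end DynX
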