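import Pool.Agent.Lib_MP_36b788x.XBM
import Pool.Agent.Lib_MP_36b788x.XN1
import Pool.Agent.Lib_MP_36b788x.XN2

/-!
# Independent family of Brownian motions and initial field

PROOF. `(Ω1, P1, W)` from `exists_bm`, `Q = Site d × Fin N × Fin N`, `Ω = (Site d → E N) × (Q → Ω1)`,
`P = (infinitePi fun _ => ρ).prod (infinitePi fun _ => P1)`, `B x i j t ω = W t (ω.2 (x, i, j))`, `H0 x ω = ω.1 x`.
* `brownian`: the map `ω ↦ ω.2 q` preserves measure (`P` to `P1`), so laws and the a.s. continuity carry over (`IsPreBrownianReal` is a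
  statement about the laws: `HasLaw.comp` with the measure preserving projection).
* `indep`: coordinates of `infinitePi` are independent (`iIndepFun_infinitePi`), composed with `ω1 ↦ (t ↦ W t ω1)`, and the projection
  `Prod.snd` is measure preserving. Same for `H0` (`iIndepFun H0 P`, `P.map (H0 x) = ρ`).
* raw filtration `𝒢 t = comap (fun ω => (ω.1, fun (q : Q) (r : Set.Iic t) => W r (ω.2 q))) inferInstance`: monotone because the map for `s ≤ t`
  factors through the map for `t`. `ℱ` from `exists_compl`.
* `indepInc`: `f = (W r)_{r ≤ s}` and `g = W t - W s` are independent under `P1` (`IsPreBrownianReal.indepFun_shift`), `indep_prod`,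
  then `exists_compl`.
* `mom`: the law of `H0 x` is `ρ`.
-/

open MeasureTheory ProbabilityTheory Filter Dyn
open scoped NNReal ENNReal Topology

namespace DynX

private theorem iIndep_mp {ι Ω Ω' X : Type} [MeasurableSpace Ω] [MeasurableSpace Ω']
    [MeasurableSpace X] (P : Measure Ω) (ν : Measure Ω') [IsProbabilityMeasure P]
    [IsProbabilityMeasure ν] (φ : Ω → Ω') (hφ : MeasurePreserving φ P ν) (f : ι → Ω' → X)
    (hf : ∀ i, Measurable (f i)) (h : iIndepFun f ν) :
    iIndepFun (fun i ω => f i (φ ω)) P := by
  have hm : Measurable (fun (ω : Ω') (i : ι) => f i ω) := measurable_pi_iff.2 hf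
  refine (iIndepFun_iff_map_fun_eq_infinitePi_map (X := fun i ω => f i (φ ω))
    (fun i => (hf i).comp hφ.measurable)).2 ?_
  have h1 := h.map_fun_eq_infinitePi_map hf
  have h2 : P.map (fun ω i => f i (φ ω)) = (P.map φ).map (fun ω i => f i ω) := by
    rw [Measure.map_map hm hφ.measurable]
    rfl
  have h3 : ∀ i, P.map (fun ω => f i (φ ω)) = ν.map (f i) := by
    intro i
    rw [← hφ.map_eq, Measure.map_map (hf i) hφ.measurable]
    rfl
  rw [h2, hφ.map_eq, h1]
  congr 1
  funext i
  exact (h3 i).symm

private theorem br_mp {Ω Ω' : Type} [MeasurableSpace Ω] [MeasurableSpace Ω']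
    (P : Measure Ω) (ν : Measure Ω') (φ : Ω → Ω') (hφ : MeasurePreserving φ P ν)
    (W : ℝ≥0 → Ω' → ℝ) (hW : IsBrownianReal W ν) :
    IsBrownianReal (fun t ω => W t (φ ω)) P := by
  refine { toIsPreBrownianReal := ⟨fun I => ?_⟩, cont := ?_ }
  · exact (hW.hasLaw I).comp hφ.hasLaw
  · exact hφ.quasiMeasurePreserving.ae hW.cont

theorem exists_noise (N d : ℕ) (ρ : Measure (E N)) [IsProbabilityMeasure ρ]
    (hρ : ∀ p : ℕ, Integrable (fun v : E N => ‖v‖ ^ p) ρ) :
    ∃ (Ω : Type) (mΩ : MeasurableSpace Ω) (P : Measure Ω) (ℱ : Filtration ℝ≥0 mΩ)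
      (B : Site d → Fin N → Fin N → ℝ≥0 → Ω → ℝ) (H0 : Site d → Ω → E N),
      Noise P ℱ B H0 ∧ iIndepFun H0 P ∧ ∀ x, P.map (H0 x) = ρ := by
  obtain ⟨Ω1, m1, P1, W, hP1, hWm, hW⟩ := exists_bm
  let P : Measure ((Site d → E N) × ((Site d × Fin N × Fin N) → Ω1)) :=
    (Measure.infinitePi (fun _ : Site d => ρ)).prod
      (Measure.infinitePi (fun _ : Site d × Fin N × Fin N => P1))
  have hPprob : IsProbabilityMeasure P := by
    change IsProbabilityMeasure ((Measure.infinitePi (fun _ : Site d => ρ)).prod
      (Measure.infinitePi (fun _ : Site d × Fin N × Fin N => P1)))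
    infer_instance
  have hsnd : MeasurePreserving (Prod.snd :
      (Site d → E N) × ((Site d × Fin N × Fin N) → Ω1) → _) P
      (Measure.infinitePi (fun _ : Site d × Fin N × Fin N => P1)) :=
    measurePreserving_snd
  have hfst : MeasurePreserving (Prod.fst :
      (Site d → E N) × ((Site d × Fin N × Fin N) → Ω1) → _) P
      (Measure.infinitePi (fun _ : Site d => ρ)) :=
    measurePreserving_fst
  have hq : ∀ q : Site d × Fin N × Fin N, MeasurePreserving
      (fun ω : (Site d → E N) × ((Site d × Fin N × Fin N) → Ω1) => ω.2 q) P P1 := fun q =>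
    (measurePreserving_eval_infinitePi (fun _ : Site d × Fin N × Fin N => P1) q).comp hsnd
  have hx : ∀ x : Site d, MeasurePreserving
      (fun ω : (Site d → E N) × ((Site d × Fin N × Fin N) → Ω1) => ω.1 x) P ρ := fun x =>
    (measurePreserving_eval_infinitePi (fun _ : Site d => ρ) x).comp hfst
  -- raw filtration
  let F : (t : ℝ≥0) → ((Site d → E N) × ((Site d × Fin N × Fin N) → Ω1)) →
      (Site d → E N) × ((Site d × Fin N × Fin N) → Set.Iic t → ℝ) := fun t ω =>
    (ω.1, fun q r => W r (ω.2 q))
  have hFm : ∀ t, Measurable (F t) := by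
    intro t
    refine measurable_fst.prodMk ?_
    refine measurable_pi_iff.2 fun q => measurable_pi_iff.2 fun r => ?_
    exact (hWm r).comp ((measurable_pi_apply q).comp measurable_snd)
  have hFst : ∀ s t : ℝ≥0, s ≤ t →
      Measurable[MeasurableSpace.comap (F t) inferInstance] (F s) := by
    intro s t hst
    let pr : (Site d → E N) × ((Site d × Fin N × Fin N) → Set.Iic t → ℝ) →
      (Site d → E N) × ((Site d × Fin N × Fin N) → Set.Iic s → ℝ) := fun z =>
        (z.1, fun q r => z.2 q ⟨r.1, le_trans r.2 hst⟩)
    have hpr : Measurable pr := by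
      refine measurable_fst.prodMk ?_
      refine measurable_pi_iff.2 fun q => measurable_pi_iff.2 fun r => ?_
      exact (measurable_pi_apply _).comp ((measurable_pi_apply q).comp measurable_snd)
    have h1 : F s = pr ∘ F t := rfl
    rw [h1]
    exact hpr.comp (comap_measurable (F t))
  let 𝒢 : Filtration ℝ≥0 (inferInstance :
      MeasurableSpace ((Site d → E N) × ((Site d × Fin N × Fin N) → Ω1))) :=
    { seq := fun t => MeasurableSpace.comap (F t) inferInstance
      mono' := fun s t hst => (hFst s t hst).comap_le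
      le' := fun t => (hFm t).comap_le }
  obtain ⟨ℱ, hGF, hcompl, hind⟩ := exists_compl P 𝒢
  refine ⟨_, _, P, ℱ, fun x i j t ω => W t (ω.2 (x, i, j)), fun x ω => ω.1 x, ?_, ?_, ?_⟩
  · refine
      { prob := hPprob
        brownian := fun x i j => br_mp P P1 _ (hq (x, i, j)) W hW
        indep := ?_
        adaptB := ?_
        indepInc := ?_
        h0 := ?_
        mom := ?_
        compl := hcompl }
    · have h1 : iIndepFun (fun (q : Site d × Fin N × Fin N)
          (ω : (Site d × Fin N × Fin N) → Ω1) (t : ℝ≥0) => W t (ω q))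
          (Measure.infinitePi (fun _ : Site d × Fin N × Fin N => P1)) :=
        iIndepFun_infinitePi (P := fun _ : Site d × Fin N × Fin N => P1)
          (X := fun _ ω t => W t ω) (fun _ => measurable_pi_iff.2 fun t => hWm t)
      exact iIndep_mp P _ Prod.snd hsnd _ (fun q => measurable_pi_iff.2 fun t =>
        (hWm t).comp (measurable_pi_apply q)) h1
    · intro x i j t
      refine Measurable.mono ?_ (hGF t) le_rfl
      have h1 : Measurable (fun z : (Site d → E N) ×
          ((Site d × Fin N × Fin N) → Set.Iic t → ℝ) => z.2 (x, i, j) ⟨t, le_refl t⟩) :=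
        (measurable_pi_apply (⟨t, le_refl t⟩ : Set.Iic t)).comp
          ((measurable_pi_apply (x, i, j)).comp measurable_snd)
      exact h1.comp (comap_measurable (F t))
    · intro s t hst
      refine hind s _ ?_ ?_
      · refine Measurable.comap_le ?_
        refine measurable_pi_iff.2 fun q => ?_
        exact ((hWm t).comp ((measurable_pi_apply _).comp measurable_snd)).sub
          ((hWm s).comp ((measurable_pi_apply _).comp measurable_snd))
      · have h1 := hW.toIsPreBrownianReal.indepFun_shift s
        have hev : Measurable (fun h : ℝ≥0 → ℝ => h (t - s)) := measurable_pi_apply (t - s)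
        have h2 : IndepFun (fun ω (r : Set.Iic s) => W r ω) (fun ω => W t ω - W s ω) P1 := by
          have h3 := (h1.symm).comp (φ := id) (ψ := fun h : ℝ≥0 → ℝ => h (t - s))
            measurable_id hev
          have h4 : ((fun h : ℝ≥0 → ℝ => h (t - s)) ∘ fun ω u => W (s + u) ω - W s ω) =
              fun ω => W t ω - W s ω := by
            funext ω
            simp only [Function.comp_apply]
            rw [add_tsub_cancel_of_le hst]
          rw [h4] at h3
          exact h3
        have h5 := indep_prod (Q := Site d × Fin N × Fin N) P1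
          (Measure.infinitePi (fun _ : Site d => ρ))
          (fun ω (r : Set.Iic s) => W r ω) (fun ω => W t ω - W s ω)
          (measurable_pi_iff.2 fun r => hWm r) ((hWm t).sub (hWm s)) h2
        exact (IndepFun_iff_Indep _ _ _).1 h5
    · intro x
      refine Measurable.mono ?_ (hGF 0) le_rfl
      have h1 : Measurable (fun z : (Site d → E N) ×
          ((Site d × Fin N × Fin N) → Set.Iic (0 : ℝ≥0) → ℝ) => z.1 x) :=
        (measurable_pi_apply _).comp measurable_fst
      exact h1.comp (comap_measurable (F 0))
    · intro p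
      refine ⟨∫ v, ‖v‖ ^ p ∂ρ, fun x => ⟨?_, ?_⟩⟩
      · exact (hx x).integrable_comp_of_integrable (hρ p)
      · have h1 := (hx x).hasLaw.integral_comp (f := fun v : E N => ‖v‖ ^ p)
          (by fun_prop)
        exact le_of_eq h1
  · have h1 : iIndepFun (fun (x : Site d) (ω : Site d → E N) => ω x)
        (Measure.infinitePi (fun _ : Site d => ρ)) :=
      iIndepFun_infinitePi (P := fun _ : Site d => ρ)
        (X := fun _ ω => ω) (fun _ => measurable_id)
    exact iIndep_mp P _ Prod.fst hfst _ (fun x => measurable_pi_apply x) h1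
  · exact fun x => (hx x).map_eq

end DynX
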