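import Pool.Agent.Lib_MP_36b788x.XA

/-!
# The martingale part at real times

PROOF. `s ≤ t ≤ T`. Dyadic approximations from above: `u_n = ⌈2^n s⌉₊ hm n`, `v_n = ⌈2^n t⌉₊ hm n`, `s ≤ u_n`, `t ≤ v_n`, `u_n ≤ v_n ≤ T + 1`, `u_n → s`, `v_n → t`.
`Mt u_n v_n → Mt s t` in `L²` (`inc`, and `drf_mem` for the integral over the small intervals) and a.s. (paths of `H` and of the integral are continuous).
* orthogonality: `Z` is `ℱ s ≤ ℱ u_n`-measurable, `mart_dyadic` with `T + 1`, limit.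
* second claim: `Mt u_n v_n - mulv(B_{v_n} - B_{u_n})(H u_n) → Mt s t - mulv(B_t - B_s)(H s)` a.s. (continuous paths of `B`, `H`), Fatou (`lintegral_liminf_le`).
* measurability: `Mt s t` is a.e. equal to an `ℱ t`-measurable function (pathwise Riemann sums `riemann_tendsto`, file `SdeR.lean`), so `ℱ t`-measurable up to a null set; the function itself
  is only required to be a.e. equal.
-/

open MeasureTheory ProbabilityTheory Filter Dyn
open scoped NNReal ENNReal Topology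

namespace DynX

variable {Ω : Type} [mΩ : MeasurableSpace Ω] {P : Measure Ω} {N d : ℕ}
    {ℱ : Filtration ℝ≥0 mΩ} {B : Site d → Fin N → Fin N → ℝ≥0 → Ω → ℝ}
    {H0 : Site d → Ω → E N} {k ε β : ℝ} {H : ℝ≥0 → Site d → Ω → E N}

/-- dyadic time above `t` -/
private noncomputable def XR_c (n : ℕ) (t : ℝ≥0) : ℝ≥0 := (⌈2 ^ n * t⌉₊ : ℝ≥0) * hm n

private lemma XR_hm (n : ℕ) : (2 : ℝ≥0) ^ n * hm n = 1 := by
  unfold hm
  rw [← mul_pow]
  norm_num

private lemma XR_hm_le (n : ℕ) : hm n ≤ 1 := by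
  unfold hm
  exact pow_le_one₀ (by positivity) (by norm_num)

private lemma XR_le (n : ℕ) (t : ℝ≥0) : t ≤ XR_c n t := by
  unfold XR_c
  calc t = (2 ^ n * t) * hm n := by rw [mul_right_comm, XR_hm, one_mul]
    _ ≤ _ := by gcongr; exact Nat.le_ceil _

private lemma XR_ge (n : ℕ) (t : ℝ≥0) : XR_c n t ≤ t + hm n := by
  unfold XR_c
  calc (⌈2 ^ n * t⌉₊ : ℝ≥0) * hm n ≤ (2 ^ n * t + 1) * hm n := by
        gcongr
        exact (Nat.ceil_lt_add_one zero_le).le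
    _ = t + hm n := by rw [add_mul, mul_right_comm, XR_hm, one_mul, one_mul]

private lemma XR_mono (n : ℕ) {s t : ℝ≥0} (hst : s ≤ t) : XR_c n s ≤ XR_c n t := by
  unfold XR_c
  gcongr

private lemma XR_hm_tendsto : Tendsto (fun m : ℕ => hm m) atTop (𝓝 0) := by
  unfold hm
  exact tendsto_pow_atTop_nhds_zero_of_lt_one (by norm_num) (by norm_num)

private lemma XR_tendsto (t : ℝ≥0) : Tendsto (fun n => XR_c n t) atTop (𝓝 t) := by
  refine tendsto_of_tendsto_of_tendsto_of_le_of_le (g := fun _ => t)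
    (h := fun n => t + hm n) tendsto_const_nhds ?_ (fun n => XR_le n t) (fun n => XR_ge n t)
  have := (tendsto_const_nhds (x := t)).add XR_hm_tendsto
  rwa [add_zero] at this

/-- limits outside a measurable set -/
private lemma XR_lim {Ω : Type} [m : MeasurableSpace Ω] {N : ℕ} (f : ℕ → Ω → E N) (g : Ω → E N)
    (hf : ∀ n, Measurable (f n)) (A : Set Ω) (hA : MeasurableSet A)
    (h : ∀ ω, ω ∉ A → Tendsto (fun n => f n ω) atTop (𝓝 (g ω))) :
    Measurable (Aᶜ.indicator g) := by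
  refine measurable_of_tendsto_metrizable (f := fun n => Aᶜ.indicator (f n))
    (fun n => (hf n).indicator hA.compl) (tendsto_pi_nhds.2 fun ω => ?_)
  by_cases hω : ω ∈ A
  · simp [hω]
  · simpa [hω] using h ω hω

private lemma XR_meas (hN : Noise P ℱ B H0) (t : ℝ≥0) (f : ℕ → Ω → E N) (g : Ω → E N)
    (hf : ∀ n, Measurable[ℱ t] (f n))
    (h : ∀ᵐ ω ∂P, Tendsto (fun n => f n ω) atTop (𝓝 (g ω))) :
    ∃ M' : Ω → E N, Measurable[ℱ t] M' ∧ g =ᵐ[P] M' := by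
  obtain ⟨A, hA1, hA2, hA3⟩ := exists_measurable_superset_of_null (ae_iff.1 h)
  have hA4 := hN.compl t A hA2 hA3
  refine ⟨Aᶜ.indicator g, @XR_lim Ω (ℱ t) N f g hf A hA4 (fun ω hω => ?_), ?_⟩
  · by_contra hc
    exact hω (hA1 hc)
  · have h5 : ∀ᵐ ω ∂P, ω ∉ A := by
      rw [ae_iff]
      simpa using hA3
    filter_upwards [h5] with ω hω
    simp [hω]

private lemma XR_isq {f : Ω → E N} (hf : MemLp f 2 P) : Integrable (fun ω => ‖f ω‖ ^ 2) P :=
  hf.integrable_norm_pow (by norm_num)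

/-- Fatou for real integrals -/
private lemma XR_fatou {G : ℕ → Ω → ℝ} {g : Ω → ℝ} (hG0 : ∀ n ω, 0 ≤ G n ω)
    (hGi : ∀ n, Integrable (G n) P) (hg : AEStronglyMeasurable g P) (hg0 : ∀ ω, 0 ≤ g ω)
    (h : ∀ᵐ ω ∂P, Tendsto (fun n => G n ω) atTop (𝓝 (g ω))) (c : ℕ → ℝ) (c0 : ℝ)
    (hc : Tendsto c atTop (𝓝 c0)) (hb : ∀ n, ∫ ω, G n ω ∂P ≤ c n) : ∫ ω, g ω ∂P ≤ c0 := by
  have hc0 : 0 ≤ c0 := ge_of_tendsto' hc fun n =>
    (integral_nonneg (hG0 n)).trans (hb n)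
  have h1 : ∫⁻ ω, ENNReal.ofReal (g ω) ∂P ≤ ENNReal.ofReal c0 := by
    calc ∫⁻ ω, ENNReal.ofReal (g ω) ∂P
        = ∫⁻ ω, liminf (fun n => ENNReal.ofReal (G n ω)) atTop ∂P := by
          refine lintegral_congr_ae ?_
          filter_upwards [h] with ω hω
          exact ((ENNReal.continuous_ofReal.tendsto _).comp hω).liminf_eq.symm
      _ ≤ liminf (fun n => ∫⁻ ω, ENNReal.ofReal (G n ω) ∂P) atTop :=
          lintegral_liminf_le' fun n => (hGi n).1.aemeasurable.ennreal_ofReal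
      _ ≤ liminf (fun n => ENNReal.ofReal (c n)) atTop := by
          refine liminf_le_liminf (Eventually.of_forall fun n => ?_)
          rw [← ofReal_integral_eq_lintegral_ofReal (hGi n) (Eventually.of_forall (hG0 n))]
          exact ENNReal.ofReal_le_ofReal (hb n)
      _ = ENNReal.ofReal c0 := ((ENNReal.continuous_ofReal.tendsto _).comp hc).liminf_eq
  rw [integral_eq_lintegral_of_nonneg_ae (Eventually.of_forall hg0) hg]
  exact ENNReal.toReal_le_of_le_ofReal hc0 h1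

/-- `|E ⟪Z, W⟫| ≤ (δ E‖Z‖² + E‖W‖²/δ)/2` -/
private lemma XR_cs {Z W : Ω → E N} (hZ : MemLp Z 2 P) (hW : MemLp W 2 P) (δ : ℝ) (hδ : 0 < δ) :
    |∫ ω, inner ℝ (Z ω) (W ω) ∂P| ≤
      (δ * ∫ ω, ‖Z ω‖ ^ 2 ∂P + (∫ ω, ‖W ω‖ ^ 2 ∂P) / δ) / 2 := by
  have e : (δ * ∫ ω, ‖Z ω‖ ^ 2 ∂P + (∫ ω, ‖W ω‖ ^ 2 ∂P) / δ) / 2 =
      ∫ ω, (δ * ‖Z ω‖ ^ 2 + ‖W ω‖ ^ 2 / δ) / 2 ∂P := by
    rw [integral_div, integral_add ((XR_isq hZ).const_mul δ) ((XR_isq hW).div_const δ),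
      integral_const_mul, integral_div]
  rw [e]
  refine (abs_integral_le_integral_abs).trans (integral_mono_of_nonneg
    (Eventually.of_forall fun ω => abs_nonneg _)
    ((((XR_isq hZ).const_mul δ).add ((XR_isq hW).div_const δ)).div_const 2)
    (Eventually.of_forall fun ω => ?_))
  have h1 := abs_real_inner_le_norm (Z ω) (W ω)
  have h2 : ‖Z ω‖ * ‖W ω‖ ≤ (δ * ‖Z ω‖ ^ 2 + ‖W ω‖ ^ 2 / δ) / 2 := by
    have h3 : 0 ≤ (δ * ‖Z ω‖ - ‖W ω‖) ^ 2 / δ := by positivity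
    have h4 : (δ * ‖Z ω‖ - ‖W ω‖) ^ 2 / δ =
        δ * ‖Z ω‖ ^ 2 + ‖W ω‖ ^ 2 / δ - 2 * (‖Z ω‖ * ‖W ω‖) := by
      field_simp
      ring
    linarith
  exact h1.trans h2

private lemma XR_iinner {V Z : Ω → E N} (hV : MemLp V 2 P) (hZ : MemLp Z 2 P) :
    Integrable (fun ω => inner ℝ (V ω) (Z ω)) P := by
  have h1 : Integrable (fun ω => ‖V ω‖ * ‖Z ω‖) P := hV.norm.integrable_mul hZ.norm
  refine h1.mono' (hV.1.inner hZ.1) (Filter.Eventually.of_forall fun ω => ?_)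
  exact norm_inner_le_norm _ _

/-- pathwise continuity of the drift integral -/
private lemma XR_path {f : ℝ≥0 → E N} (hf : Continuous f) (s : ℝ≥0) :
    ∃ Φ : ℝ≥0 → E N, Continuous Φ ∧ ∀ a b : ℝ≥0,
      ∫ r in (a : ℝ)..b, f r.toNNReal = Φ b - Φ a := by
  have hg : Continuous (fun r : ℝ => f r.toNNReal) := hf.comp continuous_real_toNNReal
  have hi : ∀ a b : ℝ, IntervalIntegrable (fun r : ℝ => f r.toNNReal) volume a b :=
    fun a b => hg.intervalIntegrable a b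
  refine ⟨fun b => ∫ r in (s : ℝ)..b, f r.toNNReal,
    (intervalIntegral.continuous_primitive hi s).comp NNReal.continuous_coe, fun a b => ?_⟩
  have h1 := intervalIntegral.integral_add_adjacent_intervals (hi s a) (hi a b)
  exact eq_sub_of_add_eq' h1

theorem mart_real (hN : Noise P ℱ B H0) (hβ : 0 < β) (hε : 0 < ε) (hk : 0 ≤ k)
    (hL : IsLim P k ε β ℱ B H0 H) (T : ℝ≥0) : ∃ C : ℝ, 0 ≤ C ∧ ∀ s t : ℝ≥0, s ≤ t → t ≤ T →
    ∀ x : Site d,
      (∃ M' : Ω → E N, Measurable[ℱ t] M' ∧ Mt k ε β H s t x =ᵐ[P] M') ∧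
      MemLp (Mt k ε β H s t x) 2 P ∧
      ∫ ω, ‖Mt k ε β H s t x ω -
          mulv (fun a b => B x a b t ω - B x a b s ω) (H s x ω)‖ ^ 2 ∂P ≤
        C * ((t : ℝ) - s) ^ 2 ∧
      ∀ Z : Ω → E N, Measurable[ℱ s] Z → MemLp Z 2 P →
        ∫ ω, inner ℝ (Z ω) (Mt k ε β H s t x ω) ∂P = 0 := by
  have := hN.prob
  obtain ⟨C1, hC10, hC1⟩ := mart_dyadic hN hβ hε hk hL (T + 1)
  obtain ⟨CD, hCD0, hCD⟩ := drf_mem hN hβ hL (T + 1)
  obtain ⟨CI, hCI0, hCI⟩ := hL.inc (T + 1)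
  refine ⟨C1, hC10, fun s t hst htT x => ?_⟩
  have hHm : ∀ r y, Measurable (H r y) := fun r y => (hL.adapted r y).mono (ℱ.le r) le_rfl
  have hH2 : ∀ r ≤ T + 1, ∀ y, MemLp (H r y) 2 P := by
    intro r hr y
    obtain ⟨C', hC'⟩ := hL.mom 2 (T + 1)
    exact (memLp_two_iff_integrable_sq_norm (hHm r y).aestronglyMeasurable).2 (hC' r hr y).1
  have hT1 : T ≤ T + 1 := le_self_add
  have ht1 : t ≤ T + 1 := htT.trans hT1
  have hs1 : s ≤ T + 1 := hst.trans ht1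
  obtain ⟨D1, D2, D3, D4⟩ := hCD x
  -- MemLp
  have hMem : ∀ a b : ℝ≥0, a ≤ b → b ≤ T + 1 → MemLp (Mt k ε β H a b x) 2 P := by
    intro a b hab hb
    exact ((hH2 b hb x).sub (hH2 a (hab.trans hb) x)).sub (D4 a b hab hb).1
  have hMst := hMem s t hst ht1
  -- dyadic times
  have hv1 : ∀ n, XR_c n t ≤ T + 1 := fun n => (XR_ge n t).trans (add_le_add htT (XR_hm_le n))
  have hu1 : ∀ n, XR_c n s ≤ T + 1 := fun n => (XR_mono n hst).trans (hv1 n)
  have hdy : ∀ n, MemLp (Mt k ε β H (XR_c n s) (XR_c n t) x) 2 P ∧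
      ∫ ω, ‖Mt k ε β H (XR_c n s) (XR_c n t) x ω -
          mulv (fun a b => B x a b (XR_c n t) ω - B x a b (XR_c n s) ω)
            (H (XR_c n s) x ω)‖ ^ 2 ∂P ≤ C1 * ((XR_c n t : ℝ) - XR_c n s) ^ 2 ∧
      ∀ Z : Ω → E N, Measurable[ℱ (XR_c n s)] Z → MemLp Z 2 P →
        ∫ ω, inner ℝ (Z ω) (Mt k ε β H (XR_c n s) (XR_c n t) x ω) ∂P = 0 := by
    intro n
    have hle : ⌈2 ^ n * s⌉₊ ≤ ⌈2 ^ n * t⌉₊ := Nat.ceil_mono (by gcongr)
    have h := hC1 n _ _ hle (hv1 n) x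
    have e : (((⌈2 ^ n * t⌉₊ : ℝ) - (⌈2 ^ n * s⌉₊ : ℝ)) * hm n) =
        (XR_c n t : ℝ) - XR_c n s := by
      unfold XR_c
      push_cast
      ring
    rw [e] at h
    exact h
  -- paths
  have hpath : ∀ᵐ ω ∂P, ∃ Φ : ℝ≥0 → E N, Continuous Φ ∧ ∀ a b : ℝ≥0,
      ∫ r in (a : ℝ)..b, drf k ε β (fun y => H r.toNNReal y ω) x = Φ b - Φ a := by
    filter_upwards [D2] with ω hω
    exact XR_path hω s
  -- a.s. convergence
  have hconv : ∀ᵐ ω ∂P, Tendsto (fun n => Mt k ε β H (XR_c n s) (XR_c n t) x ω) atTop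
      (𝓝 (Mt k ε β H s t x ω)) := by
    filter_upwards [hpath, hL.cont x] with ω ⟨Φ, hΦ, hΦe⟩ hω
    unfold Mt
    simp only [hΦe]
    have hu := XR_tendsto s
    have hv := XR_tendsto t
    exact (((hω.tendsto t).comp hv).sub ((hω.tendsto s).comp hu)).sub
      (((hΦ.tendsto t).comp hv).sub ((hΦ.tendsto s).comp hu))
  -- L² convergence
  have hL2 : ∀ n, ∫ ω, ‖Mt k ε β H (XR_c n s) (XR_c n t) x ω - Mt k ε β H s t x ω‖ ^ 2 ∂P ≤
      8 * (CI * hm n + CD * (hm n : ℝ) ^ 2) := by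
    intro n
    obtain ⟨u, hu⟩ : ∃ u, u = XR_c n s := ⟨_, rfl⟩
    obtain ⟨v, hv⟩ : ∃ v, v = XR_c n t := ⟨_, rfl⟩
    rw [← hu, ← hv]
    have hsu : s ≤ u := hu ▸ XR_le n s
    have htv : t ≤ v := hv ▸ XR_le n t
    have huT : u ≤ T + 1 := hu ▸ hu1 n
    have hvT : v ≤ T + 1 := hv ▸ hv1 n
    have hu2 : (u : ℝ) - s ≤ hm n := by
      have h := XR_ge n s
      rw [← hu] at h
      have h' : (u : ℝ) ≤ s + hm n := by exact_mod_cast h
      linarith
    have hv2 : (v : ℝ) - t ≤ hm n := by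
      have h := XR_ge n t
      rw [← hv] at h
      have h' : (v : ℝ) ≤ t + hm n := by exact_mod_cast h
      linarith
    have hu3 : 0 ≤ (u : ℝ) - s := sub_nonneg.2 (by exact_mod_cast hsu)
    have hv3 : 0 ≤ (v : ℝ) - t := sub_nonneg.2 (by exact_mod_cast htv)
    have m1 := (hH2 v hvT x).sub (hH2 t ht1 x)
    have m2 := (hH2 u huT x).sub (hH2 s hs1 x)
    obtain ⟨m3, b3⟩ := D4 t v htv hvT
    obtain ⟨m4, b4⟩ := D4 s u hsu huT
    have b1 := hCI t v htv hvT x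
    have b2 := hCI s u hsu huT x
    have hI : Integrable (fun ω => 4 * (‖H v x ω - H t x ω‖ ^ 2 + ‖H u x ω - H s x ω‖ ^ 2 +
        ‖∫ r in (t : ℝ)..v, drf k ε β (fun y => H r.toNNReal y ω) x‖ ^ 2 +
        ‖∫ r in (s : ℝ)..u, drf k ε β (fun y => H r.toNNReal y ω) x‖ ^ 2)) P :=
      ((((XR_isq m1).add (XR_isq m2)).add (XR_isq m3)).add (XR_isq m4)).const_mul 4
    have hle : ∫ ω, ‖Mt k ε β H u v x ω - Mt k ε β H s t x ω‖ ^ 2 ∂P ≤
        ∫ ω, 4 * (‖H v x ω - H t x ω‖ ^ 2 + ‖H u x ω - H s x ω‖ ^ 2 +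
        ‖∫ r in (t : ℝ)..v, drf k ε β (fun y => H r.toNNReal y ω) x‖ ^ 2 +
        ‖∫ r in (s : ℝ)..u, drf k ε β (fun y => H r.toNNReal y ω) x‖ ^ 2) ∂P := by
      refine integral_mono_of_nonneg (Eventually.of_forall fun ω => sq_nonneg _) hI ?_
      filter_upwards [hpath] with ω ⟨Φ, hΦ, hΦe⟩
      simp only [Mt, hΦe]
      have e : H v x ω - H u x ω - (Φ v - Φ u) - (H t x ω - H s x ω - (Φ t - Φ s)) =
          (H v x ω - H t x ω) - (H u x ω - H s x ω) - (Φ v - Φ t) + (Φ u - Φ s) := by abel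
      rw [e]
      have n1 := norm_add_le ((H v x ω - H t x ω) - (H u x ω - H s x ω) - (Φ v - Φ t)) (Φ u - Φ s)
      have n2 := norm_sub_le ((H v x ω - H t x ω) - (H u x ω - H s x ω)) (Φ v - Φ t)
      have n3 := norm_sub_le (H v x ω - H t x ω) (H u x ω - H s x ω)
      have n0 := norm_nonneg ((H v x ω - H t x ω) - (H u x ω - H s x ω) - (Φ v - Φ t) +
        (Φ u - Φ s))
      have n4 : ‖(H v x ω - H t x ω) - (H u x ω - H s x ω) - (Φ v - Φ t) + (Φ u - Φ s)‖ ≤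
          ‖H v x ω - H t x ω‖ + ‖H u x ω - H s x ω‖ + ‖Φ v - Φ t‖ + ‖Φ u - Φ s‖ := by linarith
      have n5 := pow_le_pow_left₀ n0 n4 2
      refine n5.trans ?_
      nlinarith [sq_nonneg (‖H v x ω - H t x ω‖ - ‖H u x ω - H s x ω‖),
        sq_nonneg (‖H v x ω - H t x ω‖ - ‖Φ v - Φ t‖),
        sq_nonneg (‖H v x ω - H t x ω‖ - ‖Φ u - Φ s‖),
        sq_nonneg (‖H u x ω - H s x ω‖ - ‖Φ v - Φ t‖),
        sq_nonneg (‖H u x ω - H s x ω‖ - ‖Φ u - Φ s‖),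
        sq_nonneg (‖Φ v - Φ t‖ - ‖Φ u - Φ s‖)]
    refine hle.trans ?_
    have j1 : Integrable (fun ω => ‖H v x ω - H t x ω‖ ^ 2) P := XR_isq m1
    have j2 : Integrable (fun ω => ‖H u x ω - H s x ω‖ ^ 2) P := XR_isq m2
    have i12 : Integrable (fun ω => ‖H v x ω - H t x ω‖ ^ 2 + ‖H u x ω - H s x ω‖ ^ 2) P :=
      j1.add j2
    have i123 : Integrable (fun ω => ‖H v x ω - H t x ω‖ ^ 2 + ‖H u x ω - H s x ω‖ ^ 2 +
        ‖∫ r in (t : ℝ)..v, drf k ε β (fun y => H r.toNNReal y ω) x‖ ^ 2) P :=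
      i12.add (XR_isq m3)
    rw [integral_const_mul, integral_add i123 (XR_isq m4), integral_add i12 (XR_isq m3),
      integral_add j1 j2]
    have c1 : CI * ((v : ℝ) - t) ≤ CI * hm n := mul_le_mul_of_nonneg_left hv2 hCI0
    have c2 : CI * ((u : ℝ) - s) ≤ CI * hm n := mul_le_mul_of_nonneg_left hu2 hCI0
    have c3 : CD * ((v : ℝ) - t) ^ 2 ≤ CD * (hm n : ℝ) ^ 2 :=
      mul_le_mul_of_nonneg_left (pow_le_pow_left₀ hv3 hv2 2) hCD0
    have c4 : CD * ((u : ℝ) - s) ^ 2 ≤ CD * (hm n : ℝ) ^ 2 :=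
      mul_le_mul_of_nonneg_left (pow_le_pow_left₀ hu3 hu2 2) hCD0
    have b1' : ∫ ω, ‖H v x ω - H t x ω‖ ^ 2 ∂P ≤ CI * ((v : ℝ) - t) := b1
    have b2' : ∫ ω, ‖H u x ω - H s x ω‖ ^ 2 ∂P ≤ CI * ((u : ℝ) - s) := b2
    linarith
  have hh : Tendsto (fun n => ((hm n : ℝ≥0) : ℝ)) atTop (𝓝 0) := by
    have h := (NNReal.continuous_coe.tendsto 0).comp XR_hm_tendsto
    rw [NNReal.coe_zero] at h
    exact h
  have hL2t : Tendsto (fun n => 8 * (CI * (hm n : ℝ) + CD * (hm n : ℝ) ^ 2)) atTop (𝓝 0) := by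
    have h := ((hh.const_mul CI).add ((hh.pow 2).const_mul CD)).const_mul 8
    simpa using h
  refine ⟨?_, hMst, ?_, ?_⟩
  · -- measurability
    have hR : ∀ᵐ ω ∂P, Tendsto (fun n : ℕ => H t x ω - H s x ω - ∑ i ∈ Finset.range n,
        (((t - s) / n : ℝ≥0) : ℝ) • drf k ε β (fun y => H (s + i * ((t - s) / n)) y ω) x) atTop
        (𝓝 (Mt k ε β H s t x ω)) := by
      filter_upwards [D2] with ω hω
      exact tendsto_const_nhds.sub (riemann_tendsto _ hω s t hst)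
    refine XR_meas hN t _ _ (fun n => ?_) hR
    refine ((hL.adapted t x).sub ((hL.adapted s x).mono (ℱ.mono hst) le_rfl)).sub ?_
    refine Finset.measurable_fun_sum _ fun i hi => ?_
    have hn0 : (0 : ℝ≥0) < n := by
      have := Finset.mem_range.1 hi
      exact_mod_cast (by omega : 0 < n)
    have hi' : (i : ℝ≥0) ≤ n := by
      have := (Finset.mem_range.1 hi).le
      exact_mod_cast this
    have h3 : s + i * ((t - s) / n) ≤ t := by
      calc s + i * ((t - s) / n) ≤ s + n * ((t - s) / n) := by gcongr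
        _ = s + (t - s) := by rw [mul_div_cancel₀ _ hn0.ne']
        _ = t := add_tsub_cancel_of_le hst
    have h4 := ((D1 (s + i * ((t - s) / n))).mono (ℱ.mono h3) le_rfl).const_smul
      (((t - s) / n : ℝ≥0) : ℝ)
    exact h4
  · -- second moment
    have hB : ∀ᵐ ω ∂P, ∀ a b, Continuous (fun r => B x a b r ω) :=
      ae_all_iff.2 fun a => ae_all_iff.2 fun b => (hN.brownian x a b).cont
    have hmul : ∀ a b : ℝ≥0, a ≤ b → b ≤ T + 1 → MemLp (fun ω =>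
        mulv (fun i j => B x i j b ω - B x i j a ω) (H a x ω)) 2 P := fun a b hab hb =>
      (mulv_sq (zero_dyn hN k ε β) a b hab x (H a x) (hL.adapted a x)
        (hH2 a (hab.trans hb) x)).1
    refine XR_fatou (G := fun n ω => ‖Mt k ε β H (XR_c n s) (XR_c n t) x ω -
          mulv (fun a b => B x a b (XR_c n t) ω - B x a b (XR_c n s) ω)
            (H (XR_c n s) x ω)‖ ^ 2) (fun n ω => sq_nonneg _)
      (fun n => XR_isq ((hdy n).1.sub (hmul _ _ (XR_mono n hst) (hv1 n))))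
      (XR_isq (hMst.sub (hmul s t hst ht1))).1 (fun ω => sq_nonneg _) ?_
      (fun n => C1 * ((XR_c n t : ℝ) - XR_c n s) ^ 2) _ ?_ (fun n => (hdy n).2.1)
    · filter_upwards [hconv, hB, hL.cont x] with ω h1 h2 h3
      refine ((h1.sub ?_).norm).pow 2
      have hu := XR_tendsto s
      have hv := XR_tendsto t
      have h4 : Tendsto (fun n => ((fun a b => B x a b (XR_c n t) ω - B x a b (XR_c n s) ω :
          Fin N → Fin N → ℝ), H (XR_c n s) x ω)) atTop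
          (𝓝 ((fun a b => B x a b t ω - B x a b s ω : Fin N → Fin N → ℝ), H s x ω)) := by
        refine Tendsto.prodMk_nhds ?_ ((h3.tendsto s).comp hu)
        refine tendsto_pi_nhds.2 fun a => tendsto_pi_nhds.2 fun b => ?_
        exact (((h2 a b).tendsto t).comp hv).sub (((h2 a b).tendsto s).comp hu)
      exact ((mulv_continuous N).tendsto _).comp h4
    · have hu := (NNReal.continuous_coe.tendsto s).comp (XR_tendsto s)
      have hv := (NNReal.continuous_coe.tendsto t).comp (XR_tendsto t)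
      exact ((hv.sub hu).pow 2).const_mul C1
  · -- orthogonality
    intro Z hZ hZ2
    have hle : ∀ δ : ℝ, 0 < δ → |∫ ω, inner ℝ (Z ω) (Mt k ε β H s t x ω) ∂P| ≤
        δ * (∫ ω, ‖Z ω‖ ^ 2 ∂P) / 2 := by
      intro δ hδ
      have h1 : ∀ n, |∫ ω, inner ℝ (Z ω) (Mt k ε β H s t x ω) ∂P| ≤
          (δ * ∫ ω, ‖Z ω‖ ^ 2 ∂P + (8 * (CI * (hm n : ℝ) + CD * (hm n : ℝ) ^ 2)) / δ) / 2 := by
        intro n
        have hF := (hdy n).1
        have h2 := (hdy n).2.2 Z (hZ.mono (ℱ.mono (XR_le n s)) le_rfl) hZ2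
        have h3 : ∫ ω, inner ℝ (Z ω) (Mt k ε β H (XR_c n s) (XR_c n t) x ω -
            Mt k ε β H s t x ω) ∂P = - ∫ ω, inner ℝ (Z ω) (Mt k ε β H s t x ω) ∂P := by
          simp only [inner_sub_right]
          rw [integral_sub (XR_iinner hZ2 hF) (XR_iinner hZ2 hMst), h2, zero_sub]
        have h4 := XR_cs hZ2 (hF.sub hMst) δ hδ
        simp only [Pi.sub_apply] at h4
        rw [h3, abs_neg] at h4
        have h5 := div_le_div_of_nonneg_right (hL2 n) hδ.le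
        linarith
      have h2 : Tendsto (fun n => (δ * ∫ ω, ‖Z ω‖ ^ 2 ∂P +
          (8 * (CI * (hm n : ℝ) + CD * (hm n : ℝ) ^ 2)) / δ) / 2) atTop
          (𝓝 ((δ * ∫ ω, ‖Z ω‖ ^ 2 ∂P + 0 / δ) / 2)) :=
        (tendsto_const_nhds.add (hL2t.div_const δ)).div_const 2
      have h3 := ge_of_tendsto' h2 h1
      rw [zero_div, add_zero] at h3
      exact h3
    have hz : |∫ ω, inner ℝ (Z ω) (Mt k ε β H s t x ω) ∂P| ≤ 0 := by
      have h0 : 0 ≤ ∫ ω, ‖Z ω‖ ^ 2 ∂P := integral_nonneg fun ω => sq_nonneg _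
      refine le_of_forall_pos_le_add fun e he => ?_
      have h1 := hle (e / (∫ ω, ‖Z ω‖ ^ 2 ∂P + 1)) (by positivity)
      refine h1.trans ?_
      rw [zero_add, div_mul_eq_mul_div, div_div, div_le_iff₀ (by positivity)]
      nlinarith
    exact abs_eq_zero.1 (le_antisymm hz (abs_nonneg _))

end DynX
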