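import Pool.Agent.Lib_MP_36b788x.XI
import Pool.Agent.Lib_MP_36b788b.SdeSt

/-!
# One step `h` against two steps `h/2`

PROOF. `F = ac h n`, `G = ac (h/2) (2n)`, `G' = ac (h/2) (2n+1)`, `G'' = ac (h/2) (2n+2)` (fields), `e = F - G`, `M = M' + M''` the increments on the two halves of the step
(`mulv` is additive in the matrix, `mulv_add_left`; `(2n+1)·(h/2)` is the middle), `b v = ‖v‖^β v`, `J = J β (ε h)`, `J' = J β (ε h/2)`. By `J_eq`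
`G'' = G + M'G + M''G' - (εh/2)(b1 + b2) + (kh/2)(lap G + lap G')`, `b1 = b(J'(G+M'G))`, `b2 = b(J'(G'+M''G'))`, and `J(G+MG) = G + MG - εh b0`.
`F⁺ - G'' = [J(F+MF) - J(G+MG)] + kh lap e + R_M + R_D`, `R_M = -M''(G'-G)`, `R_D = (εh/2)((b1-b0)+(b2-b0)) - (kh/2) lap(G'-G)`.
* `E‖R_M‖² = N (h/2) E‖G'-G‖² ≤ C h²` (`mulv_sq` at the time `(2n+1)h/2`; `ac_inc` and Cauchy-Schwarz), and `E⟪Z, R_M⟫ = 0` for `Z` measurable for `ℱ (n h)`.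
* `E‖R_D‖² ≤ C h² h^{1/2}`: `b_L2` (file `Lib_MP_36b788b/SdeB.lean`, moments from `ac_mom`, `mulv_pow`): `E‖b u - b v‖² ≤ C √(E‖u-v‖²)`, and the differences of the arguments are
  `O(√h)` in `L²` (`‖J v - v‖ ≤ ε h ‖b(J v)‖`); `√(O(h)) = O(h^{1/2})`.
* `Q = J(F+MF) - J(G+MG)`: `‖Q‖ ≤ ‖e + Me‖` (`J_nonexp`), `E‖e+Me‖² = (1+Nh)E‖e‖²` (`mulv_sq`). `Q = e + Me - εh(b(J(F+MF)) - b0)`,
  `E⟪Q,R_M⟫ = E⟪Me,R_M⟫ - εh E⟪b.. - b0, R_M⟫ ≤ h E‖e‖² + C h²` (Cauchy-Schwarz, bounded moments). So `E‖Q + R_M‖² ≤ (1 + C h)E‖e‖² + C h²`.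
* `‖a + c‖² ≤ (1+h)‖a‖² + (1+1/h)‖c‖²` with `c = kh lap e + R_D`, `E‖lap e x‖² ≤ (4d)² S`: total `≤ (1 + C h) S + C h^{3/2}` (`h ≤ 1`; case `h = 0` trivial since then both
  chains are constant).
-/

open MeasureTheory ProbabilityTheory Filter Dyn
open scoped NNReal ENNReal Topology

namespace DynX

open DynB

/-! ### moments of sums -/

section mom

variable {Ω : Type} [MeasurableSpace Ω] {P : Measure Ω} {N d : ℕ}

private theorem XS_add {f g : Ω → E N} {p : ℕ} (hp : p ≠ 0) (hf : MemLp f p P) (hg : MemLp g p P)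
    {a b : ℝ} (ha : ∫ ω, ‖f ω‖ ^ p ∂P ≤ a) (hb : ∫ ω, ‖g ω‖ ^ p ∂P ≤ b) :
    ∫ ω, ‖f ω + g ω‖ ^ p ∂P ≤ 2 ^ p * (a + b) := by
  have i1 := hf.integrable_norm_pow hp
  have i2 := hg.integrable_norm_pow hp
  have h1 : ∫ ω, ‖f ω + g ω‖ ^ p ∂P ≤ ∫ ω, 2 ^ p * (‖f ω‖ ^ p + ‖g ω‖ ^ p) ∂P := by
    refine integral_mono_of_nonneg (Eventually.of_forall fun ω => by positivity)
      ((i1.add i2).const_mul _) (Eventually.of_forall fun ω => ?_)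
    have h2 := add_pow_le (norm_nonneg (f ω)) (norm_nonneg (g ω)) p
    have h3 : (2 : ℝ) ^ (p - 1) * (‖f ω‖ ^ p + ‖g ω‖ ^ p) ≤ 2 ^ p * (‖f ω‖ ^ p + ‖g ω‖ ^ p) :=
      mul_le_mul_of_nonneg_right (pow_le_pow_right₀ (by norm_num) (Nat.sub_le _ _)) (by positivity)
    exact (pow_le_pow_left₀ (norm_nonneg _) (norm_add_le _ _) p).trans (h2.trans h3)
  rw [integral_const_mul, integral_add i1 i2] at h1
  refine h1.trans (mul_le_mul_of_nonneg_left (add_le_add ha hb) (by positivity))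

private theorem XS_smul {f : Ω → E N} {p : ℕ} {a c K : ℝ} (hc : 0 ≤ c) (hcK : c ≤ K)
    (ha : ∫ ω, ‖f ω‖ ^ p ∂P ≤ a) (ha0 : 0 ≤ a) :
    ∫ ω, ‖c • f ω‖ ^ p ∂P ≤ K ^ p * a := by
  have h1 : ∀ ω, ‖c • f ω‖ ^ p = c ^ p * ‖f ω‖ ^ p := by
    intro ω
    rw [norm_smul, Real.norm_of_nonneg hc, mul_pow]
  simp only [h1]
  rw [integral_const_mul]
  exact (mul_le_mul_of_nonneg_left ha (by positivity)).trans
    (mul_le_mul_of_nonneg_right (pow_le_pow_left₀ hc hcK p) ha0)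

private theorem XS_neg {f : Ω → E N} {p : ℕ} {a : ℝ} (ha : ∫ ω, ‖f ω‖ ^ p ∂P ≤ a) :
    ∫ ω, ‖-f ω‖ ^ p ∂P ≤ a := by
  simpa only [norm_neg] using ha

private theorem XS_sub {f g : Ω → E N} {p : ℕ} (hp : p ≠ 0) (hf : MemLp f p P) (hg : MemLp g p P)
    {a b : ℝ} (ha : ∫ ω, ‖f ω‖ ^ p ∂P ≤ a) (hb : ∫ ω, ‖g ω‖ ^ p ∂P ≤ b) :
    ∫ ω, ‖f ω - g ω‖ ^ p ∂P ≤ 2 ^ p * (a + b) := by
  have h := XS_add hp hf hg.neg ha (XS_neg hb)
  simpa only [sub_eq_add_neg, Pi.neg_apply] using h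

/-- constant of `XS_lap` -/
private noncomputable def XS_cl (d p : ℕ) : ℝ := d ^ p * (2 ^ p * (2 ^ p * 2 + 2 ^ p * 2))

private theorem XS_cl_nonneg (d p : ℕ) : 0 ≤ XS_cl d p := by
  unfold XS_cl
  positivity

private theorem XS_lap {f : Site d → Ω → E N} {p : ℕ} (hp : p ≠ 0) (hf : ∀ y, MemLp (f y) p P)
    {a : ℝ} (ha : ∀ y, ∫ ω, ‖f y ω‖ ^ p ∂P ≤ a) (x : Site d) :
    MemLp (fun ω => lap (fun y => f y ω) x) p P ∧
    ∫ ω, ‖lap (fun y => f y ω) x‖ ^ p ∂P ≤ XS_cl d p * a := by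
  obtain ⟨q, rfl⟩ : ∃ q, p = q + 1 := ⟨p - 1, by omega⟩
  have m1 : ∀ i : Fin d, MemLp (fun ω => (f (x + Pi.single i 1) ω - f x ω) +
      (f (x - Pi.single i 1) ω - f x ω)) ((q + 1 : ℕ) : ℝ≥0∞) P := fun i =>
    ((hf _).sub (hf _)).add ((hf _).sub (hf _))
  have b1 : ∀ i : Fin d, ∫ ω, ‖(f (x + Pi.single i 1) ω - f x ω) +
      (f (x - Pi.single i 1) ω - f x ω)‖ ^ (q + 1) ∂P ≤
      2 ^ (q + 1) * (2 ^ (q + 1) * (a + a) + 2 ^ (q + 1) * (a + a)) := fun i =>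
    XS_add hp ((hf _).sub (hf _)) ((hf _).sub (hf _)) (XS_sub hp (hf _) (hf _) (ha _) (ha _))
      (XS_sub hp (hf _) (hf _) (ha _) (ha _))
  constructor
  · unfold lap
    exact memLp_finsetSum _ fun i _ => m1 i
  · have i1 : ∀ i : Fin d, Integrable (fun ω => ‖(f (x + Pi.single i 1) ω - f x ω) +
      (f (x - Pi.single i 1) ω - f x ω)‖ ^ (q + 1)) P := fun i => (m1 i).integrable_norm_pow hp
    have h1 : ∫ ω, ‖lap (fun y => f y ω) x‖ ^ (q + 1) ∂P ≤ ∫ ω, (d : ℝ) ^ q * ∑ i : Fin d,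
        ‖(f (x + Pi.single i 1) ω - f x ω) + (f (x - Pi.single i 1) ω - f x ω)‖ ^ (q + 1) ∂P := by
      refine integral_mono_of_nonneg (Eventually.of_forall fun ω => by positivity)
        ((integrable_finsetSum _ fun i _ => i1 i).const_mul _) (Eventually.of_forall fun ω => ?_)
      have h2 := pow_sum_le_card_mul_sum_pow (s := (Finset.univ : Finset (Fin d)))
        (f := fun i => ‖(f (x + Pi.single i 1) ω - f x ω) + (f (x - Pi.single i 1) ω - f x ω)‖)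
        (fun i _ => norm_nonneg _) q
      rw [Finset.card_univ, Fintype.card_fin] at h2
      refine le_trans (pow_le_pow_left₀ (norm_nonneg _) ?_ _) h2
      exact norm_sum_le _ _
    refine h1.trans ?_
    rw [integral_const_mul, integral_finsetSum _ fun i _ => i1 i]
    have h3 : ∑ i : Fin d, ∫ ω, ‖(f (x + Pi.single i 1) ω - f x ω) +
        (f (x - Pi.single i 1) ω - f x ω)‖ ^ (q + 1) ∂P ≤
        ∑ _i : Fin d, 2 ^ (q + 1) * (2 ^ (q + 1) * (a + a) + 2 ^ (q + 1) * (a + a)) :=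
      Finset.sum_le_sum fun i _ => b1 i
    rw [Finset.sum_const, Finset.card_univ, Fintype.card_fin, nsmul_eq_mul] at h3
    refine (mul_le_mul_of_nonneg_left h3 (by positivity)).trans (le_of_eq ?_)
    unfold XS_cl
    ring

private theorem XS_L4 [IsProbabilityMeasure P] {f : Ω → E N} (hf : MemLp f (4 : ℕ) P) {c h : ℝ}
    (hh : 0 < h) (h4 : ∫ ω, ‖f ω‖ ^ 4 ∂P ≤ c * h ^ 2) : ∫ ω, ‖f ω‖ ^ 2 ∂P ≤ (c + 1) * h := by
  have i4 := hf.integrable_norm_pow (by norm_num)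
  have h1 : ∫ ω, ‖f ω‖ ^ 2 ∂P ≤ ∫ ω, (h⁻¹ * ‖f ω‖ ^ 4 + h) ∂P := by
    refine integral_mono_of_nonneg (Eventually.of_forall fun ω => by positivity)
      ((i4.const_mul _).add (integrable_const _)) (Eventually.of_forall fun ω => ?_)
    show ‖f ω‖ ^ 2 ≤ h⁻¹ * ‖f ω‖ ^ 4 + h
    have h2 : 0 ≤ h⁻¹ * ((‖f ω‖ ^ 2 - h / 2) ^ 2 + 3 / 4 * h ^ 2) := by positivity
    have h3 : h⁻¹ * ((‖f ω‖ ^ 2 - h / 2) ^ 2 + 3 / 4 * h ^ 2) =
        h⁻¹ * ‖f ω‖ ^ 4 - ‖f ω‖ ^ 2 + h := by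
      field_simp
      ring
    linarith
  rw [integral_add (i4.const_mul _) (integrable_const _), integral_const_mul] at h1
  simp only [integral_const, probReal_univ, smul_eq_mul, one_mul] at h1
  have h5 : h⁻¹ * ∫ ω, ‖f ω‖ ^ 4 ∂P ≤ h⁻¹ * (c * h ^ 2) :=
    mul_le_mul_of_nonneg_left h4 (by positivity)
  have h6 : h⁻¹ * (c * h ^ 2) = c * h := by
    field_simp
  linarith

end mom

/-! ### real inequalities -/

private theorem XS_r1 {h : ℝ} (hh : 0 < h) (hh1 : h ≤ 1) : h ^ 2 ≤ h := by nlinarith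

private theorem XS_r2 {h : ℝ} (hh : 0 < h) (hh1 : h ≤ 1) : h ≤ Real.sqrt h := by
  have h1 := Real.sq_sqrt hh.le
  have h3 : Real.sqrt h ≤ 1 := Real.sqrt_le_one.2 hh1
  have h2 : 0 ≤ Real.sqrt h := Real.sqrt_nonneg _
  nlinarith

private theorem XS_r3 {k h c : ℝ} (hc : 0 ≤ c) (hh : 0 < h) (hh1 : h ≤ 1) :
    (k * h) ^ 2 * c ≤ k ^ 2 * c * h := by
  have := mul_le_mul_of_nonneg_left (XS_r1 hh hh1) (mul_nonneg (sq_nonneg k) hc)
  calc (k * h) ^ 2 * c = k ^ 2 * c * h ^ 2 := by ring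
    _ ≤ k ^ 2 * c * h := this

private theorem XS_r4 {k h c a : ℝ} (hc : 0 ≤ c) (hh : 0 < h) (hh1 : h ≤ 1) :
    2 ^ 2 * (a * h + (k * h) ^ 2 * c) ≤
      (2 ^ 2 * (a + k ^ 2 * c) + 2 ^ 2 * (k ^ 2 * c + k ^ 2 * c)) * h := by
  have h1 := XS_r3 (k := k) hc hh hh1
  have h2 : 0 ≤ k ^ 2 * c * h := by positivity
  linarith

private theorem XS_r5 {k h c a : ℝ} (ha : 0 ≤ a) (hc : 0 ≤ c) (hh : 0 < h) (hh1 : h ≤ 1) :
    2 ^ 2 * ((k * h) ^ 2 * c + (k * h) ^ 2 * c) ≤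
      (2 ^ 2 * (a + k ^ 2 * c) + 2 ^ 2 * (k ^ 2 * c + k ^ 2 * c)) * h := by
  have h1 := XS_r3 (k := k) hc hh hh1
  have h2 : 0 ≤ k ^ 2 * c * h := by positivity
  have h3 : 0 ≤ a * h := by positivity
  linarith

private theorem XS_r6 {k h c a ε D : ℝ} (ha : 0 ≤ a) (hc : 0 ≤ c) (hh : 0 < h) (hh1 : h ≤ 1) :
    2 ^ 2 * ((k * h) ^ 2 * (c * (a * h)) + (ε * h) ^ 2 *
      (2 ^ 2 * (D * Real.sqrt h + D * Real.sqrt h))) ≤
    (2 ^ 2 * (k ^ 2 * (c * a) + ε ^ 2 * (2 ^ 2 * (D + D)))) * (h ^ 2 * Real.sqrt h) := by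
  have s4 : 0 ≤ k ^ 2 * (c * a) * h ^ 2 := by positivity
  have h1 := mul_le_mul_of_nonneg_left (XS_r2 hh hh1) s4
  have e1 : 2 ^ 2 * ((k * h) ^ 2 * (c * (a * h)) + (ε * h) ^ 2 *
      (2 ^ 2 * (D * Real.sqrt h + D * Real.sqrt h))) = 4 * (k ^ 2 * (c * a) * h ^ 2 * h) +
      4 * (ε ^ 2 * (2 ^ 2 * (D + D)) * (h ^ 2 * Real.sqrt h)) := by ring
  have e2 : (2 ^ 2 * (k ^ 2 * (c * a) + ε ^ 2 * (2 ^ 2 * (D + D)))) * (h ^ 2 * Real.sqrt h) =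
      4 * (k ^ 2 * (c * a) * h ^ 2 * Real.sqrt h) +
      4 * (ε ^ 2 * (2 ^ 2 * (D + D)) * (h ^ 2 * Real.sqrt h)) := by ring
  rw [e1, e2]
  linarith

private theorem XS_r7 {N a g h : ℝ} (hN : 0 ≤ N) (ha : 0 ≤ a) (hh : 0 < h)
    (hg : g ≤ a * (h / 2)) : N * (h / 2) * g ≤ N * a * h ^ 2 := by
  have h1 := mul_le_mul_of_nonneg_left hg (by positivity : (0 : ℝ) ≤ N * (h / 2))
  have h2 : N * (h / 2) * (a * (h / 2)) = N * a * h ^ 2 / 4 := by ring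
  have h3 : 0 ≤ N * a * h ^ 2 := by positivity
  linarith

private theorem XS_r8 {h : ℝ} (hh : 0 < h) : (1 + h⁻¹) * h ^ 2 = h ^ 2 + h := by
  field_simp

private theorem XS_r9 {h : ℝ} (hh : 0 < h) (hh1 : h ≤ 1) :
    (1 + h) ^ 2 ≤ 1 + 3 * h ∧ (1 + h) ^ 2 ≤ 4 ∧ (1 + h) * (h ^ 2 + h) ≤ 4 * h := by
  have h2 := XS_r1 hh hh1
  refine ⟨by nlinarith, by nlinarith, ?_⟩
  have h3 : h ^ 2 * h ≤ h ^ 2 * 1 := mul_le_mul_of_nonneg_left hh1 (sq_nonneg h)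
  nlinarith

private theorem XS_t1 {N h S a I : ℝ} (hN : 0 ≤ N) (hS : 0 ≤ S) (ha : 0 ≤ a) (hh : 0 < h)
    (hh1 : h ≤ 1) (hI : I ≤ (1 + 2 * (N * h)) * S + 2 * (N * a * h ^ 2)) :
    (1 + h) ^ 2 * I ≤ (1 + (3 + 8 * N) * h) * S + 8 * N * a * h * Real.sqrt h := by
  obtain ⟨s2, s3, -⟩ := XS_r9 hh hh1
  have hle := XS_r2 hh hh1
  have s4 : (1 + h) ^ 2 * (1 + 2 * (N * h)) ≤ 1 + (3 + 8 * N) * h := by
    have s5 : (1 + h) ^ 2 * (1 + 2 * (N * h)) ≤ (1 + 3 * h) * (1 + 2 * (N * h)) :=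
      mul_le_mul_of_nonneg_right s2 (by positivity)
    have s6 : N * h * h ≤ N * h := mul_le_of_le_one_right (by positivity) hh1
    nlinarith
  have s7 := mul_le_mul_of_nonneg_left hI (by positivity : (0 : ℝ) ≤ (1 + h) ^ 2)
  have s8 := mul_le_mul_of_nonneg_right s4 hS
  have s9 : (1 + h) ^ 2 * (2 * (N * a * h ^ 2)) ≤ 4 * (2 * (N * a * h ^ 2)) :=
    mul_le_mul_of_nonneg_right s3 (by positivity)
  have s10 := mul_le_mul_of_nonneg_left hle (by positivity : (0 : ℝ) ≤ 8 * N * a * h)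
  calc (1 + h) ^ 2 * I ≤ (1 + h) ^ 2 * ((1 + 2 * (N * h)) * S + 2 * (N * a * h ^ 2)) := s7
    _ = (1 + h) ^ 2 * (1 + 2 * (N * h)) * S + (1 + h) ^ 2 * (2 * (N * a * h ^ 2)) := by ring
    _ ≤ (1 + (3 + 8 * N) * h) * S + 4 * (2 * (N * a * h ^ 2)) := add_le_add s8 s9
    _ = (1 + (3 + 8 * N) * h) * S + 8 * N * a * h * h := by ring
    _ ≤ _ := by linarith

private theorem XS_t2 {h C I : ℝ} (hC : 0 ≤ C) (hh : 0 < h) (hh1 : h ≤ 1)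
    (hI : I ≤ C * (h ^ 2 * Real.sqrt h)) :
    (1 + h) * (1 + h⁻¹) * I ≤ 4 * C * h * Real.sqrt h := by
  have s1 := mul_le_mul_of_nonneg_left hI (by positivity : (0 : ℝ) ≤ (1 + h) * (1 + h⁻¹))
  have s4 := mul_le_mul_of_nonneg_left (XS_r9 hh hh1).2.2
    (mul_nonneg hC (Real.sqrt_nonneg h))
  calc (1 + h) * (1 + h⁻¹) * I ≤ (1 + h) * (1 + h⁻¹) * (C * (h ^ 2 * Real.sqrt h)) := s1
    _ = C * Real.sqrt h * ((1 + h) * (h ^ 2 + h)) := by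
      rw [← XS_r8 hh]
      ring
    _ ≤ C * Real.sqrt h * (4 * h) := s4
    _ = _ := by ring

private theorem XS_t3 {k h c S I : ℝ} (hc : 0 ≤ c) (hS : 0 ≤ S) (hh : 0 < h) (hh1 : h ≤ 1)
    (hI : I ≤ c * S) : (1 + h⁻¹) * (k * h) ^ 2 * I ≤ 2 * k ^ 2 * c * h * S := by
  have s3 : h ^ 2 + h ≤ 2 * h := by linarith [XS_r1 hh hh1]
  have s1 : (1 + h⁻¹) * (k * h) ^ 2 = k ^ 2 * (h ^ 2 + h) := by
    rw [← XS_r8 hh]
    ring
  rw [s1]
  have s2 := mul_le_mul_of_nonneg_left hI (by positivity : (0 : ℝ) ≤ k ^ 2 * (h ^ 2 + h))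
  have s4 := mul_le_mul_of_nonneg_left s3 (mul_nonneg (sq_nonneg k) (mul_nonneg hc hS))
  calc k ^ 2 * (h ^ 2 + h) * I ≤ k ^ 2 * (h ^ 2 + h) * (c * S) := s2
    _ = k ^ 2 * (c * S) * (h ^ 2 + h) := by ring
    _ ≤ k ^ 2 * (c * S) * (2 * h) := s4
    _ = _ := by ring

private theorem XS_t4 {N k h c a C S r I1 I2 I3 : ℝ} (hN : 0 ≤ N) (ha : 0 ≤ a) (hc : 0 ≤ c)
    (hC : 0 ≤ C) (hS : 0 ≤ S) (hh : 0 < h) (hr : 0 ≤ r)
    (h1 : I1 ≤ (1 + (3 + 8 * N) * h) * S + 8 * N * a * h * r) (h2 : I2 ≤ 4 * C * h * r)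
    (h3 : I3 ≤ 2 * k ^ 2 * c * h * S) :
    I1 + I2 + I3 ≤ (1 + (3 + 8 * N + 2 * k ^ 2 * c + 8 * N * a + 4 * C) * h) * S +
      (3 + 8 * N + 2 * k ^ 2 * c + 8 * N * a + 4 * C) * h * r := by
  have u1 : 0 ≤ (3 + 8 * N + 2 * k ^ 2 * c) * h * r := by positivity
  have u2 : 0 ≤ (8 * N * a + 4 * C) * h * S := by positivity
  linarith

/-! ### algebra of the step -/

/-- chain value minus a multiple of the Laplacian -/
private noncomputable def XS_w {Ω : Type} {N d : ℕ} (k ε β : ℝ) (h : ℝ≥0)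
    (B : Site d → Fin N → Fin N → ℝ≥0 → Ω → ℝ) (H0 : Site d → Ω → E N) (c : ℝ) (n m : ℕ)
    (x : Site d) (ω : Ω) : E N :=
  ac k ε β h B H0 m ω x - c • lap (ac k ε β h B H0 n ω) x

/-- increment matrix -/
private noncomputable def XS_b {Ω : Type} {N d : ℕ} (B : Site d → Fin N → Fin N → ℝ≥0 → Ω → ℝ)
    (x : Site d) (s t : ℝ≥0) (ω : Ω) : Fin N → Fin N → ℝ :=
  fun a b => B x a b t ω - B x a b s ω

section pt

variable {Ω : Type} [MeasurableSpace Ω] {N d : ℕ} {B : Site d → Fin N → Fin N → ℝ≥0 → Ω → ℝ}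
    {H0 : Site d → Ω → E N} {k ε β : ℝ}

private theorem XS_step (hβ : 0 < β) (hε : 0 < ε) (h : ℝ≥0) (n : ℕ) (ω : Ω) (x : Site d)
    {s t : ℝ≥0} (hs : (n : ℝ≥0) * h = s) (ht : ((n : ℝ≥0) + 1) * h = t) :
    ac k ε β h B H0 (n + 1) ω x = ac k ε β h B H0 n ω x +
      mulv (XS_b B x s t ω) (ac k ε β h B H0 n ω x) +
      (h : ℝ) • (k • lap (ac k ε β h B H0 n ω) x -
        (ε * ‖XS_w k ε β h B H0 (k * h) n (n + 1) x ω‖ ^ β) •
          XS_w k ε β h B H0 (k * h) n (n + 1) x ω) := by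
  have e : XS_w k ε β h B H0 (k * h) n (n + 1) x ω = J β (ε * h) (ac k ε β h B H0 n ω x +
        mulv (fun a b => B x a b ((n + 1) * h) ω - B x a b (n * h) ω)
          (ac k ε β h B H0 n ω x)) := by
    unfold XS_w
    simp only [ac]
    rw [add_sub_cancel_right]
  rw [e, ac_step_eq hβ hε, ← hs, ← ht]
  rfl

private theorem XS_c1 (n : ℕ) (h : ℝ≥0) : ((2 * n : ℕ) : ℝ≥0) * (h / 2) = n * h := by
  push_cast
  rw [mul_comm (2 : ℝ≥0), mul_assoc, mul_div_cancel₀ h (two_ne_zero' ℝ≥0)]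

private theorem XS_c3 (n : ℕ) (h : ℝ≥0) :
    (((2 * n + 1 : ℕ) : ℝ≥0) + 1) * (h / 2) = (n + 1) * h := by
  have := XS_c1 (n + 1) h
  push_cast at this ⊢
  rw [← this]
  ring

private theorem XS_alg {V : Type*} [AddCommGroup V] [Module ℝ V] (F G G1 G2 L0 L1 b0 b1 bw mF mG
    m0G m1G m1G1 : V) (k ε h : ℝ) (hG1 : G1 = G + m0G + (h / 2) • (k • L0 - ε • b0))
    (hG2 : G2 = G1 + m1G1 + (h / 2) • (k • L1 - ε • b1)) (hm : mG = m0G + m1G) :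
    (F + mF) - ((G2 - (k * h) • L0) + (ε * h) • bw) = ((F - G) + (mF - mG) + (m1G - m1G1)) +
      ((k * (h / 2)) • (L0 - L1) + (ε * (h / 2)) • ((b0 - bw) + (b1 - bw))) := by
  subst hm
  subst hG2
  subst hG1
  module

private theorem XS_lap_sub (f g : Site d → E N) (x : Site d) :
    lap (fun y => f y - g y) x = lap f x - lap g x := by
  unfold lap
  rw [← Finset.sum_sub_distrib]
  refine Finset.sum_congr rfl fun i _ => ?_
  exact SdeSt_ab _ _ _ _ _ _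

private theorem XS_msub (b : Fin N → Fin N → ℝ) (v w : E N) :
    mulv b (v - w) = mulv b v - mulv b w := by
  have h2 := mulv_add b (v - w) w
  rw [sub_add_cancel] at h2
  rw [h2, add_sub_cancel_right]

/-- the nonlinearity -/
private noncomputable def XS_n {N : ℕ} (β : ℝ) (u : E N) : E N := (‖u‖ ^ β) • u

/-- the deterministic part of the local error -/
private noncomputable def XS_rd {Ω : Type} {N d : ℕ} (k ε β : ℝ) (h : ℝ≥0)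
    (B : Site d → Fin N → Fin N → ℝ≥0 → Ω → ℝ) (H0 : Site d → Ω → E N) (n : ℕ)
    (x : Site d) (ω : Ω) : E N :=
  (k * (h / 2)) • lap (fun y => ac k ε β (h / 2) B H0 (2 * n) ω y -
      ac k ε β (h / 2) B H0 (2 * n + 1) ω y) x +
    (ε * (h / 2)) • ((XS_n β (XS_w k ε β (h / 2) B H0 (k * (h / 2)) (2 * n) (2 * n + 1) x ω) -
        XS_n β (XS_w k ε β (h / 2) B H0 (k * h) (2 * n) (2 * n + 2) x ω)) +
      (XS_n β (XS_w k ε β (h / 2) B H0 (k * (h / 2)) (2 * n + 1) (2 * n + 2) x ω) -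
        XS_n β (XS_w k ε β (h / 2) B H0 (k * h) (2 * n) (2 * n + 2) x ω)))

private theorem XS_pt (hβ : 0 < β) (hε : 0 < ε) (hk : 0 ≤ k) (h : ℝ≥0) (n : ℕ) (ω : Ω)
    (x : Site d) {s0 s1 s2 : ℝ≥0} (hs0 : s0 = n * h) (hs1 : s1 = ((2 * n + 1 : ℕ) : ℝ≥0) * (h / 2))
    (hs2 : s2 = (n + 1) * h) :
    ‖ac k ε β h B H0 (n + 1) ω x - ac k ε β (h / 2) B H0 (2 * n + 2) ω x‖ ≤
      ‖(ac k ε β h B H0 n ω x - ac k ε β (h / 2) B H0 (2 * n) ω x) +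
        mulv (XS_b B x s0 s2 ω) (ac k ε β h B H0 n ω x - ac k ε β (h / 2) B H0 (2 * n) ω x) +
        mulv (XS_b B x s1 s2 ω) (ac k ε β (h / 2) B H0 (2 * n) ω x -
          ac k ε β (h / 2) B H0 (2 * n + 1) ω x)‖ + ‖XS_rd k ε β h B H0 n x ω‖ +
      (k * h) * ‖lap (fun y => ac k ε β h B H0 n ω y - ac k ε β (h / 2) B H0 (2 * n) ω y) x‖ := by
  have hh : (0 : ℝ) ≤ h := h.2
  have c : ((h / 2 : ℝ≥0) : ℝ) = (h : ℝ) / 2 := by push_cast; rfl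
  have e1 := XS_step (B := B) (H0 := H0) (k := k) hβ hε (h / 2) (2 * n) ω x (s := s0) (t := s1)
    (by rw [hs0, XS_c1]) (by rw [hs1]; push_cast; rfl)
  have e2 := XS_step (B := B) (H0 := H0) (k := k) hβ hε (h / 2) (2 * n + 1) ω x (s := s1) (t := s2)
    hs1.symm (by rw [hs2, XS_c3])
  rw [c] at e1 e2
  rw [mul_smul ε] at e1 e2
  set F := ac k ε β h B H0 n ω x with hF
  set G := ac k ε β (h / 2) B H0 (2 * n) ω x with hG
  set G1 := ac k ε β (h / 2) B H0 (2 * n + 1) ω x with hG1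
  have e3 : ac k ε β (h / 2) B H0 (2 * n + 1 + 1) ω x = ac k ε β (h / 2) B H0 (2 * n + 2) ω x := rfl
  rw [e3] at e2
  set G2 := ac k ε β (h / 2) B H0 (2 * n + 2) ω x with hG2
  have e4 : mulv (XS_b B x s0 s2 ω) G = mulv (XS_b B x s0 s1 ω) G + mulv (XS_b B x s1 s2 ω) G := by
    rw [← mulv_add_left]
    congr 1
    funext a b
    unfold XS_b
    ring
  have e5 := XS_alg F G G1 G2 (lap (ac k ε β (h / 2) B H0 (2 * n) ω) x)
    (lap (ac k ε β (h / 2) B H0 (2 * n + 1) ω) x) _ _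
    (XS_n β (XS_w k ε β (h / 2) B H0 (k * h) (2 * n) (2 * n + 2) x ω)) (mulv (XS_b B x s0 s2 ω) F)
    _ _ _ _ k ε h e1 e2 e4
  have e6 : ac k ε β h B H0 (n + 1) ω x = J β (ε * h) (F + mulv (XS_b B x s0 s2 ω) F) +
      (k * h) • lap (ac k ε β h B H0 n ω) x := by
    rw [hs0, hs2]
    rfl
  have e7 : J β (ε * h) ((G2 - (k * h) • lap (ac k ε β (h / 2) B H0 (2 * n) ω) x) + (ε * h) •
      XS_n β (XS_w k ε β (h / 2) B H0 (k * h) (2 * n) (2 * n + 2) x ω)) =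
      G2 - (k * h) • lap (ac k ε β (h / 2) B H0 (2 * n) ω) x := by
    refine J_unique hβ (by positivity) ?_
    rw [mul_smul (ε * (h : ℝ))]
    rfl
  have e8 : ac k ε β h B H0 (n + 1) ω x - G2 = (J β (ε * h) (F + mulv (XS_b B x s0 s2 ω) F) -
      J β (ε * h) ((G2 - (k * h) • lap (ac k ε β (h / 2) B H0 (2 * n) ω) x) + (ε * h) •
      XS_n β (XS_w k ε β (h / 2) B H0 (k * h) (2 * n) (2 * n + 2) x ω))) + (k * h) •
      lap (fun y => ac k ε β h B H0 n ω y - ac k ε β (h / 2) B H0 (2 * n) ω y) x := by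
    rw [e6, e7, XS_lap_sub, smul_sub]
    abel
  rw [e8]
  refine (norm_add_le _ _).trans (add_le_add ?_ (le_of_eq ?_))
  · refine (J_nonexp hβ (by positivity) _ _).trans ?_
    rw [e5]
    refine (norm_add_le _ _).trans (add_le_add (le_of_eq ?_) (le_of_eq ?_))
    · rw [XS_msub, XS_msub]
    · unfold XS_rd
      rw [XS_lap_sub]
      rfl
  · rw [norm_smul, Real.norm_eq_abs, abs_of_nonneg (mul_nonneg hk hh)]

end pt

section main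

variable {Ω : Type} [mΩ : MeasurableSpace Ω] {P : Measure Ω} {N d : ℕ}
    {ℱ : Filtration ℝ≥0 mΩ} {B : Site d → Fin N → Fin N → ℝ≥0 → Ω → ℝ}
    {H0 : Site d → Ω → E N} {k ε β : ℝ}

private theorem XS_mem (hN : Noise P ℱ B H0) (hβ : 0 < β) (hε : 0 < ε) (h : ℝ≥0) (n : ℕ) {p : ℕ}
    (hp : p ≠ 0) (x : Site d) : MemLp (fun ω => ac k ε β h B H0 n ω x) p P := by
  have hm := ((ac_meas (k := k) hN hβ hε h n x).mono (ℱ.le _) le_rfl).aestronglyMeasurable (μ := P)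
  have h1 := ac_mem (k := k) hN hβ hε h n p x
  refine (integrable_norm_rpow_iff hm (by exact_mod_cast hp) (ENNReal.natCast_ne_top p)).1 ?_
  simpa using h1

private theorem XS_w_mem (hN : Noise P ℱ B H0) (hβ : 0 < β) (hε : 0 < ε) {p : ℕ} (hp : p ≠ 0)
    {T h : ℝ≥0} (h1 : h ≤ 1) {Cm : ℝ} (hC : 0 ≤ Cm)
    (hm : ∀ h : ℝ≥0, h ≤ 1 → ∀ n : ℕ, n * h ≤ T → ∀ x : Site d,
      ∫ ω, ‖ac k ε β h B H0 n ω x‖ ^ p ∂P ≤ Cm) {n m : ℕ} (hn : n * h ≤ T) (hm' : m * h ≤ T)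
    {c K : ℝ} (hc : 0 ≤ c) (hcK : c ≤ K) (x : Site d) :
    MemLp (XS_w k ε β h B H0 c n m x) p P ∧
      ∫ ω, ‖XS_w k ε β h B H0 c n m x ω‖ ^ p ∂P ≤ 2 ^ p * (Cm + K ^ p * (XS_cl d p * Cm)) := by
  have hl := XS_lap (P := P) (f := fun y ω => ac k ε β h B H0 n ω y) hp
    (fun y => XS_mem hN hβ hε h n hp y) (hm h h1 n hn) x
  have ha := XS_mem (k := k) hN hβ hε h m hp x
  constructor
  · exact ha.sub (hl.1.const_smul c)
  · exact XS_sub hp ha (hl.1.const_smul c) (hm h h1 m hm' x)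
      (XS_smul hc hcK hl.2 (mul_nonneg (XS_cl_nonneg d p) hC))

private theorem XS_inc (hN : Noise P ℱ B H0) (hβ : 0 < β) (hε : 0 < ε) {T : ℝ≥0} {C : ℝ}
    (hi : ∀ h : ℝ≥0, h ≤ 1 → ∀ n m : ℕ, n ≤ m → m * h ≤ T → ∀ x : Site d,
      ∫ ω, ‖ac k ε β h B H0 m ω x - ac k ε β h B H0 n ω x‖ ^ 4 ∂P ≤ C * (((m : ℝ) - n) * h) ^ 2)
    {h : ℝ≥0} (h0 : 0 < h) (h1 : h ≤ 1) (n : ℕ) (hn : ((n + 1 : ℕ) : ℝ≥0) * h ≤ T) (x : Site d) :
    ∫ ω, ‖ac k ε β h B H0 n ω x - ac k ε β h B H0 (n + 1) ω x‖ ^ 2 ∂P ≤ (C + 1) * h := by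
  haveI := hN.prob
  have h2 := hi h h1 n (n + 1) (Nat.le_succ n) hn x
  have h3 := XS_L4 (P := P) (c := C) (h := h)
    ((XS_mem (k := k) hN hβ hε h (n + 1) (by norm_num) x).sub (XS_mem (k := k) hN hβ hε h n
      (by norm_num) x)) (by exact_mod_cast h0) (by
      refine h2.trans (le_of_eq ?_)
      push_cast
      ring)
  have e : ∀ ω, ‖ac k ε β h B H0 n ω x - ac k ε β h B H0 (n + 1) ω x‖ =
      ‖ac k ε β h B H0 (n + 1) ω x - ac k ε β h B H0 n ω x‖ := fun ω => norm_sub_rev _ _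
  simp only [e]
  exact h3

/-- the deterministic part of the local error is small -/
private theorem XS_rd_le (hN : Noise P ℱ B H0) (hβ : 0 < β) (hε : 0 < ε) (hk : 0 ≤ k) (T : ℝ≥0) :
    ∃ C : ℝ, 0 ≤ C ∧ ∀ h : ℝ≥0, 0 < h → h ≤ 1 → ∀ n : ℕ, (n + 1) * h ≤ T → ∀ x : Site d,
      MemLp (XS_rd k ε β h B H0 n x) 2 P ∧
      ∫ ω, ‖XS_rd k ε β h B H0 n x ω‖ ^ 2 ∂P ≤ C * (h ^ 2 * Real.sqrt h) := by
  haveI := hN.prob
  have hp0 : ⌈4 * β + 2⌉₊ ≠ 0 := by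
    have : 0 < ⌈4 * β + 2⌉₊ := Nat.ceil_pos.2 (by linarith)
    omega
  obtain ⟨Cm, hCm, hm⟩ := ac_mom hN hβ hε hk ⌈4 * β + 2⌉₊ T
  obtain ⟨C2, hC2, h2⟩ := ac_mom hN hβ hε hk 2 T
  obtain ⟨Ci, hCi, hi⟩ := ac_inc hN hβ hε hk T
  obtain ⟨Cb, hCb, hb⟩ := b_L2 N β hβ
    (2 ^ ⌈4 * β + 2⌉₊ * (Cm + k ^ ⌈4 * β + 2⌉₊ * (XS_cl d ⌈4 * β + 2⌉₊ * Cm)))
    (by have := XS_cl_nonneg d ⌈4 * β + 2⌉₊; positivity)
  have hcl := XS_cl_nonneg d 2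
  set D0 : ℝ := 2 ^ 2 * ((Ci + 1) + k ^ 2 * (XS_cl d 2 * C2)) +
    2 ^ 2 * (k ^ 2 * (XS_cl d 2 * C2) + k ^ 2 * (XS_cl d 2 * C2)) with hD0
  have hD00 : 0 ≤ D0 := by positivity
  refine ⟨2 ^ 2 * (k ^ 2 * (XS_cl d 2 * (Ci + 1)) +
    ε ^ 2 * (2 ^ 2 * (Cb * Real.sqrt D0 + Cb * Real.sqrt D0))), by positivity, ?_⟩
  intro h h0 h1 n hn x
  have hh : (0 : ℝ) < h := by exact_mod_cast h0
  have hh1 : (h : ℝ) ≤ 1 := by exact_mod_cast h1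
  have h0' : (0 : ℝ≥0) < h / 2 := by positivity
  have h1' : h / 2 ≤ 1 := (NNReal.half_le_self h).trans h1
  have c : ((h / 2 : ℝ≥0) : ℝ) = (h : ℝ) / 2 := by push_cast; rfl
  have t2 : ((2 * n + 2 : ℕ) : ℝ≥0) * (h / 2) ≤ T := by
    have e := XS_c1 (n + 1) h
    have e' : 2 * (n + 1) = 2 * n + 2 := by ring
    rw [e'] at e
    rw [e]
    push_cast
    exact hn
  have t1 : ((2 * n + 1 : ℕ) : ℝ≥0) * (h / 2) ≤ T := by
    refine le_trans (mul_le_mul_of_nonneg_right ?_ h0'.le) t2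
    exact_mod_cast Nat.le_succ (2 * n + 1)
  have t0 : ((2 * n : ℕ) : ℝ≥0) * (h / 2) ≤ T := by
    refine le_trans (mul_le_mul_of_nonneg_right ?_ h0'.le) t1
    exact_mod_cast Nat.le_succ (2 * n)
  -- the three arguments
  have kh : k * (h : ℝ) ≤ k := mul_le_of_le_one_right hk hh1
  have kh' : k * ((h : ℝ) / 2) ≤ k := mul_le_of_le_one_right hk (by linarith)
  have A0 := XS_w_mem (k := k) hN hβ hε hp0 h1' hCm hm t0 t1 (c := k * (h / 2)) (K := k)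
    (by positivity) kh' x
  have A1 := XS_w_mem (k := k) hN hβ hε hp0 h1' hCm hm t1 t2 (c := k * (h / 2)) (K := k)
    (by positivity) kh' x
  have AW := XS_w_mem (k := k) hN hβ hε hp0 h1' hCm hm t0 t2 (c := k * h) (K := k)
    (by positivity) kh x
  have B0 := hb P _ _ A0.1.1 AW.1.1 (A0.1.integrable_norm_pow hp0) (AW.1.integrable_norm_pow hp0)
    A0.2 AW.2
  have B1 := hb P _ _ A1.1.1 AW.1.1 (A1.1.integrable_norm_pow hp0) (AW.1.integrable_norm_pow hp0)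
    A1.2 AW.2
  have BW := hb P _ _ AW.1.1 AW.1.1 (AW.1.integrable_norm_pow hp0) (AW.1.integrable_norm_pow hp0)
    AW.2 AW.2
  -- Laplacians
  have n2 : (2 : ℕ) ≠ 0 := by norm_num
  have l0 := XS_lap (P := P) (f := fun y ω => ac k ε β (h / 2) B H0 (2 * n) ω y) n2
    (fun y => XS_mem hN hβ hε (h / 2) (2 * n) n2 y) (h2 (h / 2) h1' (2 * n) t0) x
  have l1 := XS_lap (P := P) (f := fun y ω => ac k ε β (h / 2) B H0 (2 * n + 1) ω y) n2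
    (fun y => XS_mem hN hβ hε (h / 2) (2 * n + 1) n2 y) (h2 (h / 2) h1' (2 * n + 1) t1) x
  have i0 : ∀ y : Site d, ∫ ω, ‖ac k ε β (h / 2) B H0 (2 * n) ω y -
      ac k ε β (h / 2) B H0 (2 * n + 1) ω y‖ ^ 2 ∂P ≤ (Ci + 1) * h := by
    intro y
    refine (XS_inc hN hβ hε hi h0' h1' (2 * n) t1 y).trans ?_
    rw [c]
    exact mul_le_mul_of_nonneg_left (by linarith) (by linarith)
  have i1 : ∀ y : Site d, ∫ ω, ‖ac k ε β (h / 2) B H0 (2 * n + 1) ω y -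
      ac k ε β (h / 2) B H0 (2 * n + 2) ω y‖ ^ 2 ∂P ≤ (Ci + 1) * h := by
    intro y
    refine (XS_inc hN hβ hε hi h0' h1' (2 * n + 1) t2 y).trans ?_
    rw [c]
    exact mul_le_mul_of_nonneg_left (by linarith) (by linarith)
  have ld := XS_lap (P := P) (f := fun y ω => ac k ε β (h / 2) B H0 (2 * n) ω y -
      ac k ε β (h / 2) B H0 (2 * n + 1) ω y) n2
    (fun y => (XS_mem hN hβ hε (h / 2) (2 * n) n2 y).sub
      (XS_mem hN hβ hε (h / 2) (2 * n + 1) n2 y)) i0 x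
  have cC2 : 0 ≤ XS_cl d 2 * C2 := mul_nonneg hcl hC2
  have khh : k * ((h : ℝ) / 2) ≤ k * h := mul_le_mul_of_nonneg_left (by linarith) hk
  -- differences of the arguments
  have d0 : ∫ ω, ‖XS_w k ε β (h / 2) B H0 (k * (h / 2)) (2 * n) (2 * n + 1) x ω -
      XS_w k ε β (h / 2) B H0 (k * h) (2 * n) (2 * n + 2) x ω‖ ^ 2 ∂P ≤ D0 * h := by
    have e : ∀ ω, XS_w k ε β (h / 2) B H0 (k * (h / 2)) (2 * n) (2 * n + 1) x ω -
      XS_w k ε β (h / 2) B H0 (k * h) (2 * n) (2 * n + 2) x ω =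
      (ac k ε β (h / 2) B H0 (2 * n + 1) ω x - ac k ε β (h / 2) B H0 (2 * n + 2) ω x) +
      (k * (h / 2)) • lap (fun y => ac k ε β (h / 2) B H0 (2 * n) ω y) x := by
      intro ω
      unfold XS_w
      module
    simp only [e]
    have m1 := (XS_mem (k := k) hN hβ hε (h / 2) (2 * n + 1) n2 x).sub
      (XS_mem (k := k) hN hβ hε (h / 2) (2 * n + 2) n2 x)
    refine (XS_add n2 m1 (l0.1.const_smul (k * ((h : ℝ) / 2))) (i1 x)
      (XS_smul (K := k * h) (by positivity) khh l0.2 cC2)).trans ?_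
    exact XS_r4 cC2 hh hh1
  have d1 : ∫ ω, ‖XS_w k ε β (h / 2) B H0 (k * (h / 2)) (2 * n + 1) (2 * n + 2) x ω -
      XS_w k ε β (h / 2) B H0 (k * h) (2 * n) (2 * n + 2) x ω‖ ^ 2 ∂P ≤ D0 * h := by
    have e : ∀ ω, XS_w k ε β (h / 2) B H0 (k * (h / 2)) (2 * n + 1) (2 * n + 2) x ω -
      XS_w k ε β (h / 2) B H0 (k * h) (2 * n) (2 * n + 2) x ω =
      (k * h) • lap (fun y => ac k ε β (h / 2) B H0 (2 * n) ω y) x -
      (k * (h / 2)) • lap (fun y => ac k ε β (h / 2) B H0 (2 * n + 1) ω y) x := by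
      intro ω
      unfold XS_w
      module
    simp only [e]
    refine (XS_sub n2 (l0.1.const_smul (k * (h : ℝ))) (l1.1.const_smul (k * ((h : ℝ) / 2)))
      (XS_smul (K := k * h) (by positivity) le_rfl l0.2 cC2)
      (XS_smul (K := k * h) (by positivity) khh l1.2 cC2)).trans ?_
    exact XS_r5 (by linarith) cC2 hh hh1
  have sq0 : ∀ z : ℝ, z ≤ D0 * h → Cb * Real.sqrt z ≤ Cb * Real.sqrt D0 * Real.sqrt h := by
    intro z hz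
    have h5 := Real.sqrt_le_sqrt hz
    rw [Real.sqrt_mul hD00] at h5
    rw [mul_assoc]
    exact mul_le_mul_of_nonneg_left h5 hCb.le
  have b0 := B0.2.2.trans (sq0 _ d0)
  have b1 := B1.2.2.trans (sq0 _ d1)
  have mB0 := B0.1.sub BW.1
  have mB1 := B1.1.sub BW.1
  have hb0 := XS_add (p := 2) n2 mB0 mB1 b0 b1
  have mB := (mB0.add mB1).const_smul (ε * ((h : ℝ) / 2))
  have hsq0 : 0 ≤ Real.sqrt (h : ℝ) := Real.sqrt_nonneg _
  have ehh : ε * ((h : ℝ) / 2) ≤ ε * h := mul_le_mul_of_nonneg_left (by linarith) hε.le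
  have hb1 := XS_smul (K := ε * h) (c := ε * ((h : ℝ) / 2)) (by positivity) ehh hb0
    (by positivity)
  have hl1 := XS_smul (K := k * h) (c := k * ((h : ℝ) / 2)) (by positivity) khh ld.2
    (by positivity)
  refine ⟨(ld.1.const_smul (k * ((h : ℝ) / 2))).add mB, ?_⟩
  refine (XS_add (p := 2) n2 (ld.1.const_smul (k * ((h : ℝ) / 2))) mB hl1 hb1).trans ?_
  exact XS_r6 (by linarith) hcl hh hh1

end main

variable {Ω : Type} [mΩ : MeasurableSpace Ω] {P : Measure Ω} {N d : ℕ}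
    {ℱ : Filtration ℝ≥0 mΩ} {B : Site d → Fin N → Fin N → ℝ≥0 → Ω → ℝ}
    {H0 : Site d → Ω → E N} {k ε β : ℝ}

theorem ac_two (hN : Noise P ℱ B H0) (hβ : 0 < β) (hε : 0 < ε) (hk : 0 ≤ k) (T : ℝ≥0) :
    ∃ C : ℝ, 0 ≤ C ∧ ∀ h : ℝ≥0, 0 < h → h ≤ 1 → ∀ n : ℕ, (n + 1) * h ≤ T → ∀ S : ℝ, 0 ≤ S →
      (∀ x : Site d, ∫ ω, ‖ac k ε β h B H0 n ω x - ac k ε β (h / 2) B H0 (2 * n) ω x‖ ^ 2 ∂P ≤ S) →
      ∀ x : Site d,
        ∫ ω, ‖ac k ε β h B H0 (n + 1) ω x - ac k ε β (h / 2) B H0 (2 * (n + 1)) ω x‖ ^ 2 ∂P ≤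
          (1 + C * h) * S + C * h * Real.sqrt h := by
  haveI := hN.prob
  obtain ⟨Cd, hCd, hrd⟩ := XS_rd_le (k := k) hN hβ hε hk T
  obtain ⟨Ci, hCi, hi⟩ := ac_inc hN hβ hε hk T
  have hcl := XS_cl_nonneg d 2
  have n2 : (2 : ℕ) ≠ 0 := by norm_num
  have hN0 : (0 : ℝ) ≤ N := Nat.cast_nonneg N
  refine ⟨3 + 8 * N + 2 * k ^ 2 * XS_cl d 2 + 8 * N * (Ci + 1) + 4 * Cd, by positivity, ?_⟩
  intro h h0 h1 n hn S hS hx x
  have hh : (0 : ℝ) < h := by exact_mod_cast h0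
  have hh1 : (h : ℝ) ≤ 1 := by exact_mod_cast h1
  have h0' : (0 : ℝ≥0) < h / 2 := by positivity
  have h1' : h / 2 ≤ 1 := (NNReal.half_le_self h).trans h1
  have c : ((h / 2 : ℝ≥0) : ℝ) = (h : ℝ) / 2 := by push_cast; rfl
  obtain ⟨pD, hD⟩ := hrd h h0 h1 n hn x
  set s0 : ℝ≥0 := n * h with hs0
  set s1 : ℝ≥0 := ((2 * n + 1 : ℕ) : ℝ≥0) * (h / 2) with hs1
  set s2 : ℝ≥0 := (n + 1) * h with hs2
  have c0 : ((2 * n : ℕ) : ℝ≥0) * (h / 2) = s0 := XS_c1 n h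
  have e1 : s1 = s0 + h / 2 := by
    rw [← c0, hs1]
    push_cast
    ring
  have e2 : s2 = s1 + h / 2 := by
    rw [hs1, hs2, ← XS_c3]
    ring
  have l1 : s0 ≤ s1 := by rw [e1]; exact le_self_add
  have l2 : s1 ≤ s2 := by rw [e2]; exact le_self_add
  have hT1 : s1 ≤ T := l2.trans hn
  set F : Ω → E N := fun ω => ac k ε β h B H0 n ω x with hF
  set G : Ω → E N := fun ω => ac k ε β (h / 2) B H0 (2 * n) ω x with hG
  set G1 : Ω → E N := fun ω => ac k ε β (h / 2) B H0 (2 * n + 1) ω x with hG1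
  have mF : Measurable[ℱ s0] F := ac_meas hN hβ hε h n x
  have mG : Measurable[ℱ s0] G := by
    have := ac_meas (k := k) hN hβ hε (h / 2) (2 * n) x
    rwa [c0] at this
  have mG1 : Measurable[ℱ s1] G1 := ac_meas hN hβ hε (h / 2) (2 * n + 1) x
  have pF : ∀ y, MemLp (fun ω => ac k ε β h B H0 n ω y) (2 : ℕ) P := fun y => XS_mem hN hβ hε h n n2 y
  have pG : ∀ y, MemLp (fun ω => ac k ε β (h / 2) B H0 (2 * n) ω y) (2 : ℕ) P := fun y =>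
    XS_mem hN hβ hε (h / 2) (2 * n) n2 y
  have pG1 : MemLp G1 (2 : ℕ) P := XS_mem hN hβ hε (h / 2) (2 * n + 1) n2 x
  set e : Ω → E N := fun ω => F ω - G ω with he
  have me : Measurable[ℱ s0] e := mF.sub mG
  have pe : MemLp e 2 P := (pF x).sub (pG x)
  have z := zero_dyn hN k ε β
  have q1 := mulv_sq z s0 s2 (l1.trans l2) x e me pe
  have mGG : Measurable[ℱ s1] (fun ω => G ω - G1 ω) := (mG.mono (ℱ.mono l1) le_rfl).sub mG1
  have pGG : MemLp (fun ω => G ω - G1 ω) 2 P := (pG x).sub pG1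
  have q2 := mulv_sq z s1 s2 l2 x (fun ω => G ω - G1 ω) mGG pGG
  have d1 : (s2 : ℝ) - s0 = h := by
    rw [e2, e1]
    push_cast
    ring
  have d2 : (s2 : ℝ) - s1 = h / 2 := by
    rw [e2]
    push_cast
    ring
  have hinc := XS_inc (k := k) hN hβ hε hi h0' h1' (2 * n) hT1 x
  rw [c] at hinc
  have hM : ∫ ω, ‖mulv (fun a b => B x a b s2 ω - B x a b s1 ω) (G ω - G1 ω)‖ ^ 2 ∂P ≤
      N * (Ci + 1) * h ^ 2 := by
    rw [q2.2.1, d2]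
    exact XS_r7 hN0 (by linarith) hh hinc
  have hA := SdeSt_A (c := N * h) pe q1.1 q2.1 (q1.2.2 e me pe)
    (q2.2.2 e (me.mono (ℱ.mono l1) le_rfl) pe) (by rw [q1.2.1, d1])
  have pA := (pe.add q1.1).add q2.1
  have hl := XS_lap (P := P) (f := fun y ω => ac k ε β h B H0 n ω y -
      ac k ε β (h / 2) B H0 (2 * n) ω y) n2 (fun y => (pF y).sub (pG y)) hx x
  have hpt : ∀ᵐ ω ∂P, ‖ac k ε β h B H0 (n + 1) ω x - ac k ε β (h / 2) B H0 (2 * (n + 1)) ω x‖ ≤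
      ‖(e + fun ω => mulv (fun a b => B x a b s2 ω - B x a b s0 ω) (e ω)) ω +
        mulv (fun a b => B x a b s2 ω - B x a b s1 ω) (G ω - G1 ω)‖ + ‖XS_rd k ε β h B H0 n x ω‖ +
      (k * h) * ‖lap (fun y => ac k ε β h B H0 n ω y - ac k ε β (h / 2) B H0 (2 * n) ω y) x‖ :=
    Eventually.of_forall fun ω => XS_pt hβ hε hk h n ω x hs0 hs1 hs2
  have h3 := SdeSt_sum3 (e' := fun ω => ac k ε β h B H0 (n + 1) ω x -
    ac k ε β (h / 2) B H0 (2 * (n + 1)) ω x) hh (mul_nonneg hk hh.le) pA pD hl.1 hpt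
  refine h3.trans ?_
  have hA' : ∫ ω, ‖(e + fun ω => mulv (fun a b => B x a b s2 ω - B x a b s0 ω) (e ω)) ω +
        mulv (fun a b => B x a b s2 ω - B x a b s1 ω) (G ω - G1 ω)‖ ^ 2 ∂P ≤
      (1 + 2 * (N * h)) * S + 2 * (N * (Ci + 1) * h ^ 2) := by
    refine hA.trans (add_le_add (mul_le_mul_of_nonneg_left (hx x) (by positivity)) ?_)
    exact mul_le_mul_of_nonneg_left hM (by norm_num)
  exact XS_t4 hN0 (by linarith) hcl hCd hS hh (Real.sqrt_nonneg _)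
    (XS_t1 hN0 hS (by linarith) hh hh1 hA') (XS_t2 hCd hh hh1 hD) (XS_t3 hcl hS hh hh1 hl.2)

end DynX
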