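import Pool.Agent.Lib_MP_36b788x.XDefs

/-!
# The zero solution; moments of `mulv` of an increment

With `zero_dyn` all the facts about the noise proved for `IsDynamo` are available: `inc_meas`, `inc_law`, `inc_indep`, `inc_past` (`SdeInc.lean`),
`mulv_sq`, `rsum_sq`, `rsum_sub` (`SdeI.lean`).

PROOF. `zero_dyn`: `lap 0 = 0`, the drift of zero is zero, `rsum B 0 = 0` (`mulv b 0 = 0`).
`mulv_pow`: `‖mulv b v‖ ≤ (Σ_{a,b} |b a b|) ‖v‖`, so the left side is `≤ ∫⁻ Z (Σ|ΔB|)^{2q} ‖V‖^{2q}`. The increments are independent of `ℱ s` (`Noise.indepInc`,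
or `inc_past` with `κ = Unit`), so the integral factorizes: `E[(Σ|ΔB|)^{2q}] ∫⁻ Z ‖V‖^{2q}` (`lintegral_mul_eq_lintegral_mul_lintegral_of_independent_measurableSpace`).
`(Σ|ΔB_{ab}|)^{2q} ≤ (N²)^{2q} Σ_{ab} |ΔB_{ab}|^{2q}` (also for `N = 0`), `E|ΔB|^{2q} = (t-s)^q E|ξ|^{2q}` (`ΔB` has the law of `√(t-s) ξ`), and the Gaussian moments are finite.
-/

open MeasureTheory ProbabilityTheory Filter Dyn
open scoped NNReal ENNReal Topology

namespace DynX

theorem zero_dyn {Ω : Type} [mΩ : MeasurableSpace Ω] {P : Measure Ω} {N d : ℕ}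
    {ℱ : Filtration ℝ≥0 mΩ} {B : Site d → Fin N → Fin N → ℝ≥0 → Ω → ℝ}
    {H0 : Site d → Ω → E N} (hN : Noise P ℱ B H0) (k ε β : ℝ) :
    IsDynamo P k ε β ℱ B (fun _ _ _ => (0 : E N)) := by
  have := hN.prob
  have hd : ∀ x : Site d, drf k ε β (fun _ => (0 : E N)) x = 0 := by
    intro x
    unfold drf lap
    simp
  have hm : ∀ b : Fin N → Fin N → ℝ, mulv b (0 : E N) = 0 := by
    intro b
    unfold mulv
    ext i
    simp
  refine ⟨hN.prob, hN.brownian, hN.indep, hN.adaptB, hN.indepInc, fun _ _ => measurable_const,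
    fun _ => Filter.Eventually.of_forall fun _ => continuous_const, ?_, ?_⟩
  · intro p T
    refine ⟨1, fun t _ x => ⟨integrable_const _, ?_⟩⟩
    rw [integral_const, probReal_univ, one_smul, norm_zero]
    rcases Nat.eq_zero_or_pos p with h | h
    · rw [h, pow_zero]
    · rw [zero_pow h.ne']
      exact zero_le_one
  · intro x s t _
    have h1 : ∀ n : ℕ, (fun ω => (0 : E N) - 0
        - (∫ r in (s : ℝ)..t, drf k ε β (fun _ => (0 : E N)) x)
        - rsum B (fun _ _ _ => (0 : E N)) x s t n ω) = fun _ : Ω => (0 : E N) := by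
      intro n
      funext ω
      unfold rsum
      simp only [hd, hm, Finset.sum_const_zero, intervalIntegral.integral_zero, sub_zero]
    have h2 : ∀ n : ℕ, eLpNorm (fun ω => (0 : E N) - 0
        - (∫ r in (s : ℝ)..t, drf k ε β (fun _ => (0 : E N)) x)
        - rsum B (fun _ _ _ => (0 : E N)) x s t n ω) 2 P = 0 := by
      intro n
      rw [h1 n]
      exact eLpNorm_zero
    exact (tendsto_congr h2).mpr tendsto_const_nhds

theorem mulv_norm {N : ℕ} (b : Fin N → Fin N → ℝ) (v : E N) :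
    ‖mulv b v‖ ≤ (∑ i, ∑ j, |b i j|) * ‖v‖ := by
  have h0 : ∀ i, |(mulv b v) i| ≤ (∑ j, |b i j|) * ‖v‖ := by
    intro i
    show |∑ j, b i j * v j| ≤ _
    refine (Finset.abs_sum_le_sum_abs _ _).trans ?_
    rw [Finset.sum_mul]
    refine Finset.sum_le_sum fun j _ => ?_
    rw [abs_mul]
    exact mul_le_mul_of_nonneg_left (PiLp.norm_apply_le v j) (abs_nonneg _)
  have h1 : ‖mulv b v‖ ≤ ∑ i, |(mulv b v) i| := by
    have h2 : 0 ≤ ∑ i, |(mulv b v) i| := Finset.sum_nonneg fun i _ => abs_nonneg _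
    refine abs_le_of_sq_le_sq' ?_ h2 |>.2
    rw [EuclideanSpace.norm_sq_eq, sq (∑ i, |(mulv b v) i|), Finset.sum_mul]
    refine Finset.sum_le_sum fun i hi => ?_
    rw [sq, Real.norm_eq_abs]
    exact mul_le_mul_of_nonneg_left
      (Finset.single_le_sum (f := fun i => |(mulv b v) i|) (fun i _ => abs_nonneg _) hi)
      (abs_nonneg _)
  refine h1.trans ?_
  rw [Finset.sum_mul]
  exact Finset.sum_le_sum fun i _ => h0 i

private theorem XZ_pow {ι : Type} [Fintype ι] (f : ι → ℝ) (hf : ∀ i, 0 ≤ f i) (n : ℕ)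
    (hn : 0 < n) : (∑ i, f i) ^ n ≤ ((Fintype.card ι : ℕ) : ℝ) ^ n * ∑ i, f i ^ n := by
  obtain ⟨m, rfl⟩ : ∃ m, n = m + 1 := ⟨n - 1, by omega⟩
  rcases isEmpty_or_nonempty ι with h | h
  · simp
  · have h1 := pow_sum_div_card_le_sum_pow (s := Finset.univ) (f := f) (fun i _ => hf i) m
    have hc : (1 : ℝ) ≤ (Fintype.card ι : ℕ) := by
      exact_mod_cast Fintype.card_pos
    have hs : 0 ≤ ∑ i, f i ^ (m + 1) := Finset.sum_nonneg fun i _ => pow_nonneg (hf i) _
    rw [Finset.card_univ, div_le_iff₀ (by positivity)] at h1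
    refine h1.trans ?_
    rw [mul_comm]
    refine mul_le_mul_of_nonneg_right ?_ hs
    exact pow_le_pow_right₀ hc (Nat.le_succ m)

theorem mulv_pow (N q : ℕ) : ∃ C : ℝ, 0 ≤ C ∧ ∀ (Ω : Type) [mΩ : MeasurableSpace Ω]
    (P : Measure Ω) (d : ℕ) (ℱ : Filtration ℝ≥0 mΩ) (B : Site d → Fin N → Fin N → ℝ≥0 → Ω → ℝ)
    (H0 : Site d → Ω → E N), Noise P ℱ B H0 → ∀ s t : ℝ≥0, s ≤ t → ∀ (x : Site d)
    (V : Ω → E N) (Z : Ω → ℝ≥0∞), Measurable[ℱ s] V → Measurable[ℱ s] Z →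
      ∫⁻ ω, Z ω * ENNReal.ofReal (‖mulv (fun a b => B x a b t ω - B x a b s ω) (V ω)‖ ^ (2 * q)) ∂P ≤
        ENNReal.ofReal (C * ((t : ℝ) - s) ^ q) *
          ∫⁻ ω, Z ω * ENNReal.ofReal (‖V ω‖ ^ (2 * q)) ∂P := by
  rcases Nat.eq_zero_or_pos q with hq | hq
  · subst hq
    refine ⟨1, zero_le_one, fun Ω mΩ P d ℱ B H0 hN s t hst x V Z hV hZ => ?_⟩
    simp
  obtain ⟨m, hm⟩ : ∃ m : ℝ, m = ∫ y, |y| ^ (2 * q) ∂(gaussianReal 0 1) := ⟨_, rfl⟩
  have hm0 : 0 ≤ m := by
    rw [hm]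
    exact integral_nonneg fun y => by positivity
  have hmi : Integrable (fun y : ℝ => |y| ^ (2 * q)) (gaussianReal 0 1) := by
    have h1 : MemLp (id : ℝ → ℝ) ((2 * q : ℕ) : ℝ≥0∞) (gaussianReal 0 1) := by
      have h2 := memLp_id_gaussianReal (μ := 0) (v := 1) ((2 * q : ℕ) : ℝ≥0)
      exact_mod_cast h2
    exact h1.integrable_norm_pow (by omega)
  refine ⟨((N : ℝ) * N) ^ (2 * q) * (N * N * m), by positivity,
    fun Ω mΩ P d ℱ B H0 hN s t hst x V Z hV hZ => ?_⟩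
  have := hN.prob
  have hH := zero_dyn hN 0 0 0
  have hinc := fun a b => (inc_meas hH s t hst x a b).2
  have hlaw := fun a b => inc_law hH s t hst x a b
  -- moments of one increment
  have hmom : ∀ a b : Fin N, ∫⁻ ω, ENNReal.ofReal (|B x a b t ω - B x a b s ω| ^ (2 * q)) ∂P =
      ENNReal.ofReal (((t : ℝ) - s) ^ q * m) := by
    intro a b
    have hts : (0 : ℝ) ≤ (t : ℝ) - s := sub_nonneg.2 (by exact_mod_cast hst)
    have hg : Measurable (fun y : ℝ => ENNReal.ofReal (|y| ^ (2 * q))) := by fun_prop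
    have e1 : ∫⁻ ω, ENNReal.ofReal (|B x a b t ω - B x a b s ω| ^ (2 * q)) ∂P =
        ∫⁻ y, ENNReal.ofReal (|y| ^ (2 * q)) ∂(gaussianReal 0 (t - s)) := by
      rw [← hlaw a b, lintegral_map hg (hinc a b)]
    have e2 : gaussianReal 0 (t - s) =
        (gaussianReal 0 1).map (fun y => Real.sqrt ((t : ℝ) - s) * y) := by
      rw [gaussianReal_map_const_mul]
      congr 1
      · rw [mul_zero]
      · rw [mul_one]
        ext
        show ((t - s : ℝ≥0) : ℝ) = Real.sqrt ((t : ℝ) - s) ^ 2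
        rw [NNReal.coe_sub hst, Real.sq_sqrt hts]
    rw [e1, e2, lintegral_map hg (by fun_prop)]
    have e3 : ∀ y : ℝ, ENNReal.ofReal (|Real.sqrt ((t : ℝ) - s) * y| ^ (2 * q)) =
        ENNReal.ofReal (((t : ℝ) - s) ^ q) * ENNReal.ofReal (|y| ^ (2 * q)) := by
      intro y
      rw [← ENNReal.ofReal_mul (by positivity), abs_mul, mul_pow,
        abs_of_nonneg (Real.sqrt_nonneg _), pow_mul, Real.sq_sqrt hts]
    simp only [e3]
    rw [lintegral_const_mul _ hg, ENNReal.ofReal_mul (by positivity), hm,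
      ofReal_integral_eq_lintegral_ofReal hmi
        (Filter.Eventually.of_forall fun y => by positivity)]
  -- the pointwise bound
  have hpt : ∀ ω, ENNReal.ofReal
      (‖mulv (fun a b => B x a b t ω - B x a b s ω) (V ω)‖ ^ (2 * q)) ≤
      ENNReal.ofReal (‖V ω‖ ^ (2 * q)) * ENNReal.ofReal (((N : ℝ) * N) ^ (2 * q) *
        ∑ a, ∑ b, |B x a b t ω - B x a b s ω| ^ (2 * q)) := by
    intro ω
    rw [← ENNReal.ofReal_mul (by positivity)]
    refine ENNReal.ofReal_le_ofReal ?_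
    have h1 := mulv_norm (fun a b => B x a b t ω - B x a b s ω) (V ω)
    have h2 := pow_le_pow_left₀ (norm_nonneg _) h1 (2 * q)
    refine h2.trans ?_
    rw [mul_pow, mul_comm]
    refine mul_le_mul_of_nonneg_left ?_ (by positivity)
    have h3 := XZ_pow (fun p : Fin N × Fin N => |B x p.1 p.2 t ω - B x p.1 p.2 s ω|)
      (fun p => abs_nonneg _) (2 * q)
      (by omega)
    rw [Fintype.sum_prod_type, Fintype.sum_prod_type, Fintype.card_prod, Fintype.card_fin] at h3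
    push_cast at h3
    exact h3
  -- the random variables
  have hVm : Measurable V := hV.mono (ℱ.le s) le_rfl
  have hZm : Measurable Z := hZ.mono (ℱ.le s) le_rfl
  have hU : Measurable[ℱ s] (fun ω => Z ω * ENNReal.ofReal (‖V ω‖ ^ (2 * q))) :=
    hZ.mul ((show Measurable (fun v : E N => ENNReal.ofReal (‖v‖ ^ (2 * q))) by fun_prop).comp hV)
  have hφ : Measurable (fun f : Unit × Fin N × Fin N → ℝ =>
      ENNReal.ofReal (((N : ℝ) * N) ^ (2 * q) * ∑ a, ∑ b, |f ((), a, b)| ^ (2 * q))) := by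
    fun_prop
  have hF : Measurable (fun ω => ENNReal.ofReal (((N : ℝ) * N) ^ (2 * q) *
      ∑ a, ∑ b, |B x a b t ω - B x a b s ω| ^ (2 * q))) := by
    have h1 : ∀ a b, Measurable (fun ω => B x a b t ω - B x a b s ω) := hinc
    fun_prop
  have hind : IndepFun (fun ω => Z ω * ENNReal.ofReal (‖V ω‖ ^ (2 * q)))
      (fun ω => ENNReal.ofReal (((N : ℝ) * N) ^ (2 * q) *
        ∑ a, ∑ b, |B x a b t ω - B x a b s ω| ^ (2 * q))) P :=
    (inc_past hH s t hst (fun _ : Unit => x) _ hU).comp measurable_id hφ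
  have hprod := lintegral_mul_eq_lintegral_mul_lintegral_of_indepFun
    (hU.mono (ℱ.le s) le_rfl) hF hind
  have hEF : ∫⁻ ω, ENNReal.ofReal (((N : ℝ) * N) ^ (2 * q) *
      ∑ a, ∑ b, |B x a b t ω - B x a b s ω| ^ (2 * q)) ∂P =
      ENNReal.ofReal (((N : ℝ) * N) ^ (2 * q) * (N * N * m) * ((t : ℝ) - s) ^ q) := by
    have hts : (0 : ℝ) ≤ (t : ℝ) - s := sub_nonneg.2 (by exact_mod_cast hst)
    have e1 : ∀ ω, ENNReal.ofReal (((N : ℝ) * N) ^ (2 * q) *
        ∑ a, ∑ b, |B x a b t ω - B x a b s ω| ^ (2 * q)) =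
        ENNReal.ofReal (((N : ℝ) * N) ^ (2 * q)) *
          ∑ a, ∑ b, ENNReal.ofReal (|B x a b t ω - B x a b s ω| ^ (2 * q)) := by
      intro ω
      rw [ENNReal.ofReal_mul (by positivity), ENNReal.ofReal_sum_of_nonneg
        (fun a _ => Finset.sum_nonneg fun b _ => by positivity)]
      congr 1
      refine Finset.sum_congr rfl fun a _ => ?_
      rw [ENNReal.ofReal_sum_of_nonneg (fun b _ => by positivity)]
    have hmb : ∀ a b, Measurable (fun ω =>
        ENNReal.ofReal (|B x a b t ω - B x a b s ω| ^ (2 * q))) := by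
      intro a b
      have h1 : Measurable (fun ω => B x a b t ω - B x a b s ω) := hinc a b
      fun_prop
    simp only [e1]
    rw [lintegral_const_mul _ (Finset.measurable_sum _ fun a _ =>
        Finset.measurable_sum _ fun b _ => hmb a b),
      lintegral_finsetSum _ fun a _ => Finset.measurable_sum _ fun b _ => hmb a b]
    have e2 : ∀ a : Fin N, ∫⁻ ω, ∑ b, ENNReal.ofReal (|B x a b t ω - B x a b s ω| ^ (2 * q)) ∂P =
        ∑ _b : Fin N, ENNReal.ofReal (((t : ℝ) - s) ^ q * m) := by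
      intro a
      rw [lintegral_finsetSum _ fun b _ => hmb a b]
      exact Finset.sum_congr rfl fun b _ => hmom a b
    simp only [e2, Finset.sum_const, Finset.card_univ, Fintype.card_fin, nsmul_eq_mul]
    have e3 : ∀ n : ℕ, (n : ℝ≥0∞) = ENNReal.ofReal (n : ℝ) := fun n => by
      rw [ENNReal.ofReal_natCast]
    rw [e3 N, ← ENNReal.ofReal_mul (by positivity), ← ENNReal.ofReal_mul (by positivity),
      ← ENNReal.ofReal_mul (by positivity)]
    congr 1
    ring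
  calc ∫⁻ ω, Z ω * ENNReal.ofReal
        (‖mulv (fun a b => B x a b t ω - B x a b s ω) (V ω)‖ ^ (2 * q)) ∂P
      ≤ ∫⁻ ω, (Z ω * ENNReal.ofReal (‖V ω‖ ^ (2 * q))) *
          ENNReal.ofReal (((N : ℝ) * N) ^ (2 * q) *
            ∑ a, ∑ b, |B x a b t ω - B x a b s ω| ^ (2 * q)) ∂P := by
        refine lintegral_mono fun ω => ?_
        show Z ω * _ ≤ Z ω * _ * _
        rw [mul_assoc]
        exact mul_le_mul' le_rfl (hpt ω)
    _ = (∫⁻ ω, Z ω * ENNReal.ofReal (‖V ω‖ ^ (2 * q)) ∂P) *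
          ∫⁻ ω, ENNReal.ofReal (((N : ℝ) * N) ^ (2 * q) *
            ∑ a, ∑ b, |B x a b t ω - B x a b s ω| ^ (2 * q)) ∂P := hprod
    _ = ENNReal.ofReal (((N : ℝ) * N) ^ (2 * q) * (N * N * m) * ((t : ℝ) - s) ^ q) *
          ∫⁻ ω, Z ω * ENNReal.ofReal (‖V ω‖ ^ (2 * q)) ∂P := by
        rw [hEF, mul_comm]
    _ ≤ _ := le_rfl

end DynX
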